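import Pool.Agent.ALT.S1a

/-!
# Project ALT (MP_643ad6_al): Artin's theorem (helper88)

The subring generated by two elements of an alternative ring is associative.
-/

set_option autoImplicit false

namespace ALT

section
variable {A : Type*} [NonUnitalNonAssocRing A] [IsAlt A]

/-- linearised Moufang identity -/
theorem mouf1_lin (x w y z : A) : asc x (w * y) z + asc w (x * y) z =
    asc x y z * w + asc w y z * x := by
  have h := mouf1 (x + w) y z
  have h1 := mouf1 x y z
  have h2 := mouf1 w y z
  rw [add_mul, asc_add_left, asc_add_mid, asc_add_mid, asc_add_left, mul_add, add_mul, add_mul,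
    h1, h2] at h
  linear_combination (norm := abel) h

/-- The right normed word `x_1 (x_2 (... x_n))` of the letters `f b`. -/
def rw2 (f : Bool → A) : List Bool → A
  | [] => 0
  | [b] => f b
  | b :: c :: l => f b * rw2 f (c :: l)

omit [IsAlt A] in
theorem rw2_cons (f : Bool → A) (b : Bool) (l : List Bool) (h : l ≠ []) :
    rw2 f (b :: l) = f b * rw2 f l := by
  cases l with
  | nil => exact absurd rfl h
  | cons c l => rfl

theorem rw2_main (f : Bool → A) (n : ℕ) :
    (∀ u v w : List Bool, u ≠ [] → v ≠ [] → w ≠ [] → u.length + v.length + w.length ≤ n →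
      asc (rw2 f u) (rw2 f v) (rw2 f w) = 0) ∧
    (∀ u v : List Bool, u ≠ [] → v ≠ [] → u.length + v.length ≤ n →
      rw2 f u * rw2 f v = rw2 f (u ++ v)) := by
  induction n with
  | zero =>
    refine ⟨fun u v w hu _ _ h => ?_, fun u v hu _ h => ?_⟩
    · exact absurd (List.length_eq_zero_iff.mp (by omega)) hu
    · exact absurd (List.length_eq_zero_iff.mp (by omega)) hu
  | succ n ih =>
    obtain ⟨ih1, ih2⟩ := ih
    -- two words with the same first letter
    have key : ∀ (b : Bool) (p q r : List Bool), r ≠ [] →
        (p.length + 1) + (q.length + 1) + r.length ≤ n + 1 →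
        asc (rw2 f (b :: p)) (rw2 f (b :: q)) (rw2 f r) = 0 := by
      intro b p q r hr hn
      have hr' : 1 ≤ r.length := List.length_pos_iff.mpr hr
      by_cases hp : p = []
      · subst hp
        by_cases hq : q = []
        · subst hq
          exact asc_self_left _ _
        · have hq' : 1 ≤ q.length := List.length_pos_iff.mpr hq
          rw [rw2_cons f b q hq]
          show asc (f b) (f b * rw2 f q) (rw2 f r) = 0
          have h1 := ih1 [b] q r (List.cons_ne_nil _ _) hq hr (by
            simp only [List.length_cons, List.length_nil] at hn ⊢
            omega)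
          rw [mouf1]
          have h2 : asc (f b) (rw2 f q) (rw2 f r) = 0 := h1
          rw [h2, zero_mul]
      · by_cases hq : q = []
        · subst hq
          have hp' : 1 ≤ p.length := List.length_pos_iff.mpr hp
          rw [rw2_cons f b p hp]
          show asc (f b * rw2 f p) (f b) (rw2 f r) = 0
          have h1 := ih1 [b] p r (List.cons_ne_nil _ _) hp hr (by
            simp only [List.length_cons, List.length_nil] at hn ⊢
            omega)
          rw [asc_swap12, mouf1]
          have h2 : asc (f b) (rw2 f p) (rw2 f r) = 0 := h1
          rw [h2, zero_mul, neg_zero]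
        · have hp' : 1 ≤ p.length := List.length_pos_iff.mpr hp
          have hq' : 1 ≤ q.length := List.length_pos_iff.mpr hq
          have h1 := mouf1_lin (f b) (rw2 f (b :: p)) (rw2 f q) (rw2 f r)
          have h2 : asc (f b) (rw2 f q) (rw2 f r) = 0 :=
            ih1 [b] q r (List.cons_ne_nil _ _) hq hr (by
              simp only [List.length_cons, List.length_nil] at hn ⊢
              omega)
          have h3 : asc (rw2 f (b :: p)) (rw2 f q) (rw2 f r) = 0 :=
            ih1 (b :: p) q r (List.cons_ne_nil _ _) hq hr (by
              simp only [List.length_cons] at hn ⊢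
              omega)
          have h4 : rw2 f (b :: p) * rw2 f q = f b * rw2 f (p ++ q) := by
            have h5 : asc (f b) (rw2 f p) (rw2 f q) = 0 :=
              ih1 [b] p q (List.cons_ne_nil _ _) hp hq (by
                simp only [List.length_cons, List.length_nil] at hn ⊢
                omega)
            rw [rw2_cons f b p hp, ← ih2 p q hp hq (by omega)]
            rw [asc_def, sub_eq_zero] at h5
            exact h5
          have h6 : asc (f b) (f b * rw2 f (p ++ q)) (rw2 f r) = 0 := by
            rw [mouf1]
            have h7 : asc (f b) (rw2 f (p ++ q)) (rw2 f r) = 0 :=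
              ih1 [b] (p ++ q) r (List.cons_ne_nil _ _)
                (fun h => hp (List.append_eq_nil_iff.mp h).1) hr (by
                simp only [List.length_cons, List.length_nil, List.length_append] at hn ⊢
                omega)
            rw [h7, zero_mul]
          rw [h2, h3, h4, h6, ← rw2_cons f b q hq, zero_mul, zero_mul, zero_add, zero_add] at h1
          exact h1
    have h1 : ∀ u v w : List Bool, u ≠ [] → v ≠ [] → w ≠ [] →
        u.length + v.length + w.length ≤ n + 1 →
        asc (rw2 f u) (rw2 f v) (rw2 f w) = 0 := by
      intro u v w hu hv hw hn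
      cases u with
      | nil => exact absurd rfl hu
      | cons a u =>
      cases v with
      | nil => exact absurd rfl hv
      | cons b v =>
      cases w with
      | nil => exact absurd rfl hw
      | cons c w =>
      simp only [List.length_cons] at hn
      by_cases hab : a = b
      · subst hab
        exact key a u v (c :: w) hw (by simp only [List.length_cons]; omega)
      by_cases hbc : b = c
      · subst hbc
        rw [asc_rot]
        exact key b v w (a :: u) hu (by simp only [List.length_cons]; omega)
      have hac : c = a := by
        cases a <;> cases b <;> cases c <;> simp_all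
      subst hac
      rw [asc_rot']
      exact key c w u (b :: v) hv (by simp only [List.length_cons]; omega)
    refine ⟨h1, ?_⟩
    intro u v hu hv hn
    cases u with
    | nil => exact absurd rfl hu
    | cons a u =>
    simp only [List.length_cons] at hn
    have hv' : 1 ≤ v.length := List.length_pos_iff.mpr hv
    by_cases hu' : u = []
    · subst hu'
      rw [List.singleton_append, rw2_cons f a v hv]
      rfl
    · have hul : 1 ≤ u.length := List.length_pos_iff.mpr hu'
      rw [List.cons_append, rw2_cons f a u hu', rw2_cons f a (u ++ v)
        (fun h => hu' (List.append_eq_nil_iff.mp h).1), ← ih2 u v hu' hv (by omega)]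
      have h2 := h1 [a] u v (List.cons_ne_nil _ _) hu' hv (by
        simp only [List.length_cons, List.length_nil]; omega)
      rw [asc_def, sub_eq_zero] at h2
      exact h2

/-- The subgroup spanned by the words in `x`, `y`. -/
def twoGen (x y : A) : AddSubgroup A :=
  AddSubgroup.closure {a | ∃ l : List Bool, l ≠ [] ∧ a = rw2 (fun b => if b then x else y) l}

theorem left_mem_twoGen (x y : A) : x ∈ twoGen x y :=
  AddSubgroup.subset_closure ⟨[true], List.cons_ne_nil _ _, rfl⟩

theorem right_mem_twoGen (x y : A) : y ∈ twoGen x y :=
  AddSubgroup.subset_closure ⟨[false], List.cons_ne_nil _ _, rfl⟩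

theorem mul_mem_twoGen (x y : A) {a b : A} (ha : a ∈ twoGen x y) (hb : b ∈ twoGen x y) :
    a * b ∈ twoGen x y := by
  induction ha using AddSubgroup.closure_induction with
  | mem a ha =>
    obtain ⟨l, hl, rfl⟩ := ha
    induction hb using AddSubgroup.closure_induction with
    | mem b hb =>
      obtain ⟨l', hl', rfl⟩ := hb
      rw [(rw2_main _ (l.length + l'.length)).2 l l' hl hl' le_rfl]
      exact AddSubgroup.subset_closure ⟨l ++ l', fun h => hl (List.append_eq_nil_iff.mp h).1, rfl⟩
    | zero => rw [mul_zero]; exact zero_mem _
    | add a b _ _ ha hb => rw [mul_add]; exact add_mem ha hb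
    | neg a _ ha => rw [mul_neg]; exact neg_mem ha
  | zero => rw [zero_mul]; exact zero_mem _
  | add a b _ _ ha hb => rw [add_mul]; exact add_mem ha hb
  | neg a _ ha => rw [neg_mul]; exact neg_mem ha

/-- **Artin's theorem**: `twoGen x y` is associative. -/
theorem artin (x y : A) {a b c : A} (ha : a ∈ twoGen x y) (hb : b ∈ twoGen x y)
    (hc : c ∈ twoGen x y) : asc a b c = 0 := by
  induction ha using AddSubgroup.closure_induction with
  | mem a ha =>
    obtain ⟨l, hl, rfl⟩ := ha
    induction hb using AddSubgroup.closure_induction with
    | mem b hb =>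
      obtain ⟨l', hl', rfl⟩ := hb
      induction hc using AddSubgroup.closure_induction with
      | mem c hc =>
        obtain ⟨l'', hl'', rfl⟩ := hc
        exact (rw2_main _ (l.length + l'.length + l''.length)).1 l l' l'' hl hl' hl'' le_rfl
      | zero => exact asc_zero_right _ _
      | add a b _ _ ha hb => rw [asc_add_right, ha, hb, add_zero]
      | neg a _ ha => rw [asc_neg_right, ha, neg_zero]
    | zero => exact asc_zero_mid _ _
    | add a b _ _ ha hb => rw [asc_add_mid, ha, hb, add_zero]
    | neg a _ ha => rw [asc_neg_mid, ha, neg_zero]
  | zero => exact asc_zero_left _ _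
  | add a b _ _ ha hb => rw [asc_add_left, ha, hb, add_zero]
  | neg a _ ha => rw [asc_neg_left, ha, neg_zero]

/-- `twoGen x y` as a subring. -/
def twoRing (x y : A) : NonUnitalSubring A where
  carrier := twoGen x y
  add_mem' := fun ha hb => add_mem ha hb
  zero_mem' := zero_mem _
  mul_mem' := fun ha hb => mul_mem_twoGen x y ha hb
  neg_mem' := fun ha => neg_mem ha

/-- `twoGen x y` is an associative ring. -/
instance twoRingRing (x y : A) : NonUnitalRing (twoRing x y) :=
  { (inferInstance : NonUnitalNonAssocRing (twoRing x y)) with
    mul_assoc := fun a b c => Subtype.ext (by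
      have h := artin x y a.2 b.2 c.2
      rw [asc_def, sub_eq_zero] at h
      exact h) }

theorem mem_twoRing {x y a : A} : a ∈ twoRing x y ↔ a ∈ twoGen x y := Iff.rfl

/-- Every subring (additive subgroup closed under products) containing `x`, `y` contains
`twoGen x y`. -/
theorem twoGen_le (x y : A) (S : AddSubgroup A) (hx : x ∈ S) (hy : y ∈ S)
    (hmul : ∀ a ∈ S, ∀ b ∈ S, a * b ∈ S) : twoGen x y ≤ S := by
  unfold twoGen
  rw [AddSubgroup.closure_le]
  rintro a ⟨l, hl, rfl⟩
  have hb : ∀ b : Bool, (if b then x else y) ∈ S := by
    intro b
    cases b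
    · exact hy
    · exact hx
  induction l with
  | nil => exact absurd rfl hl
  | cons b l ih =>
    by_cases h : l = []
    · subst h
      exact hb b
    · rw [rw2_cons _ b l h]
      exact hmul _ (hb b) _ (ih h)

end

end ALT
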