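import Pool.Agent.ALT.Basic

/-!
From left-nested products to arbitrary bracketings: if all left-nested products
`j₁ (j₂ (... (j_M x)))` of elements of an ideal `J` of an alternative ring vanish, then all
products of `3^M` elements of `J`, in every bracketing, vanish.
(helper26, project ALT, MP_643ad6_al)
-/

set_option linter.unusedSectionVars false

namespace ALT

section isprod

variable {A : Type*} [NonUnitalNonAssocRing A]

/-- `IsProd J n x`: `x` is a product of `n` elements of the set `J`, in some bracketing. -/
inductive IsProd (J : Set A) : ℕ → A → Prop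
  | one {x : A} : x ∈ J → IsProd J 1 x
  | mul {m n : ℕ} {x y : A} : IsProd J m x → IsProd J n y → IsProd J (m + n) (x * y)

theorem IsProd.pos {J : Set A} {n : ℕ} {x : A} (h : IsProd J n x) : 1 ≤ n := by
  induction h with
  | one _ => exact le_rfl
  | mul _ _ h1 h2 => omega

theorem IsProd.mem {J : Set A} (hJ : ∀ a, ∀ x ∈ J, x * a ∈ J) {n : ℕ} {x : A}
    (h : IsProd J n x) : x ∈ J := by
  induction h with
  | one h => exact h
  | mul _ _ h1 h2 => exact hJ _ _ h1

/-- A product of `m` elements is a product of `n ≤ m` elements. -/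
theorem IsProd.weaken {J : Set A} (hJ : ∀ a, ∀ x ∈ J, x * a ∈ J) {m : ℕ} {x : A}
    (h : IsProd J m x) : ∀ n, 1 ≤ n → n ≤ m → IsProd J n x := by
  induction h with
  | one h =>
    intro n h1 h2
    obtain rfl : n = 1 := by omega
    exact IsProd.one h
  | @mul p q x y hx hy ihx ihy =>
    intro n h1 h2
    rcases Nat.eq_or_lt_of_le h1 with h | h
    · rw [← h]
      exact IsProd.one (hJ _ _ (hx.mem hJ))
    · have hp := hx.pos
      have hq := hy.pos
      obtain ⟨p', q', e, hp1, hp2, hq1, hq2⟩ : ∃ p' q', n = p' + q' ∧ 1 ≤ p' ∧ p' ≤ p ∧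
          1 ≤ q' ∧ q' ≤ q := by
        refine ⟨min p (n - 1), n - min p (n - 1), ?_, ?_, ?_, ?_, ?_⟩ <;> omega
      rw [e]
      exact IsProd.mul (ihx p' hp1 hp2) (ihy q' hq1 hq2)

/-- additive span of the left-nested products of `k + 1` elements of `J` -/
def LN (J : AddSubgroup A) : ℕ → AddSubgroup A
  | 0 => J
  | k + 1 => AddSubgroup.closure {d | ∃ a ∈ J, ∃ b ∈ LN J k, d = a * b}

theorem mul_mem_LN {J : AddSubgroup A} {k : ℕ} {a b : A} (ha : a ∈ J) (hb : b ∈ LN J k) :
    a * b ∈ LN J (k + 1) :=
  AddSubgroup.subset_closure ⟨a, ha, b, hb, rfl⟩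

/-- The span vanishes if all left-nested products vanish. -/
theorem LN_eq_bot {J : AddSubgroup A} {M : ℕ} (h : ∀ (js : List A) (x : A), (∀ j ∈ js, j ∈ J) →
    x ∈ J → js.length = M → js.foldr (fun j y => j * y) x = 0) : LN J M = ⊥ := by
  -- general statement: elements of `LN J k`, multiplied by a left nested word
  have key : ∀ k, ∀ y ∈ LN J k, ∀ js : List A, (∀ j ∈ js, j ∈ J) → js.length + k = M →
      js.foldr (fun j y => j * y) y = 0 := by
    intro k
    induction k with
    | zero => intro y hy js hjs hlen; exact h js y hjs hy hlen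
    | succ k ih =>
      intro y hy
      -- additivity
      have hadd : ∀ (js : List A) (u v : A), js.foldr (fun j y => j * y) (u + v) =
          js.foldr (fun j y => j * y) u + js.foldr (fun j y => j * y) v := by
        intro js u v
        induction js with
        | nil => rfl
        | cons j js ih => rw [List.foldr_cons, ih, mul_add]; rfl
      have hneg : ∀ (js : List A) (u : A), js.foldr (fun j y => j * y) (-u) =
          -js.foldr (fun j y => j * y) u := by
        intro js u
        induction js with
        | nil => rfl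
        | cons j js ih => rw [List.foldr_cons, ih, mul_neg]; rfl
      have hzero : ∀ (js : List A), js.foldr (fun j y => j * y) (0 : A) = 0 := by
        intro js
        induction js with
        | nil => rfl
        | cons j js ih => rw [List.foldr_cons, ih, mul_zero]
      unfold LN at hy
      induction hy using AddSubgroup.closure_induction with
      | mem y hy =>
        obtain ⟨a, ha, b, hb, rfl⟩ := hy
        intro js hjs hlen
        have h1 := ih b hb (js ++ [a]) (by
          intro j hj
          rcases List.mem_append.mp hj with h | h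
          · exact hjs j h
          · rw [List.mem_singleton] at h; rw [h]; exact ha) (by simp; omega)
        rwa [List.foldr_append] at h1
      | zero => intro js _ _; exact hzero js
      | add u v _ _ hu hv =>
        intro js hjs hlen
        rw [hadd, hu js hjs hlen, hv js hjs hlen, add_zero]
      | neg u _ hu =>
        intro js hjs hlen
        rw [hneg, hu js hjs hlen, neg_zero]
  rw [eq_bot_iff]
  intro y hy
  exact key M y hy [] (by simp) (by simp)

end isprod

section rn

variable {A : Type*} [NonUnitalNonAssocRing A] [IsAlt A]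

/-- `(c d) b = c (d b) + (b c) d - b (c d)` -/
theorem rn_id1 (b c d : A) : (c * d) * b = c * (d * b) + (b * c) * d - b * (c * d) := by
  have h : asc c d b = asc b c d := asc_rot' c d b
  rw [asc_def, asc_def] at h
  linear_combination (norm := abel) h

/-- `(d c) a = d (c a) + c (d a) - (c d) a` -/
theorem rn_id2 (a c d : A) : (d * c) * a = d * (c * a) + c * (d * a) - (c * d) * a := by
  have h := left_alt' d c a
  rw [add_mul] at h
  linear_combination (norm := abel) h

theorem rn_step {J : AddSubgroup A} (hJ : IsIdeal J) {N k : ℕ} (hN : 1 ≤ N)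
    (h : ∀ x, IsProd (J : Set A) N x → x ∈ LN J k) :
    ∀ p : ℕ, ∀ a, IsProd (J : Set A) p a → ∀ q b, IsProd (J : Set A) q b → 3 * N ≤ p + q →
      a * b ∈ LN J (k + 1) := by
  have hR : ∀ a : A, ∀ x ∈ (J : Set A), x * a ∈ (J : Set A) := hJ.right
  have big : ∀ m x, IsProd (J : Set A) m x → N ≤ m → x ∈ LN J k :=
    fun m x hx hm => h x (hx.weaken hR N hN hm)
  have inJ : ∀ m x, IsProd (J : Set A) m x → x ∈ J := fun m x hx => hx.mem hR
  -- the easy case: second factor of the left factor is big
  have case2 : ∀ (p₁ p₂ q : ℕ) (c d b : A), IsProd (J : Set A) p₁ c → IsProd (J : Set A) p₂ d →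
      IsProd (J : Set A) q b → N ≤ p₂ → (c * d) * b ∈ LN J (k + 1) := by
    intro p₁ p₂ q c d b hc hd hb hp
    rw [rn_id1]
    refine sub_mem (add_mem ?_ ?_) ?_
    · exact mul_mem_LN (inJ _ _ hc) (big _ _ (hd.mul hb) (by omega))
    · exact mul_mem_LN (hJ.left _ _ (inJ _ _ hc)) (big _ _ hd hp)
    · exact mul_mem_LN (inJ _ _ hb) (big _ _ (hc.mul hd) (by omega))
  intro p
  induction p using Nat.strong_induction_on with
  | _ p ih =>
    intro a ha q b hb hpq
    rcases le_or_gt N q with hq | hq
    · exact mul_mem_LN (inJ _ _ ha) (big _ _ hb hq)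
    · -- `p > 2 N`
      cases ha with
      | one h1 => omega
      | @mul p₁ p₂ c d hc hd =>
        rcases le_or_gt N p₂ with h2 | h2
        · exact case2 p₁ p₂ q c d b hc hd hb h2
        · -- `p₁ ≥ N`: `(c d) b = c (d b) + d (c b) - (d c) b`
          have hp1 : N ≤ p₁ := by omega
          rw [rn_id2]
          refine sub_mem (add_mem ?_ ?_) ?_
          · exact ih p₁ (by have := hd.pos; omega) c hc (p₂ + q) (d * b) (hd.mul hb) (by omega)
          · exact mul_mem_LN (inJ _ _ hd) (big _ _ (hc.mul hb) (by omega))
          · exact case2 p₂ p₁ q d c b hd hc hb hp1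

theorem rn_pow {J : AddSubgroup A} (hJ : IsIdeal J) (k : ℕ) :
    ∀ x, IsProd (J : Set A) (3 ^ k) x → x ∈ LN J k := by
  induction k with
  | zero =>
    intro x hx
    exact hx.mem (fun a x hx => hJ.right a x hx)
  | succ k ih =>
    intro x hx
    have h1 : 1 ≤ 3 ^ k := Nat.one_le_pow _ _ (by norm_num)
    have key := rn_step hJ h1 ih
    have e : 3 ^ (k + 1) = 3 * 3 ^ k := by rw [pow_succ]; ring
    rw [e] at hx
    generalize hm : 3 * 3 ^ k = m at hx
    cases hx with
    | one h => omega
    | @mul p q a b ha hb =>
      exact key p a ha q b hb (by omega)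

/-- **RN.** If all left-nested products of `M + 1` elements of the ideal `J` vanish, then all
products of `3 ^ M` elements, in every bracketing, vanish. -/
theorem isProd_eq_zero {J : AddSubgroup A} (hJ : IsIdeal J) {M : ℕ}
    (h : ∀ (js : List A) (x : A), (∀ j ∈ js, j ∈ J) → x ∈ J → js.length = M →
      js.foldr (fun j y => j * y) x = 0) {x : A} (hx : IsProd (J : Set A) (3 ^ M) x) : x = 0 := by
  have h1 := rn_pow hJ M x hx
  rw [LN_eq_bot h] at h1
  exact h1

end rn

end ALT
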