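import Pool.Agent.ALT.S5
import Pool.Agent.ALT.RN

/-!
Final assembly: combination of the structure of the quotient modulo the bad identities, of Level 1
and of the nilpotent action of the commutators of the nucleus.
(helper26, project ALT, MP_643ad6_al)
-/

set_option linter.unusedSectionVars false

namespace ALT

section asm

variable {A : Type*} [NonUnitalNonAssocRing A]

/-- left nested product `j₁ (j₂ (... (j_k x)))` -/
def lnp (js : List A) (x : A) : A := js.foldr (fun j y => j * y) x

@[simp] theorem lnp_nil (x : A) : lnp [] x = x := rfl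
@[simp] theorem lnp_cons (j : A) (js : List A) (x : A) : lnp (j :: js) x = j * lnp js x := rfl
theorem lnp_append (js js' : List A) (x : A) : lnp (js ++ js') x = lnp js (lnp js' x) := by
  unfold lnp; rw [List.foldr_append]
theorem lnp_zero (js : List A) : lnp js (0 : A) = 0 := by
  induction js with
  | nil => rfl
  | cons j js ih => rw [lnp_cons, ih, mul_zero]
theorem lnp_add (js : List A) (x y : A) : lnp js (x + y) = lnp js x + lnp js y := by
  induction js with
  | nil => rfl
  | cons j js ih => rw [lnp_cons, ih, mul_add]; rfl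
theorem lnp_neg (js : List A) (x : A) : lnp js (-x) = -lnp js x := by
  induction js with
  | nil => rfl
  | cons j js ih => rw [lnp_cons, ih, mul_neg]; rfl
theorem lnp_sub (js : List A) (x y : A) : lnp js (x - y) = lnp js x - lnp js y := by
  rw [sub_eq_add_neg, lnp_add, lnp_neg, ← sub_eq_add_neg]

theorem lnp_mem {I : AddSubgroup A} (hI : IsIdeal I) (js : List A) {x : A} (hx : x ∈ I) :
    lnp js x ∈ I := by
  induction js with
  | nil => exact hx
  | cons j js ih => exact hI.left j _ ih

/-- The ideal generated by the values `[p,q]^(4k) u` and the ideal `comNucIdeal`. -/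
def CC (A : Type*) [NonUnitalNonAssocRing A] (k : ℕ) : AddSubgroup A :=
  AddSubgroup.closure ({d | ∃ p q u : A, d = cp (v4 p q) k u} ∪ {d | d ∈ comNucIdeal A})

variable [IsAlt A]

theorem nuc_v4 (p q : A) : v4 p q ∈ nucleus A := kleinfeld_nucleus p q

/-- pulling a nuclear factor to the left modulo `comNucIdeal` -/
theorem mul_cp_sub {c : A} (hc : c ∈ nucleus A) (a u : A) (k : ℕ) :
    a * cp c k u - cp c k (a * u) ∈ comNucIdeal A := by
  have hM := isIdeal_comNucIdeal (A := A)
  have hn : IsNuc c := isNuc_iff.mp hc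
  induction k with
  | zero => rw [cp_zero, cp_zero, sub_self]; exact zero_mem _
  | succ k ih =>
    rw [cp_succ, cp_succ]
    have e : a * (c * cp c k u) - c * cp c k (a * u) =
        c * (a * cp c k u - cp c k (a * u)) - com c a * cp c k u := by
      have e1 := hn.mul₂ a (cp c k u)
      have e2 := hn.mul₁ a (cp c k u)
      rw [mul_sub, com_def, sub_mul, e1, e2]
      abel
    rw [e]
    exact sub_mem (hM.left _ _ ih)
      (hM.right _ _ (AddSubgroup.subset_closure ⟨c, hc, a, Or.inl rfl⟩))

theorem lnp_cp_sub {c : A} (hc : c ∈ nucleus A) (js : List A) (u : A) (k : ℕ) :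
    lnp js (cp c k u) - cp c k (lnp js u) ∈ comNucIdeal A := by
  have hM := isIdeal_comNucIdeal (A := A)
  induction js with
  | nil => rw [lnp_nil, lnp_nil, sub_self]; exact zero_mem _
  | cons j js ih =>
    rw [lnp_cons, lnp_cons]
    have e : j * lnp js (cp c k u) - cp c k (j * lnp js u) =
        j * (lnp js (cp c k u) - cp c k (lnp js u)) +
          (j * cp c k (lnp js u) - cp c k (j * lnp js u)) := by
      rw [mul_sub]; abel
    rw [e]
    exact add_mem (hM.left _ _ ih) (mul_cp_sub hc _ _ _)

theorem isIdeal_CC (k : ℕ) : IsIdeal (CC A k) := by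
  have hM := isIdeal_comNucIdeal (A := A)
  have hle : ∀ d ∈ comNucIdeal A, d ∈ CC A k := fun d hd =>
    AddSubgroup.subset_closure (Or.inr hd)
  refine ⟨?_, ?_⟩
  · intro a d hd
    induction hd using AddSubgroup.closure_induction with
    | mem d hd =>
      rcases hd with ⟨p, q, u, rfl⟩ | hd
      · have h := hle _ (mul_cp_sub (nuc_v4 p q) a u k)
        have h2 : cp (v4 p q) k (a * u) ∈ CC A k :=
          AddSubgroup.subset_closure (Or.inl ⟨p, q, _, rfl⟩)
        have := add_mem h h2
        rwa [sub_add_cancel] at this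
      · exact hle _ (hM.left a d hd)
    | zero => rw [mul_zero]; exact zero_mem _
    | add x y _ _ hx hy => rw [mul_add]; exact add_mem hx hy
    | neg x _ hx => rw [mul_neg]; exact neg_mem hx
  · intro a d hd
    induction hd using AddSubgroup.closure_induction with
    | mem d hd =>
      rcases hd with ⟨p, q, u, rfl⟩ | hd
      · rw [cp_mul_mem (c := v4 p q) (fun x y => (nuc_v4 p q x y).1)]
        exact AddSubgroup.subset_closure (Or.inl ⟨p, q, _, rfl⟩)
      · exact hle _ (hM.right a d hd)
    | zero => rw [zero_mul]; exact zero_mem _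
    | add x y _ _ hx hy => rw [add_mul]; exact add_mem hx hy
    | neg x _ hx => rw [neg_mul]; exact neg_mem hx

/-- Step A: long left-nested products of elements of `J` are in `comNucIdeal`. -/
theorem asm_stepA {J : AddSubgroup A} (hJ : IsIdeal J) {k N₁ l : ℕ}
    (h1 : ∀ (js : List A) (x : A), (∀ j ∈ js, j ∈ J) → x ∈ J → js.length = N₁ →
      ∀ (p q y : A), y ∈ J → y * cp (v4 p q) k (lnp js x) ∈ comNucIdeal A)
    (h2 : ∀ (js : List A) (x : A), (∀ j ∈ js, j ∈ J) → x ∈ J → js.length = l →
      lnp js x ∈ CC A k) :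
    ∀ (js : List A) (x : A), (∀ j ∈ js, j ∈ J) → x ∈ J → js.length = N₁ + l + 2 →
      lnp js x ∈ comNucIdeal A := by
  have hM := isIdeal_comNucIdeal (A := A)
  intro js x hjs hx hlen
  rcases js with _ | ⟨y, js⟩
  · simp at hlen
  have hy : y ∈ J := hjs y List.mem_cons_self
  have hjs' : ∀ j ∈ js, j ∈ J := fun j hj => hjs j (List.mem_cons_of_mem _ hj)
  have hlen' : js.length = N₁ + (l + 1) := by
    rw [List.length_cons] at hlen; omega
  -- split
  obtain ⟨js1, js2, rfl, hl1, hl2⟩ : ∃ js1 js2, js = js1 ++ js2 ∧ js1.length = N₁ ∧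
      js2.length = l + 1 :=
    ⟨js.take N₁, js.drop N₁, (List.take_append_drop _ _).symm,
      by rw [List.length_take, hlen']; omega, by rw [List.length_drop, hlen']; omega⟩
  rcases js2 with _ | ⟨j, js2⟩
  · simp at hl2
  have hl2' : js2.length = l := by rw [List.length_cons] at hl2; omega
  have hj1 : ∀ i ∈ js1, i ∈ J := fun i hi => hjs' i (List.mem_append_left _ hi)
  have hj : j ∈ J := hjs' j (List.mem_append_right _ List.mem_cons_self)
  have hj2 : ∀ i ∈ js2, i ∈ J := fun i hi =>
    hjs' i (List.mem_append_right _ (List.mem_cons_of_mem _ hi))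
  have he := h2 js2 x hj2 hx hl2'
  rw [lnp_cons, lnp_append, lnp_cons]
  generalize lnp js2 x = e at he
  induction he using AddSubgroup.closure_induction with
  | mem e he =>
    rcases he with ⟨p, q, u, rfl⟩ | he
    · have hn := nuc_v4 p q
      have e1 : lnp js1 (j * cp (v4 p q) k u) = lnp (js1 ++ [j]) (cp (v4 p q) k u) := by
        rw [lnp_append]; rfl
      have e2 := lnp_cp_sub hn (js1 ++ [j]) u k
      rw [← e1, lnp_append] at e2
      have e3 := h1 js1 (j * u) hj1 (hJ.right u j hj) hl1 p q y hy
      have e4 := add_mem (hM.left y _ e2) e3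
      rw [mul_sub] at e4
      have e5 : lnp [j] u = j * u := rfl
      rw [e5, sub_add_cancel] at e4
      exact e4
    · exact hM.left _ _ (lnp_mem hM js1 (hM.left _ _ he))
  | zero => rw [mul_zero, lnp_zero, mul_zero]; exact zero_mem _
  | add x y _ _ hx hy => rw [mul_add, lnp_add, mul_add]; exact add_mem hx hy
  | neg x _ hx => rw [mul_neg, lnp_neg, mul_neg]; exact neg_mem hx

/-- multiplication by a nuclear element on the right -/
theorem lnp_mul_nuc {m : A} (hm : IsNuc m) (js : List A) (x : A) :
    lnp js (x * m) = lnp js x * m := by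
  induction js with
  | nil => rfl
  | cons j js ih => rw [lnp_cons, ih, lnp_cons, hm.mul₃]

/-- Step B: longer ones are in `nucV A s`. -/
theorem asm_stepB {J : AddSubgroup A} (hJ : IsIdeal J) (hD : J ≤ assocIdeal A) {M : ℕ}
    (h : ∀ (js : List A) (x : A), (∀ j ∈ js, j ∈ J) → x ∈ J → js.length = M →
      lnp js x ∈ comNucIdeal A) (s : ℕ) :
    ∃ N : ℕ, ∀ (js : List A) (x : A), (∀ j ∈ js, j ∈ J) → x ∈ J → js.length = N →
      lnp js x ∈ nucV A s := by
  induction s with
  | zero =>
    refine ⟨0, fun js x _ hx hlen => ?_⟩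
    rw [List.length_eq_zero_iff] at hlen
    subst hlen
    rw [nucV_zero]
    exact hD hx
  | succ s ih =>
    obtain ⟨N, hN⟩ := ih
    refine ⟨N + (M + 1), fun js x hjs hx hlen => ?_⟩
    obtain ⟨js1, js2, rfl, hl1, hl2⟩ : ∃ js1 js2, js = js1 ++ js2 ∧ js1.length = N ∧
        js2.length = M + 1 :=
      ⟨js.take N, js.drop N, (List.take_append_drop _ _).symm,
        by rw [List.length_take, hlen]; omega, by rw [List.length_drop, hlen]; omega⟩
    rcases js2 with _ | ⟨j, js2⟩
    · simp at hl2
    have hl2' : js2.length = M := by rw [List.length_cons] at hl2; omega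
    have hj1 : ∀ i ∈ js1, i ∈ J := fun i hi => hjs i (List.mem_append_left _ hi)
    have hj : j ∈ J := hjs j (List.mem_append_right _ List.mem_cons_self)
    have hj2 : ∀ i ∈ js2, i ∈ J := fun i hi =>
      hjs i (List.mem_append_right _ (List.mem_cons_of_mem _ hi))
    have he := h js2 x hj2 hx hl2'
    rw [lnp_append, lnp_cons]
    generalize lnp js2 x = e at he
    induction he using AddSubgroup.closure_induction with
    | mem e he =>
      obtain ⟨m, hm, z, he⟩ := he
      have hmn : IsNuc m := isNuc_iff.mp hm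
      rcases he with rfl | ⟨t, rfl⟩
      · have e0 : com m z = m * z - z * m := rfl
        rw [e0, lnp_mul_nuc (hmn.ad z)]
        exact mul_com_nucV s hmn z _ (hN js1 j hj1 hj hl1)
      · have e1 : j * (t * com m z) = (j * t) * (m * z - z * m) := ((hmn.ad z).mul₃ j t).symm
        rw [e1, lnp_mul_nuc (hmn.ad z)]
        exact mul_com_nucV s hmn z _ (hN js1 (j * t) hj1 (hJ.right t j hj) hl1)
    | zero => rw [mul_zero, lnp_zero]; exact zero_mem _
    | add x y _ _ hx hy => rw [mul_add, lnp_add]; exact add_mem hx hy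
    | neg x _ hx => rw [mul_neg, lnp_neg]; exact neg_mem hx

end asm

/-- **Assembly.** -/
theorem asm_main {R A : Type*} [CommRing R] [NonUnitalNonAssocRing A] [Module R A]
    [IsScalarTower R A A] [SMulCommClass R A A] [IsAlt A] {n : ℕ} {X : Fin n → A}
    (hX : Gens R X) {J : AddSubgroup A} (hJ : IsIdeal J) (hD : J ≤ assocIdeal A) {k N₁ l : ℕ}
    (h1 : ∀ (js : List A) (x : A), (∀ j ∈ js, j ∈ J) → x ∈ J → js.length = N₁ →
      ∀ (p q y : A), y ∈ J → y * cp (v4 p q) k (lnp js x) ∈ comNucIdeal A)
    (h2 : ∀ (js : List A) (x : A), (∀ j ∈ js, j ∈ J) → x ∈ J → js.length = l →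
      lnp js x ∈ CC A k) :
    ∃ N : ℕ, 0 < N ∧ ∀ x, IsProd (J : Set A) N x → x = 0 := by
  obtain ⟨N, hN⟩ := asm_stepB hJ hD (asm_stepA hJ h1 h2) (n + 1)
  refine ⟨3 ^ N, Nat.pos_of_ne_zero (pow_ne_zero N three_ne_zero), fun x hx => isProd_eq_zero hJ (M := N) ?_ hx⟩
  intro js x hjs hx hlen
  have h := hN js x hjs hx hlen
  rw [nucV_eq_bot hX (n + 1) (by omega) (by omega)] at h
  exact h

end ALT
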