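import Mathlib

/-!
Alternative rings: skew-symmetry of the associator, Kleinfeld's function, Moufang identities.
All statements hold in every characteristic.  (helper10, project ALT, MP_643ad6_al)
-/

set_option linter.unusedSimpArgs false

namespace ALT

/-- Alternative laws for a (possibly non unital) nonassociative ring. -/
class IsAlt (A : Type*) [NonUnitalNonAssocRing A] : Prop where
  left : ∀ x y : A, (x * x) * y = x * (x * y)
  right : ∀ x y : A, (y * x) * x = y * (x * x)

variable {A : Type*} [NonUnitalNonAssocRing A]

/-- The associator, `(x y) z - x (y z)`. -/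
abbrev asc (x y z : A) : A := associator x y z

/-- The commutator (no Lie structure, the ring is not associative). -/
def com (x y : A) : A := x * y - y * x

/-- Kleinfeld's function `f(w,x,y,z) = (wx,y,z) - x (w,y,z) - (x,y,z) w`. -/
def kf (w x y z : A) : A := asc (w * x) y z - x * asc w y z - asc x y z * w

theorem asc_def (x y z : A) : asc x y z = x * y * z - x * (y * z) := rfl
theorem com_def (x y : A) : com x y = x * y - y * x := rfl
theorem kf_def (w x y z : A) :
    kf w x y z = asc (w * x) y z - x * asc w y z - asc x y z * w := rfl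

/-! ### additivity -/

section additive
variable (w w' x x' y y' z z' : A)

theorem asc_add_left : asc (x + x') y z = asc x y z + asc x' y z := by
  simp only [asc_def, add_mul, mul_add]; abel
theorem asc_add_mid : asc x (y + y') z = asc x y z + asc x y' z := by
  simp only [asc_def, add_mul, mul_add]; abel
theorem asc_add_right : asc x y (z + z') = asc x y z + asc x y z' := by
  simp only [asc_def, add_mul, mul_add]; abel
theorem asc_sub_left : asc (x - x') y z = asc x y z - asc x' y z := by
  simp only [asc_def, sub_mul, mul_sub]; abel
theorem asc_sub_mid : asc x (y - y') z = asc x y z - asc x y' z := by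
  simp only [asc_def, sub_mul, mul_sub]; abel
theorem asc_sub_right : asc x y (z - z') = asc x y z - asc x y z' := by
  simp only [asc_def, sub_mul, mul_sub]; abel
theorem asc_neg_left : asc (-x) y z = -asc x y z := by
  simp only [asc_def, neg_mul, mul_neg]; abel
theorem asc_neg_mid : asc x (-y) z = -asc x y z := by
  simp only [asc_def, neg_mul, mul_neg]; abel
theorem asc_neg_right : asc x y (-z) = -asc x y z := by
  simp only [asc_def, mul_neg]; abel
theorem asc_zero_left : asc (0 : A) y z = 0 := by simp [asc_def]
theorem asc_zero_mid : asc x (0 : A) z = 0 := by simp [asc_def]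
theorem asc_zero_right : asc x y (0 : A) = 0 := by simp [asc_def]

theorem com_add_left : com (x + x') y = com x y + com x' y := by
  simp only [com_def, add_mul, mul_add]; abel
theorem com_add_right : com x (y + y') = com x y + com x y' := by
  simp only [com_def, add_mul, mul_add]; abel
theorem com_sub_left : com (x - x') y = com x y - com x' y := by
  simp only [com_def, sub_mul, mul_sub]; abel
theorem com_sub_right : com x (y - y') = com x y - com x y' := by
  simp only [com_def, sub_mul, mul_sub]; abel
theorem com_neg_left : com (-x) y = -com x y := by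
  simp only [com_def, neg_mul, mul_neg]; abel
theorem com_neg_right : com x (-y) = -com x y := by
  simp only [com_def, neg_mul, mul_neg]; abel
theorem com_self : com x x = 0 := by simp [com_def]
theorem com_swap : com x y = -com y x := by simp only [com_def]; abel
theorem com_zero_left : com (0 : A) y = 0 := by simp [com_def]
theorem com_zero_right : com x (0 : A) = 0 := by simp [com_def]

/-- Teichmueller identity (valid in every nonassociative ring). -/
theorem teich : asc (w * x) y z - asc w (x * y) z + asc w x (y * z)
    = w * asc x y z + asc w x y * z := by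
  simp only [asc_def, mul_sub, sub_mul]; abel

theorem kf_add₁ : kf (w + w') x y z = kf w x y z + kf w' x y z := by
  simp only [kf_def, asc_def, add_mul, mul_add, sub_mul, mul_sub]; abel
theorem kf_add₂ : kf w (x + x') y z = kf w x y z + kf w x' y z := by
  simp only [kf_def, asc_def, add_mul, mul_add, sub_mul, mul_sub]; abel
theorem kf_add₃ : kf w x (y + y') z = kf w x y z + kf w x y' z := by
  simp only [kf_def, asc_def, add_mul, mul_add, sub_mul, mul_sub]; abel
theorem kf_add₄ : kf w x y (z + z') = kf w x y z + kf w x y z' := by
  simp only [kf_def, asc_def, add_mul, mul_add, sub_mul, mul_sub]; abel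

end additive

/-! ### alternative laws -/

section alt
variable [IsAlt A] (w x y z t : A)

@[simp] theorem asc_self_left : asc x x y = 0 := by
  rw [asc_def, IsAlt.left, sub_self]
@[simp] theorem asc_self_right : asc y x x = 0 := by
  rw [asc_def, IsAlt.right, sub_self]

theorem asc_swap12 : asc x y z = -asc y x z := by
  have h := asc_self_left (x + y) z
  rw [asc_add_left, asc_add_mid, asc_add_mid, asc_self_left, asc_self_left, zero_add,
    add_zero] at h
  exact eq_neg_of_add_eq_zero_left h
theorem asc_swap23 : asc x y z = -asc x z y := by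
  have h := asc_self_right (y + z) x
  rw [asc_add_mid, asc_add_right, asc_add_right, asc_self_right, asc_self_right, zero_add,
    add_zero] at h
  exact eq_neg_of_add_eq_zero_left h
/-- cyclic symmetry -/
theorem asc_rot : asc x y z = asc y z x := by
  rw [asc_swap12, asc_swap23, neg_neg]
theorem asc_rot' : asc x y z = asc z x y := by
  rw [asc_rot, asc_rot]
theorem asc_swap13 : asc x y z = -asc z y x := by
  rw [asc_rot, asc_swap12]
@[simp] theorem asc_flex : asc x y x = 0 := by
  rw [asc_swap12, asc_self_right, neg_zero]

/-- flexible law -/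
theorem flex : (x * y) * x = x * (y * x) := by
  have h := asc_flex x y
  rwa [asc_def, sub_eq_zero] at h

theorem kf_swap34 : kf w x y z = -kf w x z y := by
  simp only [kf_def]
  rw [asc_swap23 (w * x) y z, asc_swap23 w y z, asc_swap23 x y z]
  simp only [mul_neg, neg_mul]; abel

/-- auxiliary alternating sum -/
theorem kf_cyc : kf w x y z - kf x y z w + kf y z w x =
    com w (asc x y z) - com x (asc y z w) + com y (asc z w x) - com z (asc w x y) := by
  have h := teich w x y z
  rw [asc_rot w (x * y) z, asc_rot' w x (y * z)] at h
  simp only [kf_def, com_def]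
  have e1 : asc w y z = asc y z w := asc_rot w y z
  have e2 : asc x z w = asc z w x := asc_rot x z w
  have e3 : asc y w x = asc w x y := asc_rot y w x
  rw [e1, e2, e3]
  linear_combination (norm := abel) h

theorem kf_rot' : kf w x y z = -kf z w x y := by
  have h1 := kf_cyc w x y z
  have h2 := kf_cyc x y z w
  have h : kf w x y z + kf z w x y = 0 := by
    linear_combination (norm := abel) h1 + h2
  exact eq_neg_of_add_eq_zero_left h

theorem kf_rot : kf w x y z = -kf x y z w := by
  rw [kf_rot' x y z w, neg_neg]

@[simp] theorem kf_self34 : kf w x y y = 0 := by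
  simp [kf_def]

theorem kf_swap23 : kf w x y z = -kf w y x z := by
  rw [kf_rot' w x y z, kf_rot' w y x z, kf_swap34 z w x y]

theorem kf_swap12 : kf w x y z = -kf x w y z := by
  rw [kf_rot' w x y z, kf_rot' x w y z, kf_rot' z w x y, kf_rot' z x w y, kf_swap34 y z w x]

@[simp] theorem kf_self23 : kf w x x y = 0 := by
  rw [kf_rot' w x x y, kf_self34, neg_zero]

@[simp] theorem kf_self12 : kf w w x y = 0 := by
  rw [kf_rot' w w x y, kf_self23, neg_zero]

@[simp] theorem kf_self13 : kf w x w y = 0 := by
  rw [kf_swap12, kf_self23, neg_zero]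

@[simp] theorem kf_self24 : kf w x y x = 0 := by
  rw [kf_swap34, kf_self23, neg_zero]

@[simp] theorem kf_self14 : kf w x y w = 0 := by
  rw [kf_swap34, kf_self13, neg_zero]

/-- exchange of the two pairs -/
theorem kf_pair : kf w x y z = kf y z w x := by
  rw [kf_rot w x y z, kf_rot x y z w, neg_neg]

theorem kf_comm_formula : asc (com w x) y z =
    (2 : ℤ) • kf w x y z + com x (asc w y z) - com w (asc x y z) := by
  have h := kf_swap12 w x y z
  simp only [kf_def, com_def] at *
  rw [asc_sub_left]
  linear_combination (norm := abel) (-1 : ℤ) • h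

/-- Kleinfeld function is a sum of two associators. -/
theorem kf_eq : kf w x y z = asc (com w x) y z + asc (com y z) w x := by
  have h1 := kf_comm_formula w x y z
  have h2 := kf_comm_formula y z w x
  have h3 := kf_cyc w x y z
  have e1 : asc w y z = asc y z w := asc_rot w y z
  have e2 : asc x z w = asc z w x := asc_rot x z w
  have e3 : asc y w x = asc w x y := asc_rot y w x
  have k1 : kf x y z w = -kf w x y z := by rw [kf_rot w x y z, neg_neg]
  have k2 : kf y z w x = kf w x y z := (kf_pair w x y z).symm
  rw [e1] at h1
  rw [e3] at h2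
  rw [k1, k2] at h3
  rw [k2] at h2
  linear_combination (norm := abel) (-1 : ℤ) • h3 - h1 - h2

/-! ### Moufang identities -/

theorem mouf1 : asc x (x * y) z = asc x y z * x := by
  have h := kf_self13 x y z
  rw [kf_def, asc_self_left, mul_zero, sub_zero, asc_swap12 (x * y) x z, asc_swap12 y x z] at h
  rw [neg_mul, sub_neg_eq_add] at h
  have := neg_add_eq_zero.mp h
  exact this

theorem mouf2 : asc x (y * x) z = x * asc x y z := by
  have h := kf_self23 y x z
  rw [kf_def, asc_self_left, zero_mul, sub_zero, asc_swap12 (y * x) x z, asc_swap12 y x z] at h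
  rw [mul_neg, sub_neg_eq_add] at h
  exact neg_add_eq_zero.mp h

/-! Further forms of the Moufang identities. -/

/-- `(a, b, a z) = (a, b, z) a` -/
theorem asc_mul_left₁ (a b z : A) : asc a b (a * z) = asc a b z * a := by
  rw [asc_swap23, mouf1, asc_swap23 a z b, neg_mul, neg_neg]
/-- `(a, b, z a) = a (a, b, z)` -/
theorem asc_mul_right₁ (a b z : A) : asc a b (z * a) = a * asc a b z := by
  rw [asc_swap23, mouf2, asc_swap23 a z b, mul_neg, neg_neg]
/-- `(a, b, b z) = (a, b, z) b` -/
theorem asc_mul_left₂ (a b z : A) : asc a b (b * z) = asc a b z * b := by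
  rw [asc_swap12, asc_mul_left₁, asc_swap12 b a z, neg_mul, neg_neg]
/-- `(a, b, z b) = b (a, b, z)` -/
theorem asc_mul_right₂ (a b z : A) : asc a b (z * b) = b * asc a b z := by
  rw [asc_swap12, asc_mul_right₁, asc_swap12 b a z, mul_neg, neg_neg]

/-- `(x, y z, z) = z (x, y, z)` -/
theorem asc_mid_mul_right (x y z : A) : asc x (y * z) z = z * asc x y z := by
  rw [asc_swap23, asc_mul_right₂, asc_swap23 x z y, mul_neg, neg_neg]
/-- `(x, z y, z) = (x, y, z) z` -/
theorem asc_mid_mul_left (x y z : A) : asc x (z * y) z = asc x y z * z := by
  rw [asc_swap23, asc_mul_left₂, asc_swap23 x z y, neg_mul, neg_neg]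

/-- `(x, y, z²) = z ∘ (x, y, z)` -/
theorem asc_sq (x y z : A) : asc x y (z * z) = z * asc x y z + asc x y z * z := by
  have h := teich x y z z
  rw [asc_self_right, asc_self_right, mul_zero, zero_add, asc_mid_mul_right] at h
  linear_combination (norm := abel) h

/-- polarised: `(x, y, z ∘ t) = z ∘ (x, y, t) + t ∘ (x, y, z)` -/
theorem asc_jordan (x y z t : A) : asc x y (z * t + t * z) =
    z * asc x y t + asc x y t * z + (t * asc x y z + asc x y z * t) := by
  have h := asc_sq x y (z + t)
  have h1 := asc_sq x y z
  have h2 := asc_sq x y t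
  simp only [mul_add, add_mul, asc_add_right] at h ⊢
  linear_combination (norm := abel) h - h1 - h2

/-- left Moufang identity `(x y x) z = x (y (x z))` -/
theorem moufang_left (x y z : A) : (x * y * x) * z = x * (y * (x * z)) := by
  have h1 : asc (x * y) x z = (x * y) * x * z - x * y * (x * z) := asc_def _ _ _
  have h2 : asc x y (x * z) = x * y * (x * z) - x * (y * (x * z)) := asc_def _ _ _
  have h3 : asc (x * y) x z = asc y x z * x := by
    rw [asc_swap12, mouf1, asc_swap12 x y z, neg_mul, neg_neg]
  have h4 : asc x y (x * z) = asc x y z * x := asc_mul_left₁ x y z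
  rw [asc_swap12 y x z] at h3
  linear_combination (norm := (simp only [neg_mul]; abel)) h3 + h4 - h1 - h2

/-- right Moufang identity `z (x y x) = ((z x) y) x` -/
theorem moufang_right (x y z : A) : z * (x * y * x) = ((z * x) * y) * x := by
  have h1 : asc (z * x) y x = (z * x) * y * x - (z * x) * (y * x) := asc_def _ _ _
  have h2 : asc z x (y * x) = z * x * (y * x) - z * (x * (y * x)) := asc_def _ _ _
  have h3 : asc (z * x) y x = x * asc z y x := by
    rw [asc_swap12, asc_mid_mul_right, asc_swap12 y z x, mul_neg, neg_neg]
  have h4 : asc z x (y * x) = x * asc z x y := by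
    rw [asc_mul_right₂]
  rw [asc_swap23 z y x] at h3
  rw [flex]
  linear_combination (norm := (simp only [mul_neg]; abel)) h1 + h2 - h3 - h4

/-- middle Moufang identity `(x y) (z x) = (x (y z)) x` -/
theorem moufang_mid (x y z : A) : (x * y) * (z * x) = (x * (y * z)) * x := by
  have h1 : asc (x * y) z x = (x * y) * z * x - (x * y) * (z * x) := asc_def _ _ _
  have h2 : asc x y z = x * y * z - x * (y * z) := asc_def _ _ _
  have h3 : asc (x * y) z x = asc x y z * x := by
    rw [asc_rot', mouf1]
  have h4 : asc x y z * x = (x * y * z) * x - (x * (y * z)) * x := by rw [h2, sub_mul]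
  linear_combination (norm := abel) h1 - h3 - h4

/-- polarised left Moufang -/
theorem moufang_left' (x y t z : A) : (x * y * t + t * y * x) * z
    = x * (y * (t * z)) + t * (y * (x * z)) := by
  have h := moufang_left (x + t) y z
  have h1 := moufang_left x y z
  have h2 := moufang_left t y z
  simp only [mul_add, add_mul] at h ⊢
  linear_combination (norm := abel) h - h1 - h2

/-- polarised right Moufang -/
theorem moufang_right' (x y t z : A) : z * (x * y * t + t * y * x)
    = ((z * x) * y) * t + ((z * t) * y) * x := by
  have h := moufang_right (x + t) y z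
  have h1 := moufang_right x y z
  have h2 := moufang_right t y z
  simp only [mul_add, add_mul] at h ⊢
  linear_combination (norm := abel) h - h1 - h2

/-- polarised left alternative law -/
theorem left_alt' (x y z : A) : (x * y + y * x) * z = x * (y * z) + y * (x * z) := by
  have h := asc_swap12 x y z
  simp only [asc_def, add_mul] at h ⊢
  linear_combination (norm := abel) h

/-- polarised right alternative law -/
theorem right_alt' (x y z : A) : z * (x * y + y * x) = (z * x) * y + (z * y) * x := by
  have h := asc_swap23 z x y
  simp only [asc_def, mul_add] at h ⊢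
  linear_combination (norm := abel) (-1 : ℤ) • h

/-- `[x y, z] = x [y, z] + [x, z] y + 3 (x, y, z)` -/
theorem com_mul_left (x y z : A) :
    com (x * y) z = x * com y z + com x z * y + (3 : ℤ) • asc x y z := by
  have h1 : asc x y z = x * y * z - x * (y * z) := asc_def _ _ _
  have h2 : asc x z y = x * z * y - x * (z * y) := asc_def _ _ _
  have h3 : asc z x y = z * x * y - z * (x * y) := asc_def _ _ _
  have h4 := asc_swap23 x z y
  have h5 := asc_rot z x y
  simp only [com_def, mul_sub, sub_mul]
  linear_combination (norm := abel) (-1 : ℤ) • h1 + h2 - h3 - h4 + h5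

end alt

/-! ### opposite ring -/

instance instOp [IsAlt A] : IsAlt Aᵐᵒᵖ where
  left x y := by
    have h := IsAlt.right x.unop y.unop
    exact congrArg MulOpposite.op h.symm
  right x y := by
    have h := IsAlt.left x.unop y.unop
    exact congrArg MulOpposite.op h.symm

/-! ### ideals, nucleus -/

/-- (left, middle, right) nucleus of a nonassociative ring; in the alternative case one
condition suffices, see `mem_nucleus_of_left`. -/
def nucleus (A : Type*) [NonUnitalNonAssocRing A] : Set A :=
  {n | ∀ x y : A, asc n x y = 0 ∧ asc x n y = 0 ∧ asc x y n = 0}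

theorem mem_nucleus_of_left [IsAlt A] {n : A} (h : ∀ x y : A, asc n x y = 0) :
    n ∈ nucleus A := by
  intro x y
  refine ⟨h x y, ?_, ?_⟩
  · rw [asc_swap12, h, neg_zero]
  · rw [asc_rot', h]

/-- A subgroup closed under multiplication from both sides by arbitrary elements. -/
structure IsIdeal (I : AddSubgroup A) : Prop where
  left : ∀ a : A, ∀ x ∈ I, a * x ∈ I
  right : ∀ a : A, ∀ x ∈ I, x * a ∈ I

/-- two sided annihilator of a subgroup -/
def Ann (I : AddSubgroup A) : AddSubgroup A where
  carrier := {a | ∀ x ∈ I, a * x = 0 ∧ x * a = 0}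
  zero_mem' := fun x _ => ⟨zero_mul x, mul_zero x⟩
  add_mem' := fun {a b} ha hb x hx => by
    refine ⟨?_, ?_⟩
    · rw [add_mul, (ha x hx).1, (hb x hx).1, add_zero]
    · rw [mul_add, (ha x hx).2, (hb x hx).2, add_zero]
  neg_mem' := fun {a} ha x hx => by
    refine ⟨?_, ?_⟩
    · rw [neg_mul, (ha x hx).1, neg_zero]
    · rw [mul_neg, (ha x hx).2, neg_zero]

theorem mem_Ann {I : AddSubgroup A} {a : A} : a ∈ Ann I ↔ ∀ x ∈ I, a * x = 0 ∧ x * a = 0 :=
  Iff.rfl

theorem isIdeal_Ann [IsAlt A] {I : AddSubgroup A} (hI : IsIdeal I) : IsIdeal (Ann I) := by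
  refine ⟨?_, ?_⟩
  · intro b a ha x hx
    -- (b a) x and x (b a)
    have e1 : asc b a x = b * a * x - b * (a * x) := asc_def _ _ _
    have e2 : asc x b a = x * b * a - x * (b * a) := asc_def _ _ _
    have e3 : asc a x b = a * x * b - a * (x * b) := asc_def _ _ _
    have z1 := (ha x hx).1
    have z2 := (ha _ (hI.right b x hx)).1
    have z3 := (ha _ (hI.right b x hx)).2
    have h0 : asc a x b = 0 := by rw [e3, z1, z2, zero_mul, sub_zero]
    refine ⟨?_, ?_⟩
    · have : asc b a x = 0 := by rw [asc_rot, h0]
      rw [e1, z1, mul_zero, sub_zero] at this; exact this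
    · have : asc x b a = 0 := by rw [asc_rot', h0]
      rw [e2, z3, zero_sub, neg_eq_zero] at this; exact this
  · intro b a ha x hx
    have e1 : asc a b x = a * b * x - a * (b * x) := asc_def _ _ _
    have e2 : asc x a b = x * a * b - x * (a * b) := asc_def _ _ _
    have z1 := (ha x hx).1
    have z2 := (ha _ (hI.right b x hx)).1
    have z3 := (ha _ (hI.left b x hx)).1
    have z4 := (ha x hx).2
    have e3 : asc a x b = a * x * b - a * (x * b) := asc_def _ _ _
    have h0 : asc a x b = 0 := by rw [e3, z1, z2, zero_mul, sub_zero]
    refine ⟨?_, ?_⟩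
    · have : asc a b x = 0 := by rw [asc_swap23, h0, neg_zero]
      rw [e1, z3, sub_zero] at this; exact this
    · have : asc x a b = 0 := by rw [asc_swap12, h0, neg_zero]
      rw [e2, z4, zero_mul, zero_sub, neg_eq_zero] at this; exact this

/-- The associator ideal `D(A)`: additive subgroup generated by `(x,y,z)` and `(x,y,z) t`. -/
def assocIdeal (A : Type*) [NonUnitalNonAssocRing A] : AddSubgroup A :=
  AddSubgroup.closure {d | ∃ x y z : A, d = asc x y z ∨ ∃ t : A, d = asc x y z * t}

end ALT
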