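import Pool.Agent.ALT.Basic

/-!
Quotients of nonassociative rings by two-sided ideals given as additive subgroups.
-/

namespace ALT

variable {A : Type*} [NonUnitalNonAssocRing A]

/-- the ring congruence of an ideal -/
def IsIdeal.con {I : AddSubgroup A} (hI : IsIdeal I) : RingCon A where
  r x y := x - y ∈ I
  iseqv := by
    refine ⟨fun x => ?_, fun {x y} h => ?_, fun {x y z} h1 h2 => ?_⟩
    · rw [sub_self]; exact I.zero_mem
    · rw [← neg_sub]; exact I.neg_mem h
    · have := I.add_mem h1 h2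
      rwa [sub_add_sub_cancel] at this
  add' := fun {a b c d} h1 h2 => by
    have := I.add_mem h1 h2
    rwa [sub_add_sub_comm] at this
  mul' := fun {a b c d} h1 h2 => by
    have e : a * c - b * d = (a - b) * c + b * (c - d) := by
      rw [sub_mul, mul_sub]; abel
    rw [e]
    exact I.add_mem (hI.right c _ h1) (hI.left b _ h2)

/-- the quotient ring `A / I` -/
abbrev IsIdeal.Quot {I : AddSubgroup A} (hI : IsIdeal I) : Type _ := hI.con.Quotient

section
variable {I : AddSubgroup A} (hI : IsIdeal I)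

/-- the quotient map -/
def IsIdeal.toQ (x : A) : hI.Quot := (x : hI.con.Quotient)

theorem IsIdeal.toQ_surj : Function.Surjective hI.toQ := by
  intro y
  obtain ⟨x, rfl⟩ := Quotient.exists_rep y
  exact ⟨x, rfl⟩

theorem IsIdeal.toQ_eq {x y : A} : hI.toQ x = hI.toQ y ↔ x - y ∈ I := by
  unfold IsIdeal.toQ
  rw [RingCon.eq]
  rfl

theorem IsIdeal.toQ_add (x y : A) : hI.toQ (x + y) = hI.toQ x + hI.toQ y := rfl
theorem IsIdeal.toQ_mul (x y : A) : hI.toQ (x * y) = hI.toQ x * hI.toQ y := rfl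
theorem IsIdeal.toQ_neg (x : A) : hI.toQ (-x) = -hI.toQ x := rfl
theorem IsIdeal.toQ_sub (x y : A) : hI.toQ (x - y) = hI.toQ x - hI.toQ y := rfl
theorem IsIdeal.toQ_zero : hI.toQ (0 : A) = 0 := rfl

theorem IsIdeal.toQ_eq_zero {x : A} : hI.toQ x = 0 ↔ x ∈ I := by
  rw [← hI.toQ_zero, hI.toQ_eq, sub_zero]

theorem IsIdeal.toQ_com (x y : A) : hI.toQ (com x y) = com (hI.toQ x) (hI.toQ y) := rfl
theorem IsIdeal.toQ_asc (x y z : A) : hI.toQ (asc x y z) = asc (hI.toQ x) (hI.toQ y) (hI.toQ z) := rfl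

instance [IsAlt A] : IsAlt hI.Quot where
  left x y := by
    obtain ⟨x, rfl⟩ := hI.toQ_surj x
    obtain ⟨y, rfl⟩ := hI.toQ_surj y
    rw [← hI.toQ_mul, ← hI.toQ_mul, IsAlt.left]
    rfl
  right x y := by
    obtain ⟨x, rfl⟩ := hI.toQ_surj x
    obtain ⟨y, rfl⟩ := hI.toQ_surj y
    rw [← hI.toQ_mul, ← hI.toQ_mul, IsAlt.right]
    rfl

/-- the quotient map as a nonunital ring homomorphism -/
def IsIdeal.hom : A →ₙ+* hI.Quot where
  toFun := hI.toQ
  map_mul' := hI.toQ_mul
  map_zero' := hI.toQ_zero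
  map_add' := hI.toQ_add

end

section unital
variable {A : Type*} [NonAssocRing A] {I : AddSubgroup A} (hI : IsIdeal I)

theorem IsIdeal.toQ_one : hI.toQ (1 : A) = 1 := rfl

example : NonAssocRing hI.Quot := inferInstance

end unital

end ALT
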