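import Pool.Agent.ALT.S4b
import Pool.Agent.ALT.Quot

/-!
The class `QQ` of quadratic alternative rings, and the lemma that all its properties follow from
`t`, `n` central as soon as some commutator is cancellable.
-/

set_option linter.unusedSimpArgs false
set_option linter.unusedSectionVars false

namespace ALT

/-- polar form of the norm attached to an additive map `t` -/
def npol {Q : Type*} [NonAssocRing Q] (t : Q →+ Q) (a b : Q) : Q :=
  t a * b + t b * a - (a * b + b * a)

/-- norm attached to `t` -/
def nrm {Q : Type*} [NonAssocRing Q] (t : Q →+ Q) (a : Q) : Q := t a * a - a * a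

/-- quadratic alternative ring with trace `t` -/
structure QQ {Q : Type*} [NonAssocRing Q] (t : Q →+ Q) : Prop where
  /-- the trace is central -/
  cen_t : ∀ b, Cen (t b)
  /-- the norm is central -/
  cen_n : ∀ b, Cen (nrm t b)
  /-- `t([a,b]) = 0` -/
  t_com : ∀ a b, t (com a b) = 0
  /-- `t(ab) = t(a)t(b) - n(a,b)` -/
  t_mul : ∀ a b, t (a * b) = t a * t b - npol t a b
  /-- `t(z) = 2 z` for central `z` -/
  t_cen : ∀ z, Cen z → t z = z + z
  /-- `t((x,y,z)) = 0` -/
  t_asc : ∀ x y z, t (asc x y z) = 0

section cen
variable {B : Type*} [NonUnitalNonAssocRing B]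

theorem Cen.zero : Cen (0 : B) := ⟨fun x => by rw [zero_mul, mul_zero], fun x y => asc_zero_left _ _⟩
theorem Cen.add {s t : B} (hs : Cen s) (ht : Cen t) : Cen (s + t) :=
  ⟨fun x => by rw [add_mul, mul_add, hs.comm, ht.comm],
    fun x y => by rw [asc_add_left, hs.nuc, ht.nuc, add_zero]⟩
theorem Cen.neg {s : B} (hs : Cen s) : Cen (-s) :=
  ⟨fun x => by rw [neg_mul, mul_neg, hs.comm], fun x y => by rw [asc_neg_left, hs.nuc, neg_zero]⟩
theorem Cen.sub {s t : B} (hs : Cen s) (ht : Cen t) : Cen (s - t) := by
  rw [sub_eq_add_neg]; exact hs.add ht.neg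
theorem Cen.com {s : B} (hs : Cen s) (x : B) : com s x = 0 := by
  rw [com_def, hs.comm, sub_self]
theorem Cen.com' {s : B} (hs : Cen s) (x : B) : ALT.com x s = 0 := by
  rw [com_def, hs.comm, sub_self]

variable [IsAlt B]
theorem Cen.mul {s t : B} (hs : Cen s) (ht : Cen t) : Cen (s * t) := by
  refine ⟨fun x => ?_, fun x y => ?_⟩
  · rw [hs.mul_assoc1, ht.comm x, ← hs.left_mul]
  · rw [hs.asc1, ht.nuc, mul_zero]

/-- `s [a, x] = 0` if `s` and `s a` are central -/
theorem Cen.mul_com_eq_zero {s a : B} (hs : Cen s) (h : Cen (s * a)) (x : B) :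
    s * ALT.com a x = 0 := by
  have h1 := h.com x
  rw [com_def, hs.mul_assoc1, hs.left_mul] at h1
  rw [com_def, mul_sub, h1]

/-- key cancellation lemma -/
theorem cancel_lemma {p q : B} (hc : ∀ x, x * ALT.com p q = 0 → x = 0) (s : B →+ B)
    (h : ∀ a x, s a * ALT.com a x = 0) : s = 0 := by
  have h1 : s p = 0 := hc _ (h p q)
  ext a
  rw [AddMonoidHom.zero_apply]
  apply hc
  have h2 := h (a + p) q
  rw [map_add, h1, add_zero, com_add_left, mul_add, h a q, zero_add] at h2
  exact h2

end cen

section main
variable {Q : Type*} [NonAssocRing Q] [IsAlt Q] {t : Q →+ Q}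

omit [IsAlt Q] in
theorem nrm_add (a b : Q) : nrm t (a + b) = nrm t a + nrm t b + npol t a b := by
  simp only [nrm, npol, map_add, mul_add, add_mul]; abel

omit [IsAlt Q] in
theorem cen_npol (h : ∀ b, Cen (nrm t b)) (a b : Q) : Cen (npol t a b) := by
  have e : npol t a b = nrm t (a + b) - nrm t a - nrm t b := by rw [nrm_add]; abel
  rw [e]
  exact ((h _).sub (h _)).sub (h _)

theorem QQ_of_cancel (ct : ∀ b, Cen (t b)) (cn : ∀ b, Cen (nrm t b)) {p q : Q}
    (hc : ∀ x, x * ALT.com p q = 0 → x = 0) : QQ t := by
  have cp := cen_npol cn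
  -- t([a,b]) = 0
  have h1 : ∀ a b, t (com a b) = 0 := by
    intro a b
    let s : Q →+ Q := t.comp ((AddMonoidHom.mulRight b) - (AddMonoidHom.mulLeft b))
    have hs : ∀ a, s a = t (com a b) := fun a => by
      simp [s, com_def]
    have : s = 0 := by
      apply cancel_lemma hc
      intro a x
      rw [hs]
      apply Cen.mul_com_eq_zero (ct _)
      have e : t (com a b) * a = npol t (a * b) a - npol t (b * a) a := by
        have e1 : a * b * a = a * (b * a) := flex a b
        have e2 : a * (a * b) = a * a * b := (IsAlt.left a b).symm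
        have e3 : b * a * a = b * (a * a) := IsAlt.right a b
        have e4 : a * a = t a * a - nrm t a := by rw [nrm]; abel
        have e5 : t a * (a * b) = (t a * a) * b := ((ct a).mul_assoc1 a b).symm
        have e6 : b * (t a * a) = t a * (b * a) := (ct a).left_mul b a
        have e7 : nrm t a * b = b * nrm t a := (cn a).comm b
        have e8 : a * a * b = t a * (a * b) - b * nrm t a := by
          rw [e4, sub_mul, ← e5, e7]
        have e9 : b * (a * a) = t a * (b * a) - b * nrm t a := by
          rw [e4, mul_sub, e6]
        simp only [npol, com_def, map_sub, sub_mul]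
        rw [e1, e2, e3, e8, e9]
        abel
      rw [e]
      exact (cp _ _).sub (cp _ _)
    rw [← hs, this, AddMonoidHom.zero_apply]
  refine ⟨ct, cn, h1, ?_, ?_, ?_⟩
  · -- t(ab)
    intro a b
    let s : Q →+ Q := (AddMonoidHom.mulRight (t b)).comp t
      - ((AddMonoidHom.mulRight b).comp t + AddMonoidHom.mulLeft (t b)
        - (AddMonoidHom.mulRight b + AddMonoidHom.mulLeft b))
      - t.comp (AddMonoidHom.mulRight b)
    have hs : ∀ a, s a = t a * t b - npol t a b - t (a * b) := fun a => by
      simp [s, npol]
    have : s = 0 := by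
      apply cancel_lemma hc
      intro a x
      rw [hs]
      apply Cen.mul_com_eq_zero (((ct _).mul (ct _)).sub (cp _ _) |>.sub (ct _))
      have e : (t a * t b - npol t a b - t (a * b)) * a
          = t b * nrm t a - npol t (a * b) a := by
        have e1 : a * b * a = a * (b * a) := flex a b
        have e2 : a * (a * b) = a * a * b := (IsAlt.left a b).symm
        have e3 : b * a * a = b * (a * a) := IsAlt.right a b
        have e4 : a * a = t a * a - nrm t a := by rw [nrm]; abel
        have e5 : (t a * a) * b = t a * (a * b) := (ct a).mul_assoc1 a b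
        have e6 : b * (t a * a) = t a * (b * a) := (ct a).left_mul b a
        have e7 : nrm t a * b = b * nrm t a := (cn a).comm b
        have e8 : a * a * b = t a * (a * b) - b * nrm t a := by
          rw [e4, sub_mul, e5, e7]
        have e9 : b * (a * a) = t a * (b * a) - b * nrm t a := by
          rw [e4, mul_sub, e6]
        -- (ab)a computed from the polar form
        have e10 : a * b = t a * b + t b * a - npol t a b - b * a := by
          rw [npol]; abel
        have e11 : a * b * a = t a * (b * a) + t b * (a * a) - npol t a b * a - b * (a * a) := by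
          conv_lhs => rw [e10]
          rw [sub_mul, sub_mul, add_mul, (ct a).mul_assoc1, (ct b).mul_assoc1, e3]
        have e12 : t b * (a * a) = t b * (t a * a) - t b * nrm t a := by
          conv_lhs => rw [e4]
          rw [mul_sub]
        have e13 : t a * t b * a = t b * (t a * a) := by
          rw [(ct a).mul_assoc1, (ct b).left_mul]
        rw [sub_mul, sub_mul, e13]
        have e14 : npol t (a * b) a = t (a * b) * a + t a * (a * b)
            - (a * b * a + a * (a * b)) := rfl
        rw [e14, e11, e2, e8, e9, e12]
        abel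
      rw [e]
      exact ((ct _).mul (cn _)).sub (cp _ _)
    have h2 := hs a
    rw [this, AddMonoidHom.zero_apply] at h2
    exact (sub_eq_zero.mp h2.symm).symm
  · -- central elements
    intro z hz
    have hcz : Cen (t z - (z + z)) := (ct z).sub (hz.add hz)
    have h2 : (t z - (z + z)) * com p q = 0 := by
      have h3 := (cp z p).com q
      have e : npol t z p = (t z - (z + z)) * p + t p * z := by
        rw [npol, ← hz.comm p]
        simp only [sub_mul, add_mul]
        abel
      rw [e, com_add_left, ((ct p).mul hz).com, add_zero] at h3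
      rw [com_def, hcz.mul_assoc1, hcz.left_mul, ← mul_sub, ← com_def] at h3
      exact h3
    exact sub_eq_zero.mp (hc _ h2)
  · -- associators
    intro x y z
    let s : Q →+ Q := t.comp ((AddMonoidHom.mulRight z).comp (AddMonoidHom.mulRight y)
        - AddMonoidHom.mulRight (y * z))
    have hs : ∀ x, s x = t (asc x y z) := fun x => by
      simp [s, asc_def]
    have : s = 0 := by
      apply cancel_lemma hc
      intro x w
      rw [hs]
      apply Cen.mul_com_eq_zero (ct _)
      have e : t (asc x y z) * x = npol t (asc x y z) x := by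
        have e1 : asc x y z * x = asc x (x * y) z := (mouf1 x y z).symm
        have e2 : x * asc x y z = asc x (y * x) z := (mouf2 x y z).symm
        have e3 : asc x (x * y) z + asc x (y * x) z = t x * asc x y z := by
          rw [← asc_add_mid]
          have e4 : x * y + y * x = t x * y + t y * x - npol t x y := by rw [npol]; abel
          rw [e4, asc_sub_mid, asc_add_mid, (ct x).asc2, (ct y).asc2, asc_self_left, mul_zero,
            add_zero, (cp x y).nuc2, sub_zero]
        rw [npol, e1, e2, e3]; abel
      rw [e]
      exact cp _ _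
    rw [← hs, this, AddMonoidHom.zero_apply]

end main

end ALT
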