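import Pool.Agent.ALT.S1d
import Pool.Agent.ALT.QQ

/-!
# Project ALT (MP_643ad6_al), Steps 6, 7: common definitions (helper6)

* `ln js x = j_1 (j_2 (... (j_k x)))`, left nested products.
-/

set_option autoImplicit false
set_option linter.unusedSectionVars false

namespace ALT

section
variable {A : Type*} [NonUnitalNonAssocRing A]

/-- `j_1 (j_2 (... (j_k x)))` -/
def ln (js : List A) (x : A) : A := js.foldr (fun j y => j * y) x

@[simp] theorem ln_nil (x : A) : ln [] x = x := rfl
@[simp] theorem ln_cons (j : A) (js : List A) (x : A) : ln (j :: js) x = j * ln js x := rfl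
theorem ln_append (js js' : List A) (x : A) : ln (js ++ js') x = ln js (ln js' x) := by
  unfold ln; rw [List.foldr_append]
theorem ln_zero (js : List A) : ln js (0 : A) = 0 := by
  induction js with
  | nil => rfl
  | cons j js ih => rw [ln_cons, ih, mul_zero]
theorem ln_add (js : List A) (x y : A) : ln js (x + y) = ln js x + ln js y := by
  induction js with
  | nil => rfl
  | cons j js ih => rw [ln_cons, ih, mul_add]; rfl
theorem ln_neg (js : List A) (x : A) : ln js (-x) = -ln js x := by
  induction js with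
  | nil => rfl
  | cons j js ih => rw [ln_cons, ih, mul_neg]; rfl
theorem ln_sub (js : List A) (x y : A) : ln js (x - y) = ln js x - ln js y := by
  rw [sub_eq_add_neg, ln_add, ln_neg, ← sub_eq_add_neg]

end

section
variable {A : Type*} [NonUnitalNonAssocRing A] [IsAlt A] {z z' : A}

theorem Cen.isNuc (hz : Cen z) : IsNuc z := fun a b => hz.nuc a b
/-- `(z y) y' = z (y y')` -/
theorem Cen.m1 (hz : Cen z) (y y' : A) : (z * y) * y' = z * (y * y') := hz.isNuc.mul₁ y y'
/-- `(y z) y' = y (z y')` -/
theorem Cen.m2 (hz : Cen z) (y y' : A) : (y * z) * y' = y * (z * y') := hz.isNuc.mul₂ y y'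
/-- `(y y') z = y (y' z)` -/
theorem Cen.m3 (hz : Cen z) (y y' : A) : (y * y') * z = y * (y' * z) := hz.isNuc.mul₃ y y'
/-- `y (z x) = z (y x)` -/
theorem Cen.pull (hz : Cen z) (y x : A) : y * (z * x) = z * (y * x) := by
  rw [← hz.m2, ← hz.comm, hz.m1]
theorem Cen.ln (hz : Cen z) (js : List A) (x : A) : ALT.ln js (z * x) = z * ALT.ln js x := by
  induction js with
  | nil => rfl
  | cons j js ih => rw [ln_cons, ih, hz.pull, ln_cons]

theorem cen_of_nuc_comm (hn : IsNuc z) (hc : ∀ y, z * y = y * z) : Cen z :=
  ⟨hc, fun y y' => hn y y'⟩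

end

end ALT
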