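import Pool.Agent.ALT.Basic

/-!
# Project ALT (MP_643ad6_al), Level 1, file c0 (helper66)

Powers `pw x k = x^(k+1)`, the ideal `Tid A` generated by all commutators and associators, and
special Jordan representations `JRep` of an alternative algebra.
-/

set_option autoImplicit false
set_option linter.unusedSectionVars false

namespace ALT

section
variable {A : Type*} [NonUnitalNonAssocRing A]

/-- `pw x k = x^(k+1)`, left normed. -/
def pw (x : A) : ℕ → A
  | 0 => x
  | k + 1 => pw x k * x

@[simp] theorem pw_zero (x : A) : pw x 0 = x := rfl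

theorem pw_succ (x : A) (k : ℕ) : pw x (k + 1) = pw x k * x := rfl

variable (A) in
/-- The smallest ideal containing all commutators and all associators. -/
def Tid : AddSubgroup A :=
  sInf {I : AddSubgroup A | IsIdeal I ∧ (∀ x y : A, com x y ∈ I) ∧ ∀ x y z : A, asc x y z ∈ I}

theorem com_mem_Tid (x y : A) : com x y ∈ Tid A := by
  rw [Tid, AddSubgroup.mem_sInf]
  exact fun I hI => hI.2.1 x y

theorem asc_mem_Tid (x y z : A) : asc x y z ∈ Tid A := by
  rw [Tid, AddSubgroup.mem_sInf]
  exact fun I hI => hI.2.2 x y z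

theorem isIdeal_Tid : IsIdeal (Tid A) := by
  constructor
  · intro a x hx
    rw [Tid, AddSubgroup.mem_sInf] at hx ⊢
    exact fun I hI => hI.1.left a x (hx I hI)
  · intro a x hx
    rw [Tid, AddSubgroup.mem_sInf] at hx ⊢
    exact fun I hI => hI.1.right a x (hx I hI)

theorem Tid_le {I : AddSubgroup A} (hI : IsIdeal I) (h1 : ∀ x y : A, com x y ∈ I)
    (h2 : ∀ x y z : A, asc x y z ∈ I) : Tid A ≤ I :=
  sInf_le ⟨hI, h1, h2⟩

variable [IsAlt A]

/-- `(x^(k+1), x, z) = 0` -/
theorem asc_pw (x : A) (k : ℕ) (z : A) : asc x (pw x k) z = 0 := by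
  induction k generalizing z with
  | zero => exact asc_self_left x z
  | succ k ih => rw [pw_succ, mouf2, ih, mul_zero]

theorem pw_mul_self (x : A) (k : ℕ) : x * pw x k = pw x k * x := by
  induction k with
  | zero => rfl
  | succ k ih =>
    rw [pw_succ]
    have h := asc_pw x k x
    have h2 : asc x (pw x k) x = x * pw x k * x - x * (pw x k * x) := asc_def _ _ _
    rw [h2, sub_eq_zero] at h
    rw [← h, ih]

theorem pw_add_two (x : A) (k : ℕ) : pw x (k + 2) = x * pw x k * x := by
  rw [pw_succ, pw_succ, pw_mul_self]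

end

section
variable {R C E : Type*} [CommRing R] [NonUnitalNonAssocRing C] [Module R C] [Ring E]
  [Algebra R E]

/-- `l` preserves squares and the products `a b a`. -/
structure JRep (l : C →ₗ[R] E) : Prop where
  sq : ∀ a : C, l (a * a) = l a * l a
  u : ∀ a b : C, l (a * b * a) = l a * l b * l a

namespace JRep

variable {l : C →ₗ[R] E} (h : JRep l)
include h

theorem jord (a b : C) : l (a * b + b * a) = l a * l b + l b * l a := by
  have h1 := h.sq (a + b)
  have h2 := h.sq a
  have h3 := h.sq b
  simp only [mul_add, add_mul, map_add] at h1 ⊢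
  rw [h2, h3] at h1
  linear_combination (norm := noncomm_ring) h1

theorem trip (a b c : C) : l (a * b * c + c * b * a) = l a * l b * l c + l c * l b * l a := by
  have h1 := h.u (a + c) b
  have h2 := h.u a b
  have h3 := h.u c b
  simp only [mul_add, add_mul, map_add] at h1 ⊢
  rw [h2, h3] at h1
  linear_combination (norm := noncomm_ring) h1

theorem pw [IsAlt C] (a : C) (k : ℕ) : l (pw a k) = l a ^ (k + 1) := by
  induction k using Nat.strong_induction_on with
  | _ k ih =>
    match k with
    | 0 => simp
    | 1 => rw [pw_succ, pw_zero, h.sq, pow_two]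
    | k + 2 =>
      rw [pw_add_two, h.u, ih k (by omega), pow_succ _ (k + 2), pow_succ' _ (k + 1)]

/-- `[l a, l b]² = l ((a b a) b + b (a b a) - a b² a - b a² b)` -/
theorem com_sq (a b : C) : (l a * l b - l b * l a) * (l a * l b - l b * l a) =
    l ((a * b * a) * b + b * (a * b * a) - a * (b * b) * a - b * (a * a) * b) := by
  rw [map_sub, map_sub, h.jord, h.u, h.u, h.sq, h.u, h.sq]
  noncomm_ring

/-- `[[l a, l b], l c] = l (a ∘ (b ∘ c) - b ∘ (a ∘ c))` -/
theorem com_com (a b c : C) : (l a * l b - l b * l a) * l c - l c * (l a * l b - l b * l a) =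
    l ((a * (b * c + c * b) + (b * c + c * b) * a) -
      (b * (a * c + c * a) + (a * c + c * a) * b)) := by
  rw [map_sub, h.jord, h.jord, h.jord, h.jord]
  noncomm_ring

end JRep

end

end ALT
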