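import Pool.Agent.ALT.N1b
import Pool.Agent.ALT.Artin
import Pool.Agent.ALT.L1c0

/-!
Project ALT (MP_643ad6_al), Level 1, nil part (helper3).

Powers in a nonassociative ring: `pw x k` is `x^(k+1)` (left nested).  In an alternative ring in
which `(x y - y x)^(M+1) = 0` for all `x`, `y` the nilpotent elements form an ideal; this ideal
contains all commutators and all associators.
-/

namespace ALT

section pw

variable {A : Type*} [NonUnitalNonAssocRing A]

/-- nilpotent element of a nonassociative ring -/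
def IsNil (x : A) : Prop := ∃ k : ℕ, pw x k = 0

theorem map_pw {B : Type*} [NonUnitalNonAssocRing B] (f : A →ₙ+* B) (x : A) (k : ℕ) :
    f (pw x k) = pw (f x) k := by
  induction k with
  | zero => rfl
  | succ k ih => rw [pw_succ, pw_succ, map_mul, ih]

theorem pw_zero_mono {x : A} {k : ℕ} (h : pw x k = 0) (j : ℕ) : pw x (k + j) = 0 := by
  induction j with
  | zero => exact h
  | succ j ih => rw [← Nat.add_assoc, pw_succ, ih, zero_mul]

/-- in an associative unital ring `pw x k = x^(k+1)` -/
theorem pw_eq_pow {S : Type*} [Ring S] (x : S) (k : ℕ) : pw x k = x ^ (k + 1) := by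
  induction k with
  | zero => simp [pw_zero]
  | succ k ih => rw [pw_succ, ih, pow_succ x (k + 1)]

end pw

section transfer

variable {R : Type*} [NonUnitalRing R]

/-- nilpotency in a non unital associative ring through the unitization -/
theorem isNil_iff_unitization (x : R) :
    IsNil x ↔ IsNilpotent (x : Unitization ℤ R) := by
  have h1 : ∀ k : ℕ, ((pw x k : R) : Unitization ℤ R) = (x : Unitization ℤ R) ^ (k + 1) := by
    intro k
    induction k with
    | zero => simp [pw_zero]
    | succ k ih => rw [pw_succ, Unitization.inr_mul, ih, pow_succ _ (k + 1)]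
  constructor
  · rintro ⟨k, hk⟩
    refine ⟨k + 1, ?_⟩
    rw [← h1, hk, Unitization.inr_zero]
  · rintro ⟨k, hk⟩
    refine ⟨k, ?_⟩
    have h2 : ((pw x k : R) : Unitization ℤ R) = 0 := by
      rw [h1, pow_succ, hk, zero_mul]
    rw [← Unitization.inr_zero ℤ] at h2
    exact Unitization.inr_injective h2

theorem unitization_com (M : ℕ) (h : ∀ x y : R, pw (com x y) M = 0)
    (x y : Unitization ℤ R) : (x * y - y * x) ^ (M + 1) = 0 := by
  have h1 : x * y - y * x = ((com x.snd y.snd : R) : Unitization ℤ R) := by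
    refine Unitization.ext ?_ ?_
    · rw [sub_eq_add_neg, Unitization.fst_add, Unitization.fst_neg, Unitization.fst_mul,
        Unitization.fst_mul, Unitization.fst_inr, mul_comm]
      abel
    · rw [sub_eq_add_neg, Unitization.snd_add, Unitization.snd_neg, Unitization.snd_mul,
        Unitization.snd_mul, Unitization.snd_inr, com_def]
      abel
  have h2 : ∀ (z : R) (k : ℕ), ((pw z k : R) : Unitization ℤ R) =
      (z : Unitization ℤ R) ^ (k + 1) := by
    intro z k
    induction k with
    | zero => simp [pw_zero]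
    | succ k ih => rw [pw_succ, Unitization.inr_mul, ih, pow_succ _ (k + 1)]
  rw [h1, ← h2, h, Unitization.inr_zero]

theorem isNil_mul_assoc (M : ℕ) (h : ∀ x y : R, pw (com x y) M = 0) {a : R} (ha : IsNil a)
    (b : R) : IsNil (a * b) ∧ IsNil (b * a) := by
  rw [isNil_iff_unitization] at ha
  rw [isNil_iff_unitization, isNil_iff_unitization, Unitization.inr_mul, Unitization.inr_mul]
  exact ⟨n1_nil_mul (S := Unitization ℤ R) (M + 1) (unitization_com M h) ha _,
    n1_nil_mul' (S := Unitization ℤ R) (M + 1) (unitization_com M h) ha _⟩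

theorem isNil_add_assoc (M : ℕ) (h : ∀ x y : R, pw (com x y) M = 0) {a b : R} (ha : IsNil a)
    (hb : IsNil b) : IsNil (a + b) := by
  rw [isNil_iff_unitization] at ha hb
  rw [isNil_iff_unitization, Unitization.inr_add]
  exact n1_nil_add (S := Unitization ℤ R) (M + 1) (unitization_com M h) ha hb

end transfer

section alt

variable {A : Type*} [NonUnitalNonAssocRing A] [IsAlt A]

theorem twoRing_pw (x y : A) (a : twoRing x y) (k : ℕ) :
    ((pw a k : twoRing x y) : A) = pw (a : A) k := by
  induction k with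
  | zero => rfl
  | succ k ih => rw [pw_succ, pw_succ, ← ih]; rfl

theorem twoRing_isNil (x y : A) (a : twoRing x y) : IsNil a ↔ IsNil (a : A) := by
  constructor
  · rintro ⟨k, hk⟩
    exact ⟨k, by rw [← twoRing_pw, hk]; rfl⟩
  · rintro ⟨k, hk⟩
    exact ⟨k, Subtype.ext (by rw [twoRing_pw, hk]; rfl)⟩

theorem twoRing_com (x y : A) (M : ℕ) (h : ∀ x y : A, pw (com x y) M = 0)
    (a b : twoRing x y) : pw (com a b) M = 0 := by
  apply Subtype.ext
  rw [twoRing_pw]
  exact h a b

theorem isNil_mul (M : ℕ) (h : ∀ x y : A, pw (com x y) M = 0) {a : A} (ha : IsNil a)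
    (b : A) : IsNil (a * b) ∧ IsNil (b * a) := by
  let a' : twoRing a b := ⟨a, left_mem_twoGen a b⟩
  let b' : twoRing a b := ⟨b, right_mem_twoGen a b⟩
  have h1 : IsNil a' := (twoRing_isNil a b a').2 ha
  have h2 := isNil_mul_assoc M (twoRing_com a b M h) h1 b'
  exact ⟨(twoRing_isNil a b _).1 h2.1, (twoRing_isNil a b _).1 h2.2⟩

theorem isNil_add (M : ℕ) (h : ∀ x y : A, pw (com x y) M = 0) {a b : A} (ha : IsNil a)
    (hb : IsNil b) : IsNil (a + b) := by
  let a' : twoRing a b := ⟨a, left_mem_twoGen a b⟩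
  let b' : twoRing a b := ⟨b, right_mem_twoGen a b⟩
  have h1 : IsNil a' := (twoRing_isNil a b a').2 ha
  have h2 : IsNil b' := (twoRing_isNil a b b').2 hb
  exact (twoRing_isNil a b _).1 (isNil_add_assoc M (twoRing_com a b M h) h1 h2)

omit [IsAlt A] in
theorem isNil_neg {a : A} (ha : IsNil a) : IsNil (-a) := by
  obtain ⟨k, hk⟩ := ha
  have h1 : ∀ j : ℕ, pw (-a) j = pw a j ∨ pw (-a) j = -pw a j := by
    intro j
    induction j with
    | zero => exact Or.inr rfl
    | succ j ih =>
      rw [pw_succ, pw_succ]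
      rcases ih with h | h
      · right; rw [h, mul_neg]
      · left; rw [h, neg_mul_neg]
  refine ⟨k, ?_⟩
  rcases h1 k with h | h
  · rw [h, hk]
  · rw [h, hk, neg_zero]

/-- The ideal of nilpotent elements. -/
def nilIdeal (M : ℕ) (h : ∀ x y : A, pw (com x y) M = 0) : AddSubgroup A where
  carrier := {a | IsNil a}
  zero_mem' := ⟨0, rfl⟩
  add_mem' := fun ha hb => isNil_add M h ha hb
  neg_mem' := fun ha => isNil_neg ha

theorem mem_nilIdeal (M : ℕ) (h : ∀ x y : A, pw (com x y) M = 0) (a : A) :
    a ∈ nilIdeal M h ↔ IsNil a := Iff.rfl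

theorem isIdeal_nilIdeal (M : ℕ) (h : ∀ x y : A, pw (com x y) M = 0) :
    IsIdeal (nilIdeal M h) where
  left := fun a _ hx => (isNil_mul M h hx a).2
  right := fun a _ hx => (isNil_mul M h hx a).1

theorem com_mem_nilIdeal (M : ℕ) (h : ∀ x y : A, pw (com x y) M = 0) (x y : A) :
    com x y ∈ nilIdeal M h := ⟨M, h x y⟩

/-- The powers of a power. -/
theorem isNil_of_sq {a : A} (ha : IsNil (a * a)) : IsNil a := by
  -- inside the associative ring generated by a
  let a' : twoRing a a := ⟨a, left_mem_twoGen a a⟩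
  have h1 : IsNil (a' * a') := (twoRing_isNil a a _).2 ha
  have h2 : IsNilpotent ((a' : twoRing a a) : Unitization ℤ (twoRing a a)) := by
    rw [isNil_iff_unitization, Unitization.inr_mul] at h1
    obtain ⟨k, hk⟩ := h1
    exact ⟨2 * k, by rw [pow_mul, pow_two, hk]⟩
  exact (twoRing_isNil a a a').1 ((isNil_iff_unitization a').2 h2)

/-- Squares of associators vanish in commutative alternative rings. -/
theorem asc_sq_eq_zero_of_comm {B : Type*} [NonUnitalNonAssocRing B] [IsAlt B]
    (hc : ∀ x y : B, com x y = 0) (x y z : B) : asc x y z * asc x y z = 0 := by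
  have hD : asc x y (asc x y z) = 0 := by rw [D_D, hc, zero_mul]
  have hmul : ∀ a b : B, asc x y (a * b) = a * asc x y b + asc x y a * b := by
    intro a b
    rw [D_mul, hc, asc_zero_left, sub_zero]
  have h1 : asc x y (asc x y (z * z)) = asc x y z * asc x y z + asc x y z * asc x y z := by
    rw [hmul, asc_add_right, hmul, hmul, hD, mul_zero, zero_mul, zero_add, add_zero]
  have h2 : asc x y (asc x y (z * z)) = 0 := by rw [D_D, hc, zero_mul]
  have h3 := com_mul_left x y z
  rw [hc, hc, hc] at h3
  have h4 : (3 : ℤ) • asc x y z = 0 := by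
    simpa using h3.symm
  have h5 : (3 : ℤ) • (asc x y z * asc x y z) = 0 := by
    rw [← smul_mul_assoc, h4, zero_mul]
  have h6 : (2 : ℤ) • (asc x y z * asc x y z) = 0 := by
    rw [two_smul, ← h1, h2]
  have h7 : asc x y z * asc x y z = (3 : ℤ) • (asc x y z * asc x y z)
      - (2 : ℤ) • (asc x y z * asc x y z) := by
    rw [← sub_smul]; norm_num
  rw [h7, h5, h6, sub_zero]

theorem asc_mem_nilIdeal (M : ℕ) (h : ∀ x y : A, pw (com x y) M = 0) (x y z : A) :
    asc x y z ∈ nilIdeal M h := by
  have hI := isIdeal_nilIdeal M h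
  have hc : ∀ a b : hI.Quot, com a b = 0 := by
    intro a b
    obtain ⟨a, rfl⟩ := hI.toQ_surj a
    obtain ⟨b, rfl⟩ := hI.toQ_surj b
    rw [← hI.toQ_com, hI.toQ_eq_zero]
    exact com_mem_nilIdeal M h a b
  have h1 := asc_sq_eq_zero_of_comm hc (hI.toQ x) (hI.toQ y) (hI.toQ z)
  rw [← hI.toQ_asc, ← hI.toQ_mul, hI.toQ_eq_zero] at h1
  exact isNil_of_sq h1

/-- **Nil part of Level 1**: the ideal generated by commutators and associators is nil. -/
theorem T_nil (M : ℕ) (h : ∀ x y : A, pw (com x y) M = 0) :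
    ∀ t ∈ Tid A, ∃ k, pw t k = 0 := fun _ ht =>
  Tid_le (isIdeal_nilIdeal M h) (com_mem_nilIdeal M h) (asc_mem_nilIdeal M h) ht

end alt

end ALT
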