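import Pool.Agent.ALT.N2a
import Pool.Agent.ALT.L1c0
import Pool.Agent.ALT.Artin
import Pool.Agent.H6.ALT.Words

/-!
Project ALT (MP_643ad6_al), Level 1 (helper3): the multilinear identity `PId` for the image of a
special Jordan representation of an alternative ring with `[x,y]^(2k+2) = 0`.
-/

set_option autoImplicit false

namespace ALT

open Finset Pool.Agent.H6.ALT

section words

variable {E : Type*} [Ring E]

theorem prod_ofFn_two {K : ℕ} (g : Fin (K * 2) → E) :
    (List.ofFn g).prod = (List.ofFn fun i : Fin K =>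
      g (finProdFinEquiv (i, 0)) * g (finProdFinEquiv (i, 1))).prod := by
  rw [List.ofFn_mul, List.prod_flatten, List.map_ofFn]
  congr 2
  funext i
  simp only [Function.comp, List.ofFn_succ, List.ofFn_zero, List.prod_cons, List.prod_nil,
    mul_one]
  congr 2
  · apply Fin.ext; simp [finProdFinEquiv, mul_comm]
  · apply Fin.ext; simp [finProdFinEquiv, mul_comm, add_comm]

/-- the two mixed factors -/
def dfac {K : ℕ} (x y : Fin K → E) (a b : Fin K) (e : Bool) : E :=
  if e then -(y b * x a) else x a * y b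

theorem mixQ_expand {K : ℕ} (x y : Fin K → E) (r : Fin K → Fin K × Fin K) :
    mixQ x y r = ∑ ε : Fin K → Bool,
      (List.ofFn fun i => dfac x y (r i).1 (r i).2 (ε i)).prod := by
  have h := (MultilinearMap.mkPiAlgebraFin ℤ K E).map_sum
    (fun (i : Fin K) (e : Bool) => dfac x y (r i).1 (r i).2 e)
  simp only [MultilinearMap.mkPiAlgebraFin_apply] at h
  rw [← h]
  unfold mixQ
  congr 2
  funext i
  simp [dfac, sub_eq_neg_add]

/-- The permutation of the letters belonging to bijections `ρ 0`, `ρ 1` and switches `ε`. -/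
def tauP {K : ℕ} (ρ : Fin 2 → Equiv.Perm (Fin K)) (ε : Fin K → Bool) :
    Equiv.Perm (Fin K × Fin 2) :=
  (Equiv.prodShear (Equiv.refl (Fin K))
    (fun i => if ε i then Equiv.swap (0 : Fin 2) 1 else Equiv.refl _)).trans
  ((Equiv.prodComm _ _).trans
    ((Equiv.prodShear (Equiv.refl (Fin 2)) ρ).trans (Equiv.prodComm _ _)))

theorem tauP_apply {K : ℕ} (ρ : Fin 2 → Equiv.Perm (Fin K)) (ε : Fin K → Bool) (i : Fin K)
    (b : Fin 2) : tauP ρ ε (i, b) =
      (ρ (if ε i then Equiv.swap (0 : Fin 2) 1 b else b) i,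
        if ε i then Equiv.swap (0 : Fin 2) 1 b else b) := by
  by_cases h : ε i <;> simp [tauP, h, Equiv.prodShear]

theorem tauP_eq_one {K : ℕ} (ρ : Fin 2 → Equiv.Perm (Fin K)) (ε : Fin K → Bool)
    (h : tauP ρ ε = 1) : (∀ b, ρ b = 1) ∧ ∀ i, ε i = false := by
  have h1 : ∀ i, ε i = false := by
    intro i
    have h2 := tauP_apply ρ ε i 0
    rw [h] at h2
    by_contra h3
    rw [Bool.not_eq_false] at h3
    rw [h3] at h2
    have h4 := congrArg Prod.snd h2
    simp at h4
  refine ⟨fun b => ?_, h1⟩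
  ext i
  have h2 := tauP_apply ρ ε i b
  rw [h, h1 i] at h2
  have h4 := congrArg Prod.fst h2
  simp only [Equiv.Perm.coe_one, id_eq, Bool.false_eq_true, if_false] at h4
  rw [Equiv.Perm.coe_one, id_eq, ← h4]

/-- the permutation of `Fin (K * 2)` -/
def sigP {K : ℕ} (ρ : Fin 2 → Equiv.Perm (Fin K)) (ε : Fin K → Bool) :
    Equiv.Perm (Fin (K * 2)) :=
  (finProdFinEquiv.symm.trans (tauP ρ ε)).trans finProdFinEquiv

theorem sigP_ne_one {K : ℕ} (ρ : Fin 2 → Equiv.Perm (Fin K)) (ε : Fin K → Bool)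
    (h : sigP ρ ε = 1) : (∀ b, ρ b = 1) ∧ ∀ i, ε i = false := by
  refine tauP_eq_one ρ ε ?_
  ext1 p
  have h1 := Equiv.congr_fun h (finProdFinEquiv p)
  simp only [sigP, Equiv.trans_apply, Equiv.symm_apply_apply, Equiv.Perm.coe_one, id_eq,
    EmbeddingLike.apply_eq_iff_eq] at h1
  rw [h1]
  rfl

theorem word_sigP {K : ℕ} (j : Fin (K * 2) → E) (ρ : Fin 2 → Equiv.Perm (Fin K))
    (ε : Fin K → Bool) :
    (List.ofFn fun i => dfac (fun a => j (finProdFinEquiv (a, 0)))
      (fun a => j (finProdFinEquiv (a, 1))) (ρ 0 i) (ρ 1 i) (ε i)).prod =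
      (∏ i, (if ε i then (-1 : ℤ) else 1)) • (List.ofFn (j ∘ sigP ρ ε)).prod := by
  rw [prod_ofFn_two (j ∘ sigP ρ ε)]
  have h := (MultilinearMap.mkPiAlgebraFin ℤ K E).map_smul_univ
    (fun i => if ε i then (-1 : ℤ) else 1)
    (fun i : Fin K => (j ∘ sigP ρ ε) (finProdFinEquiv (i, 0)) *
      (j ∘ sigP ρ ε) (finProdFinEquiv (i, 1)))
  simp only [MultilinearMap.mkPiAlgebraFin_apply] at h
  rw [← h]
  congr 2
  funext i
  simp only [Function.comp, sigP, Equiv.trans_apply, Equiv.symm_apply_apply, tauP_apply]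
  by_cases hi : ε i
  · simp [dfac, hi]
  · simp [dfac, hi]

/-- solved form of the polarised identity -/
theorem polar_solved {Φ : Type*} [CommRing Φ] [Algebra Φ E] {K : ℕ} (J : Submodule Φ E)
    (hJ : ∀ a ∈ J, ∀ b ∈ J, (a * b - b * a) ^ K = 0) : PId Φ J (K * 2) := by
  classical
  intro j hj
  set V := Submodule.span Φ {x | ∃ σ : Equiv.Perm (Fin (K * 2)), σ ≠ 1 ∧
    x = (List.ofFn (j ∘ σ)).prod} with hV
  set x : Fin K → E := fun a => j (finProdFinEquiv (a, 0)) with hx
  set y : Fin K → E := fun a => j (finProdFinEquiv (a, 1)) with hy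
  have h0 := polar J.toAddSubgroup hJ x y (fun i => hj _) (fun i => hj _)
  set t : (Fin K → Fin K × Fin K) → (Fin K → Bool) → E := fun r ε =>
    if Function.Surjective (fun i => (r i).1) ∧ Function.Surjective (fun i => (r i).2)
      then (List.ofFn fun i => dfac x y (r i).1 (r i).2 (ε i)).prod else 0 with ht
  have h1 : ∑ r : Fin K → Fin K × Fin K, ∑ ε : Fin K → Bool, t r ε = 0 := by
    rw [← h0]
    refine Finset.sum_congr rfl fun r _ => ?_
    by_cases hs : Function.Surjective (fun i => (r i).1) ∧ Function.Surjective (fun i => (r i).2)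
    · rw [if_pos hs, mixQ_expand]
      refine Finset.sum_congr rfl fun ε _ => ?_
      simp only [ht]
      rw [if_pos hs]
    · rw [if_neg hs]
      refine Finset.sum_eq_zero fun ε _ => ?_
      simp only [ht]
      rw [if_neg hs]
  rw [← Finset.sum_product', ← Finset.add_sum_erase (univ ×ˢ univ) (fun p => t p.1 p.2)
    (show ((fun i => (i, i), fun _ => false) : (Fin K → Fin K × Fin K) × (Fin K → Bool)) ∈
      (univ ×ˢ univ : Finset _) by simp)] at h1
  have h2 : t (fun i => (i, i)) (fun _ => false) = (List.ofFn j).prod := by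
    have h3 := word_sigP j (fun _ => 1) (fun _ => false)
    have h4 : (sigP (fun _ => (1 : Equiv.Perm (Fin K))) (fun _ => false)) = 1 := by
      ext1 p
      simp only [sigP, Equiv.trans_apply]
      obtain ⟨q, rfl⟩ := finProdFinEquiv.surjective p
      rw [Equiv.symm_apply_apply]
      obtain ⟨i, b⟩ := q
      rw [tauP_apply]
      simp
    rw [h4] at h3
    simp only [Bool.false_eq_true, if_false, Finset.prod_const_one, one_smul,
      Equiv.Perm.coe_one, Function.comp_id, id_eq] at h3
    simp only [ht]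
    rw [if_pos ⟨fun a => ⟨a, rfl⟩, fun a => ⟨a, rfl⟩⟩]
    exact h3
  have h5 : ∀ p ∈ ((univ ×ˢ univ : Finset ((Fin K → Fin K × Fin K) × (Fin K → Bool))).erase
      ((fun i => (i, i)), fun _ => false)), t p.1 p.2 ∈ V := by
    rintro ⟨r, ε⟩ hp
    by_cases hs : Function.Surjective (fun i => (r i).1) ∧ Function.Surjective (fun i => (r i).2)
    · have hb1 := (Finite.injective_iff_surjective.2 hs.1)
      have hb2 := (Finite.injective_iff_surjective.2 hs.2)
      let ρ : Fin 2 → Equiv.Perm (Fin K) := fun b =>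
        if b = 0 then Equiv.ofBijective _ ⟨hb1, hs.1⟩ else Equiv.ofBijective _ ⟨hb2, hs.2⟩
      have h6 := word_sigP j ρ ε
      have h7 : t r ε = (∏ i, (if ε i then (-1 : ℤ) else 1)) •
          (List.ofFn (j ∘ sigP ρ ε)).prod := by
        rw [← h6]
        simp only [ht]
        rw [if_pos hs]
        rfl
      show t r ε ∈ V
      rw [h7]
      have hmem : (List.ofFn (j ∘ sigP ρ ε)).prod ∈ V := by
        refine Submodule.subset_span ⟨sigP ρ ε, ?_, rfl⟩
        intro hone
        obtain ⟨e1, e2⟩ := sigP_ne_one ρ ε hone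
        refine (Finset.mem_erase.1 hp).1 ?_
        refine Prod.ext ?_ ?_
        · funext i
          refine Prod.ext ?_ ?_
          · exact Equiv.congr_fun (e1 0) i
          · exact Equiv.congr_fun (e1 1) i
        · funext i
          exact e2 i
      exact zsmul_mem hmem _
    · simp only [ht]
      rw [if_neg hs]
      exact V.zero_mem
  rw [← h2]
  have h8 := V.sum_mem h5
  have h9 : t (fun i => (i, i)) (fun _ => false) = -∑ p ∈ ((univ ×ˢ univ :
      Finset ((Fin K → Fin K × Fin K) × (Fin K → Bool))).erase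
      ((fun i => (i, i)), fun _ => false)), t p.1 p.2 := by
    rw [eq_neg_iff_add_eq_zero]
    exact h1
  rw [h9]
  exact V.neg_mem h8

end words

section rep

variable {R C E : Type*} [CommRing R] [NonUnitalNonAssocRing C] [IsAlt C] [Module R C]
  [Ring E] [Algebra R E] {l : C →ₗ[R] E}

/-- `[l x, l y]^2 = l ([x,y]^2)` -/
theorem JRep.com_sq' (hl : JRep l) (x y : C) :
    (l x * l y - l y * l x) * (l x * l y - l y * l x) = l (com x y * com x y) := by
  rw [hl.com_sq]
  congr 1
  have key : ∀ a b : twoRing x y, (a * b * a) * b + b * (a * b * a) - a * (b * b) * a -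
      b * (a * a) * b = (a * b - b * a) * (a * b - b * a) := by
    intro a b
    noncomm_ring
  have h1 := key ⟨x, left_mem_twoGen x y⟩ ⟨y, right_mem_twoGen x y⟩
  exact congrArg (fun z : twoRing x y => (z : C)) h1

theorem JRep.com_pow (hl : JRep l) (x y : C) (k : ℕ) :
    (l x * l y - l y * l x) ^ (2 * (k + 1)) = l (ALT.pw (com x y * com x y) k) := by
  rw [pow_mul, pow_two, hl.com_sq', hl.pw]

/-- powers of the square -/
theorem pw_sq (c : C) (k : ℕ) : pw (c * c) k = pw c (2 * k + 1) := by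
  have key : ∀ (a : twoRing c c) (k : ℕ), pw (a * a) k = pw a (2 * k + 1) := by
    intro a k
    induction k with
    | zero => rfl
    | succ k ih =>
      show pw (a * a) k * (a * a) = pw a (2 * k + 1) * a * a
      rw [ih, mul_assoc]
  have hpw : ∀ (a : twoRing c c) (k : ℕ), ((pw a k : twoRing c c) : C) = pw (a : C) k := by
    intro a k
    induction k with
    | zero => rfl
    | succ k ih => rw [pw_succ, pw_succ, ← ih]; rfl
  have h1 := congrArg (fun z : twoRing c c => (z : C)) (key ⟨c, left_mem_twoGen c c⟩ k)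
  simp only [hpw] at h1
  exact h1

theorem PId_of_JRep (hl : JRep l) (k : ℕ) (h : ∀ x y : C, pw (com x y) (2 * k + 1) = 0) :
    ∃ m, PId R (LinearMap.range l) m := by
  refine ⟨_, polar_solved (K := 2 * (k + 1)) (LinearMap.range l) ?_⟩
  rintro _ ⟨x, rfl⟩ _ ⟨y, rfl⟩
  rw [hl.com_pow, pw_sq, h, map_zero]

end rep

end ALT
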