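import Pool.Agent.ALT.L1c5
import Pool.Agent.ALT.N1c
import Pool.Agent.ALT.N2

/-!
# Project ALT, LEVEL 1 (helper66)

THEOREM L1. Let `C` be an alternative algebra over a commutative ring `R` generated by finitely many elements, such
that all commutators satisfy `[a, b]^(M+1) = 0`. Then there is `L` such that every nonassociative product with at
least `L` factors in `Tid C` (the ideal generated by all commutators and all associators) is zero.
-/

set_option autoImplicit false

namespace ALT

open Pool.Agent.H6.ALT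

variable {R C : Type*} [CommRing R] [NonUnitalNonAssocRing C] [Module R C]
  [IsScalarTower R C C] [SMulCommClass R C C] {n : ℕ} [IsAlt C]

theorem pw_eq_zero_of_le {A : Type*} [NonUnitalNonAssocRing A] {x : A} {k k' : ℕ} (h : k ≤ k')
    (hk : pw x k = 0) : pw x k' = 0 := by
  induction h with
  | refl => exact hk
  | step _ ih => rw [pw_succ, ih, zero_mul]

/-- LEVEL 1, tree form -/
theorem L1 {x : Fin n → C} (hx : Gens R x) (M : ℕ) (h : ∀ a b : C, pw (com a b) M = 0) :
    ∃ L : ℕ, ∀ (k : ℕ) (z : C), L ≤ k → IsPr (Tid C) k z → z = 0 := by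
  obtain ⟨m, hP⟩ := PId_of_JRep (Lmap_rep (R := R) (C := C)) M
    (fun a b => pw_eq_zero_of_le (by omega) (h a b))
  exact L1_tree hx (T_nil M h) hP

/-- LEVEL 1, left nested products -/
theorem L1_left {x : Fin n → C} (hx : Gens R x) (M : ℕ) (h : ∀ a b : C, pw (com a b) M = 0) :
    ∃ L : ℕ, ∀ (js : List C) (c : C), (∀ j ∈ js, j ∈ Tid C) → L ≤ js.length →
      js.foldr (· * ·) c = 0 := by
  obtain ⟨L, hL⟩ := L1 hx M h
  exact ⟨L, fun js c hjs hlen => hL _ _ hlen (IsPr.foldr _ js hjs c)⟩

/-- LEVEL 1 for an arbitrary special representation -/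
theorem L1_JRep {E : Type*} [Ring E] [Algebra R E] {l : C →ₗ[R] E} (hl : JRep l)
    {x : Fin n → C} (hx : Gens R x) (M : ℕ) (h : ∀ a b : C, pw (com a b) M = 0) :
    ∃ L : ℕ, ∀ js : List C, (∀ j ∈ js, j ∈ Tid C) → L ≤ js.length → (js.map l).prod = 0 := by
  obtain ⟨m, hP⟩ := PId_of_JRep hl M (fun a b => pw_eq_zero_of_le (by omega) (h a b))
  exact L1_rep hl x hx (T_nil M h) hP

end ALT
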