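import Pool.Agent.ALT.FinalOf
import Pool.Agent.ALT.L1

/-!
The Zhevlakov radical of a finitely generated free alternative algebra over a field is nilpotent.
(project ALT, MP_643ad6_al)
-/

set_option linter.unusedSectionVars false

universe u v

namespace ALT

theorem l1Prop (F : Type v) [Field F] : L1Prop.{u, v} F := by
  intro C _ _ _ _ _ n X hX M h
  obtain ⟨L, hL⟩ := L1_left hX M h
  exact ⟨L, fun js hlen hjs x _ => hL js x hjs hlen.ge⟩

/-- In a finitely generated alternative algebra over a field, an ideal of quasi-regular elements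
contained in the associator ideal is nilpotent. -/
theorem main {F : Type v} [Field F] {A : Type u} [NonUnitalNonAssocRing A] [Module F A]
    [SMulCommClass F A A] [IsScalarTower F A A] [IsAlt A] {n : ℕ} (X : Fin n → A)
    (hX : Gens F X) (J : Submodule F A) (hJ : IsTwoSided J) (hD : ∀ x ∈ J, x ∈ assocIdeal A)
    (hq : ∀ f ∈ J, IsQR f) : ∃ N : ℕ, 0 < N ∧ ∀ x, IsProd (J : Set A) N x → x = 0 :=
  main_of (l1Prop F) pw_com_mem_CC X hX J hJ hD hq

/-- The Zhevlakov radical of the free alternative algebra of rank `n` over a field is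
nilpotent. -/
theorem final (Φ : Type u) [Field Φ] (n : ℕ) :
    ∃ N : ℕ, 0 < N ∧
      ∀ x, IsProd (zhevlakov Φ (FreeAlt Φ (Fin n)) : Set (FreeAlt Φ (Fin n))) N x → x = 0 :=
  final_of (l1Prop Φ) n

end ALT
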