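import Pool.Agent.ALT.Asm
import Pool.Agent.ALT.Artin
import Pool.Agent.ALT.L1c0

/-!
Powers of commutators in the ideal `CC A k`.  (helper26, project ALT, MP_643ad6_al)
-/

set_option linter.unusedSectionVars false

namespace ALT

section
variable {A : Type*} [NonUnitalNonAssocRing A] [IsAlt A]

theorem pw_mem_twoGen (v : A) (k : ℕ) : pw v k ∈ twoGen v v := by
  induction k with
  | zero => exact left_mem_twoGen v v
  | succ k ih => exact mul_mem_twoGen v v ih (left_mem_twoGen v v)

theorem four_eq_pw (v : A) : (v * v) * (v * v) = pw v 3 := by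
  have h := artin v v (a := v * v) (b := v) (c := v)
    (mul_mem_twoGen v v (left_mem_twoGen v v) (left_mem_twoGen v v))
    (left_mem_twoGen v v) (left_mem_twoGen v v)
  rw [asc_def, sub_eq_zero] at h
  rw [← h]
  rfl

theorem four_mul_pw (v : A) (n : ℕ) : (v * v) * (v * v) * pw v n = pw v (n + 4) := by
  induction n with
  | zero => rw [four_eq_pw]; rfl
  | succ n ih =>
    have hc : (v * v) * (v * v) ∈ twoGen v v := by
      rw [four_eq_pw]; exact pw_mem_twoGen v 3
    have h := artin v v hc (pw_mem_twoGen v n) (left_mem_twoGen v v)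
    rw [asc_def, sub_eq_zero] at h
    rw [pw_succ, ← h, ih]
    rfl

theorem cp_v4_eq_pw (p q : A) (k : ℕ) : cp (v4 p q) k (v4 p q) = pw (com p q) (4 * k + 3) := by
  induction k with
  | zero => rw [cp_zero]; exact four_eq_pw _
  | succ k ih =>
    rw [cp_succ, ih]
    exact four_mul_pw (com p q) (4 * k + 3)

theorem pw_com_mem_CC (k : ℕ) (x y : A) : pw (com x y) (4 * k + 3) ∈ CC A k := by
  rw [← cp_v4_eq_pw]
  exact AddSubgroup.subset_closure (Or.inl ⟨x, y, _, rfl⟩)

end

end ALT
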