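import Pool.Agent.ALT.S1c

/-!
# Project ALT (MP_643ad6_al), Step 1d (helper88)

The ideal `M = comNucIdeal A` generated by `[N, A]` and the chain of ideals `nucV A k`:
* `nucV A 0` is the associator ideal, `nucV A (k + 1) ≤ nucV A k`;
* `M * nucV A k`, `nucV A k * M` are contained in `nucV A (k + 1)`;
* if `A` is generated by `n` elements then `nucV A k = ⊥` for `k ≥ 1`, `k + 3 > n`.
-/

set_option autoImplicit false

namespace ALT

section
variable (A : Type*) [NonUnitalNonAssocRing A]

/-- The ideal generated by the commutators `[m, x]`, `m` in the nucleus. -/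
def comNucIdeal : AddSubgroup A :=
  AddSubgroup.closure {d | ∃ m ∈ nucleus A, ∃ x : A, d = com m x ∨ ∃ t : A, d = t * com m x}

/-- The ideal spanned by `Q v` and `t (Q v)`, `Q` a product of `k` elements of `[N, A]`, `v` an
associator. -/
def nucV (k : ℕ) : AddSubgroup A :=
  AddSubgroup.closure {d | ∃ l : List (A × A), NucL l ∧ l.length = k ∧
    ∃ a b c : A, d = adp l (asc a b c) ∨ ∃ t : A, d = t * adp l (asc a b c)}

variable {A}

theorem adp_mem_nucV {l : List (A × A)} (h : NucL l) (a b c : A) :
    adp l (asc a b c) ∈ nucV A l.length :=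
  AddSubgroup.subset_closure ⟨l, h, rfl, a, b, c, Or.inl rfl⟩

theorem mul_adp_mem_nucV {l : List (A × A)} (h : NucL l) (a b c t : A) :
    t * adp l (asc a b c) ∈ nucV A l.length :=
  AddSubgroup.subset_closure ⟨l, h, rfl, a, b, c, Or.inr ⟨t, rfl⟩⟩

variable [IsAlt A]

theorem nucV_left (k : ℕ) (a : A) : ∀ d ∈ nucV A k, a * d ∈ nucV A k := by
  intro d hd
  induction hd using AddSubgroup.closure_induction with
  | mem d hd =>
    obtain ⟨l, hl, rfl, x, y, z, rfl | ⟨t, rfl⟩⟩ := hd
    · exact mul_adp_mem_nucV hl x y z a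
    · have h1 : a * (t * adp l (asc x y z)) = (a * t) * adp l (asc x y z) -
          adp l (asc (asc x y z) a t) := by
        rw [adp_as hl (asc x y z) a t, ← asc_rot' a t, asc_def a t]
        abel
      rw [h1]
      exact sub_mem (mul_adp_mem_nucV hl _ _ _ _) (adp_mem_nucV hl _ _ _)
  | zero => rw [mul_zero]; exact zero_mem _
  | add x y _ _ hx hy => rw [mul_add]; exact add_mem hx hy
  | neg x _ hx => rw [mul_neg]; exact neg_mem hx

theorem com_mul_nucV (k : ℕ) {m : A} (hm : IsNuc m) (x : A) : ∀ d ∈ nucV A k,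
    (m * x - x * m) * d ∈ nucV A (k + 1) := by
  intro d hd
  induction hd using AddSubgroup.closure_induction with
  | mem d hd =>
    obtain ⟨l, hl, rfl, a, b, c, rfl | ⟨t, rfl⟩⟩ := hd
    · have h1 : NucL ((m, x) :: l) := by
        intro p hp
        rcases List.mem_cons.mp hp with rfl | hp
        · exact hm
        · exact hl p hp
      exact adp_mem_nucV h1 a b c
    · have hq := hm.ad x
      have h1 : NucL ((m, x) :: l) := by
        intro p hp
        rcases List.mem_cons.mp hp with rfl | hp
        · exact hm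
        · exact hl p hp
      have h2 : NucL ((m * x - x * m, t) :: l) := by
        intro p hp
        rcases List.mem_cons.mp hp with rfl | hp
        · exact hq
        · exact hl p hp
      have h3 : (m * x - x * m) * (t * adp l (asc a b c)) =
          t * adp ((m, x) :: l) (asc a b c) + adp ((m * x - x * m, t) :: l) (asc a b c) := by
        have h4 := hq.mul₁ t (adp l (asc a b c))
        have h5 := hq.mul₂ t (adp l (asc a b c))
        rw [adp_cons, adp_cons]
        simp only
        rw [sub_mul ((m * x - x * m) * t), h4, h5]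
        abel
      rw [h3]
      exact add_mem (mul_adp_mem_nucV h1 _ _ _ _) (adp_mem_nucV h2 _ _ _)
  | zero => rw [mul_zero]; exact zero_mem _
  | add x y _ _ hx hy => rw [mul_add]; exact add_mem hx hy
  | neg x _ hx => rw [mul_neg]; exact neg_mem hx

theorem adp_mul_mem_nucV {l : List (A × A)} (h : NucL l) (w a b c : A) :
    adp l (w * asc a b c) ∈ nucV A l.length := by
  induction l with
  | nil => exact mul_adp_mem_nucV (l := []) h a b c w
  | cons p l ih =>
    rw [adp_cons, List.length_cons]
    exact com_mul_nucV _ h.head p.2 _ (ih h.tail)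

theorem nucV_right (k : ℕ) (z : A) : ∀ d ∈ nucV A k, d * z ∈ nucV A k := by
  intro d hd
  have key : ∀ {l : List (A × A)} (_ : NucL l) (w x y : A),
      adp l (asc w x y) * z ∈ nucV A l.length := by
    intro l hl w x y
    have h1 : asc w x y * z = asc (w * x) y z - asc w (x * y) z + asc w x (y * z) -
        w * asc x y z := by
      rw [teich]; abel
    rw [← adp_mul hl, h1, sub_eq_add_neg, sub_eq_add_neg, adp_add, adp_add, adp_add, adp_neg,
      adp_neg]
    exact add_mem (add_mem (add_mem (adp_mem_nucV hl _ _ _) (neg_mem (adp_mem_nucV hl _ _ _)))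
      (adp_mem_nucV hl _ _ _)) (neg_mem (adp_mul_mem_nucV hl _ _ _ _))
  induction hd using AddSubgroup.closure_induction with
  | mem d hd =>
    obtain ⟨l, hl, rfl, a, b, c, rfl | ⟨t, rfl⟩⟩ := hd
    · exact key hl a b c
    · have h1 : (t * adp l (asc a b c)) * z = t * (adp l (asc a b c) * z) +
          adp l (asc (asc a b c) z t) := by
        rw [adp_as hl (asc a b c) z t, ← asc_rot t, asc_def t]
        abel
      rw [h1]
      exact add_mem (nucV_left _ _ _ (key hl a b c)) (adp_mem_nucV hl _ _ _)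
  | zero => rw [zero_mul]; exact zero_mem _
  | add x y _ _ hx hy => rw [add_mul]; exact add_mem hx hy
  | neg x _ hx => rw [neg_mul]; exact neg_mem hx

theorem isIdeal_nucV (k : ℕ) : IsIdeal (nucV A k) :=
  ⟨nucV_left k, nucV_right k⟩

theorem mul_com_nucV (k : ℕ) {m : A} (hm : IsNuc m) (x : A) : ∀ d ∈ nucV A k,
    d * (m * x - x * m) ∈ nucV A (k + 1) := by
  intro d hd
  have hq := hm.ad x
  have key : ∀ {l : List (A × A)} (_ : NucL l) (a b c : A),
      adp l (asc a b c) * (m * x - x * m) ∈ nucV A (l.length + 1) := by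
    intro l hl a b c
    rw [← adp_mul hl, ← hq.comm, adp_mul_as hl hq]
    exact com_mul_nucV _ hm x _ (adp_mem_nucV hl _ _ _)
  induction hd using AddSubgroup.closure_induction with
  | mem d hd =>
    obtain ⟨l, hl, rfl, a, b, c, rfl | ⟨t, rfl⟩⟩ := hd
    · exact key hl a b c
    · rw [hq.mul₃]
      exact nucV_left _ _ _ (key hl a b c)
  | zero => rw [zero_mul]; exact zero_mem _
  | add x y _ _ hx hy => rw [add_mul]; exact add_mem hx hy
  | neg x _ hx => rw [neg_mul]; exact neg_mem hx

theorem nucV_succ_le (k : ℕ) : nucV A (k + 1) ≤ nucV A k := by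
  unfold nucV
  rw [AddSubgroup.closure_le]
  rintro d ⟨l, hl, hk, a, b, c, h⟩
  cases l with
  | nil => simp at hk
  | cons p l =>
    have hk' : l.length = k := by simpa using hk
    have h1 : adp (p :: l) (asc a b c) ∈ nucV A k := by
      have h2 : adp (p :: l) (asc a b c) = adp l (asc ((p.1 * p.2 - p.2 * p.1) * a) b c) := by
        rw [adp_cons, ← adp_mul_as hl.tail (hl.head.ad p.2), (hl.head.ad p.2).as_mul₁]
      rw [h2, ← hk']
      exact adp_mem_nucV hl.tail _ _ _
    rcases h with rfl | ⟨t, rfl⟩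
    · exact h1
    · exact nucV_left k t _ h1

theorem mul_nucV (k : ℕ) (m : A) (hm : m ∈ comNucIdeal A) (d : A) (hd : d ∈ nucV A k) :
    m * d ∈ nucV A (k + 1) ∧ d * m ∈ nucV A (k + 1) := by
  induction hm using AddSubgroup.closure_induction with
  | mem m hm =>
    obtain ⟨q, hq, x, rfl | ⟨t, rfl⟩⟩ := hm
    · rw [isNuc_iff] at hq
      exact ⟨com_mul_nucV k hq x d hd, mul_com_nucV k hq x d hd⟩
    · rw [isNuc_iff] at hq
      have h1 := (hq.ad x).mul₂ t d
      have h2 := (hq.ad x).mul₃ d t
      refine ⟨?_, ?_⟩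
      · rw [com_def, h1]
        exact nucV_left _ _ _ (com_mul_nucV k hq x d hd)
      · rw [com_def, ← h2]
        exact mul_com_nucV k hq x _ (nucV_right _ _ _ hd)
  | zero =>
    rw [mul_zero, zero_mul]
    exact ⟨zero_mem _, zero_mem _⟩
  | add x y _ _ hx hy =>
    rw [mul_add, add_mul]
    exact ⟨add_mem hx.1 hy.1, add_mem hx.2 hy.2⟩
  | neg x _ hx =>
    rw [mul_neg, neg_mul]
    exact ⟨neg_mem hx.1, neg_mem hx.2⟩

theorem nucV_zero : nucV A 0 = assocIdeal A := by
  apply le_antisymm
  · unfold nucV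
    rw [AddSubgroup.closure_le]
    rintro d ⟨l, hl, hk, a, b, c, h⟩
    have hl0 : l = [] := List.length_eq_zero_iff.mp hk
    subst hl0
    rcases h with rfl | ⟨t, rfl⟩
    · exact AddSubgroup.subset_closure ⟨a, b, c, Or.inl rfl⟩
    · have h1 : t * asc a b c = asc (t * a) b c - asc t (a * b) c + asc t a (b * c) -
          asc t a b * c := by
        rw [teich]; abel
      rw [adp_nil, h1]
      exact sub_mem (add_mem (sub_mem (AddSubgroup.subset_closure ⟨_, _, _, Or.inl rfl⟩)
        (AddSubgroup.subset_closure ⟨_, _, _, Or.inl rfl⟩))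
        (AddSubgroup.subset_closure ⟨_, _, _, Or.inl rfl⟩))
        (AddSubgroup.subset_closure ⟨_, _, _, Or.inr ⟨_, rfl⟩⟩)
  · unfold assocIdeal
    rw [AddSubgroup.closure_le]
    rintro d ⟨a, b, c, rfl | ⟨t, rfl⟩⟩
    · exact adp_mem_nucV (l := []) (fun p hp => absurd hp List.not_mem_nil) a b c
    · exact nucV_right 0 t _
        (adp_mem_nucV (l := []) (fun p hp => absurd hp List.not_mem_nil) a b c)

/-- The associator ideal is an ideal. -/
theorem isIdeal_assocIdeal : IsIdeal (assocIdeal A) := by
  rw [← nucV_zero]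
  exact isIdeal_nucV 0

/-- `comNucIdeal A` is an ideal. -/
theorem isIdeal_comNucIdeal : IsIdeal (comNucIdeal A) := by
  have h1 : ∀ (m : A), IsNuc m → ∀ x : A, (m * x - x * m) ∈ comNucIdeal A := fun m hm x =>
    AddSubgroup.subset_closure ⟨m, isNuc_iff.mpr hm, x, Or.inl rfl⟩
  have h2 : ∀ (m : A), IsNuc m → ∀ x t : A, t * (m * x - x * m) ∈ comNucIdeal A :=
    fun m hm x t => AddSubgroup.subset_closure ⟨m, isNuc_iff.mpr hm, x, Or.inr ⟨t, rfl⟩⟩
  refine ⟨?_, ?_⟩
  · intro a d hd
    induction hd using AddSubgroup.closure_induction with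
    | mem d hd =>
      obtain ⟨q, hq, x, rfl | ⟨t, rfl⟩⟩ := hd
      · exact h2 q (isNuc_iff.mp hq) x a
      · rw [com_def, ← ((isNuc_iff.mp hq).ad x).mul₃]
        exact h2 q (isNuc_iff.mp hq) x _
    | zero => rw [mul_zero]; exact zero_mem _
    | add x y _ _ hx hy => rw [mul_add]; exact add_mem hx hy
    | neg x _ hx => rw [mul_neg]; exact neg_mem hx
  · intro a d hd
    have key : ∀ m : A, IsNuc m → ∀ x : A, (m * x - x * m) * a ∈ comNucIdeal A := by
      intro m hm x
      have h3 : (m * x - x * m) * a = a * (m * x - x * m) +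
          ((m * x - x * m) * a - a * (m * x - x * m)) := by abel
      rw [h3]
      exact add_mem (h2 m hm x a) (h1 _ (hm.ad x) a)
    have hleft : ∀ t d : A, d ∈ comNucIdeal A → t * d ∈ comNucIdeal A := by
      intro t d hd
      induction hd using AddSubgroup.closure_induction with
      | mem d hd =>
        obtain ⟨q, hq, x, rfl | ⟨s, rfl⟩⟩ := hd
        · exact h2 q (isNuc_iff.mp hq) x t
        · rw [com_def, ← ((isNuc_iff.mp hq).ad x).mul₃]
          exact h2 q (isNuc_iff.mp hq) x _
      | zero => rw [mul_zero]; exact zero_mem _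
      | add x y _ _ hx hy => rw [mul_add]; exact add_mem hx hy
      | neg x _ hx => rw [mul_neg]; exact neg_mem hx
    induction hd using AddSubgroup.closure_induction with
    | mem d hd =>
      obtain ⟨q, hq, x, rfl | ⟨t, rfl⟩⟩ := hd
      · exact key q (isNuc_iff.mp hq) x
      · rw [com_def, ((isNuc_iff.mp hq).ad x).mul₂]
        exact hleft _ _ (key q (isNuc_iff.mp hq) x)
    | zero => rw [zero_mul]; exact zero_mem _
    | add x y _ _ hx hy => rw [add_mul]; exact add_mem hx hy
    | neg x _ hx => rw [neg_mul]; exact neg_mem hx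

end

section main
variable {R A : Type*} [CommRing R] [NonUnitalNonAssocRing A] [Module R A] [IsScalarTower R A A]
  [SMulCommClass R A A] [IsAlt A] {n : ℕ} {X : Fin n → A}

/-- If `A` is generated by `n` elements then more than `n - 3` factors of `M` kill `D`. -/
theorem nucV_eq_bot (hX : Gens R X) (k : ℕ) (hk : 1 ≤ k) (hn : n < k + 3) : nucV A k = ⊥ := by
  unfold nucV
  rw [AddSubgroup.closure_eq_bot_iff]
  rintro d ⟨l, hl, hk', a, b, c, h⟩
  have h1 : adp l (asc a b c) = 0 := by
    refine adp_eq_zero hX l hl ?_ (by omega) a b c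
    rintro rfl
    simp at hk'
    omega
  rcases h with rfl | ⟨t, rfl⟩
  · exact h1
  · rw [Set.mem_singleton_iff, h1, mul_zero]

end main

end ALT
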