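import Pool.Agent.ALT.Basic

/-!
Quasi-regular elements, quasi-regular ideals and the Zhevlakov radical of an alternative algebra:
the sum of all quasi-regular ideals is a quasi-regular ideal, the largest one.
(helper26, project ALT, MP_643ad6_al)
-/

set_option linter.unusedSectionVars false

namespace ALT

/-! ### invertible elements of unital alternative rings -/

section unital

variable {B : Type*} [NonAssocRing B] [IsAlt B]

/-- `v` is a two-sided inverse of `u`. -/
def IsInv (u v : B) : Prop := u * v = 1 ∧ v * u = 1

theorem IsInv.symm {u v : B} (h : IsInv u v) : IsInv v u := ⟨h.2, h.1⟩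

theorem asc_one_left (y z : B) : asc 1 y z = 0 := by simp [asc_def]
theorem asc_one_mid (y z : B) : asc y 1 z = 0 := by simp [asc_def]
theorem asc_one_right (y z : B) : asc y z 1 = 0 := by simp [asc_def]

/-- An element associates with its inverse and anything. -/
theorem IsInv.asc_eq {u v : B} (h : IsInv u v) (z : B) : asc u v z = 0 := by
  have h1 : asc u v z * u = 0 := by
    rw [← mouf1, h.1, asc_one_mid]
  have h2 : u * asc u v z = 0 := by
    rw [← mouf2, h.2, asc_one_mid]
  have h3 : asc u v z * v = 0 := by
    rw [asc_swap12, neg_mul, ← mouf1, h.2, asc_one_mid, neg_zero]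
  have h4 : v * asc u v z = 0 := by
    rw [asc_swap12, mul_neg, ← mouf2, h.1, asc_one_mid, neg_zero]
  have h5 : asc v u (asc u v z) = asc u v z := by
    conv_lhs => rw [asc_def]
    rw [h.2, one_mul, h2, mul_zero, sub_zero]
  have h6 : asc v u (asc u v z) = 0 := by
    rw [asc_rot]
    conv_lhs => rw [asc_def]
    rw [h2, h3, zero_mul, mul_zero, sub_zero]
  rw [← h5, h6]

theorem IsInv.mul_cancel_left {u v : B} (h : IsInv u v) (z : B) : u * (v * z) = z := by
  have := h.asc_eq z
  rw [asc_def, h.1, one_mul, sub_eq_zero] at this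
  exact this.symm

/-- The product of two invertible elements is invertible. -/
theorem IsInv.mul {p p' q q' : B} (hp : IsInv p p') (hq : IsInv q q') :
    IsInv (p * q) (q' * p') := by
  have key : ∀ {p p' q q' : B}, IsInv p p' → IsInv q q' → (p * q) * (q' * p') = 1 := by
    intro p p' q q' hp hq
    have h1 : asc (p * q) q' p' = 0 := by
      have e1 : kf p q q' p' = 0 := by
        have e2 : kf q q' p p' = 0 := by
          -- `(q q', ...)` in Kleinfeld's function
          rw [kf_def, hq.1, asc_one_left, asc_swap12 q p p', asc_swap23 p q p', hp.asc_eq,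
            asc_rot' q' p p', asc_rot' p' q' p, hp.asc_eq]
          simp
        rw [kf_swap12, kf_swap23, e2, neg_neg]
      rw [kf_def] at e1
      have e3 : asc p q' p' = 0 := by
        rw [asc_swap23, hp.asc_eq, neg_zero]
      have e4 : asc q q' p' = 0 := hq.asc_eq _
      rw [e3, e4, mul_zero, zero_mul, sub_zero, sub_zero] at e1
      exact e1
    have h2 : (p * q) * q' = p := by
      have : asc p q q' = 0 := by rw [asc_rot, hq.asc_eq]
      rw [asc_def, hq.1, mul_one, sub_eq_zero] at this
      exact this
    rw [asc_def, h2, hp.1, sub_eq_zero] at h1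
    exact h1.symm
  exact ⟨key hp hq, key hq.symm hp.symm⟩

end unital

/-! ### the unital hull -/

section hull

variable {F : Type*} [CommRing F] {A : Type*} [NonUnitalNonAssocRing A] [Module F A]
  [IsScalarTower F A A] [SMulCommClass F A A] [IsAlt A]

instance : IsAlt (Unitization F A) where
  left := by
    intro x y
    ext
    · simp [mul_assoc]
    · simp only [Unitization.snd_mul, Unitization.fst_mul, mul_add, add_mul, smul_add,
        smul_mul_assoc, mul_smul_comm, IsAlt.left, mul_smul]
      rw [smul_comm y.fst x.fst]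
      abel
  right := by
    intro x y
    ext
    · simp [mul_assoc]
    · simp only [Unitization.snd_mul, Unitization.fst_mul, mul_add, add_mul, smul_add,
        smul_mul_assoc, mul_smul_comm, IsAlt.right, mul_smul]
      rw [smul_comm y.fst x.fst]
      abel

end hull

/-! ### quasi-regular elements -/

section qr

variable {A : Type*} [NonUnitalNonAssocRing A]

/-- `f` is quasi-regular: there is `g` with `f + g = f g = g f`. -/
def IsQR (f : A) : Prop := ∃ g : A, f + g = f * g ∧ f + g = g * f

theorem isQR_zero : IsQR (0 : A) := ⟨0, by simp⟩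

end qr

section radical

variable (F : Type*) [CommRing F] {A : Type*} [NonUnitalNonAssocRing A] [Module F A]
  [IsScalarTower F A A] [SMulCommClass F A A]

/-- `f`, `g` are quasi-inverse iff `1 - f`, `1 - g` are inverse in the unital hull. -/
theorem isInv_iff (f g : A) :
    IsInv (1 - (f : Unitization F A)) (1 - (g : Unitization F A)) ↔
      (f + g = f * g ∧ f + g = g * f) := by
  unfold IsInv
  have e : ∀ f g : A, (1 - (f : Unitization F A)) * (1 - (g : Unitization F A)) = 1 ↔
      f + g = f * g := by
    intro f g
    have e1 : (1 - (f : Unitization F A)) * (1 - (g : Unitization F A)) =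
        1 - ((f + g - f * g : A) : Unitization F A) := by
      rw [sub_eq_add_neg (f + g), Unitization.inr_add, Unitization.inr_add, Unitization.inr_neg,
        Unitization.inr_mul]
      simp only [sub_mul, mul_sub, one_mul, mul_one]
      abel
    rw [e1, sub_eq_self, ← Unitization.inr_zero F (A := A), Unitization.inr_injective.eq_iff,
      sub_eq_zero]
  rw [e f g, e g f, add_comm g f]

variable [IsAlt A]

variable {F} in
/-- Two-sided ideals of an algebra. -/
def IsTwoSided (I : Submodule F A) : Prop := ∀ a : A, ∀ x ∈ I, a * x ∈ I ∧ x * a ∈ I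

variable {F} in
/-- Quasi-regular ideals: two-sided ideals consisting of quasi-regular elements. -/
def IsQRIdeal (I : Submodule F A) : Prop := IsTwoSided I ∧ ∀ f ∈ I, IsQR f

variable {F} in
theorem IsTwoSided.sup {I K : Submodule F A} (hI : IsTwoSided I) (hK : IsTwoSided K) :
    IsTwoSided (I ⊔ K) := by
  intro a x hx
  obtain ⟨y, hy, z, hz, rfl⟩ := Submodule.mem_sup.mp hx
  rw [mul_add, add_mul]
  exact ⟨add_mem (Submodule.mem_sup_left (hI a y hy).1) (Submodule.mem_sup_right (hK a z hz).1),
    add_mem (Submodule.mem_sup_left (hI a y hy).2) (Submodule.mem_sup_right (hK a z hz).2)⟩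

variable {F} in
/-- The sum of two quasi-regular ideals is quasi-regular. -/
theorem IsQRIdeal.sup {I K : Submodule F A} (hI : IsQRIdeal I) (hK : IsQRIdeal K) :
    IsQRIdeal (I ⊔ K) := by
  refine ⟨hI.1.sup hK.1, ?_⟩
  intro f hf
  obtain ⟨a, ha, b, hb, rfl⟩ := Submodule.mem_sup.mp hf
  obtain ⟨a', h1⟩ := hI.2 a ha
  have h1' := (isInv_iff F a a').mpr h1
  -- `1 - a - b = (1 - a) (1 - c)`, `c = b - a' b`
  have hc : b - a' * b ∈ K := sub_mem hb (hK.1 a' b hb).1
  obtain ⟨c', h2⟩ := hK.2 _ hc
  have h2' := (isInv_iff F _ c').mpr h2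
  have h3 : (1 - (a : Unitization F A)) * (1 - ((b - a' * b : A) : Unitization F A)) =
      1 - ((a + b : A) : Unitization F A) := by
    have e : (1 - ((b - a' * b : A) : Unitization F A)) =
        (1 - (a' : Unitization F A)) * (1 - ((a + b : A) : Unitization F A)) := by
      have e1 : (1 - (a' : Unitization F A)) * (1 - ((a + b : A) : Unitization F A)) =
          (1 - (a' : Unitization F A)) * (1 - (a : Unitization F A)) -
            (1 - (a' : Unitization F A)) * (b : Unitization F A) := by
        rw [Unitization.inr_add, ← mul_sub]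
        congr 1
        abel
      rw [e1, h1'.2, sub_eq_add_neg b, Unitization.inr_add, Unitization.inr_neg,
        Unitization.inr_mul]
      simp only [sub_mul, one_mul]
      abel
    rw [e, h1'.mul_cancel_left]
  have h4 := h1'.mul h2'
  rw [h3] at h4
  have h5 : (1 - (c' : Unitization F A)) * (1 - (a' : Unitization F A)) =
      1 - ((c' + a' - c' * a' : A) : Unitization F A) := by
    rw [sub_eq_add_neg (c' + a'), Unitization.inr_add, Unitization.inr_add, Unitization.inr_neg,
      Unitization.inr_mul]
    simp only [sub_mul, mul_sub, one_mul, mul_one]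
    abel
  rw [h5, isInv_iff] at h4
  exact ⟨_, h4⟩

variable {F} in
theorem isQRIdeal_bot : IsQRIdeal (⊥ : Submodule F A) := by
  refine ⟨?_, ?_⟩
  · intro a x hx
    rw [Submodule.mem_bot] at hx
    subst hx
    simp
  · intro f hf
    rw [Submodule.mem_bot] at hf
    subst hf
    exact isQR_zero

variable (A) in
/-- The Zhevlakov radical: the sum of all quasi-regular ideals. -/
def zhevlakov : Submodule F A := sSup {I : Submodule F A | IsQRIdeal I}

theorem mem_zhevlakov {x : A} :
    x ∈ zhevlakov F A ↔ ∃ I : Submodule F A, IsQRIdeal I ∧ x ∈ I := by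
  unfold zhevlakov
  rw [Submodule.mem_sSup_of_directed]
  · simp
  · exact ⟨⊥, isQRIdeal_bot⟩
  · intro I hI K hK
    exact ⟨I ⊔ K, IsQRIdeal.sup hI hK, le_sup_left, le_sup_right⟩

/-- The Zhevlakov radical is a quasi-regular ideal. -/
theorem zhevlakov_isQRIdeal : IsQRIdeal (zhevlakov F A) := by
  refine ⟨?_, ?_⟩
  · intro a x hx
    obtain ⟨I, hI, hxI⟩ := (mem_zhevlakov F).mp hx
    exact ⟨(mem_zhevlakov F).mpr ⟨I, hI, (hI.1 a x hxI).1⟩,
      (mem_zhevlakov F).mpr ⟨I, hI, (hI.1 a x hxI).2⟩⟩
  · intro f hf
    obtain ⟨I, hI, hfI⟩ := (mem_zhevlakov F).mp hf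
    exact hI.2 f hfI

/-- The Zhevlakov radical is the largest quasi-regular ideal. -/
theorem zhevlakov_isGreatest : IsGreatest {I : Submodule F A | IsQRIdeal I} (zhevlakov F A) :=
  ⟨zhevlakov_isQRIdeal F, fun _ hI => le_sSup hI⟩

end radical

end ALT
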