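import Pool.Agent.ALT.FreeAlt
import Pool.Agent.ALT.ZRad
import Pool.Agent.ALT.S1d

/-!
The Zhevlakov radical of a free alternative algebra over a field (a domain suffices) is contained
in the associator ideal.  (helper26, project ALT, MP_643ad6_al)
-/

set_option linter.unusedSectionVars false
set_option linter.unusedVariables false

noncomputable section

namespace ALT

open Polynomial

/-- Associative algebras are alternative. -/
instance (priority := low) isAlt_of_assoc (A : Type*) [NonUnitalRing A] : IsAlt A where
  left x y := mul_assoc _ _ _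
  right x y := mul_assoc _ _ _

section toFree

variable (R : Type*) (X : Type*) [CommRing R]

/-- The canonical homomorphism of the free alternative algebra to the free associative algebra. -/
def toFree : FreeAlt R X →ₙₐ[R] FreeAlgebra R X := FreeAlt.lift R (FreeAlgebra.ι R)

@[simp] theorem toFree_of (x : X) : toFree R X (FreeAlt.of R x) = FreeAlgebra.ι R x :=
  FreeAlt.lift_of R _ x

/-- The grading homomorphism `x ↦ x T`. -/
def gradT : FreeAlgebra R X →ₐ[R] (FreeAlgebra R X)[X] :=
  FreeAlgebra.lift R fun x => C (FreeAlgebra.ι R x) * Polynomial.X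

theorem coeff_zero_gradT (a : FreeAlt R X) : (gradT R X (toFree R X a)).coeff 0 = 0 := by
  induction a using FreeAlt.induction with
  | h0 => simp
  | hof x => simp [gradT]
  | hadd a b ha hb => rw [map_add, map_add, coeff_add, ha, hb, add_zero]
  | hsmul t a ha => rw [map_smul, map_smul, coeff_smul, ha, smul_zero]
  | hmul a b ha hb => rw [map_mul, map_mul, mul_coeff_zero, ha, zero_mul]

theorem eval_one_gradT (u : FreeAlgebra R X) : (gradT R X u).eval 1 = u := by
  have h : (eval₂AlgHom (AlgHom.id R (FreeAlgebra R X)) 1 (fun a => Commute.one_right a)).comp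
      (gradT R X) = AlgHom.id R (FreeAlgebra R X) := by
    apply FreeAlgebra.hom_ext
    ext x
    change eval 1 (gradT R X (FreeAlgebra.ι R x)) = FreeAlgebra.ι R x
    rw [gradT, FreeAlgebra.lift_ι_apply, eval_mul_X, eval_C, mul_one]
  exact DFunLike.congr_fun h u

theorem toFree_eq_zero_of_isQR [IsDomain R] (f : FreeAlt R X) (hf : IsQR f) :
    toFree R X f = 0 := by
  obtain ⟨g, h1, -⟩ := hf
  have h2 : (1 - gradT R X (toFree R X f)) * (1 - gradT R X (toFree R X g)) = 1 := by
    have := congrArg (fun a => gradT R X (toFree R X a)) h1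
    simp only [map_add, map_mul] at this
    simp only [sub_mul, mul_sub, one_mul, mul_one]
    linear_combination (norm := abel) (-1 : ℤ) • this
  have h3 : (1 - gradT R X (toFree R X f)).natDegree = 0 := by
    have h4 : 1 - gradT R X (toFree R X f) ≠ 0 := left_ne_zero_of_mul_eq_one h2
    have h5 : 1 - gradT R X (toFree R X g) ≠ 0 := right_ne_zero_of_mul_eq_one h2
    have h6 := natDegree_mul h4 h5
    rw [h2, natDegree_one] at h6
    omega
  have h7 : (gradT R X (toFree R X f)) = 0 := by
    have h8 := eq_C_of_natDegree_eq_zero h3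
    rw [coeff_sub, coeff_one_zero, coeff_zero_gradT, sub_zero, map_one] at h8
    simpa using h8
  rw [← eval_one_gradT R X (toFree R X f), h7, eval_zero]

end toFree

section ker

variable (R : Type*) [CommRing R] {A : Type*} [NonUnitalNonAssocRing A] [Module R A]
  [IsScalarTower R A A] [SMulCommClass R A A]

theorem rd_asc_smul (c : R) (x y z : A) : asc (c • x) y z = c • asc x y z := by
  simp only [asc_def, smul_mul_assoc, smul_sub]

theorem rd_smul_mem (c : R) {d : A} (hd : d ∈ assocIdeal A) : c • d ∈ assocIdeal A := by
  induction hd using AddSubgroup.closure_induction with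
  | mem d hd =>
    obtain ⟨x, y, z, rfl | ⟨t, rfl⟩⟩ := hd
    · rw [← rd_asc_smul]
      exact AddSubgroup.subset_closure ⟨_, _, _, Or.inl rfl⟩
    · rw [← smul_mul_assoc, ← rd_asc_smul]
      exact AddSubgroup.subset_closure ⟨_, _, _, Or.inr ⟨_, rfl⟩⟩
  | zero => rw [smul_zero]; exact zero_mem _
  | add x y _ _ hx hy => rw [smul_add]; exact add_mem hx hy
  | neg x _ hx => rw [smul_neg]; exact neg_mem hx

variable (A) in
/-- The associator ideal as a submodule. -/
def assocSub : Submodule R A where
  carrier := {d | d ∈ assocIdeal A}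
  zero_mem' := (assocIdeal A).zero_mem
  add_mem' := fun ha hb => (assocIdeal A).add_mem ha hb
  smul_mem' := fun c _ hd => rd_smul_mem R c hd

theorem mem_assocSub {d : A} : d ∈ assocSub R A ↔ d ∈ assocIdeal A := Iff.rfl

theorem asc_mem_assocIdeal (x y z : A) : asc x y z ∈ assocIdeal A :=
  AddSubgroup.subset_closure ⟨_, _, _, Or.inl rfl⟩

variable [IsAlt A]

/-- Left multiplication modulo the associator ideal. -/
def lq (a : A) : (A ⧸ assocSub R A) →ₗ[R] (A ⧸ assocSub R A) :=
  (assocSub R A).mapQ (assocSub R A) (LinearMap.mulLeft R a)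
    (fun d hd => isIdeal_assocIdeal.left a d hd)

theorem lq_mk (a b : A) : lq R a (Submodule.Quotient.mk b) = Submodule.Quotient.mk (a * b) := rfl

/-- The regular representation of the unital hull of `A` modulo the associator ideal. -/
def regRep : A →ₙₐ[R] Module.End R (R × (A ⧸ assocSub R A)) where
  toFun a := LinearMap.prod 0
    ((LinearMap.toSpanSingleton R (A ⧸ assocSub R A) (Submodule.Quotient.mk a)).comp
      (LinearMap.fst R R (A ⧸ assocSub R A)) + (lq R a).comp
      (LinearMap.snd R R (A ⧸ assocSub R A)))
  map_smul' c a := by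
    apply LinearMap.ext
    rintro ⟨t, ⟨b⟩⟩
    apply Prod.ext
    · simp
    · change t • (Submodule.Quotient.mk (c • a)) + lq R (c • a) (Submodule.Quotient.mk b) =
        c • (t • (Submodule.Quotient.mk a) + lq R a (Submodule.Quotient.mk b))
      rw [lq_mk, lq_mk, smul_mul_assoc, Submodule.Quotient.mk_smul, Submodule.Quotient.mk_smul,
        smul_add, smul_comm]
  map_zero' := by
    apply LinearMap.ext
    rintro ⟨t, ⟨b⟩⟩
    apply Prod.ext
    · simp
    · change t • (Submodule.Quotient.mk (0 : A)) + lq R (0 : A) (Submodule.Quotient.mk b) = 0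
      rw [lq_mk, zero_mul, Submodule.Quotient.mk_zero, smul_zero, add_zero]
  map_add' a a' := by
    apply LinearMap.ext
    rintro ⟨t, ⟨b⟩⟩
    apply Prod.ext
    · simp
    · change t • (Submodule.Quotient.mk (a + a')) + lq R (a + a') (Submodule.Quotient.mk b) =
        (t • (Submodule.Quotient.mk a) + lq R a (Submodule.Quotient.mk b)) +
        (t • (Submodule.Quotient.mk a') + lq R a' (Submodule.Quotient.mk b))
      rw [lq_mk, lq_mk, lq_mk, add_mul, Submodule.Quotient.mk_add, Submodule.Quotient.mk_add,
        smul_add]
      abel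
  map_mul' a a' := by
    apply LinearMap.ext
    rintro ⟨t, ⟨b⟩⟩
    apply Prod.ext
    · simp
    · change t • (Submodule.Quotient.mk (a * a')) + lq R (a * a') (Submodule.Quotient.mk b) =
        (0 : R) • (Submodule.Quotient.mk a) +
          lq R a (t • (Submodule.Quotient.mk a') + lq R a' (Submodule.Quotient.mk b))
      rw [map_add, map_smul, lq_mk, lq_mk, lq_mk, lq_mk, zero_smul, zero_add]
      congr 1
      rw [Submodule.Quotient.eq]
      exact asc_mem_assocIdeal a a' b

theorem mem_assocIdeal_of_toFree_eq_zero (X : Type*) (f : FreeAlt R X)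
    (hf : toFree R X f = 0) : f ∈ assocIdeal (FreeAlt R X) := by
  have h : ∀ a : FreeAlt R X, FreeAlgebra.lift R (fun x => regRep R (FreeAlt.of R x))
      (toFree R X a) = regRep R a := by
    intro a
    induction a using FreeAlt.induction with
    | h0 => simp
    | hof x => simp
    | hadd a b ha hb => rw [map_add, map_add, map_add, ha, hb]
    | hsmul t a ha => rw [map_smul, map_smul, map_smul, ha]
    | hmul a b ha hb => rw [map_mul, map_mul, map_mul, ha, hb]
  have h1 := h f
  rw [hf, map_zero] at h1
  have h2 : regRep R f (1, 0) = 0 := by rw [← h1]; rfl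
  have h3 : (regRep R f (1, 0)).2 = Submodule.Quotient.mk f := by
    change (1 : R) • (Submodule.Quotient.mk f) + lq R f 0 = _
    rw [map_zero, add_zero, one_smul]
  rw [h2] at h3
  have h4 : (Submodule.Quotient.mk f : FreeAlt R X ⧸ assocSub R (FreeAlt R X)) = 0 := h3.symm
  rw [Submodule.Quotient.mk_eq_zero] at h4
  exact h4

/-- Quasi-regular elements of a free alternative algebra lie in the associator ideal. -/
theorem mem_assocIdeal_of_isQR [IsDomain R] (X : Type*) (f : FreeAlt R X) (hf : IsQR f) :
    f ∈ assocIdeal (FreeAlt R X) :=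
  mem_assocIdeal_of_toFree_eq_zero R X f (toFree_eq_zero_of_isQR R X f hf)

theorem gens_of (X : Type*) : Gens R (FreeAlt.of R : X → FreeAlt R X) := by
  intro S h1 h2
  rw [eq_top_iff]
  intro a _
  induction a using FreeAlt.induction with
  | h0 => exact S.zero_mem
  | hof x => exact h1 x
  | hadd a b ha hb => exact S.add_mem (ha trivial) (hb trivial)
  | hsmul t a ha => exact S.smul_mem t (ha trivial)
  | hmul a b ha hb => exact h2 a (ha trivial) b (hb trivial)

end ker

end ALT
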