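import Pool.Agent.ALT.MainAsm
import Pool.Agent.ALT.PwC
import Pool.Agent.ALT.RadD

/-!
The Zhevlakov radical of a finitely generated free alternative algebra over a field is nilpotent
(given Level 1).  (helper26, project ALT, MP_643ad6_al)
-/

set_option linter.unusedSectionVars false

universe u

namespace ALT

theorem final_of {Φ : Type u} [Field Φ] (hL1 : L1Prop.{u, u} Φ) (n : ℕ) :
    ∃ N : ℕ, 0 < N ∧
      ∀ x, IsProd (zhevlakov Φ (FreeAlt Φ (Fin n)) : Set (FreeAlt Φ (Fin n))) N x → x = 0 := by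
  have hz := zhevlakov_isQRIdeal Φ (A := FreeAlt Φ (Fin n))
  exact main_of hL1 pw_com_mem_CC (FreeAlt.of Φ) (gens_of Φ (Fin n))
    (zhevlakov Φ (FreeAlt Φ (Fin n))) hz.1
    (fun x hx => mem_assocIdeal_of_isQR Φ (Fin n) x (hz.2 x hx)) hz.2

end ALT
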