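import Pool.Agent.ALT.Basic

/-!
The free alternative algebra `FreeAlt R X` on a set `X` over a commutative ring `R`: the quotient of
the free nonassociative algebra (Mathlib's `FreeNonUnitalNonAssocAlgebra R X`) by the smallest
congruence forcing the two alternative laws.  Universal property, generation by `X`.
(helper26, project ALT, MP_643ad6_al)
-/

noncomputable section

namespace ALT

section FreeAltDef

variable (R : Type*) (X : Type*) [CommRing R]

/-- The relation on the free nonassociative algebra whose generated equivalence relation defines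
the free alternative algebra. -/
inductive FARel : FreeNonUnitalNonAssocAlgebra R X → FreeNonUnitalNonAssocAlgebra R X → Prop
  | left_alt (a b : FreeNonUnitalNonAssocAlgebra R X) : FARel ((a * a) * b) (a * (a * b))
  | right_alt (a b : FreeNonUnitalNonAssocAlgebra R X) : FARel ((b * a) * a) (b * (a * a))
  | smul (t : R) {a b : FreeNonUnitalNonAssocAlgebra R X} : FARel a b → FARel (t • a) (t • b)
  | add_right {a b : FreeNonUnitalNonAssocAlgebra R X} (c : FreeNonUnitalNonAssocAlgebra R X) :
      FARel a b → FARel (a + c) (b + c)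
  | mul_left (a : FreeNonUnitalNonAssocAlgebra R X) {b c : FreeNonUnitalNonAssocAlgebra R X} :
      FARel b c → FARel (a * b) (a * c)
  | mul_right {a b : FreeNonUnitalNonAssocAlgebra R X} (c : FreeNonUnitalNonAssocAlgebra R X) :
      FARel a b → FARel (a * c) (b * c)

variable {R X}

theorem FARel.addLeft (a : FreeNonUnitalNonAssocAlgebra R X)
    {b c : FreeNonUnitalNonAssocAlgebra R X} (h : FARel R X b c) :
    FARel R X (a + b) (a + c) := by
  rw [add_comm _ b, add_comm _ c]; exact h.add_right _

theorem FARel.neg {a b : FreeNonUnitalNonAssocAlgebra R X} (h : FARel R X a b) :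
    FARel R X (-a) (-b) := by
  simpa only [neg_one_smul] using h.smul (-1)

theorem FARel.subLeft (a : FreeNonUnitalNonAssocAlgebra R X)
    {b c : FreeNonUnitalNonAssocAlgebra R X} (h : FARel R X b c) :
    FARel R X (a - b) (a - c) := by
  simpa only [sub_eq_add_neg] using h.neg.addLeft a

theorem FARel.subRight {a b : FreeNonUnitalNonAssocAlgebra R X}
    (c : FreeNonUnitalNonAssocAlgebra R X) (h : FARel R X a b) :
    FARel R X (a - c) (b - c) := by
  simpa only [sub_eq_add_neg] using h.add_right (-c)

theorem FARel.smulOfTower {S : Type*} [Monoid S] [DistribMulAction S R] [IsScalarTower S R R]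
    (t : S) (a b : FreeNonUnitalNonAssocAlgebra R X) (h : FARel R X a b) :
    FARel R X (t • a) (t • b) := by
  rw [← smul_one_smul R t a, ← smul_one_smul R t b]
  exact h.smul _

variable (R X)

/-- The free alternative `R`-algebra on the set `X` (non unital, as in the theory of alternative
algebras: its elements are linear combinations of nonempty nonassociative words). -/
def FreeAlt : Type _ := Quot (FARel R X)

end FreeAltDef

namespace FreeAlt

variable (R : Type*) (X : Type*) [CommRing R]

instance : Inhabited (FreeAlt R X) := ⟨Quot.mk _ 0⟩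

instance {S : Type*} [Monoid S] [DistribMulAction S R] [IsScalarTower S R R] :
    SMul S (FreeAlt R X) where smul t := Quot.map (t • ·) (FARel.smulOfTower t)

instance : Zero (FreeAlt R X) where zero := Quot.mk _ 0

instance : Add (FreeAlt R X) where
  add := Quot.map₂ (· + ·) (fun _ _ _ => FARel.addLeft _) fun _ _ _ => FARel.add_right _

instance : Neg (FreeAlt R X) where neg := Quot.map Neg.neg fun _ _ => FARel.neg

instance : Sub (FreeAlt R X) where
  sub := Quot.map₂ Sub.sub (fun _ _ _ => FARel.subLeft _) fun _ _ _ => FARel.subRight _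

instance : AddGroup (FreeAlt R X) :=
  Function.Surjective.addGroup (Quot.mk _) Quot.mk_surjective rfl (fun _ _ => rfl)
    (fun _ => rfl) (fun _ _ => rfl) (fun _ _ => rfl) fun _ _ => rfl

instance : AddCommSemigroup (FreeAlt R X) :=
  Function.Surjective.addCommSemigroup (Quot.mk _) Quot.mk_surjective fun _ _ => rfl

instance : AddCommGroup (FreeAlt R X) :=
  { (inferInstance : AddGroup (FreeAlt R X)),
    (inferInstance : AddCommSemigroup (FreeAlt R X)) with }

instance {S : Type*} [Semiring S] [Module S R] [IsScalarTower S R R] :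
    Module S (FreeAlt R X) :=
  Function.Surjective.module S ⟨⟨Quot.mk (FARel R X), rfl⟩, fun _ _ => rfl⟩
    Quot.mk_surjective (fun _ _ => rfl)

instance : Mul (FreeAlt R X) where
  mul := Quot.map₂ (· * ·) (fun _ _ _ => FARel.mul_left _) fun _ _ _ => FARel.mul_right _

instance : NonUnitalNonAssocRing (FreeAlt R X) :=
  { (inferInstance : AddCommGroup (FreeAlt R X)), (inferInstance : Mul (FreeAlt R X)) with
    left_distrib := by
      rintro ⟨a⟩ ⟨b⟩ ⟨c⟩; change Quot.mk _ _ = Quot.mk _ _; simp_rw [mul_add]
    right_distrib := by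
      rintro ⟨a⟩ ⟨b⟩ ⟨c⟩; change Quot.mk _ _ = Quot.mk _ _; simp_rw [add_mul]
    zero_mul := by
      rintro ⟨a⟩; change Quot.mk _ _ = Quot.mk _ _; simp_rw [zero_mul]
    mul_zero := by
      rintro ⟨a⟩; change Quot.mk _ _ = Quot.mk _ _; simp_rw [mul_zero] }

instance : IsScalarTower R (FreeAlt R X) (FreeAlt R X) where
  smul_assoc := by
    rintro t ⟨a⟩ ⟨b⟩
    change Quot.mk _ ((t • a) * b) = Quot.mk _ (t • (a * b))
    rw [smul_mul_assoc]

instance : SMulCommClass R (FreeAlt R X) (FreeAlt R X) where
  smul_comm := by
    rintro t ⟨a⟩ ⟨b⟩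
    change Quot.mk _ (t • (a * b)) = Quot.mk _ (a * (t • b))
    rw [mul_smul_comm]

instance : IsAlt (FreeAlt R X) where
  left := by rintro ⟨a⟩ ⟨b⟩; exact Quot.sound (FARel.left_alt a b)
  right := by rintro ⟨a⟩ ⟨b⟩; exact Quot.sound (FARel.right_alt a b)

variable {X}

/-- The free generators. -/
def of (x : X) : FreeAlt R X := Quot.mk _ (FreeNonUnitalNonAssocAlgebra.of R x)

variable (X) in
/-- The quotient map, as a homomorphism of algebras. -/
def mk : FreeNonUnitalNonAssocAlgebra R X →ₙₐ[R] FreeAlt R X where
  toFun := Quot.mk (FARel R X)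
  map_smul' _ _ := rfl
  map_zero' := rfl
  map_add' _ _ := rfl
  map_mul' _ _ := rfl

theorem mk_surjective : Function.Surjective (mk R X) := Quot.mk_surjective

theorem mk_of (x : X) : mk R X (FreeNonUnitalNonAssocAlgebra.of R x) = of R x := rfl

variable {A : Type*} [NonUnitalNonAssocRing A] [Module R A] [IsScalarTower R A A]
  [SMulCommClass R A A] [IsAlt A]

theorem liftAux_spec (f : X → A) (a b : FreeNonUnitalNonAssocAlgebra R X) (h : FARel R X a b) :
    FreeNonUnitalNonAssocAlgebra.lift R f a = FreeNonUnitalNonAssocAlgebra.lift R f b := by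
  induction h with
  | left_alt a' b' => simp only [map_mul, IsAlt.left]
  | right_alt a' b' => simp only [map_mul, IsAlt.right]
  | smul b' _ h₂ => simp only [map_smul, h₂]
  | add_right c' _ h₂ => simp only [map_add, h₂]
  | mul_left c' _ h₂ => simp only [map_mul, h₂]
  | mul_right c' _ h₂ => simp only [map_mul, h₂]

/-- Universal property: every map of `X` to an alternative algebra extends to a homomorphism. -/
def lift (f : X → A) : FreeAlt R X →ₙₐ[R] A where
  toFun c := Quot.liftOn c (FreeNonUnitalNonAssocAlgebra.lift R f) (liftAux_spec R f)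
  map_smul' := by rintro t ⟨a⟩; exact map_smul (FreeNonUnitalNonAssocAlgebra.lift R f) t a
  map_zero' := map_zero (FreeNonUnitalNonAssocAlgebra.lift R f)
  map_add' := by rintro ⟨a⟩ ⟨b⟩; exact map_add (FreeNonUnitalNonAssocAlgebra.lift R f) a b
  map_mul' := by rintro ⟨a⟩ ⟨b⟩; exact map_mul (FreeNonUnitalNonAssocAlgebra.lift R f) a b

@[simp]
theorem lift_of (f : X → A) (x : X) : lift R f (of R x) = f x :=
  FreeNonUnitalNonAssocAlgebra.lift_of_apply R f x

/-- Homomorphisms from the free alternative algebra are determined by the generators. -/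
theorem hom_ext {B : Type*} [NonUnitalNonAssocSemiring B] [Module R B] [IsScalarTower R B B]
    [SMulCommClass R B B] {f g : FreeAlt R X →ₙₐ[R] B} (h : ∀ x, f (of R x) = g (of R x)) :
    f = g := by
  have : f.comp (mk R X) = g.comp (mk R X) := by
    apply FreeNonUnitalNonAssocAlgebra.hom_ext
    intro x
    exact h x
  ext a
  obtain ⟨b, rfl⟩ := mk_surjective R a
  exact DFunLike.congr_fun this b

/-- Induction principle: a submodule closed under multiplication which contains the generators
is everything. -/
theorem induction {p : FreeAlt R X → Prop} (h0 : p 0) (hof : ∀ x, p (of R x))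
    (hadd : ∀ a b, p a → p b → p (a + b)) (hsmul : ∀ (t : R) a, p a → p (t • a))
    (hmul : ∀ a b, p a → p b → p (a * b)) (a : FreeAlt R X) : p a := by
  obtain ⟨b, rfl⟩ := mk_surjective R a
  -- first the nonassociative words
  have hw : ∀ w : FreeMagma X, p (mk R X (MonoidAlgebra.ofMagma R _ w)) := by
    intro w
    induction w with
    | ih1 x => exact hof x
    | ih2 u v hu hv =>
      rw [map_mul, map_mul]
      exact hmul _ _ hu hv
  induction b using MonoidAlgebra.induction_linear with
  | zero => rw [map_zero]; exact h0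
  | add f g hf hg => rw [map_add]; exact hadd _ _ hf hg
  | single w t =>
    have : (MonoidAlgebra.single w t : FreeNonUnitalNonAssocAlgebra R X) =
        t • MonoidAlgebra.ofMagma R _ w := by
      simp [MonoidAlgebra.ofMagma_apply, MonoidAlgebra.smul_single]
    rw [this, map_smul]
    exact hsmul _ _ (hw w)

end FreeAlt

end ALT
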