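import Pool.Agent.ALT.S4h
import Pool.Agent.ALT.QQ
import Pool.Agent.ALT.S1d

/-!
Step 4i: `B / Ann(D(B))` is quadratic over its centre.
-/

set_option linter.unusedSimpArgs false
set_option linter.unusedSectionVars false

namespace ALT
namespace Hyp

variable {B : Type*} [NonAssocRing B] [IsAlt B] {p q d : B} (H : Hyp p q d)

/-- `B_C + B_C B_C` -/
def DC (p q : B) : AddSubgroup B :=
  AddSubgroup.closure {y | InC p q y ∨ ∃ w w', InC p q w ∧ InC p q w' ∧ y = w * w'}

theorem mem_DC1 {w : B} (hw : InC p q w) : w ∈ DC p q := AddSubgroup.subset_closure (Or.inl hw)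
theorem mem_DC2 {w w' : B} (hw : InC p q w) (hw' : InC p q w') : w * w' ∈ DC p q :=
  AddSubgroup.subset_closure (Or.inr ⟨w, w', hw, hw', rfl⟩)

include H in
theorem DC_CAC {w a w' : B} (hw : InC p q w) (ha : InA p q a) (hw' : InC p q w') :
    asc w a w' ∈ DC p q := by
  rw [asc_def]
  exact (DC p q).sub_mem (mem_DC2 (H.inC_mulCA hw ha) hw') (mem_DC2 hw (H.inC_mulAC ha hw'))

include H in
theorem asc_mem_DC (x y z : B) : asc x y z ∈ DC p q := by
  -- reduce to homogeneous elements
  have hom : ∀ x y z : B, (InA p q x ∨ InC p q x) → (InA p q y ∨ InC p q y) →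
      (InA p q z ∨ InC p q z) → asc x y z ∈ DC p q := by
    intro x y z hx hy hz
    rcases hx with hx | hx <;> rcases hy with hy | hy <;> rcases hz with hz | hz
    · rw [H.assocA hx hy hz]; exact (DC p q).zero_mem
    · rw [H.asc_AAC hx hy hz]; exact mem_DC1 (H.inC_mulAC (H.inA_com hx hy) hz)
    · rw [asc_swap23, H.asc_AAC hx hz hy]
      exact (DC p q).neg_mem (mem_DC1 (H.inC_mulAC (H.inA_com hx hz) hy))
    · rw [asc_swap12]; exact (DC p q).neg_mem (H.DC_CAC hy hx hz)
    · rw [asc_rot, H.asc_AAC hy hz hx]; exact mem_DC1 (H.inC_mulAC (H.inA_com hy hz) hx)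
    · exact H.DC_CAC hx hy hz
    · rw [asc_swap23]; exact (DC p q).neg_mem (H.DC_CAC hx hz hy)
    · rw [asc_def]
      exact (DC p q).sub_mem (mem_DC1 (H.inC_mulAC (H.inA_mulCC hx hy) hz))
        (mem_DC1 (H.inC_mulCA hx (H.inA_mulCC hy hz)))
  have e : asc x y z =
      asc (pA p q d x) (pA p q d y) (pA p q d z) + asc (pA p q d x) (pA p q d y) (pC p q d z)
      + (asc (pA p q d x) (pC p q d y) (pA p q d z) + asc (pA p q d x) (pC p q d y) (pC p q d z))
      + (asc (pC p q d x) (pA p q d y) (pA p q d z) + asc (pC p q d x) (pA p q d y) (pC p q d z)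
      + (asc (pC p q d x) (pC p q d y) (pA p q d z)
        + asc (pC p q d x) (pC p q d y) (pC p q d z))) := by
    conv_lhs => rw [← pA_add_pC (p := p) (q := q) (d := d) x,
      ← pA_add_pC (p := p) (q := q) (d := d) y, ← pA_add_pC (p := p) (q := q) (d := d) z]
    simp only [asc_add_left, asc_add_mid, asc_add_right]
    abel
  have A := H.inA_pA
  have C := H.inC_pC
  rw [e]
  have m : ∀ {a b : B}, a ∈ DC p q → b ∈ DC p q → a + b ∈ DC p q :=
    fun h1 h2 => (DC p q).add_mem h1 h2
  exact m (m (m (hom _ _ _ (.inl (A x)) (.inl (A y)) (.inl (A z)))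
      (hom _ _ _ (.inl (A x)) (.inl (A y)) (.inr (C z))))
    (m (hom _ _ _ (.inl (A x)) (.inr (C y)) (.inl (A z)))
      (hom _ _ _ (.inl (A x)) (.inr (C y)) (.inr (C z)))))
    (m (m (hom _ _ _ (.inr (C x)) (.inl (A y)) (.inl (A z)))
      (hom _ _ _ (.inr (C x)) (.inl (A y)) (.inr (C z))))
    (m (hom _ _ _ (.inr (C x)) (.inr (C y)) (.inl (A z)))
      (hom _ _ _ (.inr (C x)) (.inr (C y)) (.inr (C z)))))

include H in
theorem DC_right (t : B) : ∀ y ∈ DC p q, y * t ∈ DC p q := by
  intro y hy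
  induction hy using AddSubgroup.closure_induction with
  | mem y hy =>
    have e : t = pA p q d t + pC p q d t := (pA_add_pC t).symm
    rcases hy with hy | ⟨w, w', hw, hw', rfl⟩
    · rw [e, mul_add]
      exact (DC p q).add_mem (mem_DC1 (H.inC_mulCA hy (H.inA_pA t))) (mem_DC2 hy (H.inC_pC t))
    · have h1 : w * w' * t = w * (w' * pA p q d t) + asc w w' (pA p q d t)
          + w * w' * pC p q d t := by
        conv_lhs => rw [e]
        rw [mul_add, asc_def]; abel
      rw [h1]
      exact (DC p q).add_mem ((DC p q).add_mem (mem_DC2 hw (H.inC_mulCA hw' (H.inA_pA t)))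
        (H.asc_mem_DC _ _ _)) (mem_DC1 (H.inC_mulAC (H.inA_mulCC hw hw') (H.inC_pC t)))
  | zero => rw [zero_mul]; exact (DC p q).zero_mem
  | add x y _ _ hx hy => rw [add_mul]; exact (DC p q).add_mem hx hy
  | neg x _ hx => rw [neg_mul]; exact (DC p q).neg_mem hx

include H in
theorem assocIdeal_le : assocIdeal B ≤ DC p q := by
  unfold assocIdeal
  rw [AddSubgroup.closure_le]
  rintro y ⟨a, b, c, rfl | ⟨t, rfl⟩⟩
  · exact H.asc_mem_DC a b c
  · exact H.DC_right t _ (H.asc_mem_DC a b c)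

theorem Kl_DC {x : B} (h : Kl p q x) : ∀ y ∈ DC p q, x * y = 0 ∧ y * x = 0 := by
  intro y hy
  induction hy using AddSubgroup.closure_induction with
  | mem y hy =>
    rcases hy with hy | ⟨w, w', hw, hw', rfl⟩
    · exact h y hy
    · have h0 := Kl_asc h hw hw'
      have h1 : asc w w' x = 0 := by rw [asc_rot', h0]
      refine ⟨?_, ?_⟩
      · rw [asc_def, (h w hw).1, zero_mul, zero_sub, neg_eq_zero] at h0; exact h0
      · rw [asc_def, (h w' hw').2, mul_zero, sub_zero] at h1; exact h1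
  | zero => exact ⟨mul_zero x, zero_mul x⟩
  | add y z _ _ hy hz => rw [mul_add, add_mul, hy.1, hy.2, hz.1, hz.2, add_zero]; exact ⟨rfl, rfl⟩
  | neg y _ hy => rw [mul_neg, neg_mul, hy.1, hy.2, neg_zero]; exact ⟨rfl, rfl⟩

include H in
theorem Kl_mem_Ann {x : B} (h : Kl p q x) : x ∈ Ann (assocIdeal B) :=
  fun y hy => Kl_DC h y (H.assocIdeal_le hy)

/-- the trace, as an additive map on `B` -/
def trB (p q d : B) : B →+ B where
  toFun b := tA p q d (pA p q d b)
  map_zero' := by
    have : pA p q d (0 : B) = 0 := by rw [pA_of_inA inA_zero]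
    rw [this, tA, bar, yy]
    simp only [com_def, zero_mul, mul_zero, sub_zero, add_zero, vi_zero]
  map_add' x y := by
    simp only [tA, pA_add, bar_add]; abel

include H in
theorem CM_trB (b : B) : CM p q (trB p q d b) := H.CA_CM (H.CA_tA (H.inA_pA b))

include H in
theorem CM_nrm (b : B) : CM p q (trB p q d b * b - b * b) := by
  have hz := H.inA_pA b
  have hw := H.inC_pC b
  have e : trB p q d b * b - b * b =
      -((pA p q d b * pA p q d b - tA p q d (pA p q d b) * pA p q d b)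
        + pC p q d b * pC p q d b) := by
    have e1 : trB p q d b = tA p q d (pA p q d b) := rfl
    have e2 : b = pA p q d b + pC p q d b := (pA_add_pC b).symm
    rw [e1]
    generalize hz' : pA p q d b = z at *
    generalize hw' : pC p q d b = w at *
    subst e2
    rw [mul_add, H.tA_mul hz hw]
    simp only [mul_add, add_mul]
    abel
  rw [e]
  have c1 := H.CA_quad hz
  have c2 := H.CA_sqC hw
  have c3 : CA p q (-((pA p q d b * pA p q d b - tA p q d (pA p q d b) * pA p q d b)
        + pC p q d b * pC p q d b)) := by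
    refine ⟨inA_neg (inA_add c1.1 c2.1), ?_⟩
    intro z w hz hw
    rw [com_neg_left, com_add_left, neg_mul, add_mul, c1.2 z w hz hw, c2.2 z w hz hw, add_zero,
      neg_zero]
  exact H.CA_CM c3

end Hyp

/-! ### final theorem -/

variable {B : Type*} [NonAssocRing B] [IsAlt B] {p q d : B}

/-- the ring `B / Ann(D(B))` -/
abbrev QB (B : Type*) [NonAssocRing B] [IsAlt B] : Type _ :=
  (isIdeal_Ann (isIdeal_assocIdeal (A := B))).Quot

theorem InC.mem_assocIdeal {w : B} (hw : InC p q w) : w ∈ assocIdeal B := by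
  obtain ⟨y, rfl⟩ := hw
  exact AddSubgroup.subset_closure ⟨p, q, y, Or.inl rfl⟩

theorem Hyp.trB_mem_Ann (H : Hyp p q d) {x : B} (hx : x ∈ Ann (assocIdeal B)) :
    Hyp.trB p q d x ∈ Ann (assocIdeal B) := by
  have hz := H.inA_pA x
  have hw := H.inC_pC x
  have k : ∀ w, InC p q w → Hyp.pA p q d x * w = 0 := by
    intro w hw'
    have h1 := (hx w (InC.mem_assocIdeal hw')).1
    have h2 : x * w = Hyp.pA p q d x * w + Hyp.pC p q d x * w := by
      rw [← add_mul, Hyp.pA_add_pC]
    rw [h1] at h2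
    have h3 := congrArg (fun y => Hyp.pC p q d y) h2
    simp only [Hyp.pC_add] at h3
    rw [H.pC_of_inC (H.inC_mulAC hz hw'), Hyp.pC_of_inA (H.inA_mulCC hw hw'), add_zero,
      Hyp.pC_of_inA Hyp.inA_zero] at h3
    exact h3.symm
  apply H.Kl_mem_Ann
  apply H.Kl_of (H.inA_tA hz)
  intro w hw'
  rw [H.tA_mul hz hw', k w hw', H.kill_right hz k hw', add_zero]

theorem Hyp.cancel_Ann (H : Hyp p q d) {I : AddSubgroup B} (hI : IsIdeal I) {x : B}
    (hx : x * com p q ∈ I) : x ∈ I := by
  have h1 := hI.right (com p q) _ hx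
  rw [IsAlt.right] at h1
  have h2 := hI.right (com p q * com p q) _ h1
  rw [IsAlt.right, ← H.cc.comm] at h2
  have h3 := hI.left d _ h2
  rwa [← H.cd.mul_assoc1, H.inv, one_mul] at h3

/-- **Step 4.** If `[p,q]^4` is central with central inverse `d` then `B / Ann(D(B))` is quadratic
over its centre: it carries a trace with all the properties of the class `QQ`. -/
theorem step4 (H : Hyp p q d) : ∃ t : QB B →+ QB B, QQ t := by
  set hI := isIdeal_Ann (isIdeal_assocIdeal (A := B)) with hhI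
  have well : ∀ x y : B, x - y ∈ Ann (assocIdeal B) →
      hI.toQ (Hyp.trB p q d x) = hI.toQ (Hyp.trB p q d y) := by
    intro x y h
    rw [hI.toQ_eq, ← map_sub]
    exact H.trB_mem_Ann h
  let f : QB B → QB B := fun y => hI.toQ (Hyp.trB p q d (Function.surjInv hI.toQ_surj y))
  have hf : ∀ x : B, f (hI.toQ x) = hI.toQ (Hyp.trB p q d x) := by
    intro x
    apply well
    rw [← hI.toQ_eq]
    exact Function.surjInv_eq hI.toQ_surj _
  let t : QB B →+ QB B :=
    { toFun := f
      map_zero' := by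
        have := hf 0
        rw [map_zero] at this
        exact this
      map_add' := by
        intro x y
        obtain ⟨x, rfl⟩ := hI.toQ_surj x
        obtain ⟨y, rfl⟩ := hI.toQ_surj y
        rw [← hI.toQ_add, hf, hf, hf, map_add, hI.toQ_add] }
  have ht : ∀ x : B, t (hI.toQ x) = hI.toQ (Hyp.trB p q d x) := hf
  have cen : ∀ s : B, Hyp.CM p q s → Cen (hI.toQ s) := by
    intro s hs
    refine ⟨?_, ?_⟩
    · intro x
      obtain ⟨x, rfl⟩ := hI.toQ_surj x
      rw [← sub_eq_zero, ← com_def, ← hI.toQ_com, hI.toQ_eq_zero]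
      exact H.Kl_mem_Ann (hs.1 x)
    · intro x y
      obtain ⟨x, rfl⟩ := hI.toQ_surj x
      obtain ⟨y, rfl⟩ := hI.toQ_surj y
      rw [← hI.toQ_asc, hI.toQ_eq_zero]
      exact H.Kl_mem_Ann (hs.2 x y)
  refine ⟨t, QQ_of_cancel (p := hI.toQ p) (q := hI.toQ q) ?_ ?_ ?_⟩
  · intro b
    obtain ⟨b, rfl⟩ := hI.toQ_surj b
    rw [ht]
    exact cen _ (H.CM_trB b)
  · intro b
    obtain ⟨b, rfl⟩ := hI.toQ_surj b
    have : nrm t (hI.toQ b) = hI.toQ (Hyp.trB p q d b * b - b * b) := by
      rw [nrm, ht]; rfl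
    rw [this]
    exact cen _ (H.CM_nrm b)
  · intro x hx
    obtain ⟨x, rfl⟩ := hI.toQ_surj x
    rw [← hI.toQ_com, ← hI.toQ_mul, hI.toQ_eq_zero] at hx
    rw [hI.toQ_eq_zero]
    exact H.cancel_Ann hI hx

end ALT
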