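import Pool.Agent.ALT.Loc
import Pool.Agent.ALT.S4i

/-!
Step 5: transfer of identities of the class `QQ` to arbitrary alternative rings.
-/

set_option linter.unusedSimpArgs false
set_option linter.unusedSectionVars false

universe u

namespace ALT

/-- evaluation of a nonassociative integer polynomial -/
noncomputable def ev {r : ℕ} (f : FreeNonUnitalNonAssocAlgebra ℤ (Fin r)) {A : Type*}
    [NonUnitalNonAssocRing A] (w : Fin r → A) : A :=
  FreeNonUnitalNonAssocAlgebra.lift ℤ w f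

/-- `[p,q]^4` -/
def v4 {A : Type*} [NonUnitalNonAssocRing A] (p q : A) : A :=
  (com p q * com p q) * (com p q * com p q)

section hom
variable {A B : Type*} [NonUnitalNonAssocRing A] [NonUnitalNonAssocRing B] (φ : A →ₙ+* B)

/-- a nonunital ring homomorphism as a `ℤ`-algebra homomorphism -/
def toIntHom : A →ₙₐ[ℤ] B :=
  { φ with map_smul' := fun n x => map_zsmul φ n x }

theorem ev_hom {r : ℕ} (f : FreeNonUnitalNonAssocAlgebra ℤ (Fin r)) (w : Fin r → A) :
    φ (ev f w) = ev f (fun i => φ (w i)) := by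
  unfold ev
  have h : (toIntHom φ).comp (FreeNonUnitalNonAssocAlgebra.lift ℤ w)
      = FreeNonUnitalNonAssocAlgebra.lift ℤ (fun i => φ (w i)) := by
    apply FreeNonUnitalNonAssocAlgebra.hom_ext
    intro i
    rw [NonUnitalAlgHom.comp_apply, FreeNonUnitalNonAssocAlgebra.lift_of_apply,
      FreeNonUnitalNonAssocAlgebra.lift_of_apply]
    rfl
  rw [← h]
  rfl

theorem hom_asc (x y z : A) : φ (asc x y z) = asc (φ x) (φ y) (φ z) := by
  simp only [asc_def, map_sub, map_mul]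
theorem hom_com (x y : A) : φ (com x y) = com (φ x) (φ y) := by
  simp only [com_def, map_sub, map_mul]
theorem hom_v4 (x y : A) : φ (v4 x y) = v4 (φ x) (φ y) := by
  simp only [v4, hom_com, map_mul]
theorem hom_cp (c x : A) (k : ℕ) : φ (cp c k x) = cp (φ c) k (φ x) := by
  induction k with
  | zero => rfl
  | succ n ih => rw [cp_succ, cp_succ, map_mul, ih]

theorem hom_assocIdeal {y : A} (hy : y ∈ assocIdeal A) : φ y ∈ assocIdeal B := by
  induction hy using AddSubgroup.closure_induction with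
  | mem y hy =>
    obtain ⟨a, b, c, rfl | ⟨t, rfl⟩⟩ := hy
    · rw [hom_asc]; exact AddSubgroup.subset_closure ⟨_, _, _, Or.inl rfl⟩
    · rw [map_mul, hom_asc]; exact AddSubgroup.subset_closure ⟨_, _, _, Or.inr ⟨_, rfl⟩⟩
  | zero => rw [map_zero]; exact (assocIdeal B).zero_mem
  | add x y _ _ hx hy => rw [map_add]; exact (assocIdeal B).add_mem hx hy
  | neg x _ hx => rw [map_neg]; exact (assocIdeal B).neg_mem hx

theorem hom_nucleus (hφ : Function.Surjective φ) {m : A} (hm : m ∈ nucleus A) :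
    φ m ∈ nucleus B := by
  intro x y
  obtain ⟨x, rfl⟩ := hφ x
  obtain ⟨y, rfl⟩ := hφ y
  obtain ⟨h1, h2, h3⟩ := hm x y
  rw [← hom_asc, ← hom_asc, ← hom_asc, h1, h2, h3, map_zero]
  exact ⟨rfl, rfl, rfl⟩

theorem hom_comNucIdeal (hφ : Function.Surjective φ) {y : A} (hy : y ∈ comNucIdeal A) :
    φ y ∈ comNucIdeal B := by
  induction hy using AddSubgroup.closure_induction with
  | mem y hy =>
    obtain ⟨m, hm, x, rfl | ⟨t, rfl⟩⟩ := hy
    · rw [hom_com]
      exact AddSubgroup.subset_closure ⟨_, hom_nucleus φ hφ hm, _, Or.inl rfl⟩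
    · rw [map_mul, hom_com]
      exact AddSubgroup.subset_closure ⟨_, hom_nucleus φ hφ hm, _, Or.inr ⟨_, rfl⟩⟩
  | zero => rw [map_zero]; exact (comNucIdeal B).zero_mem
  | add x y _ _ hx hy => rw [map_add]; exact (comNucIdeal B).add_mem hx hy
  | neg x _ hx => rw [map_neg]; exact (comNucIdeal B).neg_mem hx

end hom

instance instPi {ι : Type*} {A : Type*} [NonUnitalNonAssocRing A] [IsAlt A] :
    IsAlt (ι → A) where
  left x y := by ext i; exact IsAlt.left _ _
  right x y := by ext i; exact IsAlt.right _ _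

/-- identity of the class `QQ` (in the universe `u`) -/
def IsQQIdentity {r : ℕ} (f : FreeNonUnitalNonAssocAlgebra ℤ (Fin r)) : Prop :=
  ∀ (Q : Type u) [NonAssocRing Q] [IsAlt Q] (t : Q →+ Q), QQ t → ∀ w : Fin r → Q, ev f w = 0

theorem cp_eq_zero_of_le {A : Type*} [NonUnitalNonAssocRing A] {c x : A} {k l : ℕ}
    (h : cp c k x = 0) (hkl : k ≤ l) : cp c l x = 0 := by
  obtain ⟨m, rfl⟩ := Nat.exists_eq_add_of_le hkl
  rw [add_comm, cp_add, h, cp_map_zero]

theorem one_step {A : Type u} [NonUnitalNonAssocRing A] [IsAlt A] {r : ℕ}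
    {f : FreeNonUnitalNonAssocAlgebra ℤ (Fin r)} (hf : IsQQIdentity.{u} f) {p q : A}
    (hc : Cen (v4 p q)) (w : Fin r → A) {y : A} (hy : y ∈ assocIdeal A) :
    ∃ k, cp (v4 p q) k (ev f w) * y = 0 ∧ y * cp (v4 p q) k (ev f w) = 0 := by
  have e : v4 (Loc.iota hc p) (Loc.iota hc q) = Loc.mk hc (v4 p q) 0 := by
    rw [← hom_v4, Loc.iota_apply]
  have H : Hyp (Loc.iota hc p) (Loc.iota hc q) (Loc.mk hc (v4 p q) 2) := by
    refine ⟨?_, Loc.cen_mk hc 2, ?_⟩
    · change Cen (v4 _ _)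
      rw [e]; exact Loc.cen_mk hc 0
    · change _ * (v4 _ _) = 1
      rw [e]; exact Loc.inv_mul
  obtain ⟨t, ht⟩ := step4 H
  set hI := isIdeal_Ann (isIdeal_assocIdeal (A := Loc hc)) with hhI
  have h1 := hf (QB (Loc hc)) t ht (fun i => hI.hom (Loc.iota hc (w i)))
  have h2 : ev f (fun i => hI.hom (Loc.iota hc (w i))) = hI.hom (Loc.iota hc (ev f w)) := by
    rw [ev_hom, ev_hom]
  rw [h2] at h1
  have h3 : Loc.iota hc (ev f w) ∈ Ann (assocIdeal (Loc hc)) := hI.toQ_eq_zero.mp h1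
  obtain ⟨h4, h5⟩ := h3 _ (hom_assocIdeal (Loc.iota hc) hy)
  rw [← map_mul, Loc.iota_eq_zero] at h4 h5
  obtain ⟨k, hk⟩ := h4
  obtain ⟨l, hl⟩ := h5
  refine ⟨k + l, ?_, ?_⟩
  · rw [cp_mul_left hc]; exact cp_eq_zero_of_le hk (Nat.le_add_right _ _)
  · rw [cp_mul_right hc]; exact cp_eq_zero_of_le hl (Nat.le_add_left _ _)

/-- generators of the associator ideal -/
def IsGen {A : Type*} [NonUnitalNonAssocRing A] (y : A) : Prop :=
  ∃ a b c : A, y = asc a b c ∨ ∃ t : A, y = asc a b c * t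

theorem cen_v4_quot {G : Type*} [NonUnitalNonAssocRing G] [IsAlt G] (p q : G) :
    Cen (v4 ((isIdeal_comNucIdeal (A := G)).hom p) ((isIdeal_comNucIdeal (A := G)).hom q)) := by
  set hM := isIdeal_comNucIdeal (A := G) with hhM
  have hn : v4 p q ∈ nucleus G := kleinfeld_nucleus p q
  rw [← hom_v4]
  refine ⟨?_, ?_⟩
  · intro x
    obtain ⟨x, rfl⟩ := hM.toQ_surj x
    rw [← sub_eq_zero]
    have : hM.hom (v4 p q) * hM.toQ x - hM.toQ x * hM.hom (v4 p q)
        = hM.toQ (com (v4 p q) x) := rfl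
    rw [this, hM.toQ_eq_zero]
    exact AddSubgroup.subset_closure ⟨_, hn, x, Or.inl rfl⟩
  · intro x y
    obtain ⟨x, rfl⟩ := hM.toQ_surj x
    obtain ⟨y, rfl⟩ := hM.toQ_surj y
    have : asc (hM.hom (v4 p q)) (hM.toQ x) (hM.toQ y) = hM.toQ (asc (v4 p q) x y) := rfl
    rw [this, (hn x y).1]; rfl

theorem seq_step {r : ℕ} {f : FreeNonUnitalNonAssocAlgebra ℤ (Fin r)}
    (hf : IsQQIdentity.{u} f) {A : Type u} [NonUnitalNonAssocRing A] [IsAlt A]
    (p q : ℕ → A) (w : ℕ → Fin r → A) (y : ℕ → A) (hy : y ∈ assocIdeal (ℕ → A)) :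
    ∃ k : ℕ, cp (v4 (p k) (q k)) k (ev f (w k)) * y k ∈ comNucIdeal A ∧
      y k * cp (v4 (p k) (q k)) k (ev f (w k)) ∈ comNucIdeal A := by
  set hM := isIdeal_comNucIdeal (A := ℕ → A) with hhM
  let w' : Fin r → (ℕ → A) := fun i k => w k i
  obtain ⟨k, h1, h2⟩ := one_step hf (cen_v4_quot p q) (fun i => hM.hom (w' i))
    (hom_assocIdeal hM.hom hy)
  rw [← ev_hom, ← hom_v4, ← hom_cp, ← map_mul] at h1 h2
  have h1' := hM.toQ_eq_zero.mp h1
  have h2' := hM.toQ_eq_zero.mp h2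
  have hs : Function.Surjective (Pi.evalNonUnitalRingHom (fun _ : ℕ => A) k) :=
    fun x => ⟨fun _ => x, rfl⟩
  have h1'' := hom_comNucIdeal _ hs h1'
  have h2'' := hom_comNucIdeal _ hs h2'
  rw [map_mul, hom_cp, hom_v4, ev_hom] at h1'' h2''
  exact ⟨k, h1'', h2''⟩

theorem cp_mul_mem {A : Type*} [NonUnitalNonAssocRing A] {c : A}
    (hc : ∀ x y : A, asc c x y = 0) (k : ℕ) (x y : A) : cp c k x * y = cp c k (x * y) := by
  induction k with
  | zero => rfl
  | succ n ih =>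
    have := hc (cp c n x) y
    rw [asc_def, sub_eq_zero] at this
    rw [cp_succ, cp_succ, this, ih]

/-- **Step 5 (transfer).** -/
theorem transfer {r : ℕ} {f : FreeNonUnitalNonAssocAlgebra ℤ (Fin r)}
    (hf : IsQQIdentity.{u} f) (A : Type u) [NonUnitalNonAssocRing A] [IsAlt A] :
    ∃ k : ℕ, ∀ (p q : A) (w : Fin r → A) (y : A), y ∈ assocIdeal A →
      cp (v4 p q) k (ev f w) * y ∈ comNucIdeal A ∧
      y * cp (v4 p q) k (ev f w) ∈ comNucIdeal A := by
  -- generators of the associator ideal of the two kinds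
  have key1 : ∃ k : ℕ, ∀ (p q : A) (w : Fin r → A) (a b c : A),
      cp (v4 p q) k (ev f w) * asc a b c ∈ comNucIdeal A ∧
      asc a b c * cp (v4 p q) k (ev f w) ∈ comNucIdeal A := by
    by_contra hcon
    push Not at hcon
    choose p q w a b c hfail using hcon
    obtain ⟨k, h1, h2⟩ := seq_step hf p q w (fun k => asc (a k) (b k) (c k))
      (AddSubgroup.subset_closure ⟨a, b, c, Or.inl rfl⟩)
    exact hfail k h1 h2
  have key2 : ∃ k : ℕ, ∀ (p q : A) (w : Fin r → A) (a b c t : A),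
      cp (v4 p q) k (ev f w) * (asc a b c * t) ∈ comNucIdeal A ∧
      (asc a b c * t) * cp (v4 p q) k (ev f w) ∈ comNucIdeal A := by
    by_contra hcon
    push Not at hcon
    choose p q w a b c t hfail using hcon
    obtain ⟨k, h1, h2⟩ := seq_step hf p q w (fun k => asc (a k) (b k) (c k) * t k)
      (AddSubgroup.subset_closure ⟨a, b, c, Or.inr ⟨t, rfl⟩⟩)
    exact hfail k h1 h2
  obtain ⟨k, hk⟩ := key1
  obtain ⟨l, hl⟩ := key2
  -- raising the exponent
  have hI := isIdeal_comNucIdeal (A := A)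
  have nuc : ∀ p q x y : A, asc (v4 p q) x y = 0 := fun p q x y => (kleinfeld_nucleus p q x y).1
  have nuc2 : ∀ p q x y : A, asc x (v4 p q) y = 0 := fun p q x y => (kleinfeld_nucleus p q x y).2.1
  have up1 : ∀ (p q x y : A) (m n : ℕ), cp (v4 p q) m x * y ∈ comNucIdeal A →
      cp (v4 p q) (n + m) x * y ∈ comNucIdeal A := by
    intro p q x y m n h
    induction n with
    | zero => rwa [zero_add]
    | succ n ih =>
      rw [add_right_comm, cp_succ]
      have e := nuc p q (cp (v4 p q) (n + m) x) y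
      rw [asc_def, sub_eq_zero] at e
      rw [e]
      exact hI.left _ _ ih
  have up2 : ∀ (p q x y : A) (m n : ℕ), y * cp (v4 p q) m x ∈ comNucIdeal A →
      y * cp (v4 p q) (n + m) x ∈ comNucIdeal A := by
    intro p q x y m n h
    induction n with
    | zero => rwa [zero_add]
    | succ n ih =>
      rw [add_right_comm, cp_succ]
      have e := nuc2 p q y (cp (v4 p q) (n + m) x)
      rw [asc_def, sub_eq_zero] at e
      -- y (c z) = (y c) z = (c y) z - [c, y] z
      have hc : com (v4 p q) y ∈ comNucIdeal A :=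
        AddSubgroup.subset_closure ⟨_, kleinfeld_nucleus p q, y, Or.inl rfl⟩
      have e2 : y * (v4 p q * cp (v4 p q) (n + m) x)
          = v4 p q * (y * cp (v4 p q) (n + m) x) - com (v4 p q) y * cp (v4 p q) (n + m) x := by
        have e3 := nuc p q y (cp (v4 p q) (n + m) x)
        rw [asc_def, sub_eq_zero] at e3
        rw [← e, ← e3, com_def, sub_mul]; abel
      rw [e2]
      exact (comNucIdeal A).sub_mem (hI.left _ _ ih) (hI.right _ _ hc)
  refine ⟨k + l, fun p q w y hy => ?_⟩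
  induction hy using AddSubgroup.closure_induction with
  | mem y hy =>
    obtain ⟨a, b, c, rfl | ⟨t, rfl⟩⟩ := hy
    · obtain ⟨h1, h2⟩ := hk p q w a b c
      rw [add_comm k l]
      exact ⟨up1 _ _ _ _ _ _ h1, up2 _ _ _ _ _ _ h2⟩
    · obtain ⟨h1, h2⟩ := hl p q w a b c t
      exact ⟨up1 _ _ _ _ _ _ h1, up2 _ _ _ _ _ _ h2⟩
  | zero => rw [zero_mul, mul_zero]; exact ⟨(comNucIdeal A).zero_mem, (comNucIdeal A).zero_mem⟩
  | add x y _ _ hx hy =>
    rw [mul_add, add_mul]
    exact ⟨(comNucIdeal A).add_mem hx.1 hy.1, (comNucIdeal A).add_mem hx.2 hy.2⟩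
  | neg x _ hx =>
    rw [mul_neg, neg_mul]
    exact ⟨(comNucIdeal A).neg_mem hx.1, (comNucIdeal A).neg_mem hx.2⟩

end ALT
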