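import Pool.Agent.ALT.QQ
import Pool.Agent.ALT.Artin
import Pool.Agent.ALT.S5

/-!
The identities of the class `QQ` used in Steps 6 and 7.
-/

set_option linter.unusedSimpArgs false
set_option linter.unusedSectionVars false

namespace ALT

section defs
variable {A : Type*} [NonUnitalNonAssocRing A]

/-- Jordan product `x ∘ y = x y + y x` -/
def jo (x y : A) : A := x * y + y * x

/-- `κ(p,q,a) = [[p,q],a]^2` -/
def kap (p q a : A) : A := com (com p q) a * com (com p q) a
/-- `ζ(p,q,a;w) = [[p,q] ∘ w, a] [[p,q],a]` -/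
def zet (p q a w : A) : A := com (jo (com p q) w) a * com (com p q) a
/-- `ν(p,q,a;b) = b ζ(b) - b^2 κ` -/
def nuu (p q a b : A) : A := b * zet p q a b - (b * b) * kap p q a

theorem jo_def (x y : A) : jo x y = x * y + y * x := rfl

end defs

namespace QQ
variable {Q : Type*} [NonAssocRing Q] [IsAlt Q] {t : Q →+ Q} (h : QQ t)
include h

theorem cen_npol (a b : Q) : Cen (npol t a b) := ALT.cen_npol h.cen_n a b

/-- `u ∘ w = t(w) u - n(u,w)` if `t(u) = 0` -/
theorem jo_eq {u : Q} (hu : t u = 0) (w : Q) : jo u w = t w * u - npol t u w := by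
  rw [npol, jo, hu, zero_mul, zero_add]; abel

theorem com_jo {u : Q} (hu : t u = 0) (w a : Q) : com (jo u w) a = t w * com u a := by
  rw [h.jo_eq hu, com_sub_left, (h.cen_npol u w).com, sub_zero, com_def, com_def,
    (h.cen_t w).mul_assoc1, (h.cen_t w).left_mul, mul_sub]

/-- the square of a trace zero element is central -/
theorem cen_sq {u : Q} (hu : t u = 0) : Cen (u * u) := by
  have := (h.cen_n u).neg
  rwa [nrm, hu, zero_mul, zero_sub, neg_neg] at this

theorem cen_kap (p q a : Q) : Cen (kap p q a) := h.cen_sq (h.t_com _ _)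

theorem zet_eq (p q a w : Q) : zet p q a w = t w * kap p q a := by
  rw [zet, h.com_jo (h.t_com p q), (h.cen_t w).mul_assoc1, kap]

theorem cen_zet (p q a w : Q) : Cen (zet p q a w) := by
  rw [h.zet_eq]; exact (h.cen_t w).mul (h.cen_kap p q a)

theorem nuu_eq (p q a b : Q) : nuu p q a b = nrm t b * kap p q a := by
  have hk := h.cen_kap p q a
  rw [nuu, h.zet_eq, nrm, sub_mul, (h.cen_t b).left_mul, (h.cen_t b).mul_assoc1]

theorem cen_nuu (p q a b : Q) : Cen (nuu p q a b) := by
  rw [h.nuu_eq]; exact (h.cen_n b).mul (h.cen_kap p q a)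

theorem id_exch (p q a p' q' a' b : Q) :
    zet p q a b * kap p' q' a' = kap p q a * zet p' q' a' b := by
  rw [h.zet_eq, h.zet_eq, (h.cen_t b).mul_assoc1, (h.cen_t b).left_mul]

theorem id_mul (p q a p' q' a' b w : Q) :
    (zet p q a (b * w) + b * zet p q a w + w * zet p q a b - jo b w * kap p q a)
      * kap p' q' a' = zet p q a w * zet p' q' a' b := by
  have hk := h.cen_kap p q a
  have e1 : b * zet p q a w = (t w * b) * kap p q a := by
    rw [h.zet_eq, (h.cen_t w).left_mul, (h.cen_t w).mul_assoc1]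
  have e2 : w * zet p q a b = (t b * w) * kap p q a := by
    rw [h.zet_eq, (h.cen_t b).left_mul, (h.cen_t b).mul_assoc1]
  have e3 : zet p q a (b * w) + b * zet p q a w + w * zet p q a b - jo b w * kap p q a
      = (t b * t w) * kap p q a := by
    rw [e1, e2, h.zet_eq, ← add_mul, ← add_mul, ← sub_mul, h.t_mul]
    congr 1
    rw [npol, jo]; abel
  rw [e3, h.zet_eq, h.zet_eq, (h.cen_t b).comm, (h.cen_t w).mul_assoc1, (h.cen_t w).mul_assoc1,
    (h.cen_t w).mul_assoc1]
  congr 1
  rw [(h.cen_t b).mul_assoc1, (h.cen_t b).left_mul]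

end QQ

/-! ### the identity for `[x,y]^4` -/

section v4
variable {Q : Type*} [NonAssocRing Q] [IsAlt Q] {t : Q →+ Q}

theorem QQ.id_v4 (h : QQ t) (x y : Q) :
    v4 x y = kap x (x * y) y - nuu x y y x := by
  have mx := left_mem_twoGen x y
  have my := right_mem_twoGen x y
  have mm : ∀ {a b : Q}, a ∈ twoGen x y → b ∈ twoGen x y → a * b ∈ twoGen x y :=
    fun ha hb => mul_mem_twoGen x y ha hb
  have as : ∀ {a b c : Q}, a ∈ twoGen x y → b ∈ twoGen x y → c ∈ twoGen x y →
      a * b * c = a * (b * c) := by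
    intro a b c ha hb hc
    have := artin x y ha hb hc
    rwa [asc_def, sub_eq_zero] at this
  obtain ⟨v, hv⟩ : ∃ v, v = com x y := ⟨_, rfl⟩
  have mv : v ∈ twoGen x y := by
    rw [hv, com_def]; exact sub_mem (mm mx my) (mm my mx)
  obtain ⟨g, hg⟩ : ∃ g, g = com v y := ⟨_, rfl⟩
  have mg : g ∈ twoGen x y := by
    rw [hg, com_def]; exact sub_mem (mm mv my) (mm my mv)
  have tv : t v = 0 := by rw [hv]; exact h.t_com x y
  have tg : t g = 0 := by rw [hg]; exact h.t_com v y
  have cD : Cen (v * v) := h.cen_sq tv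
  have cG : Cen (g * g) := h.cen_sq tg
  have e0 : com x (x * y) = x * v := by
    rw [hv, com_def, com_def, mul_sub, as mx my mx]
  have e1 : com (x * v) y = x * g + v * v := by
    have a1 : x * v * y = x * (v * y) := as mx mv my
    have a2 : y * (x * v) = y * x * v := (as my mx mv).symm
    have a3 : y * x = x * y - v := by rw [hv, com_def]; abel
    have a4 : x * y * v = x * (y * v) := as mx my mv
    rw [com_def, a1, a2, a3, sub_mul, a4, hg, com_def, mul_sub]
    abel
  have tD : t (v * v) = v * v + v * v := h.t_cen _ cD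
  have e2 : t (x * g) = -(v * v + v * v) := by
    have := h.t_com (x * v) y
    rw [e1, map_add, tD] at this
    exact eq_neg_of_add_eq_zero_left this
  have e3 : npol t x g = v * v + v * v := by
    have := h.t_mul x g
    rw [e2, tg, mul_zero, zero_sub, neg_inj] at this
    exact this.symm
  have e4 : g * x = t x * g - x * g - (v * v + v * v) := by
    rw [← e3, npol, tg, zero_mul]; abel
  have e5 : (x * g) * (x * g) = nrm t x * (g * g) - (v * v + v * v) * (x * g) := by
    have b1 : (x * g) * (x * g) = x * ((g * x) * g) := by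
      rw [as mx mg (mm mx mg), as mg mx mg]
    have b2 : x * g * g = x * (g * g) := as mx mg mg
    have b3 : x * (x * (g * g)) = x * x * (g * g) := (as mx mx (mm mg mg)).symm
    rw [b1, e4, sub_mul, sub_mul, (h.cen_t x).mul_assoc1, b2, mul_sub, mul_sub, b3,
      (h.cen_t x).left_mul, nrm, sub_mul, (h.cen_t x).mul_assoc1,
      (cD.add cD).left_mul]
  have e6 : nuu x y y x = nrm t x * (g * g) := by
    rw [h.nuu_eq, kap, ← hv, ← hg]
  have e7 : kap x (x * y) y = nrm t x * (g * g) + v * v * (v * v) := by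
    have c1 : (x * g) * (v * v) = v * v * (x * g) := (cD.comm _).symm
    rw [kap, e0, e1, add_mul, mul_add, mul_add, e5, c1, add_mul]
    abel
  rw [e7, e6, v4, ← hv]
  abel

end v4

end ALT
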