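import Pool.Agent.ALT.L1c0

/-!
# Project ALT, Level 1, file c1 (helper66): monomials, contents, congruences on the free magma

`mev g m` is the value of the monomial `m : FreeMagma Y` at `g : Y → C`, `cont m` the multiset of its
letters, `Sc g c` the span of the values of the monomials of content `c`.
`con_of_cont`: a congruence of the free magma which contains the commutative and the
associative laws contains all pairs of monomials with the same content.
-/

set_option autoImplicit false
set_option linter.unusedSectionVars false

namespace ALT

section magma
variable {Y : Type*}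

/-- content of a monomial -/
def cont : FreeMagma Y → Multiset Y
  | .of y => {y}
  | .mul a b => cont a + cont b

@[simp] theorem cont_of (y : Y) : cont (FreeMagma.of y) = {y} := rfl
@[simp] theorem cont_mul (a b : FreeMagma Y) : cont (a * b) = cont a + cont b := rfl

theorem card_cont_pos (m : FreeMagma Y) : 0 < (cont m).card := by
  induction m using FreeMagma.recOnMul with
  | ih1 y => simp
  | ih2 a b ha hb => rw [cont_mul, Multiset.card_add]; omega

theorem cont_ne_zero (m : FreeMagma Y) : cont m ≠ 0 := by
  intro h
  have := card_cont_pos m
  rw [h] at this
  simp at this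

/-- every nonzero content is the content of a monomial -/
theorem exists_cont (c : Multiset Y) (hc : c ≠ 0) : ∃ m : FreeMagma Y, cont m = c := by
  induction c using Multiset.induction_on with
  | empty => exact absurd rfl hc
  | cons y c ih =>
    by_cases h0 : c = 0
    · exact ⟨FreeMagma.of y, by rw [h0]; rfl⟩
    · obtain ⟨m, hm⟩ := ih h0
      exact ⟨FreeMagma.of y * m, by rw [cont_mul, hm, cont_of, Multiset.singleton_add]⟩

/-- homomorphisms into commutative semigroups only see the content -/
theorem hom_of_cont {Q : Type*} [CommSemigroup Q] (φ : FreeMagma Y →ₙ* Q) (m : FreeMagma Y) :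
    ((φ m : Q) : WithOne Q) = ((cont m).map (fun y => ((φ (FreeMagma.of y) : Q) : WithOne Q))).prod := by
  induction m using FreeMagma.recOnMul with
  | ih1 y => simp
  | ih2 a b ha hb => rw [map_mul, WithOne.coe_mul, ha, hb, cont_mul, Multiset.map_add, Multiset.prod_add]

/-- a congruence containing commutativity and associativity relates monomials of equal content -/
theorem con_of_cont (c : Con (FreeMagma Y)) (hcomm : ∀ a b : FreeMagma Y, c (a * b) (b * a))
    (hassoc : ∀ a b d : FreeMagma Y, c (a * b * d) (a * (b * d))) {m m' : FreeMagma Y}
    (h : cont m = cont m') : c m m' := by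
  let _ : CommSemigroup c.Quotient :=
    { (inferInstance : Mul c.Quotient) with
      mul_assoc := by
        intro x y z
        induction x using Con.induction_on with
        | H a =>
        induction y using Con.induction_on with
        | H b =>
        induction z using Con.induction_on with
        | H d => exact (Con.eq c).2 (hassoc a b d)
      mul_comm := by
        intro x y
        induction x using Con.induction_on with
        | H a =>
        induction y using Con.induction_on with
        | H b => exact (Con.eq c).2 (hcomm a b) }
  let φ : FreeMagma Y →ₙ* c.Quotient := ⟨fun a => (a : c.Quotient), fun a b => rfl⟩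
  have h1 := hom_of_cont φ m
  have h2 := hom_of_cont φ m'
  rw [h, ← h2] at h1
  exact (Con.eq c).1 (WithOne.coe_injective h1)

end magma

section ev
variable {R C Y : Type*} [CommRing R] [NonUnitalNonAssocRing C] [Module R C]
  [IsScalarTower R C C] [SMulCommClass R C C]

/-- value of a monomial -/
def mev (g : Y → C) : FreeMagma Y → C
  | .of y => g y
  | .mul a b => mev g a * mev g b

@[simp] theorem mev_of (g : Y → C) (y : Y) : mev g (FreeMagma.of y) = g y := rfl
@[simp] theorem mev_mul (g : Y → C) (a b : FreeMagma Y) : mev g (a * b) = mev g a * mev g b := rfl

variable (R) in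
/-- span of the values of the monomials of content `c` -/
def Sc (g : Y → C) (c : Multiset Y) : Submodule R C :=
  Submodule.span R {z | ∃ m : FreeMagma Y, cont m = c ∧ z = mev g m}

theorem mev_mem_Sc (g : Y → C) (m : FreeMagma Y) : mev g m ∈ Sc R g (cont m) :=
  Submodule.subset_span ⟨m, rfl, rfl⟩

theorem Sc_zero (g : Y → C) {a : C} (ha : a ∈ Sc R g 0) : a = 0 := by
  have h : Sc R g (0 : Multiset Y) = ⊥ := by
    rw [Sc, Submodule.span_eq_bot]
    rintro z ⟨m, hm, _⟩
    exact absurd hm (cont_ne_zero m)
  rw [h] at ha
  exact (Submodule.mem_bot R).1 ha

theorem mul_mem_Sc (g : Y → C) {c d : Multiset Y} {a b : C} (ha : a ∈ Sc R g c)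
    (hb : b ∈ Sc R g d) : a * b ∈ Sc R g (c + d) := by
  induction ha using Submodule.span_induction with
  | mem a ha =>
    obtain ⟨m, rfl, rfl⟩ := ha
    induction hb using Submodule.span_induction with
    | mem b hb =>
      obtain ⟨m', rfl, rfl⟩ := hb
      exact mev_mem_Sc g (m * m')
    | zero => rw [mul_zero]; exact zero_mem _
    | add x y _ _ hx hy => rw [mul_add]; exact add_mem hx hy
    | smul r x _ hx => rw [mul_smul_comm]; exact Submodule.smul_mem _ r hx
  | zero => rw [zero_mul]; exact zero_mem _
  | add x y _ _ hx hy => rw [add_mul]; exact add_mem hx hy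
  | smul r x _ hx => rw [smul_mul_assoc]; exact Submodule.smul_mem _ r hx

end ev

end ALT
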