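import Pool.Agent.ALT.L1c1

/-!
# Project ALT, Level 1, file c2 (helper66): the content theorem

Let `l : C → E` be a special Jordan representation of the alternative algebra `C` and `g : Y → C`.
`Pc l g K c` is the span of the products `l(m_1) ... l(m_r)` of values of monomials `m_i` of length `≤ K`
with total content `c`.  If `K` is at least the number of letters, then `l(m) ∈ Pc l g K (cont m)` for every
monomial `m`.

Idea: for a fixed content `c` of cardinality `> K` let `q` be `l` modulo `Pc l g K c`. Modulo products of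
shorter ones `q((ab)d)` is skew symmetric in `a, b, d`, `q(a(bd)) = - q((ab)d)`, `q(((ab)d)e)` is
skew symmetric in all four arguments and `2 q(((ab)d)e) = 0`. The elements which are killed by `q` in all
contexts (`Nul`) form an ideal containing `ab + ba`, `a(bd) + (ab)d`. So up to sign all monomials of
content `c` have the same value, and `q(e (x x)) = 0`.
-/

set_option autoImplicit false
set_option linter.unusedSectionVars false

namespace ALT

section QH
variable {R C Y : Type*} [CommRing R] [NonUnitalNonAssocRing C] [Module R C]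
  [IsScalarTower R C C] [SMulCommClass R C C]
  {V : Type*} [AddCommGroup V] [Module R V]

/-- the basic relations of `q` on elements of total content `c` -/
structure QH (g : Y → C) (c : Multiset Y) (q : C →ₗ[R] V) : Prop where
  comm : ∀ (α β : Multiset Y) (a b : C), a ∈ Sc R g α → b ∈ Sc R g β → α + β = c →
    q (a * b) + q (b * a) = 0
  trip : ∀ (α β γ : Multiset Y) (a b d : C), a ∈ Sc R g α → b ∈ Sc R g β → d ∈ Sc R g γ →
    α + β + γ = c → q (a * b * d) + q (d * b * a) = 0
  uu : ∀ (α β : Multiset Y) (a b : C), a ∈ Sc R g α → b ∈ Sc R g β → α + β + α = c →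
    q (a * b * a) = 0
  sq : ∀ (α : Multiset Y) (a : C), a ∈ Sc R g α → α + α = c → q (a * a) = 0

namespace QH

variable [IsAlt C] {g : Y → C} {c : Multiset Y} {q : C →ₗ[R] V} (h : QH g c q)
include h

theorem sk12 {α β γ : Multiset Y} {a b d : C} (ha : a ∈ Sc R g α) (hb : b ∈ Sc R g β)
    (hd : d ∈ Sc R g γ) (hc : α + β + γ = c) : q (a * b * d) + q (b * a * d) = 0 := by
  have h1 := h.comm α (β + γ) a (b * d) ha (mul_mem_Sc g hb hd) (by rw [← hc]; abel)
  have h2 := h.comm β (α + γ) b (a * d) hb (mul_mem_Sc g ha hd) (by rw [← hc]; abel)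
  have h3 := h.trip β γ α b d a hb hd ha (by rw [← hc]; abel)
  have h4 := congrArg q (left_alt' a b d)
  rw [add_mul, map_add, map_add] at h4
  linear_combination (norm := abel) h4 + h1 + h2 - h3

theorem rot {α β γ : Multiset Y} {a b d : C} (ha : a ∈ Sc R g α) (hb : b ∈ Sc R g β)
    (hd : d ∈ Sc R g γ) (hc : α + β + γ = c) : q (a * b * d) = q (b * d * a) := by
  have h1 := h.trip α β γ a b d ha hb hd hc
  have h2 := h.sk12 hd hb ha (by rw [← hc]; abel)
  linear_combination (norm := abel) h1 - h2

theorem sk23 {α β γ : Multiset Y} {a b d : C} (ha : a ∈ Sc R g α) (hb : b ∈ Sc R g β)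
    (hd : d ∈ Sc R g γ) (hc : α + β + γ = c) : q (a * b * d) + q (a * d * b) = 0 := by
  have h1 := h.rot ha hb hd hc
  have h2 := h.trip β γ α b d a hb hd ha (by rw [← hc]; abel)
  linear_combination (norm := abel) h1 + h2

theorem beta {α β γ : Multiset Y} {a b d : C} (ha : a ∈ Sc R g α) (hb : b ∈ Sc R g β)
    (hd : d ∈ Sc R g γ) (hc : α + β + γ = c) : q (a * (b * d)) + q (a * b * d) = 0 := by
  have h1 := h.comm α (β + γ) a (b * d) ha (mul_mem_Sc g hb hd) (by rw [← hc]; abel)
  have h2 := h.rot ha hb hd hc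
  linear_combination (norm := abel) h1 + h2

theorem ps1 {α β γ δ : Multiset Y} {a b d e : C} (ha : a ∈ Sc R g α) (hb : b ∈ Sc R g β)
    (hd : d ∈ Sc R g γ) (he : e ∈ Sc R g δ) (hc : α + β + γ + δ = c) :
    q (a * b * d * e) + q (b * a * d * e) = 0 := by
  have h1 := h.rot (mul_mem_Sc g ha hb) hd he hc
  have h2 := h.rot (mul_mem_Sc g hb ha) hd he (by rw [← hc]; abel)
  have h3 := congrArg q (right_alt' a b (d * e))
  rw [mul_add, map_add, map_add] at h3
  have h4 := h.sk23 (mul_mem_Sc g hd he) ha hb (by rw [← hc]; abel)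
  linear_combination (norm := abel) h1 + h2 + h3 + h4

theorem ps2 {α β γ δ : Multiset Y} {a b d e : C} (ha : a ∈ Sc R g α) (hb : b ∈ Sc R g β)
    (hd : d ∈ Sc R g γ) (he : e ∈ Sc R g δ) (hc : α + β + γ + δ = c) :
    q (a * b * d * e) + q (a * b * e * d) = 0 :=
  h.sk23 (mul_mem_Sc g ha hb) hd he hc

theorem pS {α β γ δ : Multiset Y} {a b d e : C} (ha : a ∈ Sc R g α) (hb : b ∈ Sc R g β)
    (hd : d ∈ Sc R g γ) (he : e ∈ Sc R g δ) (hc : α + β + γ + δ = c) :
    q (a * b * d * e) + q (d * e * a * b) = 0 := by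
  have h1 := h.rot (mul_mem_Sc g ha hb) hd he hc
  have h2 := h.beta (mul_mem_Sc g hd he) ha hb (by rw [← hc]; abel)
  linear_combination (norm := abel) h1 + h2

theorem pas {α β γ δ : Multiset Y} {a b d e : C} (ha : a ∈ Sc R g α) (hb : b ∈ Sc R g β)
    (hd : d ∈ Sc R g γ) (he : e ∈ Sc R g δ) (hc : α + β + γ + δ = c) :
    q (asc a b d * e) = q (a * b * d * e) - q (b * d * e * a) := by
  have h1 := h.rot ha (mul_mem_Sc g hb hd) he (by rw [← hc]; abel)
  rw [asc_def, sub_mul, map_sub, h1]

theorem pR {α β γ δ : Multiset Y} {a b d e : C} (ha : a ∈ Sc R g α) (hb : b ∈ Sc R g β)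
    (hd : d ∈ Sc R g γ) (he : e ∈ Sc R g δ) (hc : α + β + γ + δ = c) :
    q (b * d * e * a) + q (a * d * e * b) = 0 := by
  have h1 := h.pas ha hb hd he hc
  have h2 := h.pas hb ha hd he (by rw [← hc]; abel)
  have h3 := h.ps1 ha hb hd he hc
  have h4 : asc a b d * e + asc b a d * e = 0 := by rw [asc_swap12 a b d, neg_mul]; abel
  have h5 := congrArg q h4
  rw [map_add, map_zero] at h5
  linear_combination (norm := abel) h1 + h2 + h3 - h5

theorem p2 {α β γ δ : Multiset Y} {a b d e : C} (ha : a ∈ Sc R g α) (hb : b ∈ Sc R g β)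
    (hd : d ∈ Sc R g γ) (he : e ∈ Sc R g δ) (hc : α + β + γ + δ = c) :
    q (a * b * d * e) + q (a * b * d * e) = 0 := by
  -- ψ(a,b,d,e) = -ψ(e,b,d,a) = ψ(b,e,d,a) = -ψ(b,e,a,d) = ψ(d,e,a,b) = -ψ(a,b,d,e)
  have h1 := h.pR he ha hb hd (by rw [← hc]; abel)
  have h2 := h.ps1 he hb hd ha (by rw [← hc]; abel)
  have h3 := h.ps2 hb he hd ha (by rw [← hc]; abel)
  have h4 := h.pR hd hb he ha (by rw [← hc]; abel)
  have h5 := h.pS ha hb hd he hc
  linear_combination (norm := abel) h1 - h2 + h3 - h4 + h5

theorem as0 {α β γ δ : Multiset Y} {a b d e : C} (ha : a ∈ Sc R g α) (hb : b ∈ Sc R g β)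
    (hd : d ∈ Sc R g γ) (he : e ∈ Sc R g δ) (hc : α + β + γ + δ = c) :
    q (asc a b d * e) = 0 := by
  have h0 := h.pas ha hb hd he hc
  have h1 := h.pR ha hb hd he hc
  -- ψ(a,d,e,b) = ψ(a,b,d,e)
  have k1 := h.ps2 ha hd he hb (by rw [← hc]; abel)
  have k2 := h.ps1 ha hd hb he (by rw [← hc]; abel)
  have k3 := h.pR he hd ha hb (by rw [← hc]; abel)
  have k4 := h.ps1 he ha hb hd (by rw [← hc]; abel)
  have k5 := h.ps2 ha he hb hd (by rw [← hc]; abel)
  have k6 := h.pR hb ha he hd (by rw [← hc]; abel)
  have k7 := h.ps1 hb he hd ha (by rw [← hc]; abel)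
  have k8 := h.pR ha he hb hd (by rw [← hc]; abel)
  have k9 := h.p2 ha hb hd he hc
  linear_combination (norm := abel) h0 - h1 + k1 - k2 + k3 - k4 + k5 - k6 + k7 - k8 + k9

end QH

/-- `s` (of content `σ`) is killed by `q` in all contexts -/
def Nul (g : Y → C) (c : Multiset Y) (q : C →ₗ[R] V) (σ : Multiset Y) (s : C) : Prop :=
  (σ = c → q s = 0) ∧ ∀ (ε : Multiset Y) (e : C), e ∈ Sc R g ε → ε + σ = c → q (e * s) = 0

section
variable {g : Y → C} {c : Multiset Y} {q : C →ₗ[R] V}

theorem Nul.add {σ : Multiset Y} {s s' : C} (h : Nul g c q σ s) (h' : Nul g c q σ s') :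
    Nul g c q σ (s + s') := by
  refine ⟨fun hs => by rw [map_add, h.1 hs, h'.1 hs, add_zero], fun ε e he hc => ?_⟩
  rw [mul_add, map_add, h.2 ε e he hc, h'.2 ε e he hc, add_zero]

theorem Nul.neg {σ : Multiset Y} {s : C} (h : Nul g c q σ s) : Nul g c q σ (-s) := by
  refine ⟨fun hs => by rw [map_neg, h.1 hs, neg_zero], fun ε e he hc => ?_⟩
  rw [mul_neg, map_neg, h.2 ε e he hc, neg_zero]

theorem Nul.zero (σ : Multiset Y) : Nul g c q σ 0 := by
  refine ⟨fun _ => map_zero q, fun ε e he hc => ?_⟩
  rw [mul_zero, map_zero]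

theorem Nul.sign {σ : Multiset Y} {s : C} (h : Nul g c q σ s) {ε : ℤ} (hε : ε = 1 ∨ ε = -1) :
    Nul g c q σ (ε • s) := by
  rcases hε with rfl | rfl
  · rwa [one_smul]
  · rw [neg_one_smul]; exact h.neg

variable [IsAlt C] (h : QH g c q)
include h

theorem Nul.mul_left {σ ζ : Multiset Y} {s z : C} (hN : Nul g c q σ s) (hs : s ∈ Sc R g σ)
    (hz : z ∈ Sc R g ζ) : Nul g c q (ζ + σ) (z * s) := by
  refine ⟨fun hc => hN.2 ζ z hz hc, fun ε e he hc => ?_⟩
  have h1 := h.beta he hz hs (by rw [← hc]; abel)
  have h2 := hN.2 (ε + ζ) (e * z) (mul_mem_Sc g he hz) (by rw [← hc]; abel)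
  rw [h2, add_zero] at h1
  exact h1

theorem Nul.mul_right {σ ζ : Multiset Y} {s z : C} (hN : Nul g c q σ s) (hs : s ∈ Sc R g σ)
    (hz : z ∈ Sc R g ζ) : Nul g c q (σ + ζ) (s * z) := by
  refine ⟨fun hc => ?_, fun ε e he hc => ?_⟩
  · have h1 := h.comm σ ζ s z hs hz hc
    rw [hN.2 ζ z hz (by rw [← hc]; abel), add_zero] at h1
    exact h1
  · have h1 := h.beta he hs hz (by rw [← hc]; abel)
    have h2 := h.sk23 he hs hz (by rw [← hc]; abel)
    have h3 := hN.2 (ε + ζ) (e * z) (mul_mem_Sc g he hz) (by rw [← hc]; abel)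
    linear_combination (norm := abel) h1 - h2 + h3

theorem Nul.comm {α β : Multiset Y} {a b : C} (ha : a ∈ Sc R g α) (hb : b ∈ Sc R g β) :
    Nul g c q (α + β) (a * b + b * a) := by
  refine ⟨fun hc => by rw [map_add]; exact h.comm α β a b ha hb hc, fun ε e he hc => ?_⟩
  rw [right_alt', map_add]
  exact h.sk23 he ha hb (by rw [← hc]; abel)

theorem Nul.assoc {α β γ : Multiset Y} {a b d : C} (ha : a ∈ Sc R g α) (hb : b ∈ Sc R g β)
    (hd : d ∈ Sc R g γ) : Nul g c q (α + β + γ) (a * b * d + a * (b * d)) := by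
  refine ⟨fun hc => ?_, fun ε e he hc => ?_⟩
  · have h1 := h.beta ha hb hd hc
    rw [map_add, add_comm]; exact h1
  · have h1 := h.beta he (mul_mem_Sc g ha hb) hd (by rw [← hc]; abel)
    have h2 := h.beta he ha (mul_mem_Sc g hb hd) (by rw [← hc]; abel)
    have h3 := h.beta (mul_mem_Sc g he ha) hb hd (by rw [← hc]; abel)
    have h4 := h.as0 he ha hb hd (by rw [← hc]; abel)
    rw [asc_def, sub_mul, map_sub] at h4
    rw [mul_add, map_add]
    linear_combination (norm := abel) h1 + h2 - h3 + h4

/-- up to sign monomials of equal content are equal modulo `Nul` -/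
def nulCon : Con (FreeMagma Y) where
  r m m' := cont m = cont m' ∧ ∃ ε : ℤ, (ε = 1 ∨ ε = -1) ∧
    Nul g c q (cont m) (mev g m - ε • mev g m')
  iseqv := by
    refine ⟨fun m => ⟨rfl, 1, Or.inl rfl, ?_⟩, ?_, ?_⟩
    · rw [one_smul, sub_self]; exact Nul.zero _
    · rintro m m' ⟨hc, ε, hε, hN⟩
      refine ⟨hc.symm, ε, hε, ?_⟩
      rw [← hc]
      have h1 := (hN.neg).sign hε
      have h2 : ε • -(mev g m - ε • mev g m') = mev g m' - ε • mev g m := by
        rcases hε with rfl | rfl <;> simp only [one_smul, neg_one_smul] <;> abel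
      rwa [h2] at h1
    · rintro m m' m'' ⟨hc, ε, hε, hN⟩ ⟨hc', ε', hε', hN'⟩
      refine ⟨hc.trans hc', ε * ε', ?_, ?_⟩
      · rcases hε with rfl | rfl <;> rcases hε' with rfl | rfl <;> simp
      · rw [← hc] at hN'
        have h1 := hN.add (hN'.sign hε)
        have h2 : mev g m - ε • mev g m' + ε • (mev g m' - ε' • mev g m'') =
            mev g m - (ε * ε') • mev g m'' := by
          rw [smul_sub, mul_smul]; abel
        rwa [h2] at h1
  mul' := by
    rintro a a' b b' ⟨hc, ε, hε, hN⟩ ⟨hc', ε', hε', hN'⟩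
    have e1 : (a.mul b) = a * b := rfl
    refine ⟨by rw [cont_mul, cont_mul, hc, hc'], ε * ε', ?_, ?_⟩
    · rcases hε with rfl | rfl <;> rcases hε' with rfl | rfl <;> simp
    · have m1 : mev g a - ε • mev g a' ∈ Sc R g (cont a) := by
        refine sub_mem (mev_mem_Sc g a) (zsmul_mem ?_ ε)
        rw [hc]; exact mev_mem_Sc g a'
      have m2 : mev g b - ε' • mev g b' ∈ Sc R g (cont b) := by
        refine sub_mem (mev_mem_Sc g b) (zsmul_mem ?_ ε')
        rw [hc']; exact mev_mem_Sc g b'
      have k1 := Nul.mul_right h hN m1 (mev_mem_Sc g b)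
      have k2 := Nul.mul_left h hN' m2 (mev_mem_Sc g a')
      rw [← hc] at k2
      have k3 := k1.add (k2.sign hε)
      have k4 : (mev g a - ε • mev g a') * mev g b + ε • (mev g a' * (mev g b - ε' • mev g b')) =
          mev g (a * b) - (ε * ε') • mev g (a' * b') := by
        rw [mev_mul, mev_mul, sub_mul, mul_sub, smul_sub, mul_smul, smul_mul_assoc,
          mul_smul_comm]
        abel
      rw [k4] at k3
      exact k3

theorem nulCon_of_cont {m m' : FreeMagma Y} (hm : cont m = cont m') : nulCon h m m' := by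
  refine con_of_cont (nulCon h) ?_ ?_ hm
  · intro a b
    refine ⟨by rw [cont_mul, cont_mul, add_comm], -1, Or.inr rfl, ?_⟩
    rw [neg_one_smul, sub_neg_eq_add]
    exact Nul.comm h (mev_mem_Sc g a) (mev_mem_Sc g b)
  · intro a b d
    refine ⟨by simp only [cont_mul, add_assoc], -1, Or.inr rfl, ?_⟩
    rw [neg_one_smul, sub_neg_eq_add]
    exact Nul.assoc h (mev_mem_Sc g a) (mev_mem_Sc g b) (mev_mem_Sc g d)

/-- monomials whose content is `c` and has a repeated letter are killed by `q` -/
theorem QH.zero_of_repeated {m : FreeMagma Y} (hm : cont m = c) {y : Y}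
    {c' : Multiset Y} (hy : c = c' + ({y} + {y})) : q (mev g m) = 0 := by
  obtain ⟨m', hm', hq⟩ : ∃ m' : FreeMagma Y, cont m' = c ∧ q (mev g m') = 0 := by
    by_cases h0 : c' = 0
    · refine ⟨FreeMagma.of y * FreeMagma.of y, ?_, ?_⟩
      · rw [hy, h0, cont_mul, cont_of, zero_add]
      · exact h.sq {y} _ (mev_mem_Sc g (FreeMagma.of y)) (by rw [hy, h0, zero_add])
    · obtain ⟨m0, hm0⟩ := exists_cont c' h0
      refine ⟨m0 * (FreeMagma.of y * FreeMagma.of y), ?_, ?_⟩
      · rw [hy, cont_mul, cont_mul, cont_of, hm0]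
      · have e1 := mev_mem_Sc (R := R) g m0
        have e2 := mev_mem_Sc (R := R) g (FreeMagma.of y)
        rw [hm0] at e1
        rw [cont_of] at e2
        have h1 := h.sk12 e1 e2 e2 (by rw [hy]; abel)
        have h2 := h.uu {y} c' _ _ e2 e1 (by rw [hy]; abel)
        rw [h2, add_zero] at h1
        rw [mev_mul, mev_mul, ← IsAlt.right]
        exact h1
  obtain ⟨_, ε, hε, hN⟩ := nulCon_of_cont h (hm.trans hm'.symm)
  have h1 := hN.1 hm
  rw [map_sub, map_zsmul, hq, smul_zero, sub_zero] at h1
  exact h1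

end

end QH

section content
variable {R C E Y : Type*} [CommRing R] [NonUnitalNonAssocRing C] [Module R C]
  [IsScalarTower R C C] [SMulCommClass R C C] [Ring E] [Algebra R E]

/-- span of the products of values of monomials of length `≤ K` with total content `c` -/
def Pc (l : C →ₗ[R] E) (g : Y → C) (K : ℕ) (c : Multiset Y) : Submodule R E :=
  Submodule.span R {x | ∃ w : List (FreeMagma Y), (∀ m ∈ w, (cont m).card ≤ K) ∧
    (w.map cont).sum = c ∧ x = (w.map (fun m => l (mev g m))).prod}

theorem mul_mem_Pc (l : C →ₗ[R] E) (g : Y → C) (K : ℕ) {c d : Multiset Y} {x y : E}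
    (hx : x ∈ Pc l g K c) (hy : y ∈ Pc l g K d) : x * y ∈ Pc l g K (c + d) := by
  induction hx using Submodule.span_induction with
  | mem x hx =>
    obtain ⟨w, hw, rfl, rfl⟩ := hx
    induction hy using Submodule.span_induction with
    | mem y hy =>
      obtain ⟨w', hw', rfl, rfl⟩ := hy
      refine Submodule.subset_span ⟨w ++ w', ?_, ?_, ?_⟩
      · intro m hm
        rcases List.mem_append.1 hm with h | h
        · exact hw m h
        · exact hw' m h
      · rw [List.map_append, List.sum_append]
      · rw [List.map_append, List.prod_append]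
    | zero => rw [mul_zero]; exact zero_mem _
    | add u v _ _ hu hv => rw [mul_add]; exact add_mem hu hv
    | smul r u _ hu => rw [mul_smul_comm]; exact Submodule.smul_mem _ r hu
  | zero => rw [zero_mul]; exact zero_mem _
  | add u v _ _ hu hv => rw [add_mul]; exact add_mem hu hv
  | smul r u _ hu => rw [smul_mul_assoc]; exact Submodule.smul_mem _ r hu

/-- CONTENT THEOREM -/
theorem content [IsAlt C] [Fintype Y] {l : C →ₗ[R] E} (hl : JRep l) (g : Y → C) {K : ℕ}
    (hK : Fintype.card Y ≤ K) (m : FreeMagma Y) : l (mev g m) ∈ Pc l g K (cont m) := by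
  classical
  suffices H : ∀ (n : ℕ) (c : Multiset Y), c.card = n → ∀ a ∈ Sc R g c, l a ∈ Pc l g K c from
    H _ (cont m) rfl _ (mev_mem_Sc g m)
  intro n
  induction n using Nat.strong_induction_on with
  | _ n ih =>
  intro c hcn a ha
  have mono : ∀ m : FreeMagma Y, cont m = c → l (mev g m) ∈ Pc l g K c := by
    intro m hm
    by_cases hcK : c.card ≤ K
    · refine Submodule.subset_span ⟨[m], ?_, by simp [hm], by simp⟩
      intro m' hm'
      rw [List.mem_singleton] at hm'
      rw [hm', hm]
      exact hcK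
    · have IH : ∀ d : Multiset Y, d.card < c.card → ∀ a ∈ Sc R g d, l a ∈ Pc l g K d :=
        fun d hd a ha => ih d.card (by omega) d rfl a ha
      have hq0 : ∀ x : C, ((Pc l g K c).mkQ.comp l) x = 0 ↔ l x ∈ Pc l g K c := by
        intro x
        rw [LinearMap.comp_apply, Submodule.mkQ_apply, Submodule.Quotient.mk_eq_zero]
      have hpos : ∀ {α : Multiset Y}, α ≠ 0 → 0 < α.card := fun {α} h =>
        Multiset.card_pos.2 h
      have hQ : QH g c ((Pc l g K c).mkQ.comp l) := by
        constructor
        · intro α β a b ha hb hc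
          by_cases h1 : α = 0
          · subst h1; rw [Sc_zero g ha]; simp
          by_cases h2 : β = 0
          · subst h2; rw [Sc_zero g hb]; simp
          have p1 := hpos h1
          have p2 := hpos h2
          have e : c.card = α.card + β.card := by rw [← hc, Multiset.card_add]
          rw [← map_add, hq0, hl.jord, ← hc]
          refine add_mem (mul_mem_Pc l g K (IH α (by omega) a ha) (IH β (by omega) b hb)) ?_
          rw [add_comm α β]
          exact mul_mem_Pc l g K (IH β (by omega) b hb) (IH α (by omega) a ha)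
        · intro α β γ a b d ha hb hd hc
          by_cases h1 : α = 0
          · subst h1; rw [Sc_zero g ha]; simp
          by_cases h2 : β = 0
          · subst h2; rw [Sc_zero g hb]; simp
          by_cases h3 : γ = 0
          · subst h3; rw [Sc_zero g hd]; simp
          have p1 := hpos h1
          have p2 := hpos h2
          have p3 := hpos h3
          have e : c.card = α.card + β.card + γ.card := by
            rw [← hc, Multiset.card_add, Multiset.card_add]
          have q1 := IH α (by omega) a ha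
          have q2 := IH β (by omega) b hb
          have q3 := IH γ (by omega) d hd
          rw [← map_add, hq0, hl.trip, ← hc]
          refine add_mem (mul_mem_Pc l g K (mul_mem_Pc l g K q1 q2) q3) ?_
          have e2 : α + β + γ = γ + β + α := by abel
          rw [e2]
          exact mul_mem_Pc l g K (mul_mem_Pc l g K q3 q2) q1
        · intro α β a b ha hb hc
          by_cases h1 : α = 0
          · subst h1; rw [Sc_zero g ha]; simp
          by_cases h2 : β = 0
          · subst h2; rw [Sc_zero g hb]; simp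
          have p1 := hpos h1
          have p2 := hpos h2
          have e : c.card = α.card + β.card + α.card := by
            rw [← hc, Multiset.card_add, Multiset.card_add]
          have q1 := IH α (by omega) a ha
          have q2 := IH β (by omega) b hb
          rw [hq0, hl.u, ← hc]
          exact mul_mem_Pc l g K (mul_mem_Pc l g K q1 q2) q1
        · intro α a ha hc
          by_cases h1 : α = 0
          · subst h1; rw [Sc_zero g ha]; simp
          have p1 := hpos h1
          have e : c.card = α.card + α.card := by rw [← hc, Multiset.card_add]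
          have q1 := IH α (by omega) a ha
          rw [hq0, hl.sq, ← hc]
          exact mul_mem_Pc l g K q1 q1
      -- a repeated letter
      have hdup : ¬ c.Nodup := by
        intro hnd
        have h1 : c.card = c.toFinset.card := (Multiset.toFinset_card_of_nodup hnd).symm
        have h2 : c.toFinset.card ≤ Fintype.card Y := Finset.card_le_univ _
        omega
      rw [Multiset.nodup_iff_count_le_one] at hdup
      push Not at hdup
      obtain ⟨y, hy⟩ := hdup
      have hle : ({y} + {y} : Multiset Y) ≤ c := by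
        have h1 : ({y} + {y} : Multiset Y) = Multiset.replicate 2 y := by
          rw [Multiset.replicate_succ, Multiset.replicate_one]; rfl
        rw [h1, ← Multiset.le_count_iff_replicate_le]
        omega
      obtain ⟨c', hc'⟩ := Multiset.le_iff_exists_add.1 hle
      rw [← hq0]
      exact hQ.zero_of_repeated hm (y := y) (c' := c') (by rw [hc']; abel)
  induction ha using Submodule.span_induction with
  | mem a ha =>
    obtain ⟨m, hm, rfl⟩ := ha
    exact mono m hm
  | zero => rw [map_zero]; exact zero_mem _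
  | add x y _ _ hx hy => rw [map_add]; exact add_mem hx hy
  | smul r x _ hx => rw [map_smul]; exact Submodule.smul_mem _ r hx

end content

end ALT
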