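import Pool.Agent.ALT.S1b

/-!
# Project ALT (MP_643ad6_al), Step 1c (helper88)

A product of `k ≥ 1` elements of `[N, A]` kills all associators as soon as `k + 3 > n`, `n` the
number of generators.
-/

set_option autoImplicit false

namespace ALT

section
variable {A : Type*} [NonUnitalNonAssocRing A]

/-- `[m_1, x_1] ([m_2, x_2] (... ([m_k, x_k] w)))`. -/
def adp (l : List (A × A)) (w : A) : A :=
  l.foldr (fun p u => (p.1 * p.2 - p.2 * p.1) * u) w

@[simp] theorem adp_nil (w : A) : adp [] w = w := rfl

@[simp] theorem adp_cons (p : A × A) (l : List (A × A)) (w : A) :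
    adp (p :: l) w = (p.1 * p.2 - p.2 * p.1) * adp l w := rfl

theorem adp_append (l l' : List (A × A)) (w : A) : adp (l ++ l') w = adp l (adp l' w) := by
  unfold adp
  rw [List.foldr_append]

theorem adp_zero (l : List (A × A)) : adp l (0 : A) = 0 := by
  induction l with
  | nil => rfl
  | cons p l ih => rw [adp_cons, ih, mul_zero]

theorem adp_add (l : List (A × A)) (u w : A) : adp l (u + w) = adp l u + adp l w := by
  induction l with
  | nil => rfl
  | cons p l ih => rw [adp_cons, ih, mul_add]; rfl

theorem adp_neg (l : List (A × A)) (w : A) : adp l (-w) = -adp l w := by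
  induction l with
  | nil => rfl
  | cons p l ih => rw [adp_cons, ih, mul_neg]; rfl

variable [IsAlt A]

/-- all first components are in the nucleus -/
def NucL (l : List (A × A)) : Prop := ∀ p ∈ l, IsNuc p.1

omit [IsAlt A] in
theorem NucL.tail {p : A × A} {l : List (A × A)} (h : NucL (p :: l)) : NucL l :=
  fun q hq => h q (List.mem_cons_of_mem _ hq)

omit [IsAlt A] in
theorem NucL.head {p : A × A} {l : List (A × A)} (h : NucL (p :: l)) : IsNuc p.1 :=
  h p List.mem_cons_self

omit [IsAlt A] in
theorem NucL.append {l l' : List (A × A)} (h : NucL l) (h' : NucL l') : NucL (l ++ l') := by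
  intro q hq
  rcases List.mem_append.mp hq with h1 | h1
  · exact h q h1
  · exact h' q h1

omit [IsAlt A] in
theorem NucL.left {l l' : List (A × A)} (h : NucL (l ++ l')) : NucL l :=
  fun q hq => h q (List.mem_append_left _ hq)

omit [IsAlt A] in
theorem NucL.right {l l' : List (A × A)} (h : NucL (l ++ l')) : NucL l' :=
  fun q hq => h q (List.mem_append_right _ hq)

theorem adp_mul {l : List (A × A)} (h : NucL l) (w z : A) : adp l (w * z) = adp l w * z := by
  induction l with
  | nil => rfl
  | cons p l ih => rw [adp_cons, ih h.tail, adp_cons, (h.head.ad p.2).mul₁]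

theorem adp_as {l : List (A × A)} (h : NucL l) (a b c : A) :
    adp l (asc a b c) = asc (adp l a) b c := by
  induction l with
  | nil => rfl
  | cons p l ih => rw [adp_cons, ih h.tail, adp_cons, (h.head.ad p.2).as_mul₁]

theorem adp_mul_as {l : List (A × A)} (h : NucL l) {q : A} (hq : IsNuc q) (a b c : A) :
    adp l (q * asc a b c) = q * adp l (asc a b c) := by
  induction l with
  | nil => rfl
  | cons p l ih =>
    rw [adp_cons, ih h.tail, adp_cons, adp_as h.tail]
    have h1 := (h.head.ad p.2).comm_comm hq (adp l a) b c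
    rw [sub_mul, sub_eq_zero, (h.head.ad p.2).mul₁, hq.mul₁] at h1
    exact h1

/-- Bring a factor to the front. -/
theorem adp_mid {l l' : List (A × A)} {p : A × A} (h : NucL (l ++ p :: l')) (a b c : A) :
    adp (l ++ p :: l') (asc a b c) =
      (p.1 * p.2 - p.2 * p.1) * adp (l ++ l') (asc a b c) := by
  rw [adp_append, adp_cons, adp_as h.right.tail, adp_mul_as h.left (h.right.head.ad p.2),
    ← adp_as h.right.tail, ← adp_append]

/-- Exchange of `x` and `a`. -/
theorem adp_swap {l : List (A × A)} (h : NucL l) {m : A} (hm : IsNuc m) (x a b c : A) :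
    (m * a - a * m) * adp l (asc x b c) = -((m * x - x * m) * adp l (asc a b c)) := by
  rw [← adp_mul_as h (hm.ad a), ← adp_mul_as h (hm.ad x), hm.ad_swap, adp_neg]

theorem adp_self {l : List (A × A)} (h : NucL l) {m : A} (hm : IsNuc m) (x b c : A) :
    (m * x - x * m) * adp l (asc x b c) = 0 := by
  rw [← adp_mul_as h (hm.ad x), hm.ad_self, adp_zero]

theorem adp_self₂ {l : List (A × A)} (h : NucL l) {m m' : A} (hm : IsNuc m) (hm' : IsNuc m')
    (x a b c : A) :
    (m * x - x * m) * ((m' * x - x * m') * adp l (asc a b c)) = 0 := by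
  have h1 := adp_swap h hm' a x b c
  rw [adp_as h] at h1 ⊢
  have h2 := (hm.ad x).comm_comm (hm'.ad x) (adp l a) b c
  rw [hm'.ad_swap (adp l a) x b c]
  have h3 : (m * x - x * m) * ((m' * adp l a - adp l a * m') * asc x b c) =
      (m' * adp l a - adp l a * m') * ((m * x - x * m) * asc x b c) := by
    have h4 := (hm.ad x).comm_comm (hm'.ad (adp l a)) x b c
    rw [sub_mul, sub_eq_zero, (hm.ad x).mul₁, (hm'.ad (adp l a)).mul₁] at h4
    exact h4
  rw [mul_neg, h3, hm.ad_self, mul_zero, neg_zero]

end

section gen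
variable {R A : Type*} [CommRing R] [NonUnitalNonAssocRing A] [Module R A] [IsScalarTower R A A]
  [SMulCommClass R A A]

/-- `X` generates the algebra `A`. -/
def Gens (R : Type*) {A ι : Type*} [CommRing R] [NonUnitalNonAssocRing A] [Module R A]
    (X : ι → A) : Prop :=
  ∀ S : Submodule R A, (∀ i, X i ∈ S) → (∀ a ∈ S, ∀ b ∈ S, a * b ∈ S) → S = ⊤

variable [IsAlt A] {ι : Type*} {X : ι → A}

theorem closure_ad (hX : Gens R X) (u : A)
    (h : ∀ i (m : A), IsNuc m → (m * X i - X i * m) * u = 0) (x m : A) (hm : IsNuc m) :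
    (m * x - x * m) * u = 0 := by
  let S : Submodule R A :=
    { carrier := {x | ∀ m : A, IsNuc m → (m * x - x * m) * u = 0}
      add_mem' := by
        intro a b ha hb m hm
        have h1 := ha m hm
        have h2 := hb m hm
        simp only [mul_add, add_mul, sub_mul] at h1 h2 ⊢
        linear_combination (norm := abel) h1 + h2
      zero_mem' := by
        intro m _
        simp
      smul_mem' := by
        intro c a ha m hm
        have h1 := ha m hm
        rw [mul_smul_comm, smul_mul_assoc, ← smul_sub, smul_mul_assoc, h1, smul_zero] }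
  have hS : S = ⊤ := by
    refine hX S (fun i m hm => h i m hm) ?_
    intro a ha b hb m hm
    have h1 := ha (m) hm
    have h2 := hb m hm
    have h3 := hb (m * a - a * m) (hm.ad a)
    rw [hm.ad_mul, add_mul, (hm.ad b).mul₂, h2, mul_zero, add_zero]
    rw [sub_mul] at h3
    rw [sub_eq_zero] at h3
    rw [h3, (hm.ad a).mul₂, h1, mul_zero]
  have h1 : x ∈ S := by
    rw [hS]
    trivial
  exact h1 m hm


omit [Module R A] [IsScalarTower R A A] [SMulCommClass R A A] in
/-- The list of pairs `(m, X i)`. -/
theorem nucL_map {L : List (A × ι)} (hL : ∀ p ∈ L, IsNuc p.1) :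
    NucL (L.map fun p => (p.1, X p.2)) := by
  intro q hq
  obtain ⟨p, hp, rfl⟩ := List.mem_map.mp hq
  exact hL p hp

end gen

section pigeon
variable {A : Type*} [NonUnitalNonAssocRing A] [IsAlt A] {ι : Type*} {X : ι → A}

theorem adp_dup {L : List (A × ι)} (hL : ∀ p ∈ L, IsNuc p.1) (a b c : A)
    (h : ¬ (L.map Prod.snd).Nodup) :
    adp (L.map fun p => (p.1, X p.2)) (asc a b c) = 0 := by
  induction L with
  | nil => exact absurd List.nodup_nil h
  | cons p L ih =>
    have hL' : ∀ q ∈ L, IsNuc q.1 := fun q hq => hL q (List.mem_cons_of_mem _ hq)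
    rw [List.map_cons, adp_cons]
    by_cases h1 : p.2 ∈ L.map Prod.snd
    · obtain ⟨q, hq, hqp⟩ := List.mem_map.mp h1
      obtain ⟨L1, L2, rfl⟩ := List.append_of_mem hq
      have h2 : NucL ((L1 ++ q :: L2).map fun p => (p.1, X p.2)) := by
        intro r hr
        obtain ⟨s, hs, rfl⟩ := List.mem_map.mp hr
        exact hL' s hs
      rw [List.map_append, List.map_cons] at h2 ⊢
      rw [adp_mid h2]
      have h3 : NucL ((L1.map fun p => (p.1, X p.2)) ++ (L2.map fun p => (p.1, X p.2))) :=
        h2.left.append h2.right.tail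
      rw [hqp]
      exact adp_self₂ h3 (hL p List.mem_cons_self) (hL' q hq) _ _ _ _
    · rw [List.map_cons, List.nodup_cons, not_and_or, not_not] at h
      rcases h with h | h
      · exact absurd h h1
      · rw [ih hL' h, mul_zero]

theorem adp_mem {L : List (A × ι)} (hL : ∀ p ∈ L, IsNuc p.1) (i : ι) (b c : A)
    (h : i ∈ L.map Prod.snd) :
    adp (L.map fun p => (p.1, X p.2)) (asc (X i) b c) = 0 := by
  obtain ⟨q, hq, rfl⟩ := List.mem_map.mp h
  obtain ⟨L1, L2, rfl⟩ := List.append_of_mem hq
  have h2 : NucL ((L1 ++ q :: L2).map fun p => (p.1, X p.2)) := by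
    intro r hr
    obtain ⟨s, hs, rfl⟩ := List.mem_map.mp hr
    exact hL s hs
  rw [List.map_append, List.map_cons] at h2 ⊢
  rw [adp_mid h2]
  have h3 : NucL ((L1.map fun p => (p.1, X p.2)) ++ (L2.map fun p => (p.1, X p.2))) :=
    h2.left.append h2.right.tail
  exact adp_self h3 (hL q hq) _ _ _

theorem adp_pigeon {n : ℕ} {X : Fin n → A} {L : List (A × Fin n)} (hL : ∀ p ∈ L, IsNuc p.1)
    (i j k : Fin n) (hn : n < L.length + 3) :
    adp (L.map fun p => (p.1, X p.2)) (asc (X i) (X j) (X k)) = 0 := by
  by_cases h1 : (L.map Prod.snd).Nodup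
  · by_cases hi : i ∈ L.map Prod.snd
    · exact adp_mem hL i _ _ hi
    by_cases hj : j ∈ L.map Prod.snd
    · rw [← as_cyc (X i) (X j) (X k)]
      exact adp_mem hL j _ _ hj
    by_cases hk : k ∈ L.map Prod.snd
    · rw [← as_cyc' (X i) (X j) (X k)]
      exact adp_mem hL k _ _ hk
    by_cases hij : i = j
    · rw [hij, asc_self_left, adp_zero]
    by_cases hjk : j = k
    · rw [hjk, asc_self_right, adp_zero]
    by_cases hik : i = k
    · rw [hik, asc_flex, adp_zero]
    exfalso
    have h2 : (i :: j :: k :: L.map Prod.snd).Nodup := by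
      simp only [List.nodup_cons, List.mem_cons, not_or]
      exact ⟨⟨hij, hik, hi⟩, ⟨hjk, hj⟩, hk, h1⟩
    have h3 := h2.length_le_card
    simp only [List.length_cons, List.length_map, Fintype.card_fin] at h3
    omega
  · exact adp_dup hL _ _ _ h1

end pigeon

section main
variable {R A : Type*} [CommRing R] [NonUnitalNonAssocRing A] [Module R A] [IsScalarTower R A A]
  [SMulCommClass R A A] [IsAlt A] {n : ℕ} {X : Fin n → A}

/-- All the `x`-entries are generators. -/
theorem adp_gen (hX : Gens R X) {L : List (A × Fin n)} (hL : ∀ p ∈ L, IsNuc p.1)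
    (hn : n < L.length + 4) (a b c : A) (m : A) (hm : IsNuc m) (i : Fin n) :
    (m * X i - X i * m) * adp (L.map fun p => (p.1, X p.2)) (asc a b c) = 0 := by
  have hN : NucL (L.map fun p => (p.1, X p.2)) := by
    intro r hr
    obtain ⟨s, hs, rfl⟩ := List.mem_map.mp hr
    exact hL s hs
  have step : ∀ b c : A, (∀ j (m : A), IsNuc m → ∀ i,
      (m * X i - X i * m) * adp (L.map fun p => (p.1, X p.2)) (asc (X j) b c) = 0) →
      ∀ a m : A, IsNuc m → ∀ i,
      (m * X i - X i * m) * adp (L.map fun p => (p.1, X p.2)) (asc a b c) = 0 := by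
    intro b c h a m hm i
    have h1 := adp_swap hN hm (X i) a b c
    have h2 := closure_ad hX (adp (L.map fun p => (p.1, X p.2)) (asc (X i) b c))
      (fun j m hm => h i m hm j) a m hm
    rw [h2] at h1
    exact (neg_eq_zero.mp h1.symm)
  have h0 : ∀ (j k l : Fin n) (m : A), IsNuc m → ∀ i,
      (m * X i - X i * m) * adp (L.map fun p => (p.1, X p.2))
        (asc (X j) (X k) (X l)) = 0 := by
    intro j k l m hm i
    have h1 := adp_pigeon (X := X) (L := (m, i) :: L) (by
      intro p hp
      rcases List.mem_cons.mp hp with rfl | hp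
      · exact hm
      · exact hL p hp) j k l (by rw [List.length_cons]; omega)
    exact h1
  have h1 : ∀ (k l : Fin n) (a m : A), IsNuc m → ∀ i,
      (m * X i - X i * m) * adp (L.map fun p => (p.1, X p.2))
        (asc a (X k) (X l)) = 0 := by
    intro k l
    exact step _ _ fun j => h0 j k l
  have h2 : ∀ (k : Fin n) (a b m : A), IsNuc m → ∀ i,
      (m * X i - X i * m) * adp (L.map fun p => (p.1, X p.2))
        (asc a (X k) b) = 0 := by
    intro k a b m hm i
    refine step (X k) b (fun j m hm i => ?_) a m hm i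
    rw [← as_cyc' (X j) (X k) b]
    exact h1 j k b m hm i
  refine step b c (fun j m hm i => ?_) a m hm i
  rw [← as_cyc' (X j) b c]
  exact h2 j c b m hm i

theorem adp_main (hX : Gens R X) (l2 : List (A × A)) : ∀ (L : List (A × Fin n)),
    (∀ p ∈ L, IsNuc p.1) → NucL l2 → (L ≠ [] ∨ l2 ≠ []) → n < L.length + l2.length + 3 →
    ∀ a b c : A, adp ((L.map fun p => (p.1, X p.2)) ++ l2) (asc a b c) = 0 := by
  induction l2 with
  | nil =>
    intro L hL _ hne hn a b c
    rw [List.append_nil]
    cases L with
    | nil => simp at hne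
    | cons p L =>
      have hL' : ∀ q ∈ L, IsNuc q.1 := fun q hq => hL q (List.mem_cons_of_mem _ hq)
      rw [List.map_cons, adp_cons]
      refine adp_gen hX hL' ?_ a b c p.1 (hL p List.mem_cons_self) p.2
      simp only [List.length_cons, List.length_nil] at hn
      omega
  | cons p l2 ih =>
    intro L hL hN hne hn a b c
    have hN1 : NucL (L.map fun p => (p.1, X p.2)) := by
      intro r hr
      obtain ⟨s, hs, rfl⟩ := List.mem_map.mp hr
      exact hL s hs
    rw [adp_mid (hN1.append hN)]
    refine closure_ad hX _ (fun i m hm => ?_) p.2 p.1 hN.head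
    have h1 := ih ((m, i) :: L) (by
      intro q hq
      rcases List.mem_cons.mp hq with rfl | hq
      · exact hm
      · exact hL q hq) hN.tail (Or.inl (List.cons_ne_nil _ _)) (by
        simp only [List.length_cons] at hn ⊢
        omega) a b c
    exact h1

/-- A product of `k` elements of `[N, A]` kills all ascs if `k ≥ 1` and `k + 3 > n`. -/
theorem adp_eq_zero (hX : Gens R X) (l : List (A × A)) (hl : NucL l) (hne : l ≠ [])
    (hn : n < l.length + 3) (a b c : A) : adp l (asc a b c) = 0 := by
  have h := adp_main hX l [] (by simp) hl (Or.inr hne) (by simpa using hn) a b c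
  exact h

end main

end ALT
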