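import Pool.Agent.ALT.L1c2
import Pool.Agent.ALT.S1c

/-!
# Project ALT, Level 1, file c2b (helper66): finite generation of `alg(l(C))`
-/

set_option autoImplicit false
set_option linter.unusedSectionVars false

namespace ALT

theorem finite_card_cont_le (Y : Type*) [Finite Y] (K : ℕ) :
    {m : FreeMagma Y | (cont m).card ≤ K}.Finite := by
  induction K with
  | zero =>
    convert Set.finite_empty
    ext m
    have := card_cont_pos m
    simp only [Set.mem_ofPred_eq, Set.mem_empty_iff_false, iff_false]
    omega
  | succ K ih =>
    have h1 : (Set.range (FreeMagma.of : Y → FreeMagma Y)).Finite := Set.finite_range _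
    have h2 := Set.Finite.image2 (fun a b : FreeMagma Y => a * b) ih ih
    refine (h1.union h2).subset ?_
    intro m hm
    induction m using FreeMagma.recOnMul with
    | ih1 y => exact Or.inl ⟨y, rfl⟩
    | ih2 a b _ _ =>
      refine Or.inr ⟨a, ?_, b, ?_, rfl⟩
      · have h3 := card_cont_pos b
        simp only [Set.mem_ofPred_eq, cont_mul, Multiset.card_add] at hm ⊢
        omega
      · have h3 := card_cont_pos a
        simp only [Set.mem_ofPred_eq, cont_mul, Multiset.card_add] at hm ⊢
        omega

section
variable {R C E Y : Type*} [CommRing R] [NonUnitalNonAssocRing C] [Module R C]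
  [IsScalarTower R C C] [SMulCommClass R C C]

/-- a generated algebra is spanned by the values of the monomials -/
theorem span_mev_eq_top {g : Y → C} (hg : Gens R g) :
    Submodule.span R (Set.range (mev g)) = ⊤ := by
  refine hg _ (fun i => Submodule.subset_span ⟨FreeMagma.of i, rfl⟩) ?_
  intro a ha b hb
  induction ha using Submodule.span_induction with
  | mem a ha =>
    obtain ⟨m, rfl⟩ := ha
    induction hb using Submodule.span_induction with
    | mem b hb =>
      obtain ⟨m', rfl⟩ := hb
      exact Submodule.subset_span ⟨m * m', rfl⟩
    | zero => rw [mul_zero]; exact zero_mem _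
    | add x y _ _ hx hy => rw [mul_add]; exact add_mem hx hy
    | smul r x _ hx => rw [mul_smul_comm]; exact Submodule.smul_mem _ r hx
  | zero => rw [zero_mul]; exact zero_mem _
  | add x y _ _ hx hy => rw [add_mul]; exact add_mem hx hy
  | smul r x _ hx => rw [smul_mul_assoc]; exact Submodule.smul_mem _ r hx

variable [Ring E] [Algebra R E]

/-- COROLLARY of the content theorem: for a finitely generated alternative algebra the associative
algebra generated by `l(C)` is generated by finitely many `l(u)`. -/
theorem exists_finset_adjoin [IsAlt C] [Finite Y] {g : Y → C} (hg : Gens R g) :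
    ∃ U : Finset C, ∀ {l : C →ₗ[R] E}, JRep l → ∀ b : C,
      l b ∈ Algebra.adjoin R (l '' (U : Set C)) := by
  classical
  have := Fintype.ofFinite Y
  let K := Fintype.card Y
  have hfin := (finite_card_cont_le Y K).image (mev g)
  refine ⟨hfin.toFinset, ?_⟩
  intro l hl b
  have hb : b ∈ Submodule.span R (Set.range (mev g)) := by
    rw [span_mev_eq_top hg]; trivial
  have key : ∀ c : Multiset Y, ∀ x ∈ Pc l g K c,
      x ∈ Algebra.adjoin R (l '' (hfin.toFinset : Set C)) := by
    intro c x hx
    induction hx using Submodule.span_induction with
    | mem x hx =>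
      obtain ⟨w, hw, -, rfl⟩ := hx
      refine list_prod_mem ?_
      intro x hx
      obtain ⟨m, hm, rfl⟩ := List.mem_map.1 hx
      refine Algebra.subset_adjoin ⟨mev g m, ?_, rfl⟩
      rw [Set.Finite.coe_toFinset]
      exact ⟨m, hw m hm, rfl⟩
    | zero => exact zero_mem _
    | add x y _ _ hx hy => exact add_mem hx hy
    | smul r x _ hx => exact Subalgebra.smul_mem _ hx r
  induction hb using Submodule.span_induction with
  | mem b hb =>
    obtain ⟨m, rfl⟩ := hb
    exact key _ _ (content hl g le_rfl m)
  | zero => rw [map_zero]; exact zero_mem _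
  | add x y _ _ hx hy => rw [map_add]; exact add_mem hx hy
  | smul r x _ hx => rw [map_smul]; exact Subalgebra.smul_mem _ hx r

end

end ALT
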