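import Pool.Agent.ALT.L1c2b

/-!
# Project ALT, Level 1, file c3 (helper66): the extended set of generators

`Yx n` indexes the letters `x_i`, `t_ij = [x_i, x_j]`, `t_ijk = (x_i, x_j, x_k)` of degrees `1, 2, 3` and contents
`0, 1, 1`. `Hd x d L` is the span of the monomials of degree `d` and content `≥ L`. Commutators and
associators of monomials raise the content: `com_mem_Hd`, `asc_mem_Hd`; monomials with the same letters
are congruent modulo content `1`: `mev_sub_mem_Hd`. The ideal `Tid C` is the span of the monomials of content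
`≥ 1`.
-/

set_option autoImplicit false
set_option linter.unusedSectionVars false

namespace ALT

/-- index set of the extended generators -/
abbrev Yx (n : ℕ) : Type := Fin n ⊕ (Fin n × Fin n) ⊕ (Fin n × Fin n × Fin n)

/-- degree of a letter -/
def dY {n : ℕ} : Yx n → ℕ
  | .inl _ => 1
  | .inr (.inl _) => 2
  | .inr (.inr _) => 3

/-- content of a letter -/
def tY {n : ℕ} : Yx n → ℕ
  | .inl _ => 0
  | .inr (.inl _) => 1
  | .inr (.inr _) => 1

theorem dY_pos {n : ℕ} (y : Yx n) : 1 ≤ dY y := by
  rcases y with i | i | i <;> simp [dY]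

theorem tY_le {n : ℕ} (y : Yx n) : tY y ≤ dY y := by
  rcases y with i | i | i <;> simp [dY, tY]

theorem tY_le_one {n : ℕ} (y : Yx n) : tY y ≤ 1 := by
  rcases y with i | i | i <;> simp [tY]

theorem exists_of_tY {n : ℕ} {y : Yx n} (h : tY y = 0) : ∃ i, y = Sum.inl i := by
  rcases y with i | i | i
  · exact ⟨i, rfl⟩
  · simp [tY] at h
  · simp [tY] at h

/-- degree of a content -/
def mdg {n : ℕ} (c : Multiset (Yx n)) : ℕ := (c.map dY).sum

/-- `t`-content of a content -/
def mtc {n : ℕ} (c : Multiset (Yx n)) : ℕ := (c.map tY).sum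

@[simp] theorem mdg_add {n : ℕ} (c d : Multiset (Yx n)) : mdg (c + d) = mdg c + mdg d := by
  simp [mdg]

@[simp] theorem mtc_add {n : ℕ} (c d : Multiset (Yx n)) : mtc (c + d) = mtc c + mtc d := by
  simp [mtc]

@[simp] theorem mdg_singleton {n : ℕ} (y : Yx n) : mdg {y} = dY y := by simp [mdg]

@[simp] theorem mtc_singleton {n : ℕ} (y : Yx n) : mtc {y} = tY y := by simp [mtc]

theorem mtc_le_mdg {n : ℕ} (c : Multiset (Yx n)) : mtc c ≤ mdg c := by
  induction c using Multiset.induction_on with
  | empty => simp [mtc, mdg]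
  | cons y c ih =>
    rw [← Multiset.singleton_add, mdg_add, mtc_add, mdg_singleton, mtc_singleton]
    have := tY_le y
    omega

theorem card_le_mdg {n : ℕ} (c : Multiset (Yx n)) : c.card ≤ mdg c := by
  induction c using Multiset.induction_on with
  | empty => simp
  | cons y c ih =>
    rw [← Multiset.singleton_add, mdg_add, mdg_singleton, Multiset.card_add,
      Multiset.card_singleton]
    have := dY_pos y
    omega

section
variable {R C : Type*} [CommRing R] [NonUnitalNonAssocRing C] [Module R C]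
  [IsScalarTower R C C] [SMulCommClass R C C] {n : ℕ}

/-- values of the letters -/
def gY (x : Fin n → C) : Yx n → C
  | .inl i => x i
  | .inr (.inl p) => com (x p.1) (x p.2)
  | .inr (.inr p) => asc (x p.1) (x p.2.1) (x p.2.2)

variable (R) in
/-- span of the monomials of degree `d` and content at least `L` -/
def Hd (x : Fin n → C) (d L : ℕ) : Submodule R C :=
  Submodule.span R {z | ∃ m : FreeMagma (Yx n), mdg (cont m) = d ∧ L ≤ mtc (cont m) ∧
    z = mev (gY x) m}

variable {x : Fin n → C}

theorem mev_mem_Hd (m : FreeMagma (Yx n)) :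
    mev (gY x) m ∈ Hd R x (mdg (cont m)) (mtc (cont m)) :=
  Submodule.subset_span ⟨m, rfl, le_rfl, rfl⟩

theorem Hd_mono (d : ℕ) {L L' : ℕ} (h : L ≤ L') : Hd R x d L' ≤ Hd R x d L := by
  rw [Hd, Submodule.span_le]
  rintro z ⟨m, h1, h2, rfl⟩
  exact Submodule.subset_span ⟨m, h1, h.trans h2, rfl⟩

theorem mul_mem_Hd {d d' L L' : ℕ} {a b : C} (ha : a ∈ Hd R x d L) (hb : b ∈ Hd R x d' L') :
    a * b ∈ Hd R x (d + d') (L + L') := by
  induction ha using Submodule.span_induction with
  | mem a ha =>
    obtain ⟨m, rfl, h1, rfl⟩ := ha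
    induction hb using Submodule.span_induction with
    | mem b hb =>
      obtain ⟨m', rfl, h2, rfl⟩ := hb
      refine Submodule.subset_span ⟨m * m', ?_, ?_, rfl⟩
      · rw [cont_mul, mdg_add]
      · rw [cont_mul, mtc_add]; omega
    | zero => rw [mul_zero]; exact zero_mem _
    | add x y _ _ hx hy => rw [mul_add]; exact add_mem hx hy
    | smul r x _ hx => rw [mul_smul_comm]; exact Submodule.smul_mem _ r hx
  | zero => rw [zero_mul]; exact zero_mem _
  | add x y _ _ hx hy => rw [add_mul]; exact add_mem hx hy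
  | smul r x _ hx => rw [smul_mul_assoc]; exact Submodule.smul_mem _ r hx

theorem com_mem_Hd' {d d' L L' : ℕ} {a b : C} (ha : a ∈ Hd R x d L) (hb : b ∈ Hd R x d' L') :
    com a b ∈ Hd R x (d + d') (L + L') := by
  rw [com_def]
  refine sub_mem (mul_mem_Hd ha hb) ?_
  rw [add_comm d, add_comm L]
  exact mul_mem_Hd hb ha

theorem asc_mem_Hd' {d d' d'' L L' L'' : ℕ} {a b c : C} (ha : a ∈ Hd R x d L)
    (hb : b ∈ Hd R x d' L') (hc : c ∈ Hd R x d'' L'') :
    asc a b c ∈ Hd R x (d + d' + d'') (L + L' + L'') := by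
  rw [asc_def]
  refine sub_mem (mul_mem_Hd (mul_mem_Hd ha hb) hc) ?_
  rw [add_assoc d, add_assoc L]
  exact mul_mem_Hd ha (mul_mem_Hd hb hc)

theorem gY_mem_Hd (y : Yx n) : gY x y ∈ Hd R x (dY y) (tY y) := by
  have h := mev_mem_Hd (R := R) (x := x) (FreeMagma.of y)
  simpa using h

theorem mev_mem_Hd0 (m : FreeMagma (Yx n)) : mev (gY x) m ∈ Hd R x (mdg (cont m)) 0 :=
  Hd_mono _ (Nat.zero_le _) (mev_mem_Hd m)

variable [IsAlt C]

theorem asc_com_mem_Hd (N : ℕ) :
    (∀ a b d : FreeMagma (Yx n), (cont a).card + (cont b).card + (cont d).card = N →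
      asc (mev (gY x) a) (mev (gY x) b) (mev (gY x) d) ∈
        Hd R x (mdg (cont a) + mdg (cont b) + mdg (cont d)) 1) ∧
    (∀ a b : FreeMagma (Yx n), (cont a).card + (cont b).card = N →
      com (mev (gY x) a) (mev (gY x) b) ∈ Hd R x (mdg (cont a) + mdg (cont b)) 1) := by
  induction N using Nat.strong_induction_on with
  | _ N ih =>
  have key : ∀ a1 a2 b d : FreeMagma (Yx n),
      (cont (a1 * a2)).card + (cont b).card + (cont d).card = N →
      asc (mev (gY x) (a1 * a2)) (mev (gY x) b) (mev (gY x) d) ∈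
        Hd R x (mdg (cont (a1 * a2)) + mdg (cont b) + mdg (cont d)) 1 := by
    intro a1 a2 b d hN
    rw [cont_mul, Multiset.card_add] at hN
    have p1 := card_cont_pos a1
    have p2 := card_cont_pos a2
    have p3 := card_cont_pos b
    have p4 := card_cont_pos d
    have h1 := (ih ((cont a1).card + (cont b).card + (cont d).card) (by omega)).1 a1 b d rfl
    have h2 := (ih ((cont a2).card + (cont b).card + (cont d).card) (by omega)).1 a2 b d rfl
    have h3 := (ih ((cont a1).card + (cont a2).card) (by omega)).2 a1 a2 rfl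
    have h4 := (ih ((cont b).card + (cont d).card) (by omega)).2 b d rfl
    have e1 := mev_mem_Hd0 (R := R) (x := x) a1
    have e2 := mev_mem_Hd0 (R := R) (x := x) a2
    have e3 := mev_mem_Hd0 (R := R) (x := x) b
    have e4 := mev_mem_Hd0 (R := R) (x := x) d
    have hk := kf_eq (mev (gY x) a1) (mev (gY x) a2) (mev (gY x) b) (mev (gY x) d)
    have hk' := kf_def (mev (gY x) a1) (mev (gY x) a2) (mev (gY x) b) (mev (gY x) d)
    have e : asc (mev (gY x) (a1 * a2)) (mev (gY x) b) (mev (gY x) d) =
        asc (com (mev (gY x) a1) (mev (gY x) a2)) (mev (gY x) b) (mev (gY x) d) +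
        asc (com (mev (gY x) b) (mev (gY x) d)) (mev (gY x) a1) (mev (gY x) a2) +
        mev (gY x) a2 * asc (mev (gY x) a1) (mev (gY x) b) (mev (gY x) d) +
        asc (mev (gY x) a2) (mev (gY x) b) (mev (gY x) d) * mev (gY x) a1 := by
      rw [mev_mul]
      linear_combination (norm := abel) hk - hk'
    rw [e, cont_mul, mdg_add]
    have k1 := asc_mem_Hd' h3 e3 e4
    have k2 := asc_mem_Hd' h4 e1 e2
    have k3 := mul_mem_Hd e2 h1
    have k4 := mul_mem_Hd h2 e1
    rw [add_zero, add_zero] at k1 k2
    rw [zero_add] at k3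
    rw [add_zero] at k4
    have E : ∀ {d1 d2 : ℕ} {z : C}, d1 = d2 → z ∈ Hd R x d1 1 → z ∈ Hd R x d2 1 := by
      intro d1 d2 z h hz; rwa [← h]
    exact add_mem (add_mem (add_mem (E (by ring) k1) (E (by ring) k2)) (E (by ring) k3))
      (E (by ring) k4)
  have hA : ∀ a b d : FreeMagma (Yx n), (cont a).card + (cont b).card + (cont d).card = N →
      asc (mev (gY x) a) (mev (gY x) b) (mev (gY x) d) ∈
        Hd R x (mdg (cont a) + mdg (cont b) + mdg (cont d)) 1 := by
    intro a b d hN
    induction a using FreeMagma.recOnMul with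
    | ih2 a1 a2 _ _ => exact key a1 a2 b d hN
    | ih1 y1 =>
      induction b using FreeMagma.recOnMul with
      | ih2 b1 b2 _ _ =>
        rw [asc_rot]
        have h := key b1 b2 d (FreeMagma.of y1) (by omega)
        have e : mdg (cont (FreeMagma.of y1)) + mdg (cont (b1 * b2)) + mdg (cont d) =
          mdg (cont (b1 * b2)) + mdg (cont d) + mdg (cont (FreeMagma.of y1)) := by ring
        rw [e]
        exact h
      | ih1 y2 =>
        induction d using FreeMagma.recOnMul with
        | ih2 d1 d2 _ _ =>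
          rw [asc_rot']
          have h := key d1 d2 (FreeMagma.of y1) (FreeMagma.of y2) (by omega)
          have e : mdg (cont (FreeMagma.of y1)) + mdg (cont (FreeMagma.of y2)) +
              mdg (cont (d1 * d2)) =
            mdg (cont (d1 * d2)) + mdg (cont (FreeMagma.of y1)) +
              mdg (cont (FreeMagma.of y2)) := by ring
          rw [e]
          exact h
        | ih1 y3 =>
          simp only [mev_of, cont_of, mdg_singleton]
          by_cases hz : 1 ≤ tY y1 + tY y2 + tY y3
          · exact Hd_mono _ hz (asc_mem_Hd' (gY_mem_Hd y1) (gY_mem_Hd y2) (gY_mem_Hd y3))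
          · obtain ⟨i, rfl⟩ := exists_of_tY (y := y1) (by omega)
            obtain ⟨j, rfl⟩ := exists_of_tY (y := y2) (by omega)
            obtain ⟨k, rfl⟩ := exists_of_tY (y := y3) (by omega)
            have h := gY_mem_Hd (R := R) (x := x) (Sum.inr (Sum.inr (i, j, k)))
            have e1 : dY (Sum.inl i : Yx n) + dY (Sum.inl j : Yx n) + dY (Sum.inl k : Yx n) =
              dY (Sum.inr (Sum.inr (i, j, k)) : Yx n) := rfl
            have e2 : (1 : ℕ) = tY (Sum.inr (Sum.inr (i, j, k)) : Yx n) := rfl
            rw [e1, e2]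
            exact h
  refine ⟨hA, ?_⟩
  have keyC : ∀ a1 a2 b : FreeMagma (Yx n),
      (cont (a1 * a2)).card + (cont b).card = N →
      com (mev (gY x) (a1 * a2)) (mev (gY x) b) ∈
        Hd R x (mdg (cont (a1 * a2)) + mdg (cont b)) 1 := by
    intro a1 a2 b hN
    rw [cont_mul, Multiset.card_add] at hN
    have p1 := card_cont_pos a1
    have p2 := card_cont_pos a2
    have p3 := card_cont_pos b
    have h1 := (ih ((cont a2).card + (cont b).card) (by omega)).2 a2 b rfl
    have h2 := (ih ((cont a1).card + (cont b).card) (by omega)).2 a1 b rfl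
    have h3 := hA a1 a2 b (by omega)
    have e1 := mev_mem_Hd0 (R := R) (x := x) a1
    have e2 := mev_mem_Hd0 (R := R) (x := x) a2
    rw [mev_mul, com_mul_left, cont_mul, mdg_add]
    have k1 := mul_mem_Hd e1 h1
    have k2 := mul_mem_Hd h2 e2
    rw [zero_add] at k1
    rw [add_zero] at k2
    have E : ∀ {d1 d2 : ℕ} {z : C}, d1 = d2 → z ∈ Hd R x d1 1 → z ∈ Hd R x d2 1 := by
      intro d1 d2 z h hz; rwa [← h]
    exact add_mem (add_mem (E (by ring) k1) (E (by ring) k2)) (zsmul_mem h3 3)
  intro a b hN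
  induction a using FreeMagma.recOnMul with
  | ih2 a1 a2 _ _ => exact keyC a1 a2 b hN
  | ih1 y1 =>
    induction b using FreeMagma.recOnMul with
    | ih2 b1 b2 _ _ =>
      have h := keyC b1 b2 (FreeMagma.of y1) (by omega)
      have e : mdg (cont (FreeMagma.of y1)) + mdg (cont (b1 * b2)) =
        mdg (cont (b1 * b2)) + mdg (cont (FreeMagma.of y1)) := add_comm _ _
      rw [com_swap, e]
      exact neg_mem h
    | ih1 y2 =>
      simp only [mev_of, cont_of, mdg_singleton]
      by_cases hz : 1 ≤ tY y1 + tY y2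
      · exact Hd_mono _ hz (com_mem_Hd' (gY_mem_Hd y1) (gY_mem_Hd y2))
      · obtain ⟨i, rfl⟩ := exists_of_tY (y := y1) (by omega)
        obtain ⟨j, rfl⟩ := exists_of_tY (y := y2) (by omega)
        have h := gY_mem_Hd (R := R) (x := x) (Sum.inr (Sum.inl (i, j)))
        have e1 : dY (Sum.inl i : Yx n) + dY (Sum.inl j : Yx n) =
          dY (Sum.inr (Sum.inl (i, j)) : Yx n) := rfl
        have e2 : (1 : ℕ) = tY (Sum.inr (Sum.inl (i, j)) : Yx n) := rfl
        rw [e1, e2]
        exact h

variable (R x) in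
/-- congruence modulo content `1` -/
def tCon : Con (FreeMagma (Yx n)) where
  r m m' := cont m = cont m' ∧ mev (gY x) m - mev (gY x) m' ∈ Hd R x (mdg (cont m)) 1
  iseqv := by
    refine ⟨fun m => ⟨rfl, by rw [sub_self]; exact zero_mem _⟩, ?_, ?_⟩
    · rintro m m' ⟨h1, h2⟩
      refine ⟨h1.symm, ?_⟩
      rw [← h1, ← neg_sub]
      exact neg_mem h2
    · rintro m m' m'' ⟨h1, h2⟩ ⟨h3, h4⟩
      refine ⟨h1.trans h3, ?_⟩
      rw [← h1] at h4
      have := add_mem h2 h4
      rwa [sub_add_sub_cancel] at this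
  mul' := by
    rintro a a' b b' ⟨h1, h2⟩ ⟨h3, h4⟩
    refine ⟨by rw [cont_mul, cont_mul, h1, h3], ?_⟩
    have e : mev (gY x) (a * b) - mev (gY x) (a' * b') =
        (mev (gY x) a - mev (gY x) a') * mev (gY x) b +
        mev (gY x) a' * (mev (gY x) b - mev (gY x) b') := by
      rw [mev_mul, mev_mul, sub_mul, mul_sub]; abel
    rw [e, cont_mul, mdg_add]
    have k1 := mul_mem_Hd h2 (mev_mem_Hd0 b)
    have k2 := mul_mem_Hd (mev_mem_Hd0 (R := R) (x := x) a') h4
    rw [← h1] at k2
    rw [add_zero] at k1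
    rw [zero_add] at k2
    exact add_mem k1 k2

/-- monomials of the same content are congruent modulo content `1` -/
theorem mev_sub_mem_Hd {m m' : FreeMagma (Yx n)} (h : cont m = cont m') :
    mev (gY x) m - mev (gY x) m' ∈ Hd R x (mdg (cont m)) 1 := by
  refine (con_of_cont (tCon R x) ?_ ?_ h).2
  · intro a b
    refine ⟨by rw [cont_mul, cont_mul, add_comm], ?_⟩
    rw [cont_mul, mdg_add]
    have := (asc_com_mem_Hd (R := R) (x := x) _).2 a b rfl
    rwa [com_def] at this
  · intro a b d
    refine ⟨by simp only [cont_mul, add_assoc], ?_⟩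
    rw [cont_mul, cont_mul, mdg_add, mdg_add]
    have := (asc_com_mem_Hd (R := R) (x := x) _).1 a b d rfl
    rwa [asc_def] at this

/-! ### the ideal `Tid` -/

variable (R) in
/-- span of the monomials of content at least `L` -/
def HL (x : Fin n → C) (L : ℕ) : Submodule R C :=
  Submodule.span R {z | ∃ m : FreeMagma (Yx n), L ≤ mtc (cont m) ∧ z = mev (gY x) m}

theorem Hd_le_HL (d L : ℕ) : Hd R x d L ≤ HL R x L := by
  rw [Hd, Submodule.span_le]
  rintro z ⟨m, -, h2, rfl⟩
  exact Submodule.subset_span ⟨m, h2, rfl⟩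

theorem HL_mono {L L' : ℕ} (h : L ≤ L') : HL R x L' ≤ HL R x L := by
  rw [HL, Submodule.span_le]
  rintro z ⟨m, h2, rfl⟩
  exact Submodule.subset_span ⟨m, h.trans h2, rfl⟩

theorem mul_mem_HL {L L' : ℕ} {a b : C} (ha : a ∈ HL R x L) (hb : b ∈ HL R x L') :
    a * b ∈ HL R x (L + L') := by
  induction ha using Submodule.span_induction with
  | mem a ha =>
    obtain ⟨m, h1, rfl⟩ := ha
    induction hb using Submodule.span_induction with
    | mem b hb =>
      obtain ⟨m', h2, rfl⟩ := hb
      refine Submodule.subset_span ⟨m * m', ?_, rfl⟩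
      rw [cont_mul, mtc_add]; omega
    | zero => rw [mul_zero]; exact zero_mem _
    | add x y _ _ hx hy => rw [mul_add]; exact add_mem hx hy
    | smul r x _ hx => rw [mul_smul_comm]; exact Submodule.smul_mem _ r hx
  | zero => rw [zero_mul]; exact zero_mem _
  | add x y _ _ hx hy => rw [add_mul]; exact add_mem hx hy
  | smul r x _ hx => rw [smul_mul_assoc]; exact Submodule.smul_mem _ r hx

theorem HL_zero (hx : Gens R x) : HL R x 0 = ⊤ := by
  refine hx _ (fun i => Submodule.subset_span ⟨FreeMagma.of (Sum.inl i), Nat.zero_le _, rfl⟩) ?_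
  intro a ha b hb
  have h := mul_mem_HL ha hb
  rwa [add_zero] at h

theorem com_mem_HL (hx : Gens R x) (a b : C) : com a b ∈ HL R x 1 := by
  have ha : a ∈ HL R x 0 := by rw [HL_zero hx]; trivial
  have hb : b ∈ HL R x 0 := by rw [HL_zero hx]; trivial
  induction ha using Submodule.span_induction with
  | mem a ha =>
    obtain ⟨m, -, rfl⟩ := ha
    induction hb using Submodule.span_induction with
    | mem b hb =>
      obtain ⟨m', -, rfl⟩ := hb
      exact Hd_le_HL _ _ ((asc_com_mem_Hd (R := R) (x := x) _).2 m m' rfl)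
    | zero => rw [com_zero_right]; exact zero_mem _
    | add x y _ _ hx hy => rw [com_add_right]; exact add_mem hx hy
    | smul r x _ hx =>
      have h0 : ∀ u : C, com u (r • x) = r • com u x := fun u => by
        rw [com_def, com_def, mul_smul_comm, smul_mul_assoc, smul_sub]
      rw [h0]; exact Submodule.smul_mem _ r hx
  | zero => rw [com_zero_left]; exact zero_mem _
  | add x y _ _ hx hy => rw [com_add_left]; exact add_mem hx hy
  | smul r x _ hx =>
    have : com (r • x) b = r • com x b := by
      rw [com_def, com_def, mul_smul_comm, smul_mul_assoc, smul_sub]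
    rw [this]; exact Submodule.smul_mem _ r hx

theorem c3_asc_smul_left (r : R) (a b c : C) : asc (r • a) b c = r • asc a b c := by
  simp only [asc_def, smul_mul_assoc, mul_smul_comm, smul_sub]

theorem c3_asc_smul_mid (r : R) (a b c : C) : asc a (r • b) c = r • asc a b c := by
  simp only [asc_def, smul_mul_assoc, mul_smul_comm, smul_sub]

theorem c3_asc_smul_right (r : R) (a b c : C) : asc a b (r • c) = r • asc a b c := by
  rw [asc_def, asc_def, mul_smul_comm, mul_smul_comm, mul_smul_comm, smul_sub]

theorem asc_mem_HL (hx : Gens R x) (a b c : C) : asc a b c ∈ HL R x 1 := by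
  have ha : a ∈ HL R x 0 := by rw [HL_zero hx]; trivial
  have hb : b ∈ HL R x 0 := by rw [HL_zero hx]; trivial
  have hc : c ∈ HL R x 0 := by rw [HL_zero hx]; trivial
  induction ha using Submodule.span_induction with
  | mem a ha =>
    obtain ⟨m, -, rfl⟩ := ha
    induction hb using Submodule.span_induction with
    | mem b hb =>
      obtain ⟨m', -, rfl⟩ := hb
      induction hc using Submodule.span_induction with
      | mem c hc =>
        obtain ⟨m'', -, rfl⟩ := hc
        exact Hd_le_HL _ _ ((asc_com_mem_Hd (R := R) (x := x) _).1 m m' m'' rfl)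
      | zero => rw [asc_zero_right]; exact zero_mem _
      | add x y _ _ hx hy => rw [asc_add_right]; exact add_mem hx hy
      | smul r x _ hx => rw [c3_asc_smul_right]; exact Submodule.smul_mem _ r hx
    | zero => rw [asc_zero_mid]; exact zero_mem _
    | add x y _ _ hx hy => rw [asc_add_mid]; exact add_mem hx hy
    | smul r x _ hx => rw [c3_asc_smul_mid]; exact Submodule.smul_mem _ r hx
  | zero => rw [asc_zero_left]; exact zero_mem _
  | add x y _ _ hx hy => rw [asc_add_left]; exact add_mem hx hy
  | smul r x _ hx => rw [c3_asc_smul_left]; exact Submodule.smul_mem _ r hx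

theorem Tid_le_HL (hx : Gens R x) : Tid C ≤ (HL R x 1).toAddSubgroup := by
  refine Tid_le ⟨?_, ?_⟩ (com_mem_HL hx) (asc_mem_HL hx)
  · intro a z hz
    have ha : a ∈ HL R x 0 := by rw [HL_zero hx]; trivial
    have := mul_mem_HL ha (show z ∈ HL R x 1 from hz)
    rwa [zero_add] at this
  · intro a z hz
    have ha : a ∈ HL R x 0 := by rw [HL_zero hx]; trivial
    have := mul_mem_HL (show z ∈ HL R x 1 from hz) ha
    rwa [add_zero] at this

theorem gY_mem_Tid {y : Yx n} (hy : tY y ≠ 0) : gY x y ∈ Tid C := by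
  rcases y with i | i | i
  · simp [tY] at hy
  · exact com_mem_Tid _ _
  · exact asc_mem_Tid _ _ _

theorem mev_mem_Tid {m : FreeMagma (Yx n)} (hm : mtc (cont m) ≠ 0) : mev (gY x) m ∈ Tid C := by
  induction m using FreeMagma.recOnMul with
  | ih1 y =>
    rw [cont_of, mtc_singleton] at hm
    exact gY_mem_Tid hm
  | ih2 a b ha hb =>
    rw [cont_mul, mtc_add] at hm
    rw [mev_mul]
    by_cases h : mtc (cont a) = 0
    · exact isIdeal_Tid.left _ _ (hb (by omega))
    · exact isIdeal_Tid.right _ _ (ha h)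

/-- `Tid C` is stable under scalars -/
theorem smul_mem_Tid (r : R) {z : C} (hz : z ∈ Tid C) : r • z ∈ Tid C := by
  let I : AddSubgroup C :=
    { carrier := {z | ∀ r : R, r • z ∈ Tid C}
      add_mem' := fun {a b} ha hb r => by rw [smul_add]; exact add_mem (ha r) (hb r)
      zero_mem' := fun r => by rw [smul_zero]; exact zero_mem _
      neg_mem' := fun {a} ha r => by rw [smul_neg]; exact neg_mem (ha r) }
  have h : Tid C ≤ I := by
    refine Tid_le ⟨?_, ?_⟩ ?_ ?_
    · intro a z hz r
      rw [← mul_smul_comm]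
      exact isIdeal_Tid.left a _ (hz r)
    · intro a z hz r
      rw [← smul_mul_assoc]
      exact isIdeal_Tid.right a _ (hz r)
    · intro a b r
      have : r • com a b = com (r • a) b := by
        rw [com_def, com_def, mul_smul_comm, smul_mul_assoc, smul_sub]
      rw [this]; exact com_mem_Tid _ _
    · intro a b c r
      rw [← c3_asc_smul_left]
      exact asc_mem_Tid _ _ _
  exact h hz r

variable (R C) in
/-- `Tid C` as a submodule -/
def TidR : Submodule R C where
  carrier := Tid C
  add_mem' := fun ha hb => add_mem ha hb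
  zero_mem' := zero_mem _
  smul_mem' := fun r _ hz => smul_mem_Tid r hz

theorem mem_TidR {z : C} : z ∈ TidR R C ↔ z ∈ Tid C := Iff.rfl

end

end ALT
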