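import Pool.Agent.ALT.L1c3
import Pool.Agent.H6.ALT.LMain
import Pool.Agent.H6.ALT.LGath

/-!
# Project ALT, Level 1, file c4 (helper66): the letter system of an alternative algebra

For a special representation `l : C → E` of the alternative algebra generated by `x_1, ..., x_n` the letters are
the monomials of length `≤ K` in the extended generators. `sysOF`: long ordinary words contain large pure powers.
`l_words_zero`: words of large content are zero.
-/

set_option autoImplicit false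
set_option linter.unusedSectionVars false

namespace ALT

open Pool.Agent.H6.ALT

section
variable {R C E : Type*} [CommRing R] [NonUnitalNonAssocRing C] [Module R C]
  [IsScalarTower R C C] [SMulCommClass R C C] [Ring E] [Algebra R E] {n : ℕ}

/-- number bounding the length of the letters -/
def Kn (n : ℕ) : ℕ := Fintype.card (Yx n) + 1

/-- letters -/
abbrev LetY (n : ℕ) : Type := {m : FreeMagma (Yx n) // (cont m).card ≤ Kn n}

instance (n : ℕ) : Finite (LetY n) := (finite_card_cont_le (Yx n) (Kn n)).to_subtype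

variable [IsAlt C] {l : C →ₗ[R] E} (hl : JRep l) (x : Fin n → C)

/-- the letter system -/
def sysL (_hl : JRep l) (x : Fin n → C) :
    LSys R (LinearMap.range l) ((TidR R C).map l) (LetY n) where
  ev m := l (mev (gY x) m.1)
  dg m := mdg (cont m.1)
  tc m := mtc (cont m.1)
  hdg m := (card_cont_pos m.1).trans_le (card_le_mdg _)
  htc m := mtc_le_mdg _
  evJ m := ⟨_, rfl⟩
  evI m hm := ⟨_, mev_mem_Tid hm, rfl⟩

include hl

theorem sysJ (hnil : ∀ t ∈ Tid C, ∃ k, ALT.pw t k = 0) :
    JSys R E (LinearMap.range l) ((TidR R C).map l) where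
  sq := by
    rintro _ ⟨a, rfl⟩
    exact ⟨a * a, hl.sq a⟩
  jord := by
    rintro _ ⟨a, rfl⟩ _ ⟨b, rfl⟩
    exact ⟨_, hl.jord a b⟩
  trip := by
    rintro _ ⟨a, rfl⟩ _ ⟨b, rfl⟩ _ ⟨c, rfl⟩
    exact ⟨_, hl.trip a b c⟩
  uop := by
    rintro _ ⟨a, rfl⟩ _ ⟨b, rfl⟩
    exact ⟨_, hl.u a b⟩
  le := by
    rintro _ ⟨a, -, rfl⟩
    exact ⟨a, rfl⟩
  isq := by
    rintro _ ⟨a, ha, rfl⟩
    exact ⟨a * a, isIdeal_Tid.left a a ha, hl.sq a⟩
  ijord := by
    rintro _ ⟨a, ha, rfl⟩ _ ⟨b, rfl⟩
    exact ⟨_, (Tid C).add_mem (isIdeal_Tid.right b a ha) (isIdeal_Tid.left b a ha), hl.jord a b⟩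
  itrip := by
    rintro _ ⟨a, ha, rfl⟩ _ ⟨b, rfl⟩ _ ⟨c, rfl⟩
    exact ⟨_, (Tid C).add_mem (isIdeal_Tid.right c _ (isIdeal_Tid.right b a ha))
      (isIdeal_Tid.left (c * b) a ha), hl.trip a b c⟩
  itrip' := by
    rintro _ ⟨a, rfl⟩ _ ⟨b, hb, rfl⟩ _ ⟨c, rfl⟩
    exact ⟨_, (Tid C).add_mem (isIdeal_Tid.right c _ (isIdeal_Tid.left a b hb))
      (isIdeal_Tid.right a _ (isIdeal_Tid.left c b hb)), hl.trip a b c⟩
  iuop := by
    rintro _ ⟨a, ha, rfl⟩ _ ⟨b, rfl⟩
    exact ⟨_, isIdeal_Tid.left (a * b) a ha, hl.u a b⟩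
  iuop' := by
    rintro _ ⟨a, rfl⟩ _ ⟨b, hb, rfl⟩
    exact ⟨_, isIdeal_Tid.right a _ (isIdeal_Tid.left a b hb), hl.u a b⟩
  nil := by
    rintro _ ⟨a, ha, rfl⟩
    obtain ⟨k, hk⟩ := hnil a ha
    exact ⟨k + 1, by rw [← hl.pw, hk, map_zero]⟩

theorem Pc_le_W (c : Multiset (Yx n)) :
    Pc l (gY x) (Kn n) c ≤ (sysL hl x).W (mdg c) (mtc c) := by
  rw [Pc, Submodule.span_le]
  rintro _ ⟨w, hw, rfl, rfl⟩
  have key : ∀ w : List (FreeMagma (Yx n)), (∀ m ∈ w, (cont m).card ≤ Kn n) →
      ∃ v : List (LetY n), (sysL hl x).dgw v = mdg (w.map cont).sum ∧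
        (sysL hl x).tcw v = mtc (w.map cont).sum ∧
        (w.map (fun m => l (mev (gY x) m))).prod = (sysL hl x).val v := by
    intro w
    induction w with
    | nil => intro _; exact ⟨[], by simp [LSys.dgw, mdg], by simp [LSys.tcw, mtc], rfl⟩
    | cons m w ih =>
      intro hw
      obtain ⟨v, h1, h2, h3⟩ := ih (fun m' hm' => hw m' (List.mem_cons_of_mem _ hm'))
      refine ⟨⟨m, hw m List.mem_cons_self⟩ :: v, ?_, ?_, ?_⟩
      · rw [List.map_cons, List.sum_cons, mdg_add, ← h1]
        simp [LSys.dgw, sysL]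
      · rw [List.map_cons, List.sum_cons, mtc_add, ← h2]
        simp [LSys.tcw, sysL]
      · rw [List.map_cons, List.prod_cons, h3, LSys.val_cons]
        rfl
  obtain ⟨v, h1, h2, h3⟩ := key w hw
  exact Submodule.subset_span ⟨v, h1, h2.ge, h3⟩

theorem W_mono {d L L' : ℕ} (h : L ≤ L') : (sysL hl x).W d L' ≤ (sysL hl x).W d L := by
  rw [LSys.W, Submodule.span_le]
  rintro _ ⟨w, h1, h2, rfl⟩
  exact Submodule.subset_span ⟨w, h1, h.trans h2, rfl⟩

theorem mul_mem_W {d d' L L' : ℕ} {a b : E} (ha : a ∈ (sysL hl x).W d L)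
    (hb : b ∈ (sysL hl x).W d' L') : a * b ∈ (sysL hl x).W (d + d') (L + L') := by
  induction ha using Submodule.span_induction with
  | mem a ha =>
    obtain ⟨w, rfl, h1, rfl⟩ := ha
    induction hb using Submodule.span_induction with
    | mem b hb =>
      obtain ⟨w', rfl, h2, rfl⟩ := hb
      refine Submodule.subset_span ⟨w ++ w', LSys.dgw_append _ _ _, ?_, ?_⟩
      · rw [LSys.tcw_append]; omega
      · rw [LSys.val_append]
    | zero => rw [mul_zero]; exact zero_mem _
    | add u v _ _ hu hv => rw [mul_add]; exact add_mem hu hv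
    | smul r u _ hu => rw [mul_smul_comm]; exact Submodule.smul_mem _ r hu
  | zero => rw [zero_mul]; exact zero_mem _
  | add u v _ _ hu hv => rw [add_mul]; exact add_mem hu hv
  | smul r u _ hu => rw [smul_mul_assoc]; exact Submodule.smul_mem _ r hu

theorem l_mem_W {d L : ℕ} {a : C} (ha : a ∈ Hd R x d L) : l a ∈ (sysL hl x).W d L := by
  induction ha using Submodule.span_induction with
  | mem a ha =>
    obtain ⟨m, rfl, h1, rfl⟩ := ha
    exact W_mono hl x h1 (Pc_le_W hl x _ (content hl (gY x) (Nat.le_succ _) m))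
  | zero => rw [map_zero]; exact zero_mem _
  | add x y _ _ hx hy => rw [map_add]; exact add_mem hx hy
  | smul r x _ hx => rw [map_smul]; exact Submodule.smul_mem _ r hx

theorem sysG1 (a b c : LetY n) :
    ((sysL hl x).ev a * (sysL hl x).ev b - (sysL hl x).ev b * (sysL hl x).ev a) *
      (sysL hl x).ev c - (sysL hl x).ev c *
      ((sysL hl x).ev a * (sysL hl x).ev b - (sysL hl x).ev b * (sysL hl x).ev a) ∈
      (sysL hl x).W ((sysL hl x).dg a + (sysL hl x).dg b + (sysL hl x).dg c) 1 := by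
  change (l (mev (gY x) a.1) * l (mev (gY x) b.1) - l (mev (gY x) b.1) * l (mev (gY x) a.1)) *
      l (mev (gY x) c.1) - l (mev (gY x) c.1) * (l (mev (gY x) a.1) * l (mev (gY x) b.1) -
      l (mev (gY x) b.1) * l (mev (gY x) a.1)) ∈ (sysL hl x).W
      (mdg (cont a.1) + mdg (cont b.1) + mdg (cont c.1)) 1
  rw [hl.com_com]
  refine l_mem_W hl x ?_
  have h : ∀ m m' : FreeMagma (Yx n), cont m = cont a.1 + cont b.1 + cont c.1 →
      cont m' = cont a.1 + cont b.1 + cont c.1 → mev (gY x) m - mev (gY x) m' ∈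
        Hd R x (mdg (cont a.1) + mdg (cont b.1) + mdg (cont c.1)) 1 := by
    intro m m' h1 h2
    have h3 := mev_sub_mem_Hd (R := R) (x := x) (h1.trans h2.symm)
    rwa [h1, mdg_add, mdg_add] at h3
  have k1 := h (a.1 * (b.1 * c.1)) (b.1 * (a.1 * c.1)) (by simp only [cont_mul]; abel)
    (by simp only [cont_mul]; abel)
  have k2 := h (a.1 * (c.1 * b.1)) (b.1 * (c.1 * a.1)) (by simp only [cont_mul]; abel)
    (by simp only [cont_mul]; abel)
  have k3 := h (b.1 * c.1 * a.1) (a.1 * c.1 * b.1) (by simp only [cont_mul]; abel)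
    (by simp only [cont_mul]; abel)
  have k4 := h (c.1 * b.1 * a.1) (c.1 * a.1 * b.1) (by simp only [cont_mul]; abel)
    (by simp only [cont_mul]; abel)
  have e := add_mem (add_mem k1 k2) (add_mem k3 k4)
  simp only [mev_mul] at e
  convert e using 1
  simp only [mul_add, add_mul]
  abel

theorem sysG2 (a b : LetY n) :
    ((sysL hl x).ev a * (sysL hl x).ev b - (sysL hl x).ev b * (sysL hl x).ev a) *
      ((sysL hl x).ev a * (sysL hl x).ev b - (sysL hl x).ev b * (sysL hl x).ev a) ∈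
      (sysL hl x).W (2 * ((sysL hl x).dg a + (sysL hl x).dg b)) 1 := by
  change (l (mev (gY x) a.1) * l (mev (gY x) b.1) - l (mev (gY x) b.1) * l (mev (gY x) a.1)) *
      (l (mev (gY x) a.1) * l (mev (gY x) b.1) - l (mev (gY x) b.1) * l (mev (gY x) a.1)) ∈
      (sysL hl x).W (2 * (mdg (cont a.1) + mdg (cont b.1))) 1
  rw [hl.com_sq]
  refine l_mem_W hl x ?_
  have h : ∀ m m' : FreeMagma (Yx n), cont m = cont a.1 + cont b.1 + (cont a.1 + cont b.1) →
      cont m' = cont a.1 + cont b.1 + (cont a.1 + cont b.1) → mev (gY x) m - mev (gY x) m' ∈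
        Hd R x (2 * (mdg (cont a.1) + mdg (cont b.1))) 1 := by
    intro m m' h1 h2
    have h3 := mev_sub_mem_Hd (R := R) (x := x) (h1.trans h2.symm)
    rwa [h1, mdg_add, mdg_add, ← two_mul] at h3
  have k1 := h (a.1 * b.1 * a.1 * b.1) (a.1 * (b.1 * b.1) * a.1) (by simp only [cont_mul]; abel)
    (by simp only [cont_mul]; abel)
  have k2 := h (b.1 * (a.1 * b.1 * a.1)) (b.1 * (a.1 * a.1) * b.1) (by simp only [cont_mul]; abel)
    (by simp only [cont_mul]; abel)
  have e := add_mem k1 k2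
  simp only [mev_mul] at e
  convert e using 1
  abel

theorem exists_list_of_ord (c : Multiset (Yx n)) (hc : mtc c = 0) :
    ∃ is : List (Fin n), c = ((is.map Sum.inl : List (Yx n)) : Multiset (Yx n)) := by
  induction c using Multiset.induction_on with
  | empty => exact ⟨[], rfl⟩
  | cons y c ih =>
    rw [← Multiset.singleton_add, mtc_add, mtc_singleton] at hc
    obtain ⟨is, his⟩ := ih (by omega)
    obtain ⟨i, rfl⟩ := exists_of_tY (y := y) (by omega)
    exact ⟨i :: is, by rw [his]; rfl⟩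

/-- the pure letter of `x_i` -/
def pureL (n : ℕ) (i : Fin n) : LetY n :=
  ⟨FreeMagma.of (Sum.inl i), by rw [cont_of, Multiset.card_singleton, Kn]; omega⟩

theorem pureL_pure (i : Fin n) : (sysL hl x).Pure (pureL n i) := by
  refine ⟨?_, ?_⟩
  · change mtc (cont (FreeMagma.of (Sum.inl i : Yx n))) = 0
    rw [cont_of, mtc_singleton]; rfl
  · change mdg (cont (FreeMagma.of (Sum.inl i : Yx n))) = 1
    rw [cont_of, mdg_singleton]; rfl

theorem exists_pal (is : List (Fin n)) (h : is ≠ []) :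
    ∃ m : FreeMagma (Yx n), cont m = ((is.map Sum.inl : List (Yx n)) : Multiset (Yx n)) +
        ((is.map Sum.inl : List (Yx n)) : Multiset (Yx n)) ∧
      ∃ w : List (LetY n), (∀ i ∈ w, (sysL hl x).Pure i) ∧
        (sysL hl x).dgw w = 2 * is.length ∧ l (mev (gY x) m) = (sysL hl x).val w := by
  induction is with
  | nil => exact absurd rfl h
  | cons i is ih =>
    have hp := pureL_pure hl x i
    have hev : (sysL hl x).ev (pureL n i) = l (x i) := rfl
    by_cases h0 : is = []
    · subst h0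
      refine ⟨FreeMagma.of (Sum.inl i) * FreeMagma.of (Sum.inl i), rfl,
        [pureL n i, pureL n i], ?_, ?_, ?_⟩
      · intro j hj
        simp only [List.mem_cons, List.not_mem_nil, or_false, or_self] at hj
        rw [hj]; exact hp
      · simp [LSys.dgw, hp.2]
      · rw [LSys.val_cons, LSys.val_cons, LSys.val_nil, mul_one, hev]
        exact hl.sq (x i)
    · obtain ⟨m, h1, w, h2, h3, h4⟩ := ih h0
      refine ⟨FreeMagma.of (Sum.inl i) * m * FreeMagma.of (Sum.inl i), ?_,
        pureL n i :: (w ++ [pureL n i]), ?_, ?_, ?_⟩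
      · rw [cont_mul, cont_mul, h1, cont_of, List.map_cons, ← Multiset.cons_coe,
          ← Multiset.singleton_add]
        abel
      · intro j hj
        simp only [List.mem_cons, List.mem_append, List.not_mem_nil, or_false] at hj
        rcases hj with rfl | hj | rfl
        · exact hp
        · exact h2 j hj
        · exact hp
      · have e : (sysL hl x).dgw (pureL n i :: (w ++ [pureL n i])) =
            1 + ((sysL hl x).dgw w + 1) := by
          simp [LSys.dgw, hp.2]
        rw [e, h3, List.length_cons]; ring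
      · rw [LSys.val_cons, LSys.val_append, LSys.val_cons, LSys.val_nil, mul_one, hev, ← h4,
          ← mul_assoc]
        exact hl.u (x i) (mev (gY x) m)

theorem sysG3 (a : LetY n) (ha : (sysL hl x).tc a = 0) :
    (sysL hl x).ev a * (sysL hl x).ev a ∈
      Submodule.span R {y | ∃ w : List (LetY n), (∀ i ∈ w, (sysL hl x).Pure i) ∧
        (sysL hl x).dgw w = 2 * (sysL hl x).dg a ∧ y = (sysL hl x).val w} ⊔
        (sysL hl x).W (2 * (sysL hl x).dg a) 1 := by
  change mtc (cont a.1) = 0 at ha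
  obtain ⟨is, his⟩ := exists_list_of_ord hl (cont a.1) ha
  have hne : is ≠ [] := by
    rintro rfl
    exact cont_ne_zero a.1 his
  obtain ⟨m, h1, w, h2, h3, h4⟩ := exists_pal hl x is hne
  have hdg : mdg (cont a.1) = is.length := by
    rw [his, mdg, Multiset.map_coe, Multiset.sum_coe, List.map_map]
    have : ((dY : Yx n → ℕ) ∘ Sum.inl : Fin n → ℕ) = fun _ => 1 := rfl
    rw [this]; simp
  have hm : cont (a.1 * a.1) = cont m := by rw [cont_mul, h1, his]
  have h5 := mev_sub_mem_Hd (R := R) (x := x) hm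
  have h6 := l_mem_W hl x h5
  have h7 : mdg (cont (a.1 * a.1)) = 2 * mdg (cont a.1) := by
    rw [cont_mul, mdg_add, two_mul]
  rw [h7, map_sub, mev_mul, hl.sq, h4] at h6
  change l (mev (gY x) a.1) * l (mev (gY x) a.1) ∈ _
  have e : l (mev (gY x) a.1) * l (mev (gY x) a.1) = (sysL hl x).val w +
      (l (mev (gY x) a.1) * l (mev (gY x) a.1) - (sysL hl x).val w) := by abel
  rw [e]
  refine Submodule.add_mem_sup (Submodule.subset_span ⟨w, h2, ?_, rfl⟩) h6
  rw [h3, ← hdg]; rfl

theorem sysOF : (sysL hl x).OF :=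
  LSys.LGath_main _ (fun a b c _ _ _ => sysG1 hl x a b c) (fun a b _ _ => sysG2 hl x a b)
    (fun a ha => sysG3 hl x a ha)

theorem l_words_zero (hnil : ∀ t ∈ Tid C, ∃ k, ALT.pw t k = 0) {m : ℕ}
    (hP : PId R (LinearMap.range l) m) :
    ∃ L0 : ℕ, ∀ w : List (LetY n), L0 ≤ (sysL hl x).tcw w → (sysL hl x).val w = 0 :=
  LSys.LMain_main _ (sysJ hl hnil) hP (sysOF hl x)

end

end ALT
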