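import Pool.Agent.ALT.L1c4

/-!
# Project ALT, Level 1, file c5 (helper66): products of elements of `Tid C` vanish

`L1_rep`: products of many `l(t)`, `t ∈ Tid C`, vanish, for every special representation `l`.
`L1_tree`: every nonassociative product with at least `L` factors in `Tid C` vanishes.
(Hypotheses: `Tid C` nil and a multilinear identity; they are verified in `L1.lean`.)
-/

set_option autoImplicit false
set_option linter.unusedSectionVars false

namespace ALT

open Pool.Agent.H6.ALT

section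
variable {A : Type*} [NonUnitalNonAssocRing A]

/-- `IsPr J k z`: `z` is a nonassociative product with arbitrary factors, `k` of which are (marked as) elements
of `J`. -/
inductive IsPr (J : AddSubgroup A) : ℕ → A → Prop
  | any (x : A) : IsPr J 0 x
  | mem (x : A) (hx : x ∈ J) : IsPr J 1 x
  | mul (a b : ℕ) (x y : A) (hx : IsPr J a x) (hy : IsPr J b y) : IsPr J (a + b) (x * y)

end

section
variable {R C E : Type*} [CommRing R] [NonUnitalNonAssocRing C] [Module R C]
  [IsScalarTower R C C] [SMulCommClass R C C] [Ring E] [Algebra R E] {n : ℕ}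
  [IsAlt C] {l : C →ₗ[R] E} (hl : JRep l) (x : Fin n → C)

/-- values of the words of content `≥ k` -/
def UL (hl : JRep l) (x : Fin n → C) (k : ℕ) : Submodule R E :=
  Submodule.span R {y | ∃ w : List (LetY n), k ≤ (sysL hl x).tcw w ∧ y = (sysL hl x).val w}

theorem W_le_UL (d L : ℕ) : (sysL hl x).W d L ≤ UL hl x L := by
  rw [LSys.W, Submodule.span_le]
  rintro _ ⟨w, -, h, rfl⟩
  exact Submodule.subset_span ⟨w, h, rfl⟩

theorem mul_mem_UL {L L' : ℕ} {a b : E} (ha : a ∈ UL hl x L) (hb : b ∈ UL hl x L') :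
    a * b ∈ UL hl x (L + L') := by
  induction ha using Submodule.span_induction with
  | mem a ha =>
    obtain ⟨w, h1, rfl⟩ := ha
    induction hb using Submodule.span_induction with
    | mem b hb =>
      obtain ⟨w', h2, rfl⟩ := hb
      refine Submodule.subset_span ⟨w ++ w', ?_, ?_⟩
      · rw [LSys.tcw_append]; omega
      · rw [LSys.val_append]
    | zero => rw [mul_zero]; exact zero_mem _
    | add u v _ _ hu hv => rw [mul_add]; exact add_mem hu hv
    | smul r u _ hu => rw [mul_smul_comm]; exact Submodule.smul_mem _ r hu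
  | zero => rw [zero_mul]; exact zero_mem _
  | add u v _ _ hu hv => rw [add_mul]; exact add_mem hu hv
  | smul r u _ hu => rw [smul_mul_assoc]; exact Submodule.smul_mem _ r hu

theorem one_mem_UL : (1 : E) ∈ UL hl x 0 :=
  Submodule.subset_span ⟨[], Nat.zero_le _, rfl⟩

theorem UL_mono {L L' : ℕ} (h : L ≤ L') : UL hl x L' ≤ UL hl x L := by
  rw [UL, Submodule.span_le]
  rintro _ ⟨w, h2, rfl⟩
  exact Submodule.subset_span ⟨w, h.trans h2, rfl⟩

theorem l_mem_UL {L : ℕ} {a : C} (ha : a ∈ HL R x L) : l a ∈ UL hl x L := by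
  induction ha using Submodule.span_induction with
  | mem a ha =>
    obtain ⟨m, h1, rfl⟩ := ha
    exact UL_mono hl x h1 (W_le_UL hl x _ _ (l_mem_W hl x (mev_mem_Hd m)))
  | zero => rw [map_zero]; exact zero_mem _
  | add x y _ _ hx hy => rw [map_add]; exact add_mem hx hy
  | smul r x _ hx => rw [map_smul]; exact Submodule.smul_mem _ r hx

theorem UL_eq_bot {L0 : ℕ} (h : ∀ w : List (LetY n), L0 ≤ (sysL hl x).tcw w →
    (sysL hl x).val w = 0) {a : E} (ha : a ∈ UL hl x L0) : a = 0 := by
  have h1 : UL hl x L0 ≤ ⊥ := by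
    rw [UL, Submodule.span_le]
    rintro _ ⟨w, h2, rfl⟩
    rw [h w h2]; exact zero_mem _
  exact (Submodule.mem_bot R).1 (h1 ha)

include hl in
theorem L1_rep (hx : Gens R x) (hnil : ∀ t ∈ Tid C, ∃ k, ALT.pw t k = 0) {m : ℕ}
    (hP : PId R (LinearMap.range l) m) :
    ∃ L0 : ℕ, ∀ js : List C, (∀ j ∈ js, j ∈ Tid C) → L0 ≤ js.length →
      (js.map l).prod = 0 := by
  obtain ⟨L0, hL0⟩ := l_words_zero hl x hnil hP
  refine ⟨L0, fun js hjs hlen => ?_⟩
  have key : ∀ js : List C, (∀ j ∈ js, j ∈ Tid C) → (js.map l).prod ∈ UL hl x js.length := by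
    intro js
    induction js with
    | nil => intro _; exact one_mem_UL hl x
    | cons j js ih =>
      intro h
      rw [List.map_cons, List.prod_cons, List.length_cons, add_comm]
      exact mul_mem_UL hl x (l_mem_UL hl x (Tid_le_HL hx (h j List.mem_cons_self)))
        (ih (fun i hi => h i (List.mem_cons_of_mem _ hi)))
  exact UL_eq_bot hl x hL0 (UL_mono hl x hlen (key js hjs))

end

section
variable {R C : Type*} [CommRing R] [NonUnitalNonAssocRing C] [Module R C]
  [IsScalarTower R C C] [SMulCommClass R C C] {n : ℕ} [IsAlt C]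

variable (R C) in
/-- left multiplications -/
def Lmap : C →ₗ[R] Module.End R C := LinearMap.mul R C

theorem Lmap_apply (a b : C) : Lmap R C a b = a * b := rfl

theorem Lmap_rep : JRep (Lmap R C) where
  sq a := by
    ext b
    rw [Module.End.mul_apply, Lmap_apply, Lmap_apply, Lmap_apply, IsAlt.left]
  u a b := by
    ext c
    rw [Module.End.mul_apply, Module.End.mul_apply, Lmap_apply, Lmap_apply, Lmap_apply,
      Lmap_apply, moufang_left]

theorem mev_eq (x : Fin n → C) (m : FreeMagma (Yx n)) :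
    ∃ (y : Yx n) (k : ℕ) (e : Module.End R C), e ∈ UL (Lmap_rep (R := R) (C := C)) x k ∧
      k + tY y = mtc (cont m) ∧ mev (gY x) m = e (gY x y) := by
  induction m using FreeMagma.recOnMul with
  | ih1 y =>
    refine ⟨y, 0, 1, one_mem_UL _ x, ?_, rfl⟩
    rw [cont_of, mtc_singleton, zero_add]
  | ih2 a b _ hb =>
    obtain ⟨y, k, e, he, hk, hy⟩ := hb
    refine ⟨y, mtc (cont a) + k, Lmap R C (mev (gY x) a) * e, ?_, ?_, ?_⟩
    · refine mul_mem_UL _ x (l_mem_UL _ x ?_) he
      exact Submodule.subset_span ⟨a, le_rfl, rfl⟩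
    · rw [cont_mul, mtc_add, ← hk]; ring
    · rw [mev_mul, hy]; rfl

theorem L1_tree {x : Fin n → C} (hx : Gens R x) (hnil : ∀ t ∈ Tid C, ∃ k, ALT.pw t k = 0)
    {m : ℕ} (hP : PId R (LinearMap.range (Lmap R C)) m) :
    ∃ L : ℕ, ∀ (k : ℕ) (z : C), L ≤ k → IsPr (Tid C) k z → z = 0 := by
  obtain ⟨L0, hL0⟩ := l_words_zero (Lmap_rep (R := R) (C := C)) x hnil hP
  have h1 : ∀ z ∈ HL R x (L0 + 1), z = 0 := by
    intro z hz
    induction hz using Submodule.span_induction with
    | mem z hz =>
      obtain ⟨m, hm, rfl⟩ := hz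
      obtain ⟨y, k, e, he, hk, hy⟩ := mev_eq (R := R) x m
      have h2 := tY_le_one y
      have h3 := UL_eq_bot _ x hL0 (UL_mono _ x (show L0 ≤ k by omega) he)
      rw [hy, h3]; rfl
    | zero => rfl
    | add x y _ _ hx hy => rw [hx, hy, add_zero]
    | smul r x _ hx => rw [hx, smul_zero]
  have h2 : ∀ (k : ℕ) (z : C), IsPr (Tid C) k z → z ∈ HL R x k := by
    intro k z hz
    induction hz with
    | any z => rw [HL_zero hx]; trivial
    | mem z hz => exact Tid_le_HL hx hz
    | mul a b u v _ _ hu hv => exact mul_mem_HL hu hv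
  exact ⟨L0 + 1, fun k z hk hz => h1 z (HL_mono hk (h2 k z hz))⟩

/-- a special case: left nested products -/
theorem IsPr.foldr {A : Type*} [NonUnitalNonAssocRing A] (J : AddSubgroup A) (js : List A)
    (h : ∀ j ∈ js, j ∈ J) (c : A) : IsPr J js.length (js.foldr (· * ·) c) := by
  induction js with
  | nil => exact IsPr.any c
  | cons j js ih =>
    rw [List.length_cons, add_comm, List.foldr_cons]
    exact IsPr.mul _ _ _ _ (IsPr.mem j (h j List.mem_cons_self))
      (ih (fun i hi => h i (List.mem_cons_of_mem _ hi)))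

end

end ALT
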