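import Pool.Agent.ALT.QQ

/-!
Localisation of an alternative ring at a central element `c`: the unital ring `A[1/c]`.
-/

set_option linter.unusedSimpArgs false
set_option linter.unusedSectionVars false

namespace ALT

section cp
variable {A : Type*} [NonUnitalNonAssocRing A]

/-- `c^n x` -/
def cp (c : A) (n : ℕ) (x : A) : A := (fun y => c * y)^[n] x

theorem cp_zero (c x : A) : cp c 0 x = x := rfl
theorem cp_succ (c x : A) (n : ℕ) : cp c (n + 1) x = c * cp c n x := by
  unfold cp; rw [Function.iterate_succ_apply']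
theorem cp_add (c x : A) (m n : ℕ) : cp c (m + n) x = cp c m (cp c n x) := by
  unfold cp; rw [Function.iterate_add_apply]
theorem cp_comm (c x : A) (m n : ℕ) : cp c m (cp c n x) = cp c n (cp c m x) := by
  rw [← cp_add, add_comm, cp_add]
theorem cp_map_add (c x y : A) (n : ℕ) : cp c n (x + y) = cp c n x + cp c n y := by
  induction n with
  | zero => rfl
  | succ n ih => rw [cp_succ, ih, mul_add, cp_succ, cp_succ]
theorem cp_map_zero (c : A) (n : ℕ) : cp c n 0 = 0 := by
  induction n with
  | zero => rfl
  | succ n ih => rw [cp_succ, ih, mul_zero]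
theorem cp_map_neg (c x : A) (n : ℕ) : cp c n (-x) = -cp c n x := by
  induction n with
  | zero => rfl
  | succ n ih => rw [cp_succ, ih, mul_neg, cp_succ]
theorem cp_map_sub (c x y : A) (n : ℕ) : cp c n (x - y) = cp c n x - cp c n y := by
  rw [sub_eq_add_neg, cp_map_add, cp_map_neg, ← sub_eq_add_neg]

variable [IsAlt A] {c : A} (hc : Cen c)
include hc
theorem cp_mul_left (x y : A) (n : ℕ) : cp c n x * y = cp c n (x * y) := by
  induction n with
  | zero => rfl
  | succ n ih => rw [cp_succ, cp_succ, hc.mul_assoc1, ih]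
theorem cp_mul_right (x y : A) (n : ℕ) : x * cp c n y = cp c n (x * y) := by
  induction n with
  | zero => rfl
  | succ n ih => rw [cp_succ, cp_succ, hc.left_mul, ih]
theorem cp_c (n : ℕ) : cp c n c * c = cp c (n + 1) c := by
  rw [cp_mul_left hc, cp_add]; rfl

end cp

section loc
variable {A : Type*} [NonUnitalNonAssocRing A] [IsAlt A]

/-- the setoid of fractions `a / c^n` -/
def locSetoid (c : A) : Setoid (A × ℕ) where
  r x y := ∃ k, cp c (k + y.2) x.1 = cp c (k + x.2) y.1
  iseqv := by
    refine ⟨fun x => ⟨0, rfl⟩, fun {x y} ⟨k, h⟩ => ⟨k, h.symm⟩, fun {x y z} ⟨k, h⟩ ⟨l, h'⟩ => ?_⟩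
    refine ⟨k + l + y.2, ?_⟩
    have e1 : cp c (k + l + y.2 + z.2) x.1 = cp c (l + z.2) (cp c (k + y.2) x.1) := by
      rw [← cp_add]; congr 1; omega
    have e2 : cp c (k + l + y.2 + x.2) z.1 = cp c (k + x.2) (cp c (l + y.2) z.1) := by
      rw [← cp_add]; congr 1; omega
    rw [e1, e2, h, ← h', cp_comm]

/-- the localisation `A[1/c]` (the proof `hc` is a parameter so that instances can use it) -/
def Loc {c : A} (_hc : Cen c) : Type _ := Quotient (locSetoid c)

namespace Loc
variable {c : A} {hc : Cen c}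

/-- the fraction `a / c^n` -/
def mk (hc : Cen c) (a : A) (n : ℕ) : Loc hc := Quotient.mk (locSetoid c) (a, n)

theorem mk_eq {a b : A} {n m : ℕ} :
    mk hc a n = mk hc b m ↔ ∃ k, cp c (k + m) a = cp c (k + n) b :=
  Quotient.eq (r := locSetoid c)

theorem ind {P : Loc hc → Prop} (h : ∀ a n, P (mk hc a n)) (x : Loc hc) : P x := by
  obtain ⟨⟨a, n⟩, rfl⟩ := Quotient.exists_rep x
  exact h a n

theorem mk_cp (a : A) (n k : ℕ) : mk hc (cp c k a) (k + n) = mk hc a n := by
  rw [mk_eq]
  exact ⟨0, by rw [← cp_add]; congr 1; omega⟩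

instance : Add (Loc hc) where
  add := Quotient.map₂ (fun x y => (cp c y.2 x.1 + cp c x.2 y.1, x.2 + y.2)) (by
    rintro ⟨a, n⟩ ⟨a', n'⟩ ⟨k, h⟩ ⟨b, m⟩ ⟨b', m'⟩ ⟨l, h'⟩
    simp only at h h'
    refine ⟨k + l, ?_⟩
    simp only [cp_map_add, ← cp_add]
    have e1 : cp c (k + l + (n' + m') + m) a = cp c (l + m + m') (cp c (k + n') a) := by
      rw [← cp_add]; congr 1; omega
    have e2 : cp c (k + l + (n' + m') + n) b = cp c (k + n + n') (cp c (l + m') b) := by
      rw [← cp_add]; congr 1; omega
    rw [e1, e2, h, h', ← cp_add, ← cp_add]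
    congr 2 <;> omega)

instance : Mul (Loc hc) where
  mul := Quotient.map₂ (fun x y => (x.1 * y.1, x.2 + y.2)) (by
    rintro ⟨a, n⟩ ⟨a', n'⟩ ⟨k, h⟩ ⟨b, m⟩ ⟨b', m'⟩ ⟨l, h'⟩
    simp only at h h'
    refine ⟨k + l, ?_⟩
    simp only
    have e1 : cp c (k + l + (n' + m')) (a * b) = cp c (k + n') a * cp c (l + m') b := by
      rw [cp_mul_left hc, cp_mul_right hc, ← cp_add]; congr 1; omega
    have e2 : cp c (k + l + (n + m)) (a' * b') = cp c (k + n) a' * cp c (l + m) b' := by
      rw [cp_mul_left hc, cp_mul_right hc, ← cp_add]; congr 1; omega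
    rw [e1, e2, h, h'])

instance : Neg (Loc hc) where
  neg := Quotient.map (fun x => (-x.1, x.2)) (by
    rintro ⟨a, n⟩ ⟨a', n'⟩ ⟨k, h⟩
    refine ⟨k, ?_⟩
    simp only [cp_map_neg] at *
    rw [h])

instance : Zero (Loc hc) := ⟨mk hc 0 0⟩
instance : One (Loc hc) := ⟨mk hc c 1⟩

theorem mk_add_mk (a b : A) (n m : ℕ) :
    mk hc a n + mk hc b m = mk hc (cp c m a + cp c n b) (n + m) := rfl
theorem mk_mul_mk (a b : A) (n m : ℕ) :
    mk hc a n * mk hc b m = mk hc (a * b) (n + m) := rfl
theorem neg_mk (a : A) (n : ℕ) : -mk hc a n = mk hc (-a) n := rfl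
theorem zero_def : (0 : Loc hc) = mk hc 0 0 := rfl
theorem one_def : (1 : Loc hc) = mk hc c 1 := rfl

theorem mk_zero (n : ℕ) : mk hc (0 : A) n = 0 := by
  rw [zero_def, mk_eq]
  exact ⟨0, by rw [cp_map_zero, cp_map_zero]⟩

/-- addition with the same denominator -/
theorem mk_add (a b : A) (n : ℕ) : mk hc a n + mk hc b n = mk hc (a + b) n := by
  rw [mk_add_mk, ← cp_map_add, mk_cp]

instance : NonAssocRing (Loc hc) where
  add_assoc x y z := by
    induction x using ind with | h a n => ?_
    induction y using ind with | h b m => ?_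
    induction z using ind with | h e l => ?_
    simp only [mk_add_mk, cp_map_add, ← cp_add]
    rw [mk_eq]
    refine ⟨0, ?_⟩
    simp only [cp_map_add, ← cp_add, add_assoc]
    congr 1
    · congr 1; omega
    · congr 1 <;> (congr 1; omega)
  zero_add x := by
    induction x using ind with | h a n => ?_
    rw [zero_def, mk_add_mk, cp_map_zero, zero_add, cp_zero, zero_add]
  add_zero x := by
    induction x using ind with | h a n => ?_
    rw [zero_def, mk_add_mk, cp_map_zero, add_zero, cp_zero, add_zero]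
  nsmul := nsmulRec
  zsmul := zsmulRec
  add_comm x y := by
    induction x using ind with | h a n => ?_
    induction y using ind with | h b m => ?_
    rw [mk_add_mk, mk_add_mk, add_comm, add_comm n m]
  neg_add_cancel x := by
    induction x using ind with | h a n => ?_
    rw [neg_mk, mk_add, neg_add_cancel, mk_zero]
  left_distrib x y z := by
    induction x using ind with | h a n => ?_
    induction y using ind with | h b m => ?_
    induction z using ind with | h e l => ?_
    simp only [mk_add_mk, mk_mul_mk, mul_add, cp_map_add]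
    rw [mk_eq]
    refine ⟨0, ?_⟩
    simp only [cp_map_add, cp_mul_right hc, ← cp_add]
    congr 1 <;> (congr 1; omega)
  right_distrib x y z := by
    induction x using ind with | h a n => ?_
    induction y using ind with | h b m => ?_
    induction z using ind with | h e l => ?_
    simp only [mk_add_mk, mk_mul_mk, add_mul, cp_map_add]
    rw [mk_eq]
    refine ⟨0, ?_⟩
    simp only [cp_map_add, cp_mul_left hc, ← cp_add]
    congr 1 <;> (congr 1; omega)
  zero_mul x := by
    induction x using ind with | h a n => ?_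
    rw [zero_def, mk_mul_mk, zero_mul, mk_zero]; rfl
  mul_zero x := by
    induction x using ind with | h a n => ?_
    rw [zero_def, mk_mul_mk, mul_zero, mk_zero]; rfl
  one_mul x := by
    induction x using ind with | h a n => ?_
    rw [one_def, mk_mul_mk]
    exact mk_cp a n 1
  mul_one x := by
    induction x using ind with | h a n => ?_
    rw [one_def, mk_mul_mk, ← hc.comm a, add_comm n 1]
    exact mk_cp a n 1

theorem neg_def (x : Loc hc) : -x = Neg.neg x := rfl

theorem mk_sub (a b : A) (n : ℕ) : mk hc a n - mk hc b n = mk hc (a - b) n := by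
  rw [sub_eq_add_neg, neg_mk, mk_add, ← sub_eq_add_neg]

theorem mk_asc (x y z : A) (n m l : ℕ) :
    asc (mk hc x n) (mk hc y m) (mk hc z l) = mk hc (asc x y z) (n + m + l) := by
  rw [asc_def, mk_mul_mk, mk_mul_mk, mk_mul_mk, mk_mul_mk, ← add_assoc, mk_sub, ← asc_def]

theorem mk_com (x y : A) (n m : ℕ) :
    com (mk hc x n) (mk hc y m) = mk hc (com x y) (n + m) := by
  rw [com_def, mk_mul_mk, mk_mul_mk, add_comm m n, mk_sub, ← com_def]

instance : IsAlt (Loc hc) where
  left x y := by
    induction x using ind with | h a n => ?_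
    induction y using ind with | h b m => ?_
    rw [← sub_eq_zero, ← asc_def, mk_asc, asc_self_left, mk_zero]
  right x y := by
    induction x using ind with | h a n => ?_
    induction y using ind with | h b m => ?_
    rw [← sub_eq_zero, ← asc_def, mk_asc, asc_self_right, mk_zero]

/-- central elements of `A` stay central in the localisation -/
theorem cen_mk {s : A} (hs : Cen s) (n : ℕ) : Cen (mk hc s n) := by
  refine ⟨fun x => ?_, fun x y => ?_⟩
  · induction x using ind with | h a m => ?_
    rw [mk_mul_mk, mk_mul_mk, hs.comm, add_comm]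
  · induction x using ind with | h a m => ?_
    induction y using ind with | h b l => ?_
    rw [mk_asc, hs.nuc, mk_zero]

variable (hc) in
/-- the canonical map `A → A[1/c]` -/
def iota : A →ₙ+* Loc hc where
  toFun a := mk hc a 0
  map_mul' a b := by rw [mk_mul_mk]
  map_zero' := rfl
  map_add' a b := by rw [mk_add]

theorem iota_apply (a : A) : iota hc a = mk hc a 0 := rfl

theorem iota_eq_zero {a : A} : iota hc a = 0 ↔ ∃ k, cp c k a = 0 := by
  rw [iota_apply, zero_def, mk_eq]
  constructor
  · rintro ⟨k, h⟩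
    refine ⟨k, ?_⟩
    rw [cp_map_zero] at h
    exact h
  · rintro ⟨k, h⟩
    refine ⟨k, ?_⟩
    rw [cp_map_zero]
    exact h

theorem inv_mul : mk hc c 2 * mk hc c 0 = 1 := by
  rw [mk_mul_mk, one_def]
  exact mk_cp c 1 1

end Loc
end loc
end ALT
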