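import Pool.Agent.ALT.S6b

/-!
# Project ALT (MP_643ad6_al), Step 7 (helper6)

In an alternative algebra `B` with the identities `QI`, an ideal `J` of quasi-regular elements
contained in the ideal `Tid B` generated by commutators and associators is left nilpotent, given
Level 1 (`L1Prop`).
-/

set_option autoImplicit false
set_option linter.unusedSectionVars false

universe u v

namespace ALT

/-- **Level 1** as a statement: in a finitely generated alternative algebra in which all
`[x,y]^(M+1)` vanish, the left nested products of `l + 1` elements of `Tid` vanish. -/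
def L1Prop (F : Type v) [Field F] : Prop :=
  ∀ (C : Type u) [NonUnitalNonAssocRing C] [Module F C] [IsScalarTower F C C]
    [SMulCommClass F C C] [IsAlt C] (n : ℕ) (X : Fin n → C), Gens F X → ∀ M : ℕ,
    (∀ x y : C, pw (com x y) M = 0) →
    ∃ l : ℕ, ∀ js : List C, js.length = l → (∀ j ∈ js, j ∈ Tid C) → ∀ x ∈ Tid C, ln js x = 0

/-- `L` acts on the products of `k` elements -/
theorem pw_four {A : Type*} [NonUnitalNonAssocRing A] [IsAlt A] (v : A) :
    pw v 19 = ((v * v) * (v * v)) * (((v * v) * (v * v)) * (((v * v) * (v * v)) *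
      (((v * v) * (v * v)) * ((v * v) * (v * v))))) := by
  have h : ∀ a b : twoRing v v, ((a * b : twoRing v v) : A) = a * b := fun a b => rfl
  let w : twoRing v v := ⟨v, left_mem_twoGen v v⟩
  have hw : (w : A) = v := rfl
  have hp : ∀ k, ((pw w k : twoRing v v) : A) = pw v k := by
    intro k
    induction k with
    | zero => rfl
    | succ k ih => rw [pw_succ, pw_succ, h, ih]
  have e : pw w 19 = ((w * w) * (w * w)) * (((w * w) * (w * w)) * (((w * w) * (w * w)) *
      (((w * w) * (w * w)) * ((w * w) * (w * w))))) := by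
    simp only [pw, mul_assoc]
  have e2 : ((pw w 19 : twoRing v v) : A) = ((((w * w) * (w * w)) * (((w * w) * (w * w)) *
      (((w * w) * (w * w)) * (((w * w) * (w * w)) * ((w * w) * (w * w))))) : twoRing v v) : A) :=
    congrArg _ e
  rw [hp] at e2
  exact e2

namespace Mach

variable {F B S : Type*} [Field F] [NonUnitalNonAssocRing B] [Module F B]
  [IsScalarTower F B B] [SMulCommClass F B B] [IsAlt B] (m : Mach F B S)

/-- left stable subspaces -/
def LSt (N : Submodule F B) : Prop := ∀ b : B, ∀ x ∈ N, b * x ∈ N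

/-- `span {zz δ * g}` -/
def Z (N : Submodule F B) : Submodule F B :=
  Submodule.span F {x | ∃ (d : S × Option B) (g : B), g ∈ N ∧ x = m.zz d * g}
/-- `span {k s * g}` -/
def K (N : Submodule F B) : Submodule F B :=
  Submodule.span F {x | ∃ (s : S) (g : B), g ∈ N ∧ x = m.k s * g}

theorem mem_Z {N : Submodule F B} (d : S × Option B) {g : B} (hg : g ∈ N) :
    m.zz d * g ∈ m.Z N := Submodule.subset_span ⟨d, g, hg, rfl⟩
theorem mem_K {N : Submodule F B} (s : S) {g : B} (hg : g ∈ N) :
    m.k s * g ∈ m.K N := Submodule.subset_span ⟨s, g, hg, rfl⟩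

theorem Z_mono {N N' : Submodule F B} (h : N ≤ N') : m.Z N ≤ m.Z N' := by
  refine Submodule.span_mono ?_
  rintro x ⟨d, g, hg, rfl⟩
  exact ⟨d, g, h hg, rfl⟩

theorem LSt_Z {N : Submodule F B} (hN : LSt N) : LSt (m.Z N) := by
  intro b x hx
  induction hx using Submodule.span_induction with
  | mem x hx =>
    obtain ⟨d, g, hg, rfl⟩ := hx
    rw [(m.cen_zz d).pull]
    exact m.mem_Z d (hN b g hg)
  | zero => rw [mul_zero]; exact Submodule.zero_mem _
  | add x y _ _ hx hy => rw [mul_add]; exact Submodule.add_mem _ hx hy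
  | smul r x _ hx => rw [mul_smul_comm]; exact Submodule.smul_mem _ r hx

theorem LSt_K {N : Submodule F B} (hN : LSt N) : LSt (m.K N) := by
  intro b x hx
  induction hx using Submodule.span_induction with
  | mem x hx =>
    obtain ⟨d, g, hg, rfl⟩ := hx
    rw [(m.cen_k d).pull]
    exact m.mem_K d (hN b g hg)
  | zero => rw [mul_zero]; exact Submodule.zero_mem _
  | add x y _ _ hx hy => rw [mul_add]; exact Submodule.add_mem _ hx hy
  | smul r x _ hx => rw [mul_smul_comm]; exact Submodule.smul_mem _ r hx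

/-- two `z` give one `k` -/
theorem ZZ_le {N : Submodule F B} (hN : LSt N) : m.Z (m.Z N) ≤ m.Z (m.K N) := by
  have key : ∀ (d d' : S × Option B) (g : B), g ∈ N → m.zz d * (m.zz d' * g) ∈ m.Z (m.K N) := by
    intro d d' g hg
    rcases d' with ⟨s, _ | b⟩
    · exact m.mem_Z d (m.mem_K s hg)
    · rcases d with ⟨p, _ | w⟩
      · rw [(m.cen_zz (s, some b)).pull]
        exact m.mem_Z (s, some b) (m.mem_K p hg)
      · show m.z p w * (m.z s b * g) ∈ _
        rw [← (m.cen_z p w).m1, ← m.exch2 p s b w, (m.cen_k s).m2, sub_mul, add_mul, add_mul,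
          (m.cen_z p w).m2, (m.cen_z p b).m2, (m.cen_k p).m2]
        have hK : m.k s * g ∈ m.K N := m.mem_K s hg
        refine Submodule.sub_mem _ (Submodule.add_mem _ (Submodule.add_mem _ ?_ ?_) ?_) ?_
        · exact m.mem_Z (p, some (b * w)) hK
        · exact m.LSt_Z (m.LSt_K hN) b _ (m.mem_Z (p, some w) hK)
        · exact m.LSt_Z (m.LSt_K hN) w _ (m.mem_Z (p, some b) hK)
        · exact m.LSt_Z (m.LSt_K hN) _ _ (m.mem_Z (p, none) hK)
  refine Submodule.span_le.mpr ?_
  rintro x ⟨d, g, hg, rfl⟩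
  induction hg using Submodule.span_induction with
  | mem x hx =>
    obtain ⟨d', g, hg, rfl⟩ := hx
    exact key d d' g hg
  | zero => rw [mul_zero]; exact Submodule.zero_mem _
  | add x y _ _ hx hy => rw [mul_add]; exact Submodule.add_mem _ hx hy
  | smul r x _ hx => rw [mul_smul_comm]; exact Submodule.smul_mem _ r hx

/-- `Z Z K K B` -/
def W4 : Submodule F B := m.Z (m.Z (m.K (m.K ⊤)))

theorem LSt_top : LSt (⊤ : Submodule F B) := fun _ _ _ => Submodule.mem_top

theorem LSt_W4 : LSt m.W4 := m.LSt_Z (m.LSt_Z (m.LSt_K (m.LSt_K LSt_top)))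

theorem Z4_le : m.Z (m.Z (m.Z (m.Z ⊤))) ≤ m.W4 := by
  have h1 : m.Z (m.Z (⊤ : Submodule F B)) ≤ m.Z (m.K ⊤) := m.ZZ_le LSt_top
  have h2 : m.Z (m.Z (m.K (⊤ : Submodule F B))) ≤ m.Z (m.K (m.K ⊤)) := m.ZZ_le (m.LSt_K LSt_top)
  exact m.Z_mono (le_trans (m.Z_mono h1) h2)

/-- right multiplications also preserve these spaces -/
theorem Z_right {N : Submodule F B} (hN : ∀ b : B, ∀ x ∈ N, x * b ∈ N) :
    ∀ b : B, ∀ x ∈ m.Z N, x * b ∈ m.Z N := by
  intro b x hx
  induction hx using Submodule.span_induction with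
  | mem x hx =>
    obtain ⟨d, g, hg, rfl⟩ := hx
    rw [(m.cen_zz d).m1]
    exact m.mem_Z d (hN b g hg)
  | zero => rw [zero_mul]; exact Submodule.zero_mem _
  | add x y _ _ hx hy => rw [add_mul]; exact Submodule.add_mem _ hx hy
  | smul r x _ hx => rw [smul_mul_assoc]; exact Submodule.smul_mem _ r hx

theorem K_right {N : Submodule F B} (hN : ∀ b : B, ∀ x ∈ N, x * b ∈ N) :
    ∀ b : B, ∀ x ∈ m.K N, x * b ∈ m.K N := by
  intro b x hx
  induction hx using Submodule.span_induction with
  | mem x hx =>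
    obtain ⟨d, g, hg, rfl⟩ := hx
    rw [(m.cen_k d).m1]
    exact m.mem_K d (hN b g hg)
  | zero => rw [zero_mul]; exact Submodule.zero_mem _
  | add x y _ _ hx hy => rw [add_mul]; exact Submodule.add_mem _ hx hy
  | smul r x _ hx => rw [smul_mul_assoc]; exact Submodule.smul_mem _ r hx

/-- `W4` as an ideal -/
def I4 : IdealF F B where
  toSubmodule := m.W4
  lmul := m.LSt_W4
  rmul := m.Z_right (m.Z_right (m.K_right (m.K_right fun _ _ _ => Submodule.mem_top)))

/-- the left nested products `ln js` kill `W4` as soon as they kill the generators -/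
theorem ln_W4 {js : List B} (h : ∀ (d d' : S × Option B) (s s' : S) (c : B),
    m.zz d' * (m.zz d * (m.k s * (m.k s' * ALT.ln js c))) = 0) :
    ∀ x ∈ m.W4, ALT.ln js x = 0 := by
  have smul : ∀ (r : F) (x : B), ALT.ln js (r • x) = r • ALT.ln js x := by
    intro r x
    clear h
    induction js with
    | nil => rfl
    | cons j js ih => rw [ln_cons, ln_cons, ih, mul_smul_comm]
  intro x hx
  unfold W4 at hx
  induction hx using Submodule.span_induction with
  | mem x hx =>
    obtain ⟨d', g, hg, rfl⟩ := hx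
    rw [(m.cen_zz d').ln]
    induction hg using Submodule.span_induction with
    | mem x hx =>
      obtain ⟨d, g, hg, rfl⟩ := hx
      rw [(m.cen_zz d).ln]
      induction hg using Submodule.span_induction with
      | mem x hx =>
        obtain ⟨s, g, hg, rfl⟩ := hx
        rw [(m.cen_k s).ln]
        induction hg using Submodule.span_induction with
        | mem x hx =>
          obtain ⟨s', g, hg, rfl⟩ := hx
          rw [(m.cen_k s').ln]
          exact h d d' s s' g
        | zero => simp only [ln_zero, mul_zero]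
        | add x y _ _ hx hy => rw [ln_add, mul_add, mul_add, mul_add, hx, hy, add_zero]
        | smul r x _ hx =>
          rw [smul, mul_smul_comm, mul_smul_comm, mul_smul_comm, hx, smul_zero]
      | zero => simp only [ln_zero, mul_zero]
      | add x y _ _ hx hy => rw [ln_add, mul_add, mul_add, hx, hy, add_zero]
      | smul r x _ hx =>
        rw [smul, mul_smul_comm, mul_smul_comm, hx, smul_zero]
    | zero => simp only [ln_zero, mul_zero]
    | add x y _ _ hx hy => rw [ln_add, mul_add, hx, hy, add_zero]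
    | smul r x _ hx => rw [smul, mul_smul_comm, hx, smul_zero]
  | zero => rw [ln_zero]
  | add x y _ _ hx hy => rw [ln_add, hx, hy, add_zero]
  | smul r x _ hx => rw [smul, hx, smul_zero]

end Mach

section main
variable {F : Type v} {B : Type u} [Field F] [NonUnitalNonAssocRing B] [Module F B]
  [IsScalarTower F B B] [SMulCommClass F B B] [IsAlt B]

theorem v4_mul_mem (hQ : QI B) (x y : B) {N : Submodule F B} (hN : Mach.LSt N) {g : B}
    (hg : g ∈ N) : v4 x y * g ∈ (machOf F hQ).Z N := by
  have h1 : v4 x y * g = kap x (x * y) y * g - zet x y y x * (x * g)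
      + kap x y y * ((x * x) * g) := by
    rw [hQ.v4_eq, nuu, sub_mul, sub_mul, (hQ.cen_zet x y y x).m2, (hQ.cen_zet x y y x).pull,
      (hQ.cen_kap x y y).m2, (hQ.cen_kap x y y).pull]
    abel
  rw [h1]
  refine Submodule.add_mem _ (Submodule.sub_mem _ ?_ ?_) ?_
  · exact (machOf F hQ).mem_Z ((x, x * y, y), none) hg
  · exact (machOf F hQ).mem_Z ((x, y, y), some x) (hN x g hg)
  · exact (machOf F hQ).mem_Z ((x, y, y), none) (hN (x * x) g hg)

theorem pw_mem_W4 (hQ : QI B) (x y : B) : pw (com x y) 19 ∈ (machOf F hQ).W4 := by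
  rw [pw_four]
  have h1 : ∀ {N : Submodule F B}, Mach.LSt N → ∀ g ∈ N, v4 x y * g ∈ (machOf F hQ).Z N :=
    fun hN g hg => v4_mul_mem hQ x y hN hg
  have t0 : Mach.LSt (⊤ : Submodule F B) := Mach.LSt_top
  have t1 := (machOf F hQ).LSt_Z t0
  have t2 := (machOf F hQ).LSt_Z t1
  have t3 := (machOf F hQ).LSt_Z t2
  apply (machOf F hQ).Z4_le
  exact h1 t3 _ (h1 t2 _ (h1 t1 _ (h1 t0 _ Submodule.mem_top)))

/-- **Step 7.** -/
theorem step7 {n : ℕ} (X : Fin n → B) (hX : Gens F X) (hQ : QI B) (hL1 : L1Prop.{u} F)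
    (U : Finset B) (hU : ∀ b, (machOf F hQ).lR b ∈
      Algebra.adjoin F ((machOf F hQ).lR '' (U : Set B)))
    (J : Submodule F B) (hJ : IsTwoSided J) (hq : ∀ f ∈ J, IsQR f) (hT : ∀ x ∈ J, x ∈ Tid B) :
    ∃ N : ℕ, ∀ js : List B, (∀ j ∈ js, j ∈ J) → js.length = N → ∀ x ∈ J, ln js x = 0 := by
  set m := machOf F hQ with hm
  obtain ⟨N, hN⟩ := m.step6 U hU J hJ hq
  obtain ⟨l, hl⟩ := hL1 m.I4.Q n (fun i => m.I4.pr (X i)) (m.I4.gens hX) 19 (by
    intro x y
    obtain ⟨x, rfl⟩ := m.I4.pr_surj x
    obtain ⟨y, rfl⟩ := m.I4.pr_surj y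
    have hp : ∀ (v : B) (k : ℕ), m.I4.pr (pw v k) = pw (m.I4.pr v) k := by
      intro v k
      induction k with
      | zero => rfl
      | succ k ih => rw [pw_succ, pw_succ, m.I4.pr_mul, ih]
    rw [← m.I4.pr_com, ← hp, m.I4.pr_eq_zero]
    exact pw_mem_W4 hQ x y)
  have hTid : ∀ x ∈ Tid B, m.I4.pr x ∈ Tid m.I4.Q := by
    have h1 : Tid B ≤ (Tid m.I4.Q).comap m.I4.pr.toAddMonoidHom := by
      refine Tid_le ⟨?_, ?_⟩ ?_ ?_
      · intro a x hx
        show m.I4.pr (a * x) ∈ Tid m.I4.Q
        rw [m.I4.pr_mul]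
        exact isIdeal_Tid.left _ _ hx
      · intro a x hx
        show m.I4.pr (x * a) ∈ Tid m.I4.Q
        rw [m.I4.pr_mul]
        exact isIdeal_Tid.right _ _ hx
      · intro x y
        show m.I4.pr (com x y) ∈ Tid m.I4.Q
        rw [m.I4.pr_com]
        exact com_mem_Tid _ _
      · intro x y z
        show m.I4.pr (asc x y z) ∈ Tid m.I4.Q
        rw [m.I4.pr_asc]
        exact asc_mem_Tid _ _ _
    exact h1
  refine ⟨N + l, fun js hjs hlen x hx => ?_⟩
  rw [← List.take_append_drop N js, ln_append]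
  have h1 : (js.take N).length = N := by rw [List.length_take]; omega
  have h2 : (js.drop N).length = l := by rw [List.length_drop]; omega
  have h3 : ln (js.drop N) x ∈ m.W4 := by
    have h4 := hl ((js.drop N).map m.I4.pr) (by rw [List.length_map, h2]) (by
      intro j hj
      obtain ⟨j, hj', rfl⟩ := List.mem_map.mp hj
      exact hTid j (hT j (hjs j (List.mem_of_mem_drop hj')))) (m.I4.pr x) (hTid x (hT x hx))
    rw [← m.I4.pr_ln, m.I4.pr_eq_zero] at h4
    exact h4
  exact m.ln_W4 (fun d d' s s' c => hN _ (fun j hj => hjs j (List.mem_of_mem_take hj)) h1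
    d d' s s' c) _ h3

end main

end ALT
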