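import Pool.Agent.ALT.Asm
import Pool.Agent.ALT.S7
import Pool.Agent.ALT.L1c2b

/-!
Main theorem about finitely generated alternative algebras, from the pieces:
Step 7 (quotients satisfying the nine identities), Level 1 and the assembly.
(helper26, project ALT, MP_643ad6_al)
-/

set_option linter.unusedSectionVars false

universe u v

namespace ALT

/-- Steps 6 and 7: quasi-regular ideals inside `Tid` in algebras with the nine identities. -/
theorem s7 {F : Type v} [Field F] (hL1 : L1Prop.{u, v} F) (B : Type u)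
    [NonUnitalNonAssocRing B] [Module F B] [IsScalarTower F B B]
    [SMulCommClass F B B] [IsAlt B] (n : ℕ) (X : Fin n → B) (hX : Gens F X) (hQ : QI B)
    (J : Submodule F B) (hJ : IsTwoSided J) (hq : ∀ f ∈ J, IsQR f) (hT : ∀ x ∈ J, x ∈ Tid B) :
      ∃ N : ℕ, ∀ js : List B, (∀ j ∈ js, j ∈ J) → js.length = N → ∀ x ∈ J, ln js x = 0 := by
  obtain ⟨U, hU⟩ := exists_finset_adjoin (E := Module.End F (machOf F hQ).M) hX
  exact step7 X hX hQ hL1 U
    (hU ⟨(machOf F hQ).rep.l_sq, (machOf F hQ).rep.l_U⟩) J hJ hq hT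

section
variable {F : Type v} [Field F] {A : Type u} [NonUnitalNonAssocRing A] [Module F A]
  [IsScalarTower F A A] [SMulCommClass F A A]

theorem smul_mem_CC (r : F) {k : ℕ} {x : A} (hx : x ∈ CC A k) : r • x ∈ CC A k := by
  induction hx using AddSubgroup.closure_induction with
  | mem x hx =>
    rcases hx with ⟨p, q, u, rfl⟩ | hx
    · rw [← cp_smul]
      exact AddSubgroup.subset_closure (Or.inl ⟨p, q, _, rfl⟩)
    · exact AddSubgroup.subset_closure (Or.inr (smul_mem_comNucIdeal r hx))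
  | zero => rw [smul_zero]; exact zero_mem _
  | add x y _ _ hx hy => rw [smul_add]; exact add_mem hx hy
  | neg x _ hx => rw [smul_neg]; exact neg_mem hx

theorem assocIdeal_le_Tid [IsAlt A] : assocIdeal A ≤ Tid A := by
  unfold assocIdeal
  rw [AddSubgroup.closure_le]
  rintro d ⟨x, y, z, rfl | ⟨t, rfl⟩⟩
  · exact asc_mem_Tid x y z
  · exact isIdeal_Tid.right t _ (asc_mem_Tid x y z)

/-- the quotient map as a ring homomorphism -/
def IdealF.hom (I : IdealF F A) : A →ₙ+* I.Q where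
  toFun := I.pr
  map_mul' := I.pr_mul
  map_zero' := map_zero I.pr
  map_add' := map_add I.pr

theorem IdealF.hom_apply (I : IdealF F A) (x : A) : I.hom x = I.pr x := rfl

theorem IdealF.QI_Q (I : IdealF F A)
    (h : ∀ (i : Fin 9) (w : Fin 8 → A), qval i w ∈ I.toSubmodule) : QI I.Q := by
  intro i w
  choose f hf using fun j => I.pr_surj (w j)
  have e : w = fun j => I.hom (f j) := by funext j; exact (hf j).symm
  rw [e, ← hom_qval]
  exact I.pr_eq_zero.mpr (h i f)

theorem IdealF.pr_pw (I : IdealF F A) (x : A) (k : ℕ) : I.pr (pw x k) = pw (I.pr x) k := by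
  induction k with
  | zero => rfl
  | succ k ih => rw [pw_succ, pw_succ, I.pr_mul, ih]

theorem IdealF.pr_mem_Tid (I : IdealF F A) {x : A} (hx : x ∈ Tid A) : I.pr x ∈ Tid I.Q := by
  have h : Tid A ≤ (Tid I.Q).comap (I.pr : A →+ I.Q) := by
    apply Tid_le
    · refine ⟨?_, ?_⟩
      · intro a x hx
        rw [AddSubgroup.mem_comap] at hx ⊢
        change I.pr (a * x) ∈ _
        rw [I.pr_mul]
        exact isIdeal_Tid.left _ _ hx
      · intro a x hx
        rw [AddSubgroup.mem_comap] at hx ⊢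
        change I.pr (x * a) ∈ _
        rw [I.pr_mul]
        exact isIdeal_Tid.right _ _ hx
    · intro x y
      rw [AddSubgroup.mem_comap]
      change I.pr (com x y) ∈ _
      rw [I.pr_com]
      exact com_mem_Tid _ _
    · intro x y z
      rw [AddSubgroup.mem_comap]
      change I.pr (asc x y z) ∈ _
      rw [I.pr_asc]
      exact asc_mem_Tid _ _ _
  exact h hx

end

theorem IsQR.map {A B : Type*} [NonUnitalNonAssocRing A] [NonUnitalNonAssocRing B]
    (φ : A →ₙ+* B) {f : A} (h : IsQR f) : IsQR (φ f) := by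
  obtain ⟨g, h1, h2⟩ := h
  exact ⟨φ g, by rw [← map_add, ← map_mul, h1], by rw [← map_add, ← map_mul, h2]⟩

/-- **Main theorem** (given Level 1). -/
theorem main_of {F : Type v} [Field F] (hL1 : L1Prop.{u, v} F)
    {A : Type u} [NonUnitalNonAssocRing A] [Module F A] [SMulCommClass F A A]
    [IsScalarTower F A A] [IsAlt A]
    (hpw : ∀ (k : ℕ) (x y : A), pw (com x y) (4 * k + 3) ∈ CC A k)
    {n : ℕ} (X : Fin n → A) (hX : Gens F X) (J : Submodule F A)
    (hJ : IsTwoSided J) (hD : ∀ x ∈ J, x ∈ assocIdeal A) (hq : ∀ f ∈ J, IsQR f) :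
    ∃ N : ℕ, 0 < N ∧ ∀ x, IsProd (J : Set A) N x → x = 0 := by
  obtain ⟨k, hk⟩ := exists_qval_mem_WW A
  -- the quotient by `WW A k`
  set W : IdealF F A := (isIdeal_WW (A := A) k).toF F (fun r x hx => smul_mem_WW r hx) with hW
  have hWQI : QI W.Q := W.QI_Q hk
  have hJW : IsTwoSided (J.map W.pr) := by
    intro a x hx
    obtain ⟨a, rfl⟩ := W.pr_surj a
    obtain ⟨x, hx, rfl⟩ := hx
    rw [← W.pr_mul, ← W.pr_mul]
    exact ⟨⟨_, (hJ a x hx).1, rfl⟩, ⟨_, (hJ a x hx).2, rfl⟩⟩
  obtain ⟨N₁, hN₁⟩ := s7 hL1 W.Q n (fun i => W.pr (X i)) (W.gens hX) hWQI (J.map W.pr) hJW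
    (by
      rintro f ⟨f, hf, rfl⟩
      exact (hq f hf).map W.hom)
    (by
      rintro f ⟨f, hf, rfl⟩
      exact W.pr_mem_Tid (assocIdeal_le_Tid (hD f hf)))
  -- the quotient by `CC A k`
  set C : IdealF F A := (isIdeal_CC (A := A) k).toF F (fun r x hx => smul_mem_CC r hx) with hC
  obtain ⟨l, hl⟩ := hL1 C.Q n (fun i => C.pr (X i)) (C.gens hX) (4 * k + 3) (by
    intro x y
    obtain ⟨x, rfl⟩ := C.pr_surj x
    obtain ⟨y, rfl⟩ := C.pr_surj y
    rw [← C.pr_com, ← C.pr_pw, C.pr_eq_zero]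
    exact hpw k x y)
  have hJi : IsIdeal J.toAddSubgroup :=
    ⟨fun a x hx => (hJ a x hx).1, fun a x hx => (hJ a x hx).2⟩
  refine asm_main (R := F) hX hJi hD (k := k) (N₁ := N₁) (l := l) ?_ ?_
  · intro js x hjs hx hlen p q y hy
    have h1 := hN₁ (js.map W.pr) (by
      intro j' hj'
      obtain ⟨j, hj, rfl⟩ := List.mem_map.mp hj'
      exact ⟨j, hjs j hj, rfl⟩) (by rw [List.length_map, hlen]) (W.pr x) ⟨x, hx, rfl⟩
    rw [← W.pr_ln, W.pr_eq_zero] at h1
    exact (mem_WW.mp h1 p q y (hD y hy)).2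
  · intro js x hjs hx hlen
    have h1 := hl (js.map C.pr) (by rw [List.length_map, hlen]) (by
      intro j' hj'
      obtain ⟨j, hj, rfl⟩ := List.mem_map.mp hj'
      exact C.pr_mem_Tid (assocIdeal_le_Tid (hD j (hjs j hj)))) (C.pr x)
      (C.pr_mem_Tid (assocIdeal_le_Tid (hD x hx)))
    rw [← C.pr_ln, C.pr_eq_zero] at h1
    exact h1

end ALT
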