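import Pool.Agent.ALT.Quot

/-!
Project ALT (MP_643ad6_al), Level 1, nil part (helper3).
Associative rings with `(x y - y x)^M = 0`: the nilpotent elements form an ideal.
No Shirshov theorem: semiprime rings with this identity are reduced, plus Zorn.
-/

namespace ALT

section semiprime

variable {S : Type*} [Ring S]

/-- expansion of `(X + Y)^n w` when `Y X^(j+1) u = 0` for the relevant `u`. -/
theorem n1_expand (X Y w : S) (h1 : ∀ j : ℕ, Y * X ^ (j + 1) * w = 0)
    (h2 : ∀ j : ℕ, Y * X ^ (j + 1) * Y = 0) (n : ℕ) :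
    (X + Y) ^ n * w = ∑ k ∈ Finset.range (n + 1), X ^ (n - k) * Y ^ k * w := by
  induction n with
  | zero => simp
  | succ n ih =>
    have hz : ∀ k ∈ Finset.range n, Y * (X ^ (n - k) * Y ^ k * w) = 0 := by
      intro k hk
      have hk' : k < n := Finset.mem_range.1 hk
      obtain ⟨j, hj⟩ : ∃ j, n - k = j + 1 := ⟨n - k - 1, by omega⟩
      rw [hj]
      rcases k with _ | k
      · have := h1 j
        rw [pow_zero, mul_one, ← mul_assoc]
        exact this
      · have := h2 j
        calc Y * (X ^ (j + 1) * Y ^ (k + 1) * w) = (Y * X ^ (j + 1) * Y) * Y ^ k * w := by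
              rw [pow_succ' Y k]; noncomm_ring
          _ = 0 := by rw [this]; simp
    rw [pow_succ', mul_assoc, ih, add_mul, Finset.mul_sum, Finset.mul_sum]
    rw [Finset.sum_range_succ (fun k => Y * (X ^ (n - k) * Y ^ k * w)) n,
      Finset.sum_eq_zero hz, zero_add, Finset.sum_range_succ _ (n + 1)]
    congr 1
    · refine Finset.sum_congr rfl fun k hk => ?_
      have hk' : k ≤ n := Nat.lt_succ_iff.1 (Finset.mem_range.1 hk)
      rw [Nat.succ_sub hk', pow_succ']
      noncomm_ring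
    · simp [pow_succ', mul_assoc]

theorem n1_step (hsp : ∀ w : S, (∀ c, w * c * w = 0) → w = 0) (w : S) (K : ℕ)
    (h : ∀ b, (w * b) ^ (K + 1) * w = 0) (b : S) : (w * b) ^ K * w = 0 := by
  set X : S := w * b with hX
  set w' : S := X ^ K * w with hw'
  have hXw : ∀ j : ℕ, X ^ (K + 1 + j) * w = 0 := by
    intro j
    rw [add_comm, pow_add, mul_assoc, h b, mul_zero]
  apply hsp
  intro c
  set Y : S := w * c * X ^ K with hY
  have h1 : ∀ j : ℕ, Y * X ^ (j + 1) * w = 0 := by
    intro j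
    have h3 : Y * X ^ (j + 1) * w = w * c * (X ^ (K + 1 + j) * w) := by
      rw [hY, show K + 1 + j = K + (j + 1) by ring, pow_add X K (j + 1)]
      simp only [mul_assoc]
    rw [h3, hXw, mul_zero]
  have h2 : ∀ j : ℕ, Y * X ^ (j + 1) * Y = 0 := by
    intro j
    have h3 : Y * X ^ (j + 1) * Y = (Y * X ^ (j + 1) * w) * (c * X ^ K) := by
      rw [hY]; noncomm_ring
    rw [h3, h1, zero_mul]
  have hYk : ∀ k : ℕ, Y ^ k * w = w * (c * w') ^ k := by
    intro k
    induction k with
    | zero => simp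
    | succ k ih =>
      rw [pow_succ', mul_assoc, ih, pow_succ', hY, hw']
      noncomm_ring
  have h5 : (X + Y) ^ (K + 1) * w = 0 := by
    have : X + Y = w * (b + c * X ^ K) := by rw [hX, hY]; noncomm_ring
    rw [this]; exact h _
  rw [n1_expand X Y w h1 h2] at h5
  have h6 : ∀ k, X ^ (K + 1 - k) * Y ^ k * w = X ^ (K + 1 - k) * w * (c * w') ^ k := by
    intro k; rw [mul_assoc, hYk, mul_assoc]
  simp only [h6] at h5
  -- split off the terms k = 0 and k = 1
  rw [Finset.sum_range_succ'] at h5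
  rw [Finset.sum_range_succ'] at h5
  have h7 : X ^ (K + 1 - 0) * w * (c * w') ^ 0 = 0 := by
    have := h b
    rw [pow_zero, mul_one, Nat.sub_zero]; exact this
  rw [h7, add_zero] at h5
  have h8 : X ^ (K + 1 - (0 + 1)) * w * (c * w') ^ (0 + 1) = w' * c * w' := by
    rw [show K + 1 - (0 + 1) = K by omega, zero_add, pow_one, hw']; noncomm_ring
  rw [h8] at h5
  -- the rest is Z * (w' c w') with Z in w S
  have h9 : ∀ k ∈ Finset.range K, ∃ d : S,
      X ^ (K + 1 - (k + 1 + 1)) * w * (c * w') ^ (k + 1 + 1) = w * d * (w' * c * w') := by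
    intro k _
    have h10 : ∃ d0 : S, X ^ (K + 1 - (k + 1 + 1)) * w = w * d0 := by
      rcases (K + 1 - (k + 1 + 1)) with _ | j
      · exact ⟨1, by simp⟩
      · exact ⟨b * X ^ j * w, by rw [pow_succ', hX]; noncomm_ring⟩
    obtain ⟨d0, hd0⟩ := h10
    refine ⟨d0 * (c * w') ^ k * c, ?_⟩
    rw [hd0, pow_succ, pow_succ]
    noncomm_ring
  choose! d hd using h9
  rw [Finset.sum_congr rfl hd, ← Finset.sum_mul, ← Finset.mul_sum] at h5
  set Z : S := w * ∑ i ∈ Finset.range K, d i with hZ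
  have hZnil : IsNilpotent Z := by
    refine ⟨K + 2, ?_⟩
    have := h (∑ i ∈ Finset.range K, d i)
    rw [pow_succ]
    rw [← hZ] at this
    calc Z ^ (K + 1) * Z = Z ^ (K + 1) * w * ∑ i ∈ Finset.range K, d i := by
          rw [hZ, mul_assoc]
      _ = 0 := by rw [this, zero_mul]
  have hu : IsUnit (1 + Z) := by
    rw [add_comm]
    exact hZnil.isUnit_add_one
  have h11 : (1 + Z) * (w' * c * w') = 0 := by
    rw [add_mul, one_mul, add_comm]; exact h5
  exact (hu.mul_right_eq_zero).1 h11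

theorem n1_semiprime_reduced (hsp : ∀ w : S, (∀ c, w * c * w = 0) → w = 0) (M : ℕ)
    (hM : ∀ x y : S, (x * y - y * x) ^ M = 0) (w : S) (hw : w * w = 0) : w = 0 := by
  have h0 : ∀ b : S, ∀ k : ℕ, w * (w * b - b * w) ^ k = (-1) ^ k * ((w * b) ^ k * w) := by
    intro b k
    induction k with
    | zero => simp
    | succ k ih =>
      rw [pow_succ, ← mul_assoc, ih, pow_succ (w * b), pow_succ (-1 : S)]
      have h3 : (w * b) ^ k * w * (w * b - b * w) = -((w * b) ^ k * (w * b) * w) := by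
        have : (w * b) ^ k * w * (w * b - b * w)
            = (w * b) ^ k * (w * w) * b - (w * b) ^ k * (w * b) * w := by noncomm_ring
        rw [this, hw]; noncomm_ring
      rw [mul_assoc, h3]; noncomm_ring
  have h1 : ∀ b : S, (w * b) ^ M * w = 0 := by
    intro b
    have h2 := h0 b M
    rw [hM, mul_zero] at h2
    have h3 : ((-1 : S) ^ M) * ((-1) ^ M * ((w * b) ^ M * w)) = (w * b) ^ M * w := by
      rw [← mul_assoc, ← pow_add, Even.neg_one_pow ⟨M, rfl⟩, one_mul]
    rw [← h3, ← h2, mul_zero]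
  have h2 : ∀ K : ℕ, (∀ b : S, (w * b) ^ K * w = 0) → w = 0 := by
    intro K
    induction K with
    | zero => intro h; simpa using h 1
    | succ K ih => intro h; exact ih fun b => n1_step hsp w K h b
  exact h2 M h1

end semiprime

section zorn

variable {S : Type*} [Ring S]

/-- A maximal ideal avoiding the powers of `z`. -/
theorem n1_exists_max (z : S) (hz : ¬ IsNilpotent z) :
    ∃ P : AddSubgroup S, IsIdeal P ∧ (∀ k : ℕ, z ^ k ∉ P) ∧
      ∀ Q : AddSubgroup S, IsIdeal Q → P < Q → ∃ k : ℕ, z ^ k ∈ Q := by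
  have hz' : ∀ k : ℕ, z ^ k ∉ (⊥ : AddSubgroup S) := by
    intro k hk
    exact hz ⟨k, by simpa using hk⟩
  obtain ⟨P, -, hP⟩ := zorn_le_nonempty₀ {I : AddSubgroup S | IsIdeal I ∧ ∀ k : ℕ, z ^ k ∉ I}
    (by
      intro c hc hchain y hy
      refine ⟨sSup c, ⟨⟨?_, ?_⟩, ?_⟩, fun I hI => le_sSup hI⟩
      · intro a x hx
        rw [AddSubgroup.mem_sSup_of_directedOn ⟨y, hy⟩ hchain.directedOn] at hx ⊢
        obtain ⟨I, hI, hxI⟩ := hx
        exact ⟨I, hI, (hc hI).1.left a x hxI⟩
      · intro a x hx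
        rw [AddSubgroup.mem_sSup_of_directedOn ⟨y, hy⟩ hchain.directedOn] at hx ⊢
        obtain ⟨I, hI, hxI⟩ := hx
        exact ⟨I, hI, (hc hI).1.right a x hxI⟩
      · intro k hk
        rw [AddSubgroup.mem_sSup_of_directedOn ⟨y, hy⟩ hchain.directedOn] at hk
        obtain ⟨I, hI, hxI⟩ := hk
        exact (hc hI).2 k hxI)
    ⊥ ⟨⟨by intro a x hx; simp_all, by intro a x hx; simp_all⟩, hz'⟩
  refine ⟨P, hP.prop.1, hP.prop.2, fun Q hQ hlt => ?_⟩
  by_contra hcon
  push Not at hcon
  exact absurd (hP.le_of_ge ⟨hQ, hcon⟩ hlt.le) (not_le_of_gt hlt)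

end zorn

end ALT
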