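import Pool.Agent.ALT.N1a

/-!
Project ALT (MP_643ad6_al), Level 1, nil part (helper3): associative rings with
`(x y - y x)^M = 0`: sums of nilpotent elements and products with a nilpotent element are
nilpotent.
-/

namespace ALT

variable {S : Type*} [Ring S]

/-- The quotient by a maximal ideal avoiding the powers of `z` is semiprime. -/
theorem n1_max_semiprime {z : S} {P : AddSubgroup S} (hP : IsIdeal P)
    (hz : ∀ k : ℕ, z ^ k ∉ P)
    (hmax : ∀ Q : AddSubgroup S, IsIdeal Q → P < Q → ∃ k : ℕ, z ^ k ∈ Q) (w : S)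
    (hw : ∀ c : S, w * c * w ∈ P) : w ∈ P := by
  by_contra hwP
  set W : AddSubgroup S := AddSubgroup.closure {x | ∃ a b : S, x = a * w * b} with hW
  have hWl : ∀ a : S, ∀ x ∈ W, a * x ∈ W := by
    intro a x hx
    induction hx using AddSubgroup.closure_induction with
    | mem x hx =>
      obtain ⟨c, d, rfl⟩ := hx
      exact AddSubgroup.subset_closure ⟨a * c, d, by noncomm_ring⟩
    | zero => rw [mul_zero]; exact W.zero_mem
    | add x y _ _ hx hy => rw [mul_add]; exact W.add_mem hx hy
    | neg x _ hx => rw [mul_neg]; exact W.neg_mem hx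
  have hWr : ∀ a : S, ∀ x ∈ W, x * a ∈ W := by
    intro a x hx
    induction hx using AddSubgroup.closure_induction with
    | mem x hx =>
      obtain ⟨c, d, rfl⟩ := hx
      exact AddSubgroup.subset_closure ⟨c, d * a, by noncomm_ring⟩
    | zero => rw [zero_mul]; exact W.zero_mem
    | add x y _ _ hx hy => rw [add_mul]; exact W.add_mem hx hy
    | neg x _ hx => rw [neg_mul]; exact W.neg_mem hx
  have hWW : ∀ x ∈ W, ∀ y ∈ W, x * y ∈ P := by
    intro x hx y hy
    induction hx using AddSubgroup.closure_induction with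
    | mem x hx =>
      obtain ⟨c, d, rfl⟩ := hx
      induction hy using AddSubgroup.closure_induction with
      | mem y hy =>
        obtain ⟨c', d', rfl⟩ := hy
        have h1 := hP.left c _ (hP.right d' _ (hw (d * c')))
        have h2 : c * (w * (d * c') * w * d') = c * w * d * (c' * w * d') := by noncomm_ring
        rw [← h2]; exact h1
      | zero => rw [mul_zero]; exact P.zero_mem
      | add x y _ _ hx hy => rw [mul_add]; exact P.add_mem hx hy
      | neg x _ hx => rw [mul_neg]; exact P.neg_mem hx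
    | zero => rw [zero_mul]; exact P.zero_mem
    | add x y _ _ hx hy => rw [add_mul]; exact P.add_mem hx hy
    | neg x _ hx => rw [neg_mul]; exact P.neg_mem hx
  have hQ : IsIdeal (P ⊔ W) := by
    refine ⟨?_, ?_⟩
    · intro a x hx
      obtain ⟨p, hp, t, ht, rfl⟩ := AddSubgroup.mem_sup.1 hx
      rw [mul_add]
      exact AddSubgroup.mem_sup.2 ⟨a * p, hP.left a p hp, a * t, hWl a t ht, rfl⟩
    · intro a x hx
      obtain ⟨p, hp, t, ht, rfl⟩ := AddSubgroup.mem_sup.1 hx
      rw [add_mul]
      exact AddSubgroup.mem_sup.2 ⟨p * a, hP.right a p hp, t * a, hWr a t ht, rfl⟩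
  have hwW : w ∈ W := AddSubgroup.subset_closure ⟨1, 1, by simp⟩
  have hlt : P < P ⊔ W := by
    refine lt_of_le_of_ne le_sup_left fun h => hwP ?_
    rw [h]
    exact (le_sup_right : W ≤ P ⊔ W) hwW
  obtain ⟨k, hk⟩ := hmax _ hQ hlt
  obtain ⟨p, hp, t, ht, hpt⟩ := AddSubgroup.mem_sup.1 hk
  refine hz (k + k) ?_
  rw [pow_add, ← hpt]
  have : (p + t) * (p + t) = p * (p + t) + t * p + t * t := by noncomm_ring
  rw [this]
  exact P.add_mem (P.add_mem (hP.right _ _ hp) (hP.left _ _ hp)) (hWW t ht t ht)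

/-- If `z` is not nilpotent there is an ideal `P` without powers of `z` containing every
nilpotent element. -/
theorem n1_exists_good (M : ℕ) (hM : ∀ x y : S, (x * y - y * x) ^ M = 0) (z : S)
    (hz : ¬ IsNilpotent z) :
    ∃ P : AddSubgroup S, IsIdeal P ∧ z ∉ P ∧ ∀ a : S, IsNilpotent a → a ∈ P := by
  obtain ⟨P, hP, hzP, hmax⟩ := n1_exists_max z hz
  refine ⟨P, hP, by simpa using hzP 1, ?_⟩
  have hq : ∀ w : hP.con.Quotient, w * w = 0 → w = 0 := by
    refine n1_semiprime_reduced (S := hP.con.Quotient) ?_ M ?_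
    · intro w hw
      obtain ⟨w, rfl⟩ := Quotient.exists_rep w
      have : w ∈ P := by
        refine n1_max_semiprime hP hzP hmax w fun c => ?_
        have h1 := hw (hP.toQ c)
        exact hP.toQ_eq_zero.1 h1
      exact hP.toQ_eq_zero.2 this
    · intro x y
      obtain ⟨x, rfl⟩ := Quotient.exists_rep x
      obtain ⟨y, rfl⟩ := Quotient.exists_rep y
      have h1 : (hP.con.mk' ((x * y - y * x) ^ M)) = hP.con.mk' 0 := by rw [hM]
      rw [map_pow, map_zero] at h1
      exact h1
  intro a ha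
  obtain ⟨k, hk⟩ := ha
  have hred : IsReduced hP.con.Quotient := by
    rw [isReduced_iff_pow_one_lt 2 (by norm_num)]
    intro x hx
    exact hq x (by rw [← pow_two]; exact hx)
  have h2 : IsNilpotent (hP.con.mk' a) := ⟨k, by rw [← map_pow, hk, map_zero]⟩
  have h3 : hP.con.mk' a = 0 := h2.eq_zero
  exact hP.toQ_eq_zero.1 h3

theorem n1_nil_mul (M : ℕ) (hM : ∀ x y : S, (x * y - y * x) ^ M = 0) {a : S}
    (ha : IsNilpotent a) (b : S) : IsNilpotent (a * b) := by
  by_contra hz
  obtain ⟨P, hP, hzP, hall⟩ := n1_exists_good M hM _ hz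
  exact hzP (hP.right b a (hall a ha))

theorem n1_nil_mul' (M : ℕ) (hM : ∀ x y : S, (x * y - y * x) ^ M = 0) {a : S}
    (ha : IsNilpotent a) (b : S) : IsNilpotent (b * a) := by
  by_contra hz
  obtain ⟨P, hP, hzP, hall⟩ := n1_exists_good M hM _ hz
  exact hzP (hP.left b a (hall a ha))

theorem n1_nil_add (M : ℕ) (hM : ∀ x y : S, (x * y - y * x) ^ M = 0) {a b : S}
    (ha : IsNilpotent a) (hb : IsNilpotent b) : IsNilpotent (a + b) := by
  by_contra hz
  obtain ⟨P, hP, hzP, hall⟩ := n1_exists_good M hM _ hz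
  exact hzP (P.add_mem (hall a ha) (hall b hb))

end ALT
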