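import Mathlib

/-!
Project ALT (MP_643ad6_al), Level 1 (helper3): full polarisation of `[x,y]^K = 0` without
division: inclusion-exclusion over subsets.
-/

set_option autoImplicit false

namespace ALT

open Finset

theorem ie_not_surj {K : ℕ} (F : Fin K → Fin K) (hF : ¬ Function.Surjective F) :
    ∑ S ∈ (univ : Finset (Finset (Fin K))).filter (fun S => ∀ i, F i ∈ S),
      (-1 : ℤ) ^ S.card = 0 := by
  classical
  obtain ⟨a, ha⟩ : ∃ a, ∀ i, F i ≠ a := by
    by_contra h
    push Not at h
    exact hF h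
  refine Finset.sum_involution (fun S _ => if a ∈ S then S.erase a else insert a S)
    ?_ ?_ ?_ ?_
  · intro S _
    by_cases h : a ∈ S
    · rw [if_pos h, Finset.card_erase_of_mem h]
      have h1 : 0 < S.card := Finset.card_pos.2 ⟨a, h⟩
      obtain ⟨k, hk⟩ : ∃ k, S.card = k + 1 := ⟨S.card - 1, by omega⟩
      rw [hk, Nat.add_sub_cancel, pow_succ]
      ring
    · rw [if_neg h, Finset.card_insert_of_notMem h, pow_succ]
      ring
  · intro S _ _
    by_cases h : a ∈ S
    · rw [if_pos h]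
      intro h2
      rw [← h2] at h
      exact absurd h (Finset.notMem_erase a S)
    · rw [if_neg h]
      intro h2
      exact h (h2 ▸ Finset.mem_insert_self a S)
  · intro S hS
    rw [Finset.mem_filter] at hS ⊢
    refine ⟨Finset.mem_univ _, fun i => ?_⟩
    by_cases h : a ∈ S
    · rw [if_pos h]
      exact Finset.mem_erase.2 ⟨ha i, hS.2 i⟩
    · rw [if_neg h]
      exact Finset.mem_insert_of_mem (hS.2 i)
  · intro S _
    by_cases h : a ∈ S
    · rw [if_pos h, if_neg (Finset.notMem_erase a S), Finset.insert_erase h]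
    · rw [if_neg h, if_pos (Finset.mem_insert_self a S), Finset.erase_insert h]

theorem ie_surj {K : ℕ} (F : Fin K → Fin K) (hF : Function.Surjective F) :
    ∑ S ∈ (univ : Finset (Finset (Fin K))).filter (fun S => ∀ i, F i ∈ S),
      (-1 : ℤ) ^ S.card = (-1) ^ K := by
  classical
  have h1 : (univ : Finset (Finset (Fin K))).filter (fun S => ∀ i, F i ∈ S) = {univ} := by
    ext S
    simp only [mem_filter, mem_univ, true_and, mem_singleton]
    constructor
    · intro h
      refine Finset.eq_univ_iff_forall.2 fun x => ?_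
      obtain ⟨i, rfl⟩ := hF x
      exact h i
    · rintro rfl i
      exact mem_univ _
  rw [h1, Finset.sum_singleton, Finset.card_univ, Fintype.card_fin]

variable {E : Type*} [Ring E]

/-- the mixed product -/
def mixQ {K : ℕ} (x y : Fin K → E) (r : Fin K → Fin K × Fin K) : E :=
  (List.ofFn fun i => x (r i).1 * y (r i).2 - y (r i).2 * x (r i).1).prod

/-- Full polarisation of `[x,y]^K = 0`. -/
theorem polar {K : ℕ} (J : AddSubgroup E)
    (hJ : ∀ a ∈ J, ∀ b ∈ J, (a * b - b * a) ^ K = 0) (x y : Fin K → E)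
    (hx : ∀ i, x i ∈ J) (hy : ∀ i, y i ∈ J) :
    ∑ r : Fin K → Fin K × Fin K,
      (if Function.Surjective (fun i => (r i).1) ∧ Function.Surjective (fun i => (r i).2)
        then mixQ x y r else 0) = 0 := by
  classical
  -- expansion for subsets
  have hST : ∀ S T : Finset (Fin K),
      ∑ r : Fin K → Fin K × Fin K,
        (if (∀ i, (r i).1 ∈ S) ∧ ∀ i, (r i).2 ∈ T then mixQ x y r else 0) = 0 := by
    intro S T
    have h1 := hJ (∑ i ∈ S, x i) (J.sum_mem fun i _ => hx i) (∑ i ∈ T, y i)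
      (J.sum_mem fun i _ => hy i)
    have h2 : (∑ i ∈ S, x i) * (∑ i ∈ T, y i) - (∑ i ∈ T, y i) * (∑ i ∈ S, x i)
        = ∑ p ∈ S ×ˢ T, (x p.1 * y p.2 - y p.2 * x p.1) := by
      rw [Finset.sum_sub_distrib, Finset.sum_product, Finset.sum_product, Finset.sum_mul_sum,
        Finset.sum_mul_sum]
      congr 1
      exact Finset.sum_comm
    rw [h2] at h1
    have h3 := (MultilinearMap.mkPiAlgebraFin ℤ K E).map_sum_finset
      (fun _ (p : Fin K × Fin K) => x p.1 * y p.2 - y p.2 * x p.1) (fun _ => S ×ˢ T)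
    simp only [MultilinearMap.mkPiAlgebraFin_apply] at h3
    rw [List.ofFn_const, List.prod_replicate, h1] at h3
    have h4 : (Fintype.piFinset fun _ : Fin K => S ×ˢ T) =
        (univ : Finset (Fin K → Fin K × Fin K)).filter
          (fun r => (∀ i, (r i).1 ∈ S) ∧ ∀ i, (r i).2 ∈ T) := by
      ext r
      simp only [Fintype.mem_piFinset, mem_product, mem_filter, mem_univ, true_and]
      exact forall_and
    rw [h4, Finset.sum_filter] at h3
    exact h3.symm
  have hs : ∑ S : Finset (Fin K), ∑ T : Finset (Fin K), ((-1 : ℤ) ^ S.card * (-1) ^ T.card) •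
      ∑ r : Fin K → Fin K × Fin K,
        (if (∀ i, (r i).1 ∈ S) ∧ ∀ i, (r i).2 ∈ T then mixQ x y r else 0) = 0 := by
    refine Finset.sum_eq_zero fun S _ => Finset.sum_eq_zero fun T _ => ?_
    rw [hST, smul_zero]
  have hr : ∀ r : Fin K → Fin K × Fin K,
      ∑ S : Finset (Fin K), ∑ T : Finset (Fin K), ((-1 : ℤ) ^ S.card * (-1) ^ T.card) •
        (if (∀ i, (r i).1 ∈ S) ∧ ∀ i, (r i).2 ∈ T then mixQ x y r else 0) =
      (if Function.Surjective (fun i => (r i).1) ∧ Function.Surjective (fun i => (r i).2)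
        then mixQ x y r else 0) := by
    intro r
    have h1 : ∀ S T : Finset (Fin K), ((-1 : ℤ) ^ S.card * (-1) ^ T.card) •
        (if (∀ i, (r i).1 ∈ S) ∧ ∀ i, (r i).2 ∈ T then mixQ x y r else 0) =
        ((if ∀ i, (r i).1 ∈ S then (-1 : ℤ) ^ S.card else 0) *
          (if ∀ i, (r i).2 ∈ T then (-1 : ℤ) ^ T.card else 0)) • mixQ x y r := by
      intro S T
      by_cases hS : ∀ i, (r i).1 ∈ S <;> by_cases hT : ∀ i, (r i).2 ∈ T <;> simp [hS, hT]
    simp only [h1]
    have h2 : ∑ S : Finset (Fin K), ∑ T : Finset (Fin K),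
        ((if ∀ i, (r i).1 ∈ S then (-1 : ℤ) ^ S.card else 0) *
          (if ∀ i, (r i).2 ∈ T then (-1 : ℤ) ^ T.card else 0)) • mixQ x y r =
        ((∑ S : Finset (Fin K), if ∀ i, (r i).1 ∈ S then (-1 : ℤ) ^ S.card else 0) *
          (∑ T : Finset (Fin K), if ∀ i, (r i).2 ∈ T then (-1 : ℤ) ^ T.card else 0)) •
          mixQ x y r := by
      rw [Finset.sum_mul_sum]
      simp only [Finset.sum_smul]
    rw [h2, ← Finset.sum_filter, ← Finset.sum_filter]
    by_cases s1 : Function.Surjective (fun i => (r i).1)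
    · by_cases s2 : Function.Surjective (fun i => (r i).2)
      · rw [ie_surj _ s1, ie_surj _ s2, if_pos ⟨s1, s2⟩, ← mul_pow]
        simp
      · rw [ie_not_surj _ s2, mul_zero, zero_smul, if_neg (fun h => s2 h.2)]
    · rw [ie_not_surj _ s1, zero_mul, zero_smul, if_neg (fun h => s1 h.1)]
  refine Eq.trans (Finset.sum_congr rfl fun r _ => (hr r).symm) (Eq.trans ?_ hs)
  rw [Finset.sum_comm]
  refine Finset.sum_congr rfl fun S _ => ?_
  rw [Finset.sum_comm]
  refine Finset.sum_congr rfl fun T _ => ?_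
  rw [Finset.smul_sum]

end ALT
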