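import Pool.Agent.ALT.Defs6

/-!
# Project ALT (MP_643ad6_al): two-sided ideals of `F`-algebras and quotients (helper6)

`IdealF F A`: bundled two-sided ideals which are `F`-submodules; `I.Q` the quotient algebra, an
alternative `F`-algebra; `I.pr : A →ₗ[F] I.Q`, `I.pr_mul`, `I.pr_eq_zero`, `I.pr_surj`.
`idF F S`: the ideal generated by a set `S`.
-/

set_option autoImplicit false

namespace ALT

section
variable (F : Type*) (A : Type*) [CommRing F] [NonUnitalNonAssocRing A] [Module F A]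

/-- two-sided ideals closed under scalars -/
structure IdealF extends Submodule F A where
  lmul : ∀ a : A, ∀ x ∈ toSubmodule, a * x ∈ toSubmodule
  rmul : ∀ a : A, ∀ x ∈ toSubmodule, x * a ∈ toSubmodule

variable {F A}

/-- the quotient of `A` by the ideal `I` -/
def IdealF.Q (I : IdealF F A) : Type _ := A ⧸ I.toSubmodule

instance (I : IdealF F A) : AddCommGroup I.Q := inferInstanceAs (AddCommGroup (A ⧸ I.toSubmodule))
instance (I : IdealF F A) : Module F I.Q := inferInstanceAs (Module F (A ⧸ I.toSubmodule))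

/-- the quotient map -/
def IdealF.pr (I : IdealF F A) : A →ₗ[F] I.Q := I.toSubmodule.mkQ

theorem IdealF.pr_surj (I : IdealF F A) : Function.Surjective I.pr :=
  Submodule.mkQ_surjective _

theorem IdealF.pr_eq_zero (I : IdealF F A) {x : A} : I.pr x = 0 ↔ x ∈ I.toSubmodule :=
  Submodule.Quotient.mk_eq_zero _

theorem IdealF.pr_eq (I : IdealF F A) {x y : A} : I.pr x = I.pr y ↔ x - y ∈ I.toSubmodule :=
  Submodule.Quotient.eq _

theorem IdealF.mul_congr (I : IdealF F A) {a b c d : A} (h1 : a - b ∈ I.toSubmodule)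
    (h2 : c - d ∈ I.toSubmodule) : a * c - b * d ∈ I.toSubmodule := by
  have e : a * c - b * d = (a - b) * c + b * (c - d) := by
    rw [sub_mul, mul_sub]; abel
  rw [e]
  exact I.toSubmodule.add_mem (I.rmul c _ h1) (I.lmul b _ h2)

/-- a section of the quotient map -/
noncomputable def IdealF.sec (I : IdealF F A) (x : I.Q) : A := (I.pr_surj x).choose

theorem IdealF.pr_sec (I : IdealF F A) (x : I.Q) : I.pr (I.sec x) = x := (I.pr_surj x).choose_spec

noncomputable instance (I : IdealF F A) : Mul I.Q := ⟨fun x y => I.pr (I.sec x * I.sec y)⟩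

theorem IdealF.pr_mul (I : IdealF F A) (x y : A) : I.pr (x * y) = I.pr x * I.pr y := by
  show I.pr (x * y) = I.pr (I.sec (I.pr x) * I.sec (I.pr y))
  rw [I.pr_eq]
  exact I.mul_congr (I.pr_eq.mp (I.pr_sec _).symm) (I.pr_eq.mp (I.pr_sec _).symm)

noncomputable instance (I : IdealF F A) : NonUnitalNonAssocRing I.Q :=
  { (inferInstance : AddCommGroup I.Q), (inferInstance : Mul I.Q) with
    left_distrib := fun x y z => by
      obtain ⟨x, rfl⟩ := I.pr_surj x
      obtain ⟨y, rfl⟩ := I.pr_surj y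
      obtain ⟨z, rfl⟩ := I.pr_surj z
      rw [← map_add, ← I.pr_mul, ← I.pr_mul, ← I.pr_mul, mul_add, map_add]
    right_distrib := fun x y z => by
      obtain ⟨x, rfl⟩ := I.pr_surj x
      obtain ⟨y, rfl⟩ := I.pr_surj y
      obtain ⟨z, rfl⟩ := I.pr_surj z
      rw [← map_add, ← I.pr_mul, ← I.pr_mul, ← I.pr_mul, add_mul, map_add]
    zero_mul := fun x => by
      obtain ⟨x, rfl⟩ := I.pr_surj x
      rw [← map_zero I.pr, ← I.pr_mul, zero_mul]
    mul_zero := fun x => by
      obtain ⟨x, rfl⟩ := I.pr_surj x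
      rw [← map_zero I.pr, ← I.pr_mul, mul_zero] }

theorem IdealF.pr_asc (I : IdealF F A) (x y z : A) :
    I.pr (asc x y z) = asc (I.pr x) (I.pr y) (I.pr z) := by
  rw [asc_def, asc_def, map_sub, I.pr_mul, I.pr_mul, I.pr_mul, I.pr_mul]

theorem IdealF.pr_com (I : IdealF F A) (x y : A) :
    I.pr (com x y) = com (I.pr x) (I.pr y) := by
  rw [com_def, com_def, map_sub, I.pr_mul, I.pr_mul]

instance (I : IdealF F A) [IsAlt A] : IsAlt I.Q where
  left x y := by
    obtain ⟨x, rfl⟩ := I.pr_surj x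
    obtain ⟨y, rfl⟩ := I.pr_surj y
    rw [← I.pr_mul, ← I.pr_mul, ← I.pr_mul, ← I.pr_mul, IsAlt.left]
  right x y := by
    obtain ⟨x, rfl⟩ := I.pr_surj x
    obtain ⟨y, rfl⟩ := I.pr_surj y
    rw [← I.pr_mul, ← I.pr_mul, ← I.pr_mul, ← I.pr_mul, IsAlt.right]

instance (I : IdealF F A) [IsScalarTower F A A] : IsScalarTower F I.Q I.Q where
  smul_assoc r x y := by
    obtain ⟨x, rfl⟩ := I.pr_surj x
    obtain ⟨y, rfl⟩ := I.pr_surj y
    rw [smul_eq_mul, smul_eq_mul, ← map_smul, ← I.pr_mul, ← I.pr_mul, ← map_smul,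
      smul_mul_assoc]

instance (I : IdealF F A) [SMulCommClass F A A] : SMulCommClass F I.Q I.Q where
  smul_comm r x y := by
    obtain ⟨x, rfl⟩ := I.pr_surj x
    obtain ⟨y, rfl⟩ := I.pr_surj y
    rw [smul_eq_mul, smul_eq_mul, ← map_smul, ← I.pr_mul, ← I.pr_mul, ← map_smul,
      mul_smul_comm]

theorem IdealF.gens (I : IdealF F A) {ι : Type*} {X : ι → A} (hX : Gens F X) :
    Gens F (fun i => I.pr (X i)) := by
  intro S h1 h2
  have h3 : S.comap I.pr = ⊤ := by
    refine hX _ (fun i => h1 i) ?_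
    intro a ha b hb
    rw [Submodule.mem_comap] at ha hb ⊢
    rw [I.pr_mul]
    exact h2 _ ha _ hb
  rw [eq_top_iff]
  intro x _
  obtain ⟨x, rfl⟩ := I.pr_surj x
  have : x ∈ S.comap I.pr := by rw [h3]; trivial
  exact this

theorem IdealF.pr_ln (I : IdealF F A) (js : List A) (x : A) :
    I.pr (ln js x) = ln (js.map I.pr) (I.pr x) := by
  induction js with
  | nil => rfl
  | cons j js ih => rw [ln_cons, List.map_cons, ln_cons, I.pr_mul, ih]

end

section
variable (F : Type*) {A : Type*} [CommRing F] [NonUnitalNonAssocRing A] [Module F A]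

/-- the ideal generated by a set -/
def idF (S : Set A) : IdealF F A where
  toSubmodule := sInf {T : Submodule F A | S ⊆ T ∧ (∀ a : A, ∀ x ∈ T, a * x ∈ T) ∧
    (∀ a : A, ∀ x ∈ T, x * a ∈ T)}
  lmul := by
    intro a x hx
    rw [Submodule.mem_sInf] at hx ⊢
    intro T hT
    exact hT.2.1 a x (hx T hT)
  rmul := by
    intro a x hx
    rw [Submodule.mem_sInf] at hx ⊢
    intro T hT
    exact hT.2.2 a x (hx T hT)

theorem subset_idF (S : Set A) : S ⊆ (idF F S).toSubmodule := by
  intro x hx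
  exact Submodule.mem_sInf.mpr fun T hT => hT.1 hx

theorem idF_le {S : Set A} (I : IdealF F A) (h : S ⊆ I.toSubmodule) :
    (idF F S).toSubmodule ≤ I.toSubmodule :=
  sInf_le ⟨h, I.lmul, I.rmul⟩

/-- an additive ideal which is closed under scalars -/
def IsIdeal.toF {I : AddSubgroup A} (hI : IsIdeal I) (hs : ∀ (r : F), ∀ x ∈ I, r • x ∈ I) :
    IdealF F A where
  carrier := I
  add_mem' := fun ha hb => I.add_mem ha hb
  zero_mem' := I.zero_mem
  smul_mem' := hs
  lmul := hI.left
  rmul := hI.right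

theorem IsIdeal.mem_toF {I : AddSubgroup A} (hI : IsIdeal I) (hs : ∀ (r : F), ∀ x ∈ I, r • x ∈ I)
    {x : A} : x ∈ (hI.toF F hs).toSubmodule ↔ x ∈ I := Iff.rfl

end

end ALT
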