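import Pool.Agent.ALT.Basic

/-!
# Project ALT (MP_643ad6_al), Step 1a (helper88)

`D z = (x, y, z)`, `v = [x, y]`: the basic identities and Kleinfeld's theorem
`[x, y]^4 ∈ N(A)` in every characteristic.
-/

set_option autoImplicit false

namespace ALT

section
variable {A : Type*} [NonUnitalNonAssocRing A] [IsAlt A]

theorem as_swap₁₂ (x y z : A) : asc y x z = -asc x y z := asc_swap12 y x z

theorem as_swap₂₃ (x y z : A) : asc x z y = -asc x y z := asc_swap23 x z y

theorem as_cyc (x y z : A) : asc y z x = asc x y z := (asc_rot x y z).symm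

theorem as_cyc' (x y z : A) : asc z x y = asc x y z := (asc_rot' x y z).symm

theorem kf_pairs (w x y z : A) : kf y z w x = kf w x y z := (kf_pair w x y z).symm

theorem as_mul_self₁ (x y z : A) : asc (x * x) y z = x * asc x y z + asc x y z * x := by
  rw [asc_rot, asc_sq, ← asc_rot x y z]

section kleinfeld
variable (x y : A)

/-- `D z = (x, y, z)`. -/
theorem D_xz (z : A) : asc x y (x * z) = asc x y z * x := by
  have h := mouf1 x z y
  rw [as_swap₂₃ x y (x * z), as_swap₂₃ x y z, neg_mul] at h
  exact neg_injective h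

theorem D_zx (z : A) : asc x y (z * x) = x * asc x y z := by
  have h := mouf2 x z y
  rw [as_swap₂₃ x y (z * x), as_swap₂₃ x y z, mul_neg] at h
  exact neg_injective h

theorem D_yz (z : A) : asc x y (y * z) = asc x y z * y := by
  have h := mouf1 y z x
  rw [as_cyc x y (y * z), as_cyc x y z] at h
  exact h

theorem D_zy (z : A) : asc x y (z * y) = y * asc x y z := by
  have h := mouf2 y z x
  rw [as_cyc x y (z * y), as_cyc x y z] at h
  exact h


theorem assoc_eq (a b c : A) : (a * b) * c = a * (b * c) + asc a b c := by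
  simp only [asc_def]
  abel

/-- `D(z v) = - v D z` for `v = [x, y]`. -/
theorem D_zv (z : A) : asc x y (z * (com x y)) =
    -((com x y) * asc x y z) := by
  set w := asc x y z with hw
  have h1 : z * (x * y) = (z * x) * y - w := by
    rw [assoc_eq, as_cyc' x y z]; abel
  have h2 : z * (y * x) = (z * y) * x + w := by
    rw [assoc_eq, as_swap₂₃ z x y, as_cyc' x y z]; abel
  have h3 : asc x y (z * (x * y)) = y * (x * w) - asc x y w := by
    rw [h1, asc_sub_right, D_zy, D_zx]
  have h4 : asc x y (z * (y * x)) = x * (y * w) + asc x y w := by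
    rw [h2, asc_add_right, D_zx, D_zy]
  have h5 : (x * y) * w = x * (y * w) + asc x y w := assoc_eq x y w
  have h6 : (y * x) * w = y * (x * w) - asc x y w := by
    rw [assoc_eq y x w, as_swap₁₂ x y w]; abel
  rw [com_def, mul_sub, asc_sub_right, h3, h4, sub_mul, h5, h6]
  abel

/-- `D(v z) = - (D z) v`. -/
theorem D_vz (z : A) : asc x y ((com x y) * z) =
    -(asc x y z * (com x y)) := by
  set w := asc x y z with hw
  have h1 : (x * y) * z = x * (y * z) + w := assoc_eq x y z
  have h2 : (y * x) * z = y * (x * z) - w := by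
    rw [assoc_eq y x z, as_swap₁₂ x y z]; abel
  have h3 : asc x y ((x * y) * z) = (w * y) * x + asc x y w := by
    rw [h1, asc_add_right, D_xz, D_yz]
  have h4 : asc x y ((y * x) * z) = (w * x) * y - asc x y w := by
    rw [h2, asc_sub_right, D_yz, D_xz]
  have h5 : (w * y) * x = w * (y * x) - asc x y w := by
    rw [assoc_eq w y x, as_swap₂₃ w x y, as_cyc' x y w]; abel
  have h6 : (w * x) * y = w * (x * y) + asc x y w := by
    rw [assoc_eq w x y, as_cyc' x y w]
  rw [com_def, sub_mul, asc_sub_right, h3, h4, h5, h6, mul_sub]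
  abel

/-- `v o D z = 0`. -/
theorem v_D (z : A) : (com x y) * asc x y z =
    -(asc x y z * (com x y)) := by
  set w := asc x y z with hw
  have h1 : z * (x * y) = (z * x) * y - w := by
    rw [assoc_eq, as_cyc' x y z]; abel
  have h3 : asc x y (z * (x * y)) = y * (x * w) - asc x y w := by
    rw [h1, asc_sub_right, D_zy, D_zx]
  have h4 : asc x y ((x * y) * z) = (w * y) * x + asc x y w := by
    rw [assoc_eq x y z, asc_add_right, D_xz, D_yz]
  have h7 : asc x y (x * y) = 0 := by
    rw [D_xz, asc_self_right, zero_mul]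
  -- linearization of `D (z z) = z o D z`
  have h8 : asc x y (z * (x * y)) + asc x y ((x * y) * z) =
      (x * y) * w + w * (x * y) := by
    have h9 : ∀ u : A, asc x y (u * u) = u * asc x y u + asc x y u * u := by
      intro u
      rw [← as_cyc x y (u * u), ← as_cyc x y u, ← as_cyc y _ x, ← as_cyc y u x]
      exact as_mul_self₁ u x y
    have h10 := h9 (z + x * y)
    rw [add_mul, mul_add, mul_add, asc_add_right, asc_add_right, asc_add_right, asc_add_right, h9 z, h9 (x * y), h7] at h10
    simp only [mul_zero, zero_mul, add_zero, add_mul, mul_add] at h10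
    rw [← hw] at h10
    linear_combination (norm := abel) h10
  have h5 : (w * y) * x = w * (y * x) - asc x y w := by
    rw [assoc_eq w y x, as_swap₂₃ w x y, as_cyc' x y w]; abel
  have h6 : (y * x) * w = y * (x * w) - asc x y w := by
    rw [assoc_eq y x w, as_swap₁₂ x y w]; abel
  rw [com_def, sub_mul, mul_sub, h6]
  rw [h3, h4, h5] at h8
  linear_combination (norm := abel) -h8

/-- `D (D z) = v D z`. -/
theorem D_D (z : A) : asc x y (asc x y z) =
    (com x y) * asc x y z := by
  set w := asc x y z with hw
  have h1 : z * (x * y) = (z * x) * y - w := by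
    rw [assoc_eq, as_cyc' x y z]; abel
  have h3 : asc x y (z * (x * y)) = y * (x * w) - asc x y w := by
    rw [h1, asc_sub_right, D_zy, D_zx]
  have h6 : (y * x) * w = y * (x * w) - asc x y w := by
    rw [assoc_eq y x w, as_swap₁₂ x y w]; abel
  -- f(z, xy, x, y)
  have h7 : kf z (x * y) x y = -((com x y) * w) := by
    have e1 : asc (z * (x * y)) x y = asc x y (z * (x * y)) := as_cyc' _ _ _
    have e2 : asc z x y = w := as_cyc' _ _ _
    have e3 : asc (x * y) x y = 0 := by
      rw [as_cyc' x y (x * y), D_xz, asc_self_right, zero_mul]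
    rw [kf_def, e1, e2, e3, h3, zero_mul, com_def, sub_mul, h6]
    abel
  have h8 : kf x y z (x * y) = -asc x y w := by
    have e1 : asc (x * y) z (x * y) = 0 := asc_flex _ _
    have e2 : asc x z (x * y) = -(w * x) := by
      rw [as_swap₂₃ x (x * y) z, mouf1]
    have e3 : asc y z (x * y) = y * w := by
      rw [as_swap₂₃ y (x * y) z, mouf2, as_swap₁₂ x y z]
      simp only [mul_neg, neg_neg]
      rfl
    rw [kf_def, e1, e2, e3]
    have e4 : asc y w x = asc x y w := as_cyc _ _ _
    rw [← e4]
    simp only [asc_def]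
    simp only [mul_neg]
    abel
  have h9 := kf_pairs x y z (x * y)
  rw [h7, h8] at h9
  exact (neg_injective h9).symm

/-- `D (a b) = a D b + D a b - (v, a, b)`. -/
theorem D_mul (a b : A) : asc x y (a * b) = a * asc x y b + asc x y a * b -
    asc (com x y) a b := by
  have h1 := kf_eq x y a b
  have h2 : kf x y a b = kf a b x y := (kf_pairs x y a b).symm
  have h3 := kf_def b a x y
  have h4 : kf b a x y = - kf a b x y := kf_swap12 b a x y
  have e1 : asc (com a b) x y = asc x y (a * b) - asc x y (b * a) := by
    rw [as_cyc' x y, com_def, asc_sub_right]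
  have e2 : asc (b * a) x y = asc x y (b * a) := as_cyc' _ _ _
  have e3 : asc b x y = asc x y b := as_cyc' _ _ _
  have e4 : asc a x y = asc x y a := as_cyc' _ _ _
  rw [h2, e1] at h1
  rw [h4, e2, e3, e4] at h3
  linear_combination (norm := abel) -(h1 + h3)


/-- `D G(a, b)`, first form, `G(a, b) = (v, a, b)`. -/
theorem D_G₁ (a b : A) : asc x y (asc (com x y) a b) =
    (com x y) * asc (com x y) a b +
      asc (com x y) a (asc x y b) -
      ((com x y) * a - a * (com x y)) * asc x y b +
      (asc x y a * asc x y b + asc x y a * asc x y b) := by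
  set v := com x y with hv
  have h1 := D_mul x y a b
  have h2 : asc x y (asc x y (a * b)) = v * asc x y (a * b) := D_D x y (a * b)
  have h3 := D_mul x y a (asc x y b)
  have h4 := D_mul x y (asc x y a) b
  rw [D_D x y b] at h3
  rw [D_D x y a] at h4
  rw [← hv] at h1 h3 h4
  rw [h1, asc_sub_right, asc_add_right, h3, h4] at h2
  have h5 : (v * asc x y a) * b = v * (asc x y a * b) +
      asc v (asc x y a) b := assoc_eq _ _ _
  clear_value v
  have h6 : (a * v) * asc x y b = a * (v * asc x y b) -
      asc v a (asc x y b) := by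
    rw [assoc_eq, as_swap₁₂ v a]; abel
  have h7 : (v * a) * asc x y b = v * (a * asc x y b) +
      asc v a (asc x y b) := assoc_eq _ _ _
  rw [h5] at h2
  rw [sub_mul, h6, h7]
  simp only [mul_add, mul_sub] at h2
  linear_combination (norm := abel) -h2

/-- `D G(a, b)`, second form. -/
theorem D_G₂ (a b : A) : asc x y (asc (com x y) a b) =
    (com x y) * asc (com x y) a b +
      asc (com x y) (asc x y a) b +
      ((com x y) * b - b * (com x y)) * asc x y a -
      (asc x y b * asc x y a + asc x y b * asc x y a) := by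
  have h := D_G₁ x y b a
  rw [as_swap₂₃ (com x y) a b, asc_neg_right, mul_neg,
    as_swap₂₃ (com x y) (asc x y a) b] at h
  linear_combination (norm := abel) -h

/-- `D G(a, b)`, third form. -/
theorem D_G₃ (a b : A) : asc x y (asc (com x y) a b) =
    -(asc (com x y) a b * (com x y)) +
      asc (com x y) (asc x y a) b -
      asc x y a * ((com x y) * b - b * (com x y)) +
      (asc x y a * asc x y b + asc x y a * asc x y b) := by
  set v := com x y with hv
  have h1 := D_mul x y a b
  have h2 : asc x y (asc x y (a * b)) = -(asc x y (a * b) * v) := by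
    rw [D_D x y (a * b)]
    exact v_D x y (a * b)
  have h3 := D_mul x y a (asc x y b)
  have h4 := D_mul x y (asc x y a) b
  have h8 : asc x y (asc x y b) = -(asc x y b * v) := by
    rw [D_D x y b]
    exact v_D x y b
  have h9 : asc x y (asc x y a) = -(asc x y a * v) := by
    rw [D_D x y a]
    exact v_D x y a
  rw [h8] at h3
  rw [h9] at h4
  rw [← hv] at h1 h3 h4
  rw [h1, asc_sub_right, asc_add_right, h3, h4] at h2
  have h5 : (a * asc x y b) * v = a * (asc x y b * v) +
      asc v a (asc x y b) := by
    rw [assoc_eq, as_cyc v]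
  have h6 : (asc x y a * b) * v = asc x y a * (b * v) +
      asc v (asc x y a) b := by
    rw [assoc_eq, as_cyc v]
  clear_value v
  have h7 : (asc x y a * v) * b = asc x y a * (v * b) -
      asc v (asc x y a) b := by
    rw [assoc_eq, as_swap₁₂ v (asc x y a)]; abel
  rw [mul_sub]
  simp only [add_mul, sub_mul, mul_neg, neg_mul] at h2
  rw [h5, h6, h7] at h2
  linear_combination (norm := abel) -h2

/-- `v o (v, a, b) = 2 Da o Db - [v, b] o Da`. -/
theorem v_G (a b : A) : (com x y) * asc (com x y) a b +
    asc (com x y) a b * (com x y) =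
    (asc x y a * asc x y b + asc x y b * asc x y a) +
    (asc x y a * asc x y b + asc x y b * asc x y a) -
    (((com x y) * b - b * (com x y)) * asc x y a +
      asc x y a * ((com x y) * b - b * (com x y))) := by
  have h2 := D_G₂ x y a b
  have h3 := D_G₃ x y a b
  rw [h3] at h2
  linear_combination (norm := abel) -h2

/-- `(v^2, a, D b) = 0`. -/
theorem vv_D (a b : A) : asc ((com x y) * (com x y)) a (asc x y b) = 0 := by
  have h := v_G x y a (asc x y b)
  rw [as_mul_self₁, h, D_D]
  have h1 : asc x y b * (com x y) = -((com x y) * asc x y b) := by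
    rw [v_D, neg_neg]
  rw [h1]
  simp only [sub_neg_eq_add, mul_add, add_mul]
  abel

theorem as_eq_of_D_eq_zero (a b : A) (ha : asc x y a = 0) (hb : asc x y b = 0) :
    asc ((com x y) * (com x y)) a b = 0 := by
  have h := v_G x y a b
  rw [ha, hb] at h
  rw [as_mul_self₁, h]
  simp

omit x y in
/-- `(v^2, v a, b) = (v^2, a, b) v`. -/
theorem vv_mul_right (v a b : A) : asc (v * v) (v * a) b = asc (v * v) a b * v := by
  have h1 : v * (asc v a b * v) = (v * asc v a b) * v := by
    rw [assoc_eq, asc_flex, add_zero]
  rw [as_mul_self₁, as_mul_self₁, mouf1, h1, add_mul]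

omit x y in
/-- `(v^2, a v, b) = v (v^2, a, b)`. -/
theorem vv_mul_left (v a b : A) : asc (v * v) (a * v) b = v * asc (v * v) a b := by
  have h1 : (v * asc v a b) * v = v * (asc v a b * v) := by
    rw [assoc_eq, asc_flex, add_zero]
  rw [as_mul_self₁, as_mul_self₁, mouf2, h1, mul_add]

/-- `((v^2, a, b) v) v = 0`. -/
theorem vv_right (a b : A) : (asc ((com x y) * (com x y)) a b *
    (com x y)) * (com x y) = 0 := by
  have h0 : ∀ c : A, asc x y ((com x y) * c - asc x y c) = 0 := by
    intro c
    rw [asc_sub_right, D_vz, D_D, v_D]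
    abel
  have h := as_eq_of_D_eq_zero x y _ _ (h0 a) (h0 b)
  rw [asc_sub_mid, asc_sub_right, asc_sub_right, vv_D, vv_D, as_swap₂₃ _ ((com x y) * b) (asc x y a),
    vv_D, vv_mul_right, as_swap₂₃ _ ((com x y) * b) a, vv_mul_right,
    as_swap₂₃ _ a b] at h
  simp only [neg_mul, neg_neg, neg_zero, sub_zero] at h
  exact h

/-- `v (v (v^2, a, b)) = 0`. -/
theorem vv_left (a b : A) : (com x y) * ((com x y) *
    asc ((com x y) * (com x y)) a b) = 0 := by
  have h0 : ∀ c : A, asc x y (c * (com x y) + asc x y c) = 0 := by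
    intro c
    rw [asc_add_right, D_zv, D_D]
    abel
  have h := as_eq_of_D_eq_zero x y _ _ (h0 a) (h0 b)
  rw [asc_add_mid, asc_add_right, asc_add_right, vv_D, vv_D, as_swap₂₃ _ (b * (com x y)) (asc x y a),
    vv_D, vv_mul_left, as_swap₂₃ _ (b * (com x y)) a, vv_mul_left,
    as_swap₂₃ _ a b] at h
  simp only [mul_neg, neg_neg, neg_zero, add_zero] at h
  exact h

/-- Kleinfeld: `[x, y]^4` is in the nucleus. -/
theorem kleinfeld (a b : A) : asc (((com x y) * (com x y)) *
    ((com x y) * (com x y))) a b = 0 := by
  have h1 := vv_left x y a b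
  have h2 := vv_right x y a b
  set v := com x y
  rw [as_mul_self₁]
  have h3 : (v * v) * asc (v * v) a b = 0 := by
    rw [assoc_eq, asc_self_left, h1, add_zero]
  have h4 : asc (v * v) a b * (v * v) = 0 := by
    have h5 := assoc_eq (asc (v * v) a b) v v
    rw [asc_self_right, add_zero, h2] at h5
    exact h5.symm
  rw [h3, h4, add_zero]

theorem kleinfeld_nucleus : ((com x y) * (com x y)) * ((com x y) * (com x y)) ∈ nucleus A :=
  mem_nucleus_of_left (kleinfeld x y)

end kleinfeld

end

end ALT
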