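import Pool.Agent.ALT.S1a

/-!
# Project ALT (MP_643ad6_al), Step 1b (helper88)

The nucleus of an alternative ring: `[n, x] (y, b, c)` is alternating.
-/

set_option autoImplicit false

namespace ALT

section
variable {A : Type*} [NonUnitalNonAssocRing A]

/-- Elements of the nucleus of an alternative ring. -/
def IsNuc (m : A) : Prop := ∀ a b : A, asc m a b = 0

variable [IsAlt A] {m q : A}

theorem isNuc_iff : m ∈ nucleus A ↔ IsNuc m :=
  ⟨fun h a b => (h a b).1, fun h => mem_nucleus_of_left h⟩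

theorem IsNuc.as₁ (hm : IsNuc m) (a b : A) : asc m a b = 0 := hm a b

theorem IsNuc.as₂ (hm : IsNuc m) (a b : A) : asc a m b = 0 := by
  rw [as_swap₁₂ m a b, hm a b, neg_zero]

theorem IsNuc.as₃ (hm : IsNuc m) (a b : A) : asc a b m = 0 := by
  rw [as_cyc m a b, hm a b]

theorem IsNuc.mul₁ (hm : IsNuc m) (a b : A) : (m * a) * b = m * (a * b) := by
  rw [assoc_eq, hm.as₁, add_zero]

theorem IsNuc.mul₂ (hm : IsNuc m) (a b : A) : (a * m) * b = a * (m * b) := by
  rw [assoc_eq, hm.as₂, add_zero]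

theorem IsNuc.mul₃ (hm : IsNuc m) (a b : A) : (a * b) * m = a * (b * m) := by
  rw [assoc_eq, hm.as₃, add_zero]

omit [IsAlt A] in
theorem isNuc_zero : IsNuc (0 : A) := by
  intro a b
  exact asc_zero_left a b

omit [IsAlt A] in
theorem IsNuc.add (hm : IsNuc m) (hq : IsNuc q) : IsNuc (m + q) := by
  intro a b
  rw [asc_add_left, hm a b, hq a b, add_zero]

omit [IsAlt A] in
theorem IsNuc.neg (hm : IsNuc m) : IsNuc (-m) := by
  intro a b
  rw [asc_neg_left, hm a b, neg_zero]

omit [IsAlt A] in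
theorem IsNuc.sub (hm : IsNuc m) (hq : IsNuc q) : IsNuc (m - q) := by
  intro a b
  rw [asc_sub_left, hm a b, hq a b, sub_zero]

/-- `(m a, b, c) = m (a, b, c)`. -/
theorem IsNuc.as_mul₁ (hm : IsNuc m) (a b c : A) :
    asc (m * a) b c = m * asc a b c := by
  simp only [asc_def]
  rw [hm.mul₁ a b, hm.mul₁ (a * b) c, hm.mul₁ a (b * c), mul_sub]

/-- `(a, b, c m) = (a, b, c) m`. -/
theorem IsNuc.as_mul₃ (hm : IsNuc m) (a b c : A) :
    asc a b (c * m) = asc a b c * m := by
  simp only [asc_def]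
  rw [← hm.mul₃ b c, ← hm.mul₃ a (b * c), ← hm.mul₃ (a * b) c, sub_mul]

/-- `(a m, b, c) = m (a, b, c)`. -/
theorem IsNuc.as_mul_right (hm : IsNuc m) (a b c : A) :
    asc (a * m) b c = m * asc a b c := by
  have h := kf_swap12 a m b c
  have h1 : kf m a b c = 0 := by
    rw [← kf_pairs m a b c, kf_def, hm.as₂, hm.as₂, hm.as₂, mul_zero, zero_mul]
    simp
  rw [h1, neg_zero, kf_def, hm.as₁, zero_mul, sub_zero, sub_eq_zero] at h
  exact h

/-- Elements of the nucleus commute with ascs. -/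
theorem IsNuc.comm (hm : IsNuc m) (a b c : A) :
    m * asc a b c = asc a b c * m := by
  rw [← hm.as_mul_right, ← as_cyc (a * m) b c, hm.as_mul₃, as_cyc a b c]

theorem IsNuc.mul (hm : IsNuc m) (hq : IsNuc q) : IsNuc (m * q) := by
  intro a b
  rw [hm.as_mul₁, hq a b, mul_zero]

/-- `[N, A] ⊆ N`. -/
theorem IsNuc.ad (hm : IsNuc m) (x : A) : IsNuc (m * x - x * m) := by
  intro a b
  rw [asc_sub_left, hm.as_mul₁, hm.as_mul_right, sub_self]

/-- `[m, x y] = [m, x] y + x [m, y]`. -/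
theorem IsNuc.ad_mul (hm : IsNuc m) (x y : A) : m * (x * y) - (x * y) * m =
    (m * x - x * m) * y + x * (m * y - y * m) := by
  rw [sub_mul, mul_sub, hm.mul₁, hm.mul₂, hm.mul₃]
  abel

/-- `[m, x] (x, b, c) = 0`. -/
theorem IsNuc.ad_self (hm : IsNuc m) (x b c : A) : (m * x - x * m) * asc x b c = 0 := by
  have h1 : (m * x) * asc x b c = m * (x * asc x b c) := hm.mul₁ _ _
  have h2 : (x * m) * asc x b c = x * (m * asc x b c) := hm.mul₂ _ _
  have h3 : x * asc x b c = asc x (b * x) c := (mouf2 x b c).symm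
  have h4 : m * asc x b c = asc x (m * b) c := by
    rw [as_swap₁₂ (m * b) x c, hm.as_mul₁, as_swap₁₂ b x c, mul_neg]
  have h5 : m * asc x (b * x) c = asc x (m * (b * x)) c := by
    rw [as_swap₁₂ (m * (b * x)) x c, hm.as_mul₁, as_swap₁₂ (b * x) x c, mul_neg]
  rw [sub_mul, h1, h2, h3, h4, ← mouf2, h5, hm.mul₁, sub_self]

/-- `[m, a] (x, b, c) = - [m, x] (a, b, c)`. -/
theorem IsNuc.ad_swap (hm : IsNuc m) (x a b c : A) : (m * a - a * m) * asc x b c =
    -((m * x - x * m) * asc a b c) := by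
  have h := hm.ad_self (x + a) b c
  have h1 := hm.ad_self x b c
  have h2 := hm.ad_self a b c
  rw [asc_add_left] at h
  simp only [mul_add, add_mul, sub_mul] at h h1 h2 ⊢
  linear_combination (norm := abel) h - h1 - h2

/-- `[N, N]` kills the ascs. -/
theorem IsNuc.comm_comm (hm : IsNuc m) (hq : IsNuc q) (a b c : A) :
    (m * q - q * m) * asc a b c = 0 := by
  rw [hm.ad_swap a q b c, hq b c, mul_zero, neg_zero]

end

end ALT
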