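import Pool.Agent.ALT.Basic

/-!
Step 4a: identities for `D z = (p, q, z)` and `v = [p, q]` in any alternative ring.
-/

set_option linter.unusedSimpArgs false

namespace ALT

variable {B : Type*} [NonUnitalNonAssocRing B] [IsAlt B] (p q z : B)

@[simp] theorem asc_pq_pq : asc p q (p * q) = 0 := by
  rw [asc_mul_left₁, asc_self_right, zero_mul]
@[simp] theorem asc_pq_qp : asc p q (q * p) = 0 := by
  rw [asc_mul_left₂, asc_flex, zero_mul]

theorem D_right_pq : asc p q (z * (p * q)) = (q * p) * asc p q z := by
  have h1 : asc z p q = z * p * q - z * (p * q) := asc_def _ _ _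
  have h2 : asc z p q = asc p q z := asc_rot _ _ _
  have h3 : asc p q (z * p * q) = q * (p * asc p q z) := by
    rw [asc_mul_right₂, asc_mul_right₁]
  have h4 : asc q p (asc p q z) = q * p * asc p q z - q * (p * asc p q z) := asc_def _ _ _
  have h5 : asc q p (asc p q z) = - asc p q (asc p q z) := asc_swap12 _ _ _
  have h6 : z * (p * q) = z * p * q - asc p q z := by
    linear_combination (norm := abel) h1 - h2
  rw [h6, asc_sub_right, h3]
  linear_combination (norm := abel) h4 - h5

theorem D_right_qp : asc p q (z * (q * p)) = (p * q) * asc p q z := by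
  have h := D_right_pq q p z
  rw [asc_swap12 q p, asc_swap12 q p z] at h
  simpa using h

theorem D_left_pq : asc p q ((p * q) * z) = asc p q z * (q * p) := by
  have h1 : asc p q z = p * q * z - p * (q * z) := asc_def _ _ _
  have h3 : asc p q (p * (q * z)) = (asc p q z * q) * p := by
    rw [asc_mul_left₁, asc_mul_left₂]
  have h4 : asc (asc p q z) q p = asc p q z * q * p - asc p q z * (q * p) := asc_def _ _ _
  have h5 : asc (asc p q z) q p = - asc p q (asc p q z) := by
    rw [asc_rot, asc_swap12]
  have h6 : p * q * z = p * (q * z) + asc p q z := by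
    linear_combination (norm := abel) (-1 : ℤ) • h1
  rw [h6, asc_add_right, h3]
  linear_combination (norm := abel) h5 - h4

theorem D_left_qp : asc p q ((q * p) * z) = asc p q z * (p * q) := by
  have h := D_left_pq q p z
  rw [asc_swap12 q p, asc_swap12 q p z] at h
  simpa using h

theorem D_right_v : asc p q (z * com p q) = -(com p q * asc p q z) := by
  rw [com_def, mul_sub, asc_sub_right, D_right_pq, D_right_qp, sub_mul]
  abel

theorem D_left_v : asc p q (com p q * z) = -(asc p q z * com p q) := by
  rw [com_def, sub_mul, asc_sub_right, D_left_pq, D_left_qp, mul_sub]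
  abel

/-- `v ∘ (p,q,z) = 0` -/
theorem v_anti : com p q * asc p q z + asc p q z * com p q = 0 := by
  have h := asc_jordan p q z (p * q)
  rw [asc_add_right, D_right_pq, D_left_pq, asc_pq_pq, mul_zero, zero_mul, add_zero,
    zero_add] at h
  simp only [com_def, mul_sub, sub_mul]
  linear_combination (norm := abel) (-1 : ℤ) • h

theorem v_anti' : asc p q z * com p q = -(com p q * asc p q z) :=
  (neg_eq_of_add_eq_zero_right (v_anti p q z)).symm

/-- `(p,q,v z) = v (p,q,z)` -/
theorem D_left_v' : asc p q (com p q * z) = com p q * asc p q z := by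
  rw [D_left_v, v_anti', neg_neg]

/-- `(p,q,(p,q,z)) = [p,q] (p,q,z)` -/
theorem DD : asc p q (asc p q z) = com p q * asc p q z := by
  have h := kf_pair z (p * q) p q
  have h1 : kf z (p * q) p q = -(com p q * asc p q z) := by
    rw [kf_def, asc_rot (z * (p * q)) p q, asc_rot z p q, asc_rot (p * q) p q, asc_pq_pq,
      D_right_pq, zero_mul, sub_zero, com_def, sub_mul]
    abel
  have h2 : kf p q z (p * q) = - asc p q (asc p q z) := by
    have e1 : asc (p * q) z (p * q) = 0 := asc_flex _ _
    have e2 : asc p z (p * q) = -(asc p q z * p) := by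
      rw [asc_swap23, mouf1]
    have e3 : asc q z (p * q) = q * asc p q z := by
      rw [asc_swap23, mouf2, asc_swap12 q p z, mul_neg, neg_neg]
    have e4 : asc q (asc p q z) p = q * asc p q z * p - q * (asc p q z * p) := asc_def _ _ _
    have e5 : asc q (asc p q z) p = asc p q (asc p q z) := by
      rw [asc_rot, asc_rot]
    rw [kf_def, e1, e2, e3, mul_neg]
    linear_combination (norm := abel) e4 - e5
  rw [h1, h2] at h
  exact neg_injective h.symm

end ALT
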