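import Pool.Agent.ALT.S4a

/-!
Step 4b: central elements; decomposition `B = B_A ⊕ B_C` when `[p,q]^4` is central and invertible;
`Z/2`-grading.
-/

set_option linter.unusedSimpArgs false
set_option linter.unusedSectionVars false

namespace ALT

section central
variable {B : Type*} [NonUnitalNonAssocRing B]

/-- central element (commutes with everything and lies in the nucleus) of an alternative ring -/
structure Cen (s : B) : Prop where
  comm : ∀ x, s * x = x * s
  nuc : ∀ x y, asc s x y = 0

/-- left multiplication by an element of the left nucleus -/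
theorem nuc_asc_mul {n : B} (h : ∀ x y, asc n x y = 0) (x y z : B) :
    asc (n * x) y z = n * asc x y z := by
  have := teich n x y z
  rw [h, h, h, zero_mul, add_zero, sub_zero, add_zero] at this
  exact this

variable [IsAlt B] {s : B} (hs : Cen s)
include hs

theorem Cen.nuc2 (x y : B) : asc x s y = 0 := by rw [asc_swap12, hs.nuc, neg_zero]
theorem Cen.nuc3 (x y : B) : asc x y s = 0 := by rw [asc_rot', hs.nuc]

theorem Cen.mul_assoc1 (x y : B) : s * x * y = s * (x * y) := by
  have := hs.nuc x y
  rwa [asc_def, sub_eq_zero] at this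
theorem Cen.left_mul (x y : B) : x * (s * y) = s * (x * y) := by
  have := hs.nuc2 x y
  rw [asc_def, sub_eq_zero, ← hs.comm x, hs.mul_assoc1] at this
  exact this.symm

theorem Cen.asc1 (x y z : B) : asc (s * x) y z = s * asc x y z := nuc_asc_mul hs.nuc x y z
theorem Cen.asc2 (x y z : B) : asc x (s * y) z = s * asc x y z := by
  rw [asc_swap12, hs.asc1, asc_swap12 y x z, mul_neg, neg_neg]
theorem Cen.asc3 (x y z : B) : asc x y (s * z) = s * asc x y z := by
  rw [asc_swap13, hs.asc1, asc_swap13 z y x, mul_neg, neg_neg]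

end central

/-- Standing hypotheses of Step 4: `v = [p,q]`, `v^4` central with central inverse `d`. -/
structure Hyp {B : Type*} [NonAssocRing B] (p q d : B) : Prop where
  cc : Cen ((com p q * com p q) * (com p q * com p q))
  cd : Cen d
  inv : d * ((com p q * com p q) * (com p q * com p q)) = 1

variable {B : Type*} [NonAssocRing B] [IsAlt B]

/-- `B_A = Ker D` -/
def InA (p q x : B) : Prop := asc p q x = 0
/-- `B_C = Im D` -/
def InC (p q x : B) : Prop := ∃ y, x = asc p q y

theorem vv (v x : B) : v * (v * x) = (v * v) * x := (IsAlt.left v x).symm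

namespace Hyp
variable {p q d : B} (H : Hyp p q d)

theorem v4_mul (p q x : B) : com p q * (com p q * (com p q * (com p q * x))) =
    ((com p q * com p q) * (com p q * com p q)) * x := by
  rw [vv, vv (com p q) x, vv (com p q * com p q) x]

/-- the inverse of left multiplication by `v` -/
def vi (p q d : B) (x : B) : B := d * (com p q * (com p q * (com p q * x)))

include H in
theorem d_v4 (x : B) : d * (com p q * (com p q * (com p q * (com p q * x)))) = x := by
  rw [v4_mul, ← H.cd.mul_assoc1, H.inv, one_mul]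

include H in
theorem v_vi (x : B) : com p q * vi p q d x = x := by
  rw [vi, H.cd.left_mul, H.d_v4]

include H in
theorem vi_v (x : B) : vi p q d (com p q * x) = x := by
  rw [vi, H.d_v4]

include H in
theorem v_inj {x : B} (h : com p q * x = 0) : x = 0 := by
  rw [← H.vi_v x, h, vi, mul_zero, mul_zero, mul_zero, mul_zero]

/-! closure properties -/

theorem inA_add {x y : B} (hx : InA p q x) (hy : InA p q y) : InA p q (x + y) := by
  unfold InA at *; rw [asc_add_right, hx, hy, add_zero]
theorem inA_sub {x y : B} (hx : InA p q x) (hy : InA p q y) : InA p q (x - y) := by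
  unfold InA at *; rw [asc_sub_right, hx, hy, sub_zero]
theorem inA_neg {x : B} (hx : InA p q x) : InA p q (-x) := by
  unfold InA at *; rw [asc_neg_right, hx, neg_zero]
theorem inA_zero : InA p q (0 : B) := asc_zero_right _ _
theorem inA_p : InA p q p := asc_flex _ _
theorem inA_q : InA p q q := asc_self_right _ _
theorem inA_v : InA p q (com p q) := by
  unfold InA; rw [com_def, asc_sub_right, asc_pq_pq, asc_pq_qp, sub_zero]
theorem inC_add {x y : B} (hx : InC p q x) (hy : InC p q y) : InC p q (x + y) := by
  obtain ⟨a, rfl⟩ := hx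
  obtain ⟨b, rfl⟩ := hy
  exact ⟨a + b, (asc_add_right _ _ _ _).symm⟩
theorem inC_sub {x y : B} (hx : InC p q x) (hy : InC p q y) : InC p q (x - y) := by
  obtain ⟨a, rfl⟩ := hx
  obtain ⟨b, rfl⟩ := hy
  exact ⟨a - b, (asc_sub_right _ _ _ _).symm⟩
theorem inC_neg {x : B} (hx : InC p q x) : InC p q (-x) := by
  obtain ⟨a, rfl⟩ := hx
  exact ⟨-a, (asc_neg_right _ _ _).symm⟩
theorem inC_zero : InC p q (0 : B) := ⟨0, (asc_zero_right _ _).symm⟩
theorem inC_D (x : B) : InC p q (asc p q x) := ⟨x, rfl⟩

theorem inA_p_mul {x : B} (hx : InA p q x) : InA p q (p * x) := by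
  unfold InA at *; rw [asc_mul_left₁, hx, zero_mul]
theorem inA_mul_p {x : B} (hx : InA p q x) : InA p q (x * p) := by
  unfold InA at *; rw [asc_mul_right₁, hx, mul_zero]
theorem inA_q_mul {x : B} (hx : InA p q x) : InA p q (q * x) := by
  unfold InA at *; rw [asc_mul_left₂, hx, zero_mul]
theorem inA_mul_q {x : B} (hx : InA p q x) : InA p q (x * q) := by
  unfold InA at *; rw [asc_mul_right₂, hx, mul_zero]
theorem inA_v_mul {x : B} (hx : InA p q x) : InA p q (com p q * x) := by
  unfold InA at *; rw [D_left_v, hx, zero_mul, neg_zero]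
theorem inA_mul_v {x : B} (hx : InA p q x) : InA p q (x * com p q) := by
  unfold InA at *; rw [D_right_v, hx, mul_zero, neg_zero]
include H in
theorem inA_d_mul {x : B} (hx : InA p q x) : InA p q (d * x) := by
  unfold InA at *; rw [H.cd.asc3, hx, mul_zero]

theorem inC_p_mul {x : B} (hx : InC p q x) : InC p q (p * x) := by
  obtain ⟨a, rfl⟩ := hx
  exact ⟨a * p, (asc_mul_right₁ _ _ _).symm⟩
theorem inC_mul_p {x : B} (hx : InC p q x) : InC p q (x * p) := by
  obtain ⟨a, rfl⟩ := hx
  exact ⟨p * a, (asc_mul_left₁ _ _ _).symm⟩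
theorem inC_q_mul {x : B} (hx : InC p q x) : InC p q (q * x) := by
  obtain ⟨a, rfl⟩ := hx
  exact ⟨a * q, (asc_mul_right₂ _ _ _).symm⟩
theorem inC_mul_q {x : B} (hx : InC p q x) : InC p q (x * q) := by
  obtain ⟨a, rfl⟩ := hx
  exact ⟨q * a, (asc_mul_left₂ _ _ _).symm⟩
theorem inC_v_mul {x : B} (hx : InC p q x) : InC p q (com p q * x) := by
  obtain ⟨a, rfl⟩ := hx
  exact ⟨com p q * a, (D_left_v' _ _ _).symm⟩
theorem inC_mul_v {x : B} (hx : InC p q x) : InC p q (x * com p q) := by
  obtain ⟨a, rfl⟩ := hx
  rw [v_anti']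
  exact inC_neg (inC_v_mul (inC_D a))
include H in
theorem inC_d_mul {x : B} (hx : InC p q x) : InC p q (d * x) := by
  obtain ⟨a, rfl⟩ := hx
  exact ⟨d * a, (H.cd.asc3 _ _ _).symm⟩

include H in
theorem inA_vi {x : B} (hx : InA p q x) : InA p q (vi p q d x) :=
  H.inA_d_mul (inA_v_mul (inA_v_mul (inA_v_mul hx)))
include H in
theorem inC_vi {x : B} (hx : InC p q x) : InC p q (vi p q d x) :=
  H.inC_d_mul (inC_v_mul (inC_v_mul (inC_v_mul hx)))

/-- on `B_C`, `D w = v w` -/
theorem D_inC {w : B} (hw : InC p q w) : asc p q w = com p q * w := by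
  obtain ⟨a, rfl⟩ := hw
  exact DD p q a
/-- on `B_C`, `w v = - v w` -/
theorem inC_v {w : B} (hw : InC p q w) : w * com p q = -(com p q * w) := by
  obtain ⟨a, rfl⟩ := hw
  exact v_anti' p q a

/-- projection to `B_C` -/
def pC (p q d : B) (x : B) : B := vi p q d (asc p q x)
/-- projection to `B_A` -/
def pA (p q d : B) (x : B) : B := x - pC p q d x

theorem vi_add (x y : B) : vi p q d (x + y) = vi p q d x + vi p q d y := by
  simp only [vi, mul_add]
theorem vi_sub (x y : B) : vi p q d (x - y) = vi p q d x - vi p q d y := by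
  simp only [vi, mul_sub]
theorem vi_neg (x : B) : vi p q d (-x) = -vi p q d x := by
  simp only [vi, mul_neg]
theorem vi_zero : vi p q d (0 : B) = 0 := by simp only [vi, mul_zero]

theorem pC_add (x y : B) : pC p q d (x + y) = pC p q d x + pC p q d y := by
  simp only [pC, asc_add_right, vi_add]
theorem pC_sub (x y : B) : pC p q d (x - y) = pC p q d x - pC p q d y := by
  simp only [pC, asc_sub_right, vi_sub]
theorem pC_neg (x : B) : pC p q d (-x) = -pC p q d x := by
  simp only [pC, asc_neg_right, vi_neg]
theorem pA_add (x y : B) : pA p q d (x + y) = pA p q d x + pA p q d y := by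
  simp only [pA, pC_add]; abel
theorem pA_sub (x y : B) : pA p q d (x - y) = pA p q d x - pA p q d y := by
  simp only [pA, pC_sub]; abel
theorem pA_neg (x : B) : pA p q d (-x) = -pA p q d x := by
  simp only [pA, pC_neg]; abel

include H in
theorem inC_pC (x : B) : InC p q (pC p q d x) := H.inC_vi (inC_D x)

include H in
theorem D_pC (x : B) : asc p q (pC p q d x) = asc p q x := by
  rw [D_inC (H.inC_pC x), pC, H.v_vi]

include H in
theorem inA_pA (x : B) : InA p q (pA p q d x) := by
  unfold InA; rw [pA, asc_sub_right, H.D_pC, sub_self]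

theorem pA_add_pC (x : B) : pA p q d x + pC p q d x = x := by
  rw [pA]; abel

include H in
theorem pC_of_inC {w : B} (hw : InC p q w) : pC p q d w = w := by
  rw [pC, D_inC hw, H.vi_v]
theorem pC_of_inA {x : B} (hx : InA p q x) : pC p q d x = 0 := by
  unfold InA at hx; rw [pC, hx, vi_zero]
theorem pA_of_inA {x : B} (hx : InA p q x) : pA p q d x = x := by
  rw [pA, pC_of_inA hx, sub_zero]
include H in
theorem pA_of_inC {w : B} (hw : InC p q w) : pA p q d w = 0 := by
  rw [pA, H.pC_of_inC hw, sub_self]
include H in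
theorem inC_of_pA {x : B} (hx : pA p q d x = 0) : InC p q x := by
  have := H.inC_pC x
  rw [pA, sub_eq_zero] at hx
  rwa [← hx] at this
theorem inA_of_pC {x : B} (hx : pC p q d x = 0) (H : Hyp p q d) : InA p q x := by
  have := H.inA_pA x
  rwa [pA, hx, sub_zero] at this

include H in
theorem pA_v_mul (x : B) : pA p q d (com p q * x) = com p q * pA p q d x := by
  have h1 : com p q * x = com p q * pA p q d x + com p q * pC p q d x := by
    rw [← mul_add, pA_add_pC]
  rw [h1, pA_add, pA_of_inA (inA_v_mul (H.inA_pA x)), H.pA_of_inC (inC_v_mul (H.inC_pC x)),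
    add_zero]

end Hyp

end ALT
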