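import Pool.Agent.ALT.S4b

/-!
Step 4c: the `Z/2`-grading `B = B_A ⊕ B_C`.
-/

set_option linter.unusedSimpArgs false
set_option linter.unusedSectionVars false

namespace ALT
namespace Hyp

variable {B : Type*} [NonAssocRing B] [IsAlt B] {p q d : B} (H : Hyp p q d)

theorem kf_AA {z z' : B} (hz : InA p q z) (hz' : InA p q z') :
    kf z z' p q = asc p q (z * z') := by
  have h1 : asc z p q = 0 := by rw [asc_rot]; exact hz
  have h2 : asc z' p q = 0 := by rw [asc_rot]; exact hz'
  rw [kf_def, asc_rot, h1, h2, mul_zero, zero_mul, sub_zero, sub_zero]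

theorem D_v_mul_mul {z z' : B} (hz : InA p q z) (hz' : InA p q z') :
    asc p q ((com p q * z) * z') = 0 := by
  have h1 := kf_AA hz hz'
  have h2 := kf_AA hz' hz
  have h3 := kf_swap12 z z' p q
  have h4 := kf_pair z z' p q
  have h5 := kf_eq p q z z'
  have h6 : asc (com z z') p q = asc p q (z * z') - asc p q (z' * z) := by
    rw [asc_rot, com_def, asc_sub_right]
  have h7 : asc (com p q) z z' = - asc p q (z * z') := by
    rw [h1, h2] at h3
    rw [h1, h5, h6] at h4
    linear_combination (norm := abel) (-1 : ℤ) • h4 + h3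
  have h8 : asc (com p q) z z' = com p q * z * z' - com p q * (z * z') := asc_def _ _ _
  have h9 : com p q * z * z' = asc (com p q) z z' + com p q * (z * z') := by
    rw [h8]; abel
  rw [h9, asc_add_right, h7, asc_neg_right, DD, D_left_v']
  abel

include H in
/-- `B_A B_A ⊆ B_A` -/
theorem inA_mul {z z' : B} (hz : InA p q z) (hz' : InA p q z') : InA p q (z * z') := by
  have h := D_v_mul_mul (H.inA_vi hz) hz'
  rwa [H.v_vi] at h

theorem kf_AC {z w : B} (hz : InA p q z) :
    kf z w p q = asc p q (z * w) - asc p q w * z := by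
  have h1 : asc z p q = 0 := by rw [asc_rot]; exact hz
  rw [kf_def, asc_rot (z * w), asc_rot w, h1, mul_zero, sub_zero]

theorem kf_CA {z w : B} (hz : InA p q z) :
    kf w z p q = asc p q (w * z) - z * asc p q w := by
  have h1 : asc z p q = 0 := by rw [asc_rot]; exact hz
  rw [kf_def, asc_rot (w * z), asc_rot w, h1, zero_mul, sub_zero]

include H in
theorem pA_anti {z w : B} (hz : InA p q z) (hw : InC p q w) :
    pA p q d (z * w) + pA p q d (w * z) = 0 := by
  have key : ∀ w', InC p q w' → pA p q d (z * asc p q w') + pA p q d (asc p q w' * z) = 0 := by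
    intro w' _
    have h1 := kf_AC (w := w') hz
    have h2 := kf_CA (w := w') hz
    have h3 := kf_swap12 z w' p q
    rw [h1, h2] at h3
    have h4 : asc p q (z * w') + asc p q (w' * z) = z * asc p q w' + asc p q w' * z := by
      linear_combination (norm := abel) h3
    rw [← pA_add, ← h4, pA_add, H.pA_of_inC (inC_D _), H.pA_of_inC (inC_D _), add_zero]
  have := key _ (H.inC_vi hw)
  rwa [D_inC (H.inC_vi hw), H.v_vi] at this

include H in
theorem pA_v_mul_mul {z w : B} (hz : InA p q z) (hw : InC p q w) :
    pA p q d ((com p q * z) * w) = 0 := by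
  have h1 := kf_AC (w := w) hz
  have h4 := kf_pair z w p q
  have h5 := kf_eq p q z w
  have h6 : asc (com z w) p q = asc p q (z * w) - asc p q (w * z) := by
    rw [asc_rot, com_def, asc_sub_right]
  have h7 : asc (com p q) z w = asc p q (w * z) - asc p q w * z := by
    rw [h1, h5, h6] at h4
    linear_combination (norm := abel) (-1 : ℤ) • h4
  have h8 : asc (com p q) z w = w * com p q * z - w * (com p q * z) := by
    rw [asc_rot', asc_def]
  -- project to `B_A`
  have h9 : pA p q d (asc (com p q) z w) = pA p q d (z * (com p q * w)) := by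
    rw [h7, pA_sub, H.pA_of_inC (inC_D _), zero_sub, D_inC hw]
    have := H.pA_anti hz (inC_v_mul hw)
    rw [← eq_neg_iff_add_eq_zero] at this
    exact this.symm
  rw [h8, inC_v hw, neg_mul, pA_sub, pA_neg] at h9
  have e1 := H.pA_anti hz (inC_v_mul hw)
  have e2 := H.pA_anti (inA_v_mul hz) hw
  linear_combination (norm := abel) h9 + e1 + e2

include H in
/-- `B_A B_C ⊆ B_C` -/
theorem inC_mulAC {z w : B} (hz : InA p q z) (hw : InC p q w) : InC p q (z * w) := by
  have h := H.pA_v_mul_mul (H.inA_vi hz) hw
  rw [H.v_vi] at h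
  exact H.inC_of_pA h

include H in
/-- `B_C B_A ⊆ B_C` -/
theorem inC_mulCA {z w : B} (hw : InC p q w) (hz : InA p q z) : InC p q (w * z) := by
  have h := H.pA_anti hz hw
  rw [H.pA_of_inC (H.inC_mulAC hz hw), zero_add] at h
  exact H.inC_of_pA h

include H in
/-- `B_C B_C ⊆ B_A` -/
theorem inA_mulCC {w w' : B} (hw : InC p q w) (hw' : InC p q w') : InA p q (w * w') := by
  have key : ∀ w w', InC p q w → InC p q w' → asc p q (w * (com p q * w')) = 0 := by
    intro w w' hw hw'
    have h1 : kf w w' p q = asc p q (w * w') - w' * (com p q * w) - (com p q * w') * w := by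
      rw [kf_def, asc_rot (w * w'), asc_rot w, asc_rot w', D_inC hw, D_inC hw']
    have h4 := kf_pair w w' p q
    have h5 := kf_eq p q w w'
    have h6 : asc (com w w') p q = asc p q (w * w') - asc p q (w' * w) := by
      rw [asc_rot, com_def, asc_sub_right]
    have h7 : asc (com p q) w w' = asc p q (w' * w) - w' * (com p q * w)
        - (com p q * w') * w := by
      rw [h1, h5, h6] at h4
      linear_combination (norm := abel) (-1 : ℤ) • h4
    have h8 : asc (com p q) w w' = com p q * w * w' - com p q * (w * w') := asc_def _ _ _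
    rw [h8] at h7
    have h9 := congrArg (fun x => asc p q x) h7
    simp only [asc_sub_right, D_left_v', DD] at h9
    have e1 := asc_jordan p q w w'
    rw [D_inC hw, D_inC hw'] at e1
    have e2 := congrArg (fun x => asc p q x) e1
    simp only [asc_add_right, DD, D_left_v'] at e2
    linear_combination (norm := abel) (-1 : ℤ) • h9 - e2
  have := key w (vi p q d w') hw (H.inC_vi hw')
  rwa [H.v_vi] at this

end Hyp
end ALT
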