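import Pool.Agent.ALT.S4c

/-!
Step 4d: `(Q, B_A, B_A) = 0` and `B_A` is associative.
-/

set_option linter.unusedSimpArgs false
set_option linter.unusedSectionVars false

namespace ALT
namespace Hyp

variable {B : Type*} [NonAssocRing B] [IsAlt B] {p q d : B} (H : Hyp p q d)

theorem com_swap' (p q : B) : com q p * com q p = com p q * com p q := by
  rw [com_swap q p, neg_mul, mul_neg, neg_neg]

include H in
theorem symm : Hyp q p d := by
  refine ⟨?_, H.cd, ?_⟩
  · rw [com_swap' p q]; exact H.cc
  · rw [com_swap' p q]; exact H.inv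

theorem inA_symm {x : B} (h : InA p q x) : InA q p x := by
  unfold InA at *; rw [asc_swap12, h, neg_zero]
theorem inC_symm {x : B} (h : InC p q x) : InC q p x := by
  obtain ⟨y, rfl⟩ := h
  exact ⟨-y, by rw [asc_neg_right, asc_swap12 q p y, neg_neg]⟩

include H in
theorem mul_v_inj {x : B} (h : x * com p q = 0) : x = 0 := by
  have h1 : x * (com p q * com p q) = 0 := by
    rw [← IsAlt.right, h, zero_mul]
  have h2 : x * ((com p q * com p q) * (com p q * com p q)) = 0 := by
    rw [← IsAlt.right, h1, zero_mul]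
  rw [← H.cc.comm] at h2
  rw [← one_mul x, ← H.inv, H.cd.mul_assoc1, h2, mul_zero]

/-- condition `(b, a, B_A) = 0` -/
def PP (p q b a : B) : Prop := ∀ y, InA p q y → asc b a y = 0

theorem PP.symm {b a : B} (h : PP p q b a) : PP p q a b := fun y hy => by
  rw [asc_swap12, h y hy, neg_zero]

include H in
theorem kf_PP {b a z z' : B} (h : PP p q b a) (hz : InA p q z) (hz' : InA p q z') :
    kf b a z z' = 0 := by
  rw [kf_pair, kf_def, asc_rot (z * z') b a, h _ (H.inA_mul hz hz'), asc_rot z b a, h _ hz,
    asc_rot z' b a, h _ hz', mul_zero, zero_mul, sub_zero, sub_zero]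

include H in
theorem K1 {b a z z' : B} (h : PP p q b a) (hz : InA p q z) (hz' : InA p q z') :
    asc (b * a) z z' = a * asc b z z' + asc a z z' * b := by
  have := H.kf_PP h hz hz'
  rw [kf_def] at this
  linear_combination (norm := abel) this

include H in
theorem K2 {b a z z' : B} (h : PP p q b a) (hz : InA p q z) (hz' : InA p q z') :
    asc (b * a) z z' = b * asc a z z' + asc b z z' * a := by
  have h1 := teich b a z z'
  rw [h _ (H.inA_mul hz hz'), h _ hz, zero_mul, add_zero, add_zero] at h1
  have h2 : kf a z b z' = 0 := by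
    rw [kf_swap23, H.kf_PP h.symm hz hz', neg_zero]
  rw [kf_def, h.symm _ hz', mul_zero, sub_zero, asc_swap12 (a * z) b z', asc_swap12 z b z',
    neg_mul] at h2
  linear_combination (norm := abel) h1 - h2

include H in
theorem asc_com_PP {b a z z' : B} (h : PP p q b a) (hz : InA p q z) (hz' : InA p q z') :
    asc (com b a) z z' = 0 := by
  rw [com_def, asc_sub_left, H.K2 h hz hz', H.K1 h.symm hz hz', sub_self]

theorem PP_pq : PP p q p q := fun _ hy => hy
theorem PP_p_pq : PP p q p (p * q) := fun y hy => by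
  rw [mouf1]; unfold InA at hy; rw [hy, zero_mul]
theorem PP_p_qp : PP p q p (q * p) := fun y hy => by
  rw [mouf2]; unfold InA at hy; rw [hy, mul_zero]
theorem PP_p_v : PP p q p (com p q) := fun y hy => by
  rw [com_def, asc_sub_mid, PP_p_pq y hy, PP_p_qp y hy, sub_zero]

theorem com_p_pq (p q : B) : com p (p * q) = p * com p q := by
  rw [com_def, com_def, mul_sub, flex]

include H in
/-- `(p, B_A, B_A) = 0` -/
theorem asc_p {z z' : B} (hz : InA p q z) (hz' : InA p q z') : asc p z z' = 0 := by
  have h1 := H.asc_com_PP PP_p_pq hz hz'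
  have h2 := H.K2 PP_p_v hz hz'
  rw [com_p_pq] at h1
  rw [h1, H.asc_com_PP PP_pq hz hz', mul_zero, zero_add] at h2
  exact H.mul_v_inj h2.symm

include H in
/-- `(q, B_A, B_A) = 0` -/
theorem asc_q {z z' : B} (hz : InA p q z) (hz' : InA p q z') : asc q z z' = 0 :=
  H.symm.asc_p (inA_symm hz) (inA_symm hz')

include H in
theorem inA_asc {x y z : B} (hx : InA p q x) (hy : InA p q y) (hz : InA p q z) :
    InA p q (asc x y z) := by
  rw [asc_def]
  exact inA_sub (H.inA_mul (H.inA_mul hx hy) hz) (H.inA_mul hx (H.inA_mul hy hz))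

include H in
theorem nuc_left {a x y z : B} (ha : ∀ z z', InA p q z → InA p q z' → asc a z z' = 0)
    (hx : InA p q x) (hy : InA p q y) (hz : InA p q z) :
    a * asc x y z = asc (a * x) y z := by
  have h := teich a x y z
  rw [ha _ _ (H.inA_mul hx hy) hz, ha _ _ hx (H.inA_mul hy hz), ha _ _ hx hy, zero_mul,
    add_zero, add_zero, sub_zero] at h
  exact h.symm

include H in
theorem nuc_mid {a x y z : B} (ha : ∀ z z', InA p q z → InA p q z' → asc a z z' = 0)
    (hx : InA p q x) (hy : InA p q y) (hz : InA p q z) :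
    a * asc x y z = asc x (a * y) z := by
  rw [asc_swap12 x (a * y) z, ← H.nuc_left ha hy hx hz, asc_swap12 y x z, mul_neg, neg_neg]

include H in
/-- `B_A` is an associative subring. -/
theorem assocA {x y z : B} (hx : InA p q x) (hy : InA p q y) (hz : InA p q z) :
    asc x y z = 0 := by
  have hp : ∀ z z', InA p q z → InA p q z' → asc p z z' = 0 := fun z z' => H.asc_p
  have hq : ∀ z z', InA p q z → InA p q z' → asc q z z' = 0 := fun z z' => H.asc_q
  have hm := H.inA_asc hx hy hz
  have e1 : p * q * asc x y z = asc (p * x) (q * y) z := by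
    have h0 : asc p q (asc x y z) = 0 := hm
    rw [asc_def, sub_eq_zero] at h0
    rw [h0, H.nuc_mid hq hx hy hz, H.nuc_left hp hx (inA_q_mul hy) hz]
  have e2 : q * p * asc x y z = asc (p * x) (q * y) z := by
    have h0 : asc q p (asc x y z) = 0 := inA_symm hm
    rw [asc_def, sub_eq_zero] at h0
    rw [h0, H.nuc_left hp hx hy hz, H.nuc_mid hq (inA_p_mul hx) hy hz]
  apply H.v_inj
  rw [com_def, sub_mul, e1, e2, sub_self]

include H in
theorem mul_assocA {x y z : B} (hx : InA p q x) (hy : InA p q y) (hz : InA p q z) :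
    x * y * z = x * (y * z) := by
  have := H.assocA hx hy hz
  rwa [asc_def, sub_eq_zero] at this

theorem inA_pq : InA p q (p * q) := asc_pq_pq _ _
theorem inA_qp : InA p q (q * p) := asc_pq_qp _ _

end Hyp
end ALT
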