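import Pool.Agent.ALT.S4d

/-!
Step 4e: `B_A` acts antimultiplicatively on `B_C`: `z' (z w) = (z z') w`.
-/

set_option linter.unusedSimpArgs false
set_option linter.unusedSectionVars false

namespace ALT

/-- defect of antimultiplicativity -/
def del {B : Type*} [NonUnitalNonAssocRing B] (x y w : B) : B := y * (x * w) - (x * y) * w

section del
variable {B : Type*} [NonUnitalNonAssocRing B]

theorem del_def (x y w : B) : del x y w = y * (x * w) - (x * y) * w := rfl
theorem del_sub_right (x y y' w : B) : del x (y - y') w = del x y w - del x y' w := by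
  simp only [del_def, mul_sub, sub_mul]; abel
theorem del_sub_left (x x' y w : B) : del (x - x') y w = del x y w - del x' y w := by
  simp only [del_def, mul_sub, sub_mul]; abel
theorem del_sub_w (x y w w' : B) : del x y (w - w') = del x y w - del x y w' := by
  simp only [del_def, mul_sub]; abel

theorem del_swap [IsAlt B] (x y w : B) : del x y w = -del y x w := by
  have h := left_alt' x y w
  simp only [del_def, add_mul] at *
  linear_combination (norm := abel) (-1 : ℤ) • h

theorem del_coc {x y z : B} (h : asc x y z = 0) (w : B) :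
    del x (y * z) w = del (x * y) z w - del y z (x * w) + z * del x y w := by
  rw [asc_def, sub_eq_zero] at h
  simp only [del_def, h, mul_sub]
  abel
end del

namespace Hyp

variable {B : Type*} [NonAssocRing B] [IsAlt B] {p q d : B} (H : Hyp p q d)

theorem qpw {w : B} (hw : InC p q w) : q * (p * w) = (p * q) * w := by
  have h1 := D_inC hw
  have h2 : asc q p w = q * p * w - q * (p * w) := asc_def _ _ _
  rw [asc_swap12, h1, com_def, sub_mul] at h2
  linear_combination (norm := abel) h2

theorem pqw {w : B} (hw : InC p q w) : p * (q * w) = (q * p) * w :=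
  qpw (inC_symm hw)

/-- good pair -/
structure GP (p q a b : B) : Prop where
  ha : InA p q a
  hb : InA p q b
  h1 : ∀ w, InC p q w → b * (a * w) = (a * b) * w
  h2 : ∀ w, InC p q w → a * (b * w) = (b * a) * w

theorem GP.symm {a b : B} (h : GP p q a b) : GP p q b a := ⟨h.hb, h.ha, h.h2, h.h1⟩

theorem GP.asc {a b : B} (h : GP p q a b) {w : B} (hw : InC p q w) :
    asc a b w = com a b * w := by
  rw [asc_def, h.h2 w hw, com_def, sub_mul]

theorem GP_pq : GP p q p q := ⟨inA_p, inA_q, fun _ hw => qpw hw, fun _ hw => pqw hw⟩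

theorem GP_p_pq : GP p q p (p * q) := by
  have h2 : ∀ w, InC p q w → p * ((p * q) * w) = ((p * q) * p) * w := by
    intro w hw
    rw [← qpw hw, moufang_left]
  refine ⟨inA_p, inA_pq, ?_, h2⟩
  intro w hw
  have h := left_alt' p (p * q) w
  rw [h2 w hw, add_mul] at h
  exact (add_right_cancel (by rw [h]; abel)).symm

theorem GP_p_qp : GP p q p (q * p) := by
  have h1 : ∀ w, InC p q w → (q * p) * (p * w) = (p * (q * p)) * w := by
    intro w hw
    rw [← pqw (inC_p_mul hw), ← flex, moufang_left]
  refine ⟨inA_p, inA_qp, h1, ?_⟩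
  intro w hw
  have h := left_alt' p (q * p) w
  rw [h1 w hw, add_mul] at h
  exact (add_left_cancel (by rw [h]; abel)).symm

theorem GP_p_v : GP p q p (com p q) := by
  refine ⟨inA_p, inA_v, ?_, ?_⟩
  · intro w hw
    rw [com_def, sub_mul, GP_p_pq.h1 w hw, GP_p_qp.h1 w hw, mul_sub, sub_mul]
  · intro w hw
    rw [com_def, sub_mul, mul_sub, GP_p_pq.h2 w hw, GP_p_qp.h2 w hw, sub_mul, sub_mul]

include H in
theorem E1 {a b z w : B} (h : GP p q a b) (hz : InA p q z) (hw : InC p q w) :
    del z (a * b) w = del z a (b * w) + a * del z b w := by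
  have h1 : kf z a b w = kf z w a b := by
    rw [kf_swap34, kf_swap23, neg_neg]
  have hzw := H.inC_mulAC hz hw
  have h2 : kf z w a b = com a b * (z * w) - (com a b * w) * z := by
    rw [kf_def, asc_rot (z * w) a b, asc_rot w a b, h.asc hzw, h.asc hw, H.assocA hz h.ha h.hb,
      mul_zero, sub_zero]
  have h3 : kf z a b w = asc (z * a) b w - a * asc z b w - (com a b * w) * z := by
    rw [kf_def, h.asc hw]
  have h4 : asc (z * a) b w = a * asc z b w + com a b * (z * w) := by
    linear_combination (norm := abel) h1 + h2 - h3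
  have h5 : z * a * b = z * (a * b) := H.mul_assocA hz h.ha h.hb
  have h6 := h.h2 _ hzw
  rw [asc_def, asc_def, h5, com_def, sub_mul, ← h6, mul_sub] at h4
  simp only [del_def, mul_sub]
  linear_combination (norm := abel) (-1 : ℤ) • h4

include H in
theorem E2 {a b z w : B} (h : GP p q a b) (hz : InA p q z) (hw : InC p q w) :
    del z (a * b) w = del (z * a) b w + b * del z a w := by
  rw [del_coc (H.assocA hz h.ha h.hb) w]
  have : del a b (z * w) = 0 := by
    rw [del_def, h.h1 _ (H.inC_mulAC hz hw), sub_self]
  rw [this, sub_zero]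

include H in
theorem E5 {a b z w : B} (h : GP p q a b) (hz : InA p q z) (hw : InC p q w) :
    del (a * z) b w = a * del z b w := by
  have e3 := del_coc (H.assocA h.ha hz h.hb) w
  have e2 := H.E2 h.symm hz hw
  have e1 := H.E1 h.symm hz hw
  have s1 := del_swap (z * b) a w
  have s2 := del_swap a z w
  rw [s2, mul_neg] at e3
  linear_combination (norm := abel) (-1 : ℤ) • e3 + e2 - e1 + s1

include H in
theorem E6 {a b z w : B} (h : GP p q a b) (hz : InA p q z) (hw : InC p q w) :
    del z (com a b) w = 0 := by
  have e4 := del_coc (H.assocA h.hb h.ha hz) w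
  have h0 : del b a w = 0 := by rw [del_def, h.h2 w hw, sub_self]
  have e5 := H.E5 h hz hw
  have e1 := H.E1 h hz hw
  have s1 := del_swap b (a * z) w
  have s2 := del_swap (b * a) z w
  have s3 := del_swap a z (b * w)
  rw [h0, mul_zero, add_zero] at e4
  rw [com_def, del_sub_right]
  linear_combination (norm := abel) e1 - e4 - e5 + s1 - s2 + s3

end Hyp
end ALT
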