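import Pool.Agent.ALT.S4e

/-!
Step 4f: antimultiplicativity of both actions of `B_A` on `B_C`.
-/

set_option linter.unusedSimpArgs false
set_option linter.unusedSectionVars false

namespace ALT
namespace Hyp

section left
variable {B : Type*} [NonAssocRing B] [IsAlt B] {p q d : B} (H : Hyp p q d)

include H in
theorem del_p {z w : B} (hz : InA p q z) (hw : InC p q w) : del z p w = 0 := by
  have key : ∀ w', InC p q w' → del z p (com p q * w') = 0 := by
    intro w' hw'
    have h1 := H.E6 GP_p_pq hz hw'
    have h2 := H.E6 GP_pq hz hw'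
    have h3 := H.E1 GP_p_v hz hw'
    rw [com_p_pq] at h1
    rw [h1, h2, mul_zero, add_zero] at h3
    exact h3.symm
  have := key _ (H.inC_vi hw)
  rwa [H.v_vi] at this

include H in
theorem del_q {z w : B} (hz : InA p q z) (hw : InC p q w) : del z q w = 0 :=
  H.symm.del_p (inA_symm hz) (inC_symm hw)

/-- `a ∈ {p, q}`-type elements -/
structure QQe (p q a : B) : Prop where
  ha : InA p q a
  l : ∀ z w, InA p q z → InC p q w → a * (z * w) = (z * a) * w
  r : ∀ z w, InA p q z → InC p q w → z * (a * w) = (a * z) * w

include H in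
theorem QQe_p : QQe p q p := by
  refine ⟨inA_p, ?_, ?_⟩
  · intro z w hz hw
    have := H.del_p hz hw
    rwa [del_def, sub_eq_zero] at this
  · intro z w hz hw
    have := H.del_p hz hw
    rw [del_swap, del_def, neg_eq_zero, sub_eq_zero] at this
    exact this

include H in
theorem QQe_q : QQe p q q := by
  refine ⟨inA_q, ?_, ?_⟩
  · intro z w hz hw
    have := H.del_q hz hw
    rwa [del_def, sub_eq_zero] at this
  · intro z w hz hw
    have := H.del_q hz hw
    rw [del_swap, del_def, neg_eq_zero, sub_eq_zero] at this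
    exact this

include H in
theorem F1 {a z z' w : B} (h : QQe p q a) (hz : InA p q z) (hz' : InA p q z')
    (hw : InC p q w) : del z (z' * a) w = a * del z z' w := by
  rw [del_def, del_def, ← h.l z' _ hz' (H.inC_mulAC hz hw), ← H.mul_assocA hz hz' h.ha,
    ← h.l _ w (H.inA_mul hz hz') hw, mul_sub]

include H in
theorem F2 {a z z' w : B} (h : QQe p q a) (hz : InA p q z) (hz' : InA p q z')
    (hw : InC p q w) : del (a * z) z' w = del z z' (a * w) := by
  rw [del_def, del_def, ← h.r z w hz hw, H.mul_assocA h.ha hz hz', h.r _ w (H.inA_mul hz hz') hw]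

include H in
theorem F3 {a z z' w : B} (h : QQe p q a) (hz : InA p q z) (hz' : InA p q z')
    (hw : InC p q w) : del (z * a) z' w = del z (a * z') w := by
  rw [del_def, del_def, ← h.l z w hz hw, H.mul_assocA hz h.ha hz',
    h.r z' _ hz' (H.inC_mulAC hz hw)]

include H in
theorem F2' {a z z' w : B} (h : QQe p q a) (hz : InA p q z) (hz' : InA p q z')
    (hw : InC p q w) : del z (a * z') w = del z z' (a * w) := by
  rw [del_swap, H.F2 h hz' hz hw, del_swap z' z, neg_neg]

include H in
theorem F4 {a z z' w : B} (h : QQe p q a) (hz : InA p q z) (hz' : InA p q z')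
    (hw : InC p q w) : a * del z z' w = del z z' (a * w) := by
  rw [← H.F2' h hz hz' hw, ← H.F3 h hz hz' hw, del_swap (z * a) z', H.F1 h hz' hz hw,
    del_swap z' z, mul_neg, neg_neg]

include H in
theorem del_zero {z z' w : B} (hz : InA p q z) (hz' : InA p q z') (hw : InC p q w) :
    del z z' w = 0 := by
  have key : ∀ w', InC p q w' → del z z' (com p q * w') = 0 := by
    intro w' hw'
    have hp := H.QQe_p
    have hq := H.QQe_q
    have e1 : del z (p * (q * z')) w' = del z z' (q * (p * w')) := by
      rw [H.F2' hp hz (inA_q_mul hz') hw', H.F2' hq hz hz' (inC_p_mul hw')]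
    have e2 : del z (p * (q * z')) w' = del z z' (p * (q * w')) := by
      rw [H.F2' hp hz (inA_q_mul hz') hw', ← H.F4 hp hz (inA_q_mul hz') hw',
        H.F2' hq hz hz' hw', H.F4 hp hz hz' (inC_q_mul hw')]
    rw [com_def, sub_mul, del_sub_w, ← qpw hw', ← pqw hw', ← e1, ← e2, sub_self]
  have := key _ (H.inC_vi hw)
  rwa [H.v_vi] at this

include H in
/-- `z' (z w) = (z z') w` -/
theorem am {z z' w : B} (hz : InA p q z) (hz' : InA p q z') (hw : InC p q w) :
    z' * (z * w) = (z * z') * w := by
  have := H.del_zero hz hz' hw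
  rwa [del_def, sub_eq_zero] at this

end left

section right
open MulOpposite

variable {B : Type*} [NonAssocRing B] [IsAlt B] {p q d : B} (H : Hyp p q d)

theorem asc_op (x y z : B) : asc (op x) (op y) (op z) = op (asc x y z) := by
  rw [asc, associator_op]
  simp only [unop_op, ← op_neg]
  congr 1
  rw [← asc, asc_swap13, neg_neg]

theorem com_op (x y : B) : com (op x) (op y) = op (-(com x y)) := by
  rw [com_def, com_def, ← op_mul, ← op_mul, ← op_sub]
  congr 1
  abel

theorem cen_op {s : B} (hs : Cen s) : Cen (op s) := by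
  refine ⟨?_, ?_⟩
  · intro x
    exact congrArg op (hs.comm x.unop).symm
  · intro x y
    have h := asc_op s x.unop y.unop
    rw [hs.nuc, op_zero] at h
    exact h

include H in
theorem hyp_op : Hyp (op p) (op q) (op d) := by
  have e : (com (op p) (op q) * com (op p) (op q)) * (com (op p) (op q) * com (op p) (op q)) =
      op ((com p q * com p q) * (com p q * com p q)) := by
    rw [com_op, ← op_mul, ← op_mul, neg_mul_neg]
  refine ⟨?_, cen_op H.cd, ?_⟩
  · rw [e]; exact cen_op H.cc
  · rw [e, ← op_mul, H.cc.comm, H.inv, op_one]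

theorem inA_op {x : B} (h : InA p q x) : InA (op p) (op q) (op x) := by
  unfold InA at *
  rw [asc_op, h, op_zero]
theorem inC_op {x : B} (h : InC p q x) : InC (op p) (op q) (op x) := by
  obtain ⟨y, rfl⟩ := h
  exact ⟨op y, (asc_op _ _ _).symm⟩

include H in
/-- `(w z) z' = w (z' z)` -/
theorem am' {z z' w : B} (hz : InA p q z) (hz' : InA p q z') (hw : InC p q w) :
    (w * z) * z' = w * (z' * z) := by
  have h := H.hyp_op.am (inA_op hz) (inA_op hz') (inC_op hw)
  rw [← op_mul, ← op_mul, ← op_mul, ← op_mul] at h
  exact op_injective h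

include H in
theorem asc_AAC {z z' w : B} (hz : InA p q z) (hz' : InA p q z') (hw : InC p q w) :
    asc z z' w = com z z' * w := by
  rw [asc_def, H.am hz' hz hw, com_def, sub_mul]

include H in
theorem asc_AAC' {z z' w : B} (hz : InA p q z) (hz' : InA p q z') (hw : InC p q w) :
    asc z z' w = -(w * com z z') := by
  rw [asc_rot', asc_def, H.am' hz hz' hw, com_def, mul_sub]; abel

include H in
/-- `[z, z'] w = - w [z, z']` -/
theorem com_anti {z z' w : B} (hz : InA p q z) (hz' : InA p q z') (hw : InC p q w) :
    w * com z z' = -(com z z' * w) := by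
  rw [← H.asc_AAC hz hz' hw, H.asc_AAC' hz hz' hw, neg_neg]

end right

end Hyp
end ALT
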