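import Pool.Agent.ALT.S4f

/-!
Step 4g: the bar map, the trace, centrality modulo the annihilator of `B_C`.
-/

set_option linter.unusedSimpArgs false
set_option linter.unusedSectionVars false

namespace ALT
namespace Hyp

variable {B : Type*} [NonAssocRing B] [IsAlt B] {p q d : B} (H : Hyp p q d)

include H in
theorem vi_act {x w : B} (hx : InA p q x) (hw : InC p q w) :
    vi p q d x * w = x * vi p q d w := by
  have h1 : InC p q (com p q * w) := inC_v_mul hw
  have h2 : InC p q (com p q * (com p q * w)) := inC_v_mul h1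
  have a1 : InA p q (com p q * x) := inA_v_mul hx
  have a2 : InA p q (com p q * (com p q * x)) := inA_v_mul a1
  rw [vi, vi, H.cd.mul_assoc1, H.cd.left_mul, ← H.am inA_v a2 hw, ← H.am inA_v a1 h1,
    ← H.am inA_v hx h2]

/-- auxiliary: right multiplication by `p` on `B_C` is left multiplication by `pb` -/
def pb (p q d : B) : B := vi p q d (p * com p q)

include H in
theorem inA_pb : InA p q (pb p q d) := H.inA_vi (inA_p_mul inA_v)

include H in
theorem mul_p {w : B} (hw : InC p q w) : w * p = pb p q d * w := by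
  have h1 : InC p q (vi p q d w) := H.inC_vi hw
  have h2 : w = asc p q (vi p q d w) := by rw [D_inC h1, H.v_vi]
  rw [pb, H.vi_act (inA_p_mul inA_v) hw, ← H.am inA_p inA_v h1]
  conv_lhs => rw [h2]
  rw [← asc_mul_left₁, D_inC (inC_p_mul h1)]

/-- auxiliary element `Y(z)` with `(v w) z = Y(z) w` -/
def yy (p q d z : B) : B :=
  z * com p q - com (p * q) z + com p z * q + com q z * pb p q d

/-- the bar map: `w z = bar z * w` for `z ∈ B_A`, `w ∈ B_C` -/
def bar (p q d z : B) : B := vi p q d (yy p q d z)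

include H in
theorem inA_com {x y : B} (hx : InA p q x) (hy : InA p q y) : InA p q (com x y) :=
  inA_sub (H.inA_mul hx hy) (H.inA_mul hy hx)

include H in
theorem inA_yy {z : B} (hz : InA p q z) : InA p q (yy p q d z) :=
  inA_add (inA_add (inA_sub (inA_mul_v hz) (H.inA_com inA_pq hz))
    (inA_mul_q (H.inA_com inA_p hz))) (H.inA_mul (H.inA_com inA_q hz) H.inA_pb)

include H in
theorem inA_bar {z : B} (hz : InA p q z) : InA p q (bar p q d z) := H.inA_vi (H.inA_yy hz)

theorem yy_add (x y : B) : yy p q d (x + y) = yy p q d x + yy p q d y := by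
  simp only [yy, com_def, add_mul, mul_add, sub_mul, mul_sub]; abel
theorem bar_add (x y : B) : bar p q d (x + y) = bar p q d x + bar p q d y := by
  simp only [bar, yy_add, vi_add]

include H in
theorem kf_pqzw {z w : B} (hz : InA p q z) (hw : InC p q w) :
    kf p q z w = com p q * (z * w) - (com p q * w) * z := by
  rw [← kf_pair, kf_AC hz, D_inC hw, D_inC (H.inC_mulAC hz hw)]

include H in
theorem kf_pqzw' {z w : B} (hz : InA p q z) (hw : InC p q w) :
    kf p q z w = com (p * q) z * w - q * (com p z * w) - (com q z * w) * p := by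
  rw [kf_def, H.asc_AAC inA_pq hz hw, H.asc_AAC inA_p hz hw, H.asc_AAC inA_q hz hw]

include H in
theorem yy_spec {z w : B} (hz : InA p q z) (hw : InC p q w) :
    (com p q * w) * z = yy p q d z * w := by
  have h1 := H.kf_pqzw hz hw
  have h2 := H.kf_pqzw' hz hw
  have c1 := H.inA_com inA_p hz
  have c2 := H.inA_com inA_q hz
  rw [H.am hz inA_v hw] at h1
  rw [H.am c1 inA_q hw, H.mul_p (H.inC_mulAC c2 hw), H.am c2 H.inA_pb hw] at h2
  rw [yy, add_mul, add_mul, sub_mul]
  linear_combination (norm := abel) h1 - h2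

include H in
theorem bar_spec {z w : B} (hz : InA p q z) (hw : InC p q w) : w * z = bar p q d z * w := by
  have h := H.yy_spec hz (H.inC_vi hw)
  rw [H.v_vi] at h
  rw [h, bar, H.vi_act (H.inA_yy hz) hw]

/-- trace on `B_A` -/
def tA (p q d z : B) : B := z + bar p q d z

include H in
theorem inA_tA {z : B} (hz : InA p q z) : InA p q (tA p q d z) := inA_add hz (H.inA_bar hz)

include H in
theorem tA_mul {z w : B} (hz : InA p q z) (hw : InC p q w) :
    tA p q d z * w = z * w + w * z := by
  rw [tA, add_mul, ← H.bar_spec hz hw]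

/-- commutes with `B_A` modulo the annihilator of `B_C` -/
def CA (p q s : B) : Prop := InA p q s ∧ ∀ z w, InA p q z → InC p q w → com s z * w = 0

include H in
theorem CA_tA {z : B} (hz : InA p q z) : CA p q (tA p q d z) := by
  refine ⟨H.inA_tA hz, ?_⟩
  intro z' w hz' hw
  have ht := H.inA_tA hz
  have e1 : tA p q d z * z' * w = z' * (z * w) + z' * (w * z) := by
    rw [← H.am ht hz' hw, H.tA_mul hz hw, mul_add]
  have e2 : z' * tA p q d z * w = z * (z' * w) + (z' * w) * z := by
    rw [← H.am hz' ht hw, H.tA_mul hz (H.inC_mulAC hz' hw)]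
  have e3 : asc z' w z = z' * w * z - z' * (w * z) := asc_def _ _ _
  have e4 : asc z' w z = com z z' * w := by
    rw [asc_rot', H.asc_AAC hz hz' hw]
  rw [com_def, sub_mul, e1, e2, H.am hz hz' hw, H.am hz' hz hw]
  rw [com_def, sub_mul] at e4
  linear_combination (norm := abel) e3 - e4

include H in
theorem CA_pq {s w : B} (h : CA p q s) (hw : InC p q w) : com (p * q) s * w = 0 := by
  have hs := h.1
  have e1 : p * q * s * w = s * (q * (p * w)) := by
    rw [← H.am inA_pq hs hw, qpw hw]
  have f1 : p * (s * w) = s * (p * w) := by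
    have := h.2 p w inA_p hw
    rw [com_def, sub_mul, ← H.am hs inA_p hw, ← H.am inA_p hs hw, sub_eq_zero] at this
    exact this
  have f2 : q * (s * (p * w)) = s * (q * (p * w)) := by
    have := h.2 q _ inA_q (inC_p_mul hw)
    rw [com_def, sub_mul, ← H.am hs inA_q (inC_p_mul hw), ← H.am inA_q hs (inC_p_mul hw),
      sub_eq_zero] at this
    exact this
  have e2 : s * (p * q) * w = s * (q * (p * w)) := by
    rw [← H.am hs inA_pq hw, ← qpw (H.inC_mulAC hs hw), f1, f2]
  rw [com_def, sub_mul, e1, e2, sub_self]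

include H in
theorem CA_kf {s w : B} (h : CA p q s) (hw : InC p q w) : kf p q s w = 0 := by
  have f1 : com p s * w = 0 := by
    rw [com_swap, neg_mul, h.2 p w inA_p hw, neg_zero]
  have f2 : com q s * w = 0 := by
    rw [com_swap, neg_mul, h.2 q w inA_q hw, neg_zero]
  rw [H.kf_pqzw' h.1 hw, H.CA_pq h hw, f1, f2, mul_zero, zero_mul, sub_zero, sub_zero]

include H in
theorem CA_comm {s w : B} (h : CA p q s) (hw : InC p q w) : w * s = s * w := by
  have key : ∀ w', InC p q w' → (com p q * w') * s = s * (com p q * w') := by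
    intro w' hw'
    have h1 := H.kf_pqzw h.1 hw'
    rw [H.CA_kf h hw'] at h1
    have h2 := h.2 _ w' inA_v hw'
    rw [com_def s, sub_mul, ← H.am h.1 inA_v hw', ← H.am inA_v h.1 hw'] at h2
    linear_combination (norm := abel) h1 + h2
  have := key _ (H.inC_vi hw)
  rwa [H.v_vi] at this

include H in
/-- for `x ∈ B_A`: `x B_C = 0` implies `B_C x = 0` -/
theorem kill_right {x : B} (hx : InA p q x) (h : ∀ w, InC p q w → x * w = 0) {w : B}
    (hw : InC p q w) : w * x = 0 := by
  have key : ∀ w', InC p q w' → (com p q * w') * x = 0 := by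
    intro w' hw'
    have c : ∀ a, InA p q a → ∀ w'', InC p q w'' → com a x * w'' = 0 := by
      intro a ha w'' hw''
      rw [com_def, sub_mul, ← H.am ha hx hw'', ← H.am hx ha hw'', h w'' hw'',
        h _ (H.inC_mulAC ha hw''), mul_zero, sub_zero]
    have h1 := H.kf_pqzw hx hw'
    have h2 := H.kf_pqzw' hx hw'
    rw [c _ inA_pq _ hw', c _ inA_p _ hw', c _ inA_q _ hw', mul_zero, zero_mul, sub_zero,
      sub_zero] at h2
    rw [h2, h _ hw', mul_zero, zero_sub] at h1
    exact neg_eq_zero.mp h1.symm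
  have := key _ (H.inC_vi hw)
  rwa [H.v_vi] at this

/-- two-sided annihilation of `B_C` -/
def Kl (p q x : B) : Prop := ∀ w, InC p q w → x * w = 0 ∧ w * x = 0

theorem Kl_add {x y : B} (hx : Kl p q x) (hy : Kl p q y) : Kl p q (x + y) := fun w hw => by
  rw [add_mul, mul_add, (hx w hw).1, (hx w hw).2, (hy w hw).1, (hy w hw).2, add_zero]
  exact ⟨rfl, rfl⟩
theorem Kl_neg {x : B} (hx : Kl p q x) : Kl p q (-x) := fun w hw => by
  rw [neg_mul, mul_neg, (hx w hw).1, (hx w hw).2, neg_zero]
  exact ⟨rfl, rfl⟩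
theorem Kl_zero : Kl p q (0 : B) := fun w _ => ⟨zero_mul w, mul_zero w⟩

include H in
theorem Kl_of {x : B} (hx : InA p q x) (h : ∀ w, InC p q w → x * w = 0) : Kl p q x :=
  fun w hw => ⟨h w hw, H.kill_right hx h hw⟩

/-- an element killing `B_C` associates with `B_C` -/
theorem Kl_asc {n w w' : B} (h : Kl p q n) (hw : InC p q w) (hw' : InC p q w') :
    asc n w w' = 0 := by
  rw [asc_swap12, asc_def, (h w hw).2, (h w' hw').1, zero_mul, mul_zero, sub_zero, neg_zero]

end Hyp
end ALT
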