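import Pool.Agent.ALT.S4g

/-!
Step 4h: elements commuting with `B_A` modulo annihilators are central modulo annihilators;
squares of elements of `B_C`; quadratic equation.
-/

set_option linter.unusedSimpArgs false
set_option linter.unusedSectionVars false

namespace ALT
namespace Hyp

variable {B : Type*} [NonAssocRing B] [IsAlt B] {p q d : B} (H : Hyp p q d)

include H in
theorem CA_com {s : B} (h : CA p q s) (x : B) : Kl p q (com s x) := by
  have e : com s x = com s (pA p q d x) + com s (pC p q d x) := by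
    rw [← com_add_right, pA_add_pC]
  have e2 : com s (pC p q d x) = 0 := by
    rw [com_def, H.CA_comm h (H.inC_pC x), sub_self]
  rw [e, e2, add_zero]
  exact H.Kl_of (H.inA_com h.1 (H.inA_pA x)) (fun w hw => h.2 _ _ (H.inA_pA x) hw)

include H in
theorem CA_asc1 {s z w : B} (h : CA p q s) (hz : InA p q z) (hw : InC p q w) :
    asc s z w = 0 := by
  rw [H.asc_AAC h.1 hz hw, h.2 z w hz hw]

include H in
theorem CA_asc2 {s z w : B} (h : CA p q s) (hz : InA p q z) (hw : InC p q w) :
    asc s w z = 0 := by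
  rw [asc_swap23, H.CA_asc1 h hz hw, neg_zero]

include H in
theorem CA_kf0 {s a w w' : B} (h : CA p q s) (ha : InA p q a) (hw : InC p q w)
    (hw' : InC p q w') : kf s a w w' = 0 := by
  have h1 : asc (w * w') s a = 0 := H.assocA (H.inA_mulCC hw hw') h.1 ha
  have h2 : asc w s a = 0 := by rw [asc_rot, H.CA_asc1 h ha hw]
  have h3 : asc w' s a = 0 := by rw [asc_rot, H.CA_asc1 h ha hw']
  rw [kf_pair, kf_def, h1, h2, h3, mul_zero, zero_mul, sub_zero, sub_zero]

include H in
theorem CA_R1 {s a w w' : B} (h : CA p q s) (ha : InA p q a) (hw : InC p q w)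
    (hw' : InC p q w') : asc s (a * w) w' = asc s w w' * a := by
  have h0 : kf a w s w' = 0 := by
    rw [kf_swap23, kf_swap12, neg_neg, H.CA_kf0 h ha hw hw']
  have h1 : asc a s w' = 0 := by rw [asc_swap12, H.CA_asc1 h ha hw', neg_zero]
  rw [kf_def, h1, mul_zero, sub_zero, sub_eq_zero] at h0
  rw [asc_swap12 s (a * w), h0, asc_swap12 w s w', neg_mul, neg_neg]

include H in
theorem inA_ascCC {s w w' : B} (hs : InA p q s) (hw : InC p q w) (hw' : InC p q w') :
    InA p q (asc s w w') := by
  rw [asc_def]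
  exact inA_sub (H.inA_mulCC (H.inC_mulAC hs hw) hw') (H.inA_mul hs (H.inA_mulCC hw hw'))

include H in
theorem CA_R3 {s a w w' w'' : B} (h : CA p q s) (ha : InA p q a) (hw : InC p q w)
    (hw' : InC p q w') (hw'' : InC p q w'') :
    (asc s w w' * a) * w'' = (a * asc s w w') * w'' := by
  have h1 := H.CA_kf0 h ha hw hw'
  have h2 : kf a s w w' = 0 := by rw [kf_swap12, h1, neg_zero]
  rw [kf_def] at h1 h2
  have h3 : asc (s * a) w w' - asc (a * s) w w' = 0 := by
    rw [← asc_sub_left, ← com_def]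
    exact Kl_asc (H.CA_com h a) hw hw'
  have h4 : com s (asc a w w') * w'' = 0 := h.2 _ _ (H.inA_ascCC ha hw hw') hw''
  have h5 : a * asc s w w' - asc s w w' * a = com s (asc a w w') := by
    rw [com_def]
    linear_combination (norm := abel) h3 - h1 + h2
  have h6 : (a * asc s w w' - asc s w w' * a) * w'' = 0 := by rw [h5, h4]
  rw [sub_mul, sub_eq_zero] at h6
  exact h6.symm

include H in
theorem CA_asc3 {s w w' w'' : B} (h : CA p q s) (hw : InC p q w) (hw' : InC p q w')
    (hw'' : InC p q w'') : asc s w w' * w'' = 0 := by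
  have hE : InA p q (asc s w w') := H.inA_ascCC h.1 hw hw'
  have hEp : InA p q (asc s (p * w) w') := H.inA_ascCC h.1 (inC_p_mul hw) hw'
  have key : ∀ w₀, InC p q w₀ → asc s w w' * (com p q * w₀) = 0 := by
    intro w₀ hw₀
    -- first computation
    have e1 : asc s (q * (p * w)) w' * w₀ = asc s w w' * (p * (q * w₀)) := by
      rw [H.CA_R1 h inA_q (inC_p_mul hw) hw', H.CA_R3 h inA_q (inC_p_mul hw) hw' hw₀,
        ← H.am inA_q hEp hw₀, H.CA_R1 h inA_p hw hw', H.CA_R3 h inA_p hw hw' (inC_q_mul hw₀),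
        ← H.am inA_p hE (inC_q_mul hw₀)]
    -- second computation
    have e2 : asc s (q * (p * w)) w' * w₀ = asc s w w' * (q * (p * w₀)) := by
      rw [H.CA_R1 h inA_q (inC_p_mul hw) hw', ← H.am hEp inA_q hw₀, H.CA_R1 h inA_p hw hw',
        H.CA_R3 h inA_p hw hw' hw₀, ← H.am inA_p hE hw₀, H.am hE inA_q (inC_p_mul hw₀),
        H.CA_R3 h inA_q hw hw' (inC_p_mul hw₀), ← H.am inA_q hE (inC_p_mul hw₀)]
    rw [com_def, sub_mul, mul_sub, ← qpw hw₀, ← pqw hw₀, ← e1, ← e2, sub_self]
  have := key _ (H.inC_vi hw'')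
  rwa [H.v_vi] at this

/-- central modulo the annihilator of `B_C` -/
def CM (p q s : B) : Prop := (∀ x, Kl p q (com s x)) ∧ ∀ x y, Kl p q (asc s x y)

include H in
theorem CA_CM {s : B} (h : CA p q s) : CM p q s := by
  refine ⟨H.CA_com h, ?_⟩
  intro x y
  have e : asc s x y = asc s (pA p q d x) (pA p q d y) + asc s (pA p q d x) (pC p q d y)
      + asc s (pC p q d x) (pA p q d y) + asc s (pC p q d x) (pC p q d y) := by
    conv_lhs => rw [← pA_add_pC (p := p) (q := q) (d := d) x, ← pA_add_pC (p := p) (q := q) (d := d) y]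
    simp only [asc_add_mid, asc_add_right]
    abel
  rw [e, H.assocA h.1 (H.inA_pA x) (H.inA_pA y), H.CA_asc1 h (H.inA_pA x) (H.inC_pC y),
    H.CA_asc2 h (H.inA_pA y) (H.inC_pC x), zero_add, zero_add, zero_add]
  exact H.Kl_of (H.inA_ascCC h.1 (H.inC_pC x) (H.inC_pC y))
    (fun w hw => H.CA_asc3 h (H.inC_pC x) (H.inC_pC y) hw)

include H in
theorem CA_sqC {w : B} (hw : InC p q w) : CA p q (w * w) := by
  refine ⟨H.inA_mulCC hw hw, ?_⟩
  intro z w' hz hw'
  have ht := H.CA_tA hz
  have e1 := H.tA_mul hz hw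
  have e2 := H.CA_comm ht hw
  have f1 : z * (w * w) = z * w * w := (IsAlt.right w z).symm
  have f2 : w * w * z = w * (w * z) := IsAlt.left w z
  have e3 : w * z = tA p q d z * w - z * w := by rw [e1]; abel
  have e4 : w * (z * w) = (w * z) * w := (flex w z).symm
  have e5 : w * (tA p q d z * w) = (tA p q d z * w) * w := by
    conv_rhs => rw [← e2]
    exact (flex w _).symm
  have e6 : w * (w * z) = z * w * w := by
    conv_lhs => rw [e3]
    rw [mul_sub, e5, e4]
    conv_lhs => rw [e3]
    rw [sub_mul]; abel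
  rw [com_def, f1, f2, e6, sub_self, zero_mul]

include H in
theorem CA_quad {z : B} (hz : InA p q z) : CA p q (z * z - tA p q d z * z) := by
  have ht := H.inA_tA hz
  refine ⟨inA_sub (H.inA_mul hz hz) (H.inA_mul ht hz), ?_⟩
  intro z' w hz' hw
  have hs : InA p q (z * z - tA p q d z * z) := inA_sub (H.inA_mul hz hz) (H.inA_mul ht hz)
  have act : ∀ w', InC p q w' → (z * z - tA p q d z * z) * w' = -(z * (w' * z)) := by
    intro w' hw'
    rw [sub_mul, ← H.am hz hz hw', ← H.am ht hz hw', H.tA_mul hz hw', mul_add]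
    abel
  have hwz := H.inC_mulCA hw hz
  have e1 : (z * z - tA p q d z * z) * z' * w = -(z' * (z * (w * z))) := by
    rw [← H.am hs hz' hw, act w hw, mul_neg]
  have e2 : z' * (z * z - tA p q d z * z) * w = -(z * ((z' * w) * z)) := by
    rw [← H.am hz' hs hw, act _ (H.inC_mulAC hz' hw)]
  have e3 : asc z' w z = z' * w * z - z' * (w * z) := asc_def _ _ _
  have e4 : asc z' w z = com z z' * w := by rw [asc_rot', H.asc_AAC hz hz' hw]
  have e5 : z' * w * z = z' * (w * z) + com z z' * w := by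
    linear_combination (norm := abel) e4 - e3
  have e6 : com z z' * (w * z) = z * (com z z' * w) := by
    rw [← H.asc_AAC hz hz' hwz, ← H.asc_AAC hz hz' hw, asc_mul_right₁]
  rw [com_def, sub_mul, e1, e2, e5, mul_add, ← e6, H.am hz hz' hwz, H.am hz' hz hwz, com_def,
    sub_mul]
  abel

end Hyp
end ALT
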