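import Pool.Agent.ALT.Ids

/-!
The nine identities of Steps 6 and 7 as nonassociative polynomials, the ideal `WW A k` and the
conclusion of Step 5.
-/

set_option linter.unusedSimpArgs false
set_option linter.unusedSectionVars false

universe u

namespace ALT

section hom
variable {A B : Type*} [NonUnitalNonAssocRing A] [NonUnitalNonAssocRing B] (φ : A →ₙ+* B)

theorem hom_jo (x y : A) : φ (jo x y) = jo (φ x) (φ y) := by
  simp only [jo_def, map_add, map_mul]
theorem hom_kap (p q a : A) : φ (kap p q a) = kap (φ p) (φ q) (φ a) := by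
  simp only [kap, hom_com, map_mul]
theorem hom_zet (p q a w : A) : φ (zet p q a w) = zet (φ p) (φ q) (φ a) (φ w) := by
  simp only [zet, hom_com, hom_jo, map_mul]
theorem hom_nuu (p q a b : A) : φ (nuu p q a b) = nuu (φ p) (φ q) (φ a) (φ b) := by
  simp only [nuu, hom_zet, hom_kap, map_mul, map_sub]

end hom

/-! ### the identities as functions of eight variables -/

/-- the nine identities; the variables are `p q a p' q' a' b w` -/
def qval {A : Type*} [NonUnitalNonAssocRing A] (i : Fin 9) (x : Fin 8 → A) : A :=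
  ![com (kap (x 0) (x 1) (x 2)) (x 6),
    asc (kap (x 0) (x 1) (x 2)) (x 6) (x 7),
    com (zet (x 0) (x 1) (x 2) (x 3)) (x 6),
    asc (zet (x 0) (x 1) (x 2) (x 3)) (x 6) (x 7),
    com (nuu (x 0) (x 1) (x 2) (x 3)) (x 6),
    asc (nuu (x 0) (x 1) (x 2) (x 3)) (x 6) (x 7),
    zet (x 0) (x 1) (x 2) (x 6) * kap (x 3) (x 4) (x 5)
      - kap (x 0) (x 1) (x 2) * zet (x 3) (x 4) (x 5) (x 6),
    (zet (x 0) (x 1) (x 2) (x 6 * x 7) + x 6 * zet (x 0) (x 1) (x 2) (x 7)
      + x 7 * zet (x 0) (x 1) (x 2) (x 6) - jo (x 6) (x 7) * kap (x 0) (x 1) (x 2))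
      * kap (x 3) (x 4) (x 5) - zet (x 0) (x 1) (x 2) (x 7) * zet (x 3) (x 4) (x 5) (x 6),
    v4 (x 0) (x 1) - (kap (x 0) (x 0 * x 1) (x 1) - nuu (x 0) (x 1) (x 1) (x 0))] i

section hom
variable {A B : Type*} [NonUnitalNonAssocRing A] [NonUnitalNonAssocRing B] (φ : A →ₙ+* B)

theorem hom_qval (i : Fin 9) (x : Fin 8 → A) : φ (qval i x) = qval i (fun j => φ (x j)) := by
  fin_cases i <;>
  simp [qval, hom_com, hom_asc, hom_kap, hom_zet, hom_nuu, hom_v4, hom_jo, map_mul, map_sub,
    map_add]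

end hom

/-- evaluation as a ring homomorphism -/
noncomputable def evHom {r : ℕ} {A : Type*} [NonUnitalNonAssocRing A] (w : Fin r → A) :
    FreeNonUnitalNonAssocAlgebra ℤ (Fin r) →ₙ+* A where
  toFun f := ev f w
  map_mul' x y := map_mul (FreeNonUnitalNonAssocAlgebra.lift ℤ w) x y
  map_zero' := map_zero (FreeNonUnitalNonAssocAlgebra.lift ℤ w)
  map_add' x y := map_add (FreeNonUnitalNonAssocAlgebra.lift ℤ w) x y

/-- the nine polynomials -/
noncomputable def qpol (i : Fin 9) : FreeNonUnitalNonAssocAlgebra ℤ (Fin 8) :=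
  qval i (FreeNonUnitalNonAssocAlgebra.of ℤ)

theorem ev_qpol {A : Type*} [NonUnitalNonAssocRing A] (i : Fin 9) (w : Fin 8 → A) :
    ev (qpol i) w = qval i w := by
  have h1 : ev (qpol i) w = evHom w (qpol i) := rfl
  rw [h1, qpol, hom_qval]
  congr 1
  funext j
  change FreeNonUnitalNonAssocAlgebra.lift ℤ w (FreeNonUnitalNonAssocAlgebra.of ℤ j) = w j
  rw [FreeNonUnitalNonAssocAlgebra.lift_of_apply]

theorem QQ.qval_eq_zero {Q : Type*} [NonAssocRing Q] [IsAlt Q] {t : Q →+ Q} (h : QQ t)
    (i : Fin 9) (w : Fin 8 → Q) : qval i w = 0 := by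
  fin_cases i
  · exact (h.cen_kap _ _ _).com _
  · exact (h.cen_kap _ _ _).nuc _ _
  · exact (h.cen_zet _ _ _ _).com _
  · exact (h.cen_zet _ _ _ _).nuc _ _
  · exact (h.cen_nuu _ _ _ _).com _
  · exact (h.cen_nuu _ _ _ _).nuc _ _
  · exact sub_eq_zero.mpr (h.id_exch _ _ _ _ _ _ _)
  · exact sub_eq_zero.mpr (h.id_mul _ _ _ _ _ _ _ _)
  · exact sub_eq_zero.mpr (h.id_v4 _ _)

theorem isQQIdentity_qpol (i : Fin 9) : IsQQIdentity.{u} (qpol i) := by
  intro Q _ _ t ht w
  rw [ev_qpol]
  exact ht.qval_eq_zero i w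

/-! ### the ideal `WW A k` -/

section WW
variable {A : Type*} [NonUnitalNonAssocRing A]

/-- elements `z` with `[p,q]^(4k) z D ⊆ M` and `D [p,q]^(4k) z ⊆ M` -/
def WW (A : Type*) [NonUnitalNonAssocRing A] (k : ℕ) : AddSubgroup A where
  carrier := {z | ∀ p q : A, ∀ y ∈ assocIdeal A,
    cp (v4 p q) k z * y ∈ comNucIdeal A ∧ y * cp (v4 p q) k z ∈ comNucIdeal A}
  add_mem' {z z'} h h' := fun p q y hy => by
    rw [cp_map_add, add_mul, mul_add]
    exact ⟨(comNucIdeal A).add_mem (h p q y hy).1 (h' p q y hy).1,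
      (comNucIdeal A).add_mem (h p q y hy).2 (h' p q y hy).2⟩
  zero_mem' := fun p q y hy => by
    rw [cp_map_zero, zero_mul, mul_zero]
    exact ⟨(comNucIdeal A).zero_mem, (comNucIdeal A).zero_mem⟩
  neg_mem' {z} h := fun p q y hy => by
    rw [cp_map_neg, neg_mul, mul_neg]
    exact ⟨(comNucIdeal A).neg_mem (h p q y hy).1, (comNucIdeal A).neg_mem (h p q y hy).2⟩

theorem mem_WW {k : ℕ} {z : A} : z ∈ WW A k ↔ ∀ p q : A, ∀ y ∈ assocIdeal A,
    cp (v4 p q) k z * y ∈ comNucIdeal A ∧ y * cp (v4 p q) k z ∈ comNucIdeal A := Iff.rfl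

variable [IsAlt A]

theorem com_v4_mem (p q y : A) : com (v4 p q) y ∈ comNucIdeal A :=
  AddSubgroup.subset_closure ⟨_, kleinfeld_nucleus p q, y, Or.inl rfl⟩

theorem cp_v4_mul (p q x y : A) (k : ℕ) : cp (v4 p q) k x * y = cp (v4 p q) k (x * y) :=
  cp_mul_mem (fun x y => (kleinfeld_nucleus p q x y).1) k x y

theorem cp_v4_left (p q x y : A) (k : ℕ) :
    cp (v4 p q) k (x * y) - x * cp (v4 p q) k y ∈ comNucIdeal A := by
  have hI := isIdeal_comNucIdeal (A := A)
  induction k with
  | zero => rw [cp_zero, cp_zero, sub_self]; exact (comNucIdeal A).zero_mem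
  | succ n ih =>
    rw [cp_succ, cp_succ]
    have e1 := (kleinfeld_nucleus p q x (cp (v4 p q) n y)).1
    have e2 := (kleinfeld_nucleus p q x (cp (v4 p q) n y)).2.1
    change asc (v4 p q) x (cp (v4 p q) n y) = 0 at e1
    change asc x (v4 p q) (cp (v4 p q) n y) = 0 at e2
    rw [asc_def, sub_eq_zero] at e1 e2
    have e3 : v4 p q * cp (v4 p q) n (x * y) - x * (v4 p q * cp (v4 p q) n y)
        = v4 p q * (cp (v4 p q) n (x * y) - x * cp (v4 p q) n y)
          + com (v4 p q) x * cp (v4 p q) n y := by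
      rw [← e2, mul_sub, ← e1, com_def, sub_mul]; abel
    rw [e3]
    exact (comNucIdeal A).add_mem (hI.left _ _ ih) (hI.right _ _ (com_v4_mem p q x))

theorem isIdeal_WW (k : ℕ) : IsIdeal (WW A k) := by
  have hM := isIdeal_comNucIdeal (A := A)
  have hD := isIdeal_assocIdeal (A := A)
  have aux : ∀ (u : A), (∀ y ∈ assocIdeal A, u * y ∈ comNucIdeal A ∧ y * u ∈ comNucIdeal A) →
      ∀ a : A, ∀ y ∈ assocIdeal A, ((a * u) * y ∈ comNucIdeal A ∧ y * (a * u) ∈ comNucIdeal A) ∧
        ((u * a) * y ∈ comNucIdeal A ∧ y * (u * a) ∈ comNucIdeal A) := by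
    intro u hu a y hy
    have h1 := (hu y hy).1
    have h2 := (hu y hy).2
    have h3 : asc u y a ∈ comNucIdeal A := by
      rw [asc_def]
      exact (comNucIdeal A).sub_mem (hM.right _ _ h1) (hu _ (hD.right _ _ hy)).1
    have e1 : (a * u) * y = a * (u * y) + asc u y a := by
      rw [asc_rot' u y a, asc_def]; abel
    have e2 : y * (a * u) = (y * a) * u - asc u y a := by
      rw [asc_rot u y a, asc_def]; abel
    have e3 : (u * a) * y = u * (a * y) - asc u y a := by
      rw [asc_swap23 u y a, asc_def]; abel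
    have e4 : y * (u * a) = (y * u) * a + asc u y a := by
      rw [asc_swap12 u y a, asc_def]; abel
    rw [e1, e2, e3, e4]
    exact ⟨⟨(comNucIdeal A).add_mem (hM.left _ _ h1) h3,
      (comNucIdeal A).sub_mem (hu _ (hD.right _ _ hy)).2 h3⟩,
      ⟨(comNucIdeal A).sub_mem (hu _ (hD.left _ _ hy)).1 h3,
      (comNucIdeal A).add_mem (hM.right _ _ h2) h3⟩⟩
  refine ⟨fun a z hz p q y hy => ?_, fun a z hz p q y hy => ?_⟩
  · have h1 := (aux (cp (v4 p q) k z) (hz p q) a y hy).1
    have h2 := cp_v4_left p q a z k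
    have e : cp (v4 p q) k (a * z)
        = a * cp (v4 p q) k z + (cp (v4 p q) k (a * z) - a * cp (v4 p q) k z) := by abel
    rw [e, add_mul, mul_add]
    exact ⟨(comNucIdeal A).add_mem h1.1 (hM.right _ _ h2),
      (comNucIdeal A).add_mem h1.2 (hM.left _ _ h2)⟩
  · rw [← cp_v4_mul]
    exact (aux (cp (v4 p q) k z) (hz p q) a y hy).2

theorem WW_mono {k l : ℕ} (h : k ≤ l) : WW A k ≤ WW A l := by
  have hM := isIdeal_comNucIdeal (A := A)
  obtain ⟨m, rfl⟩ := Nat.exists_eq_add_of_le h
  intro z hz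
  induction m with
  | zero => exact hz
  | succ n ih =>
    intro p q y hy
    have h1 := ih (Nat.le_add_right _ _) p q y hy
    rw [← add_assoc, cp_succ]
    set x := cp (v4 p q) (k + n) z with hx
    have e1 := (kleinfeld_nucleus p q x y).1
    have e2 := (kleinfeld_nucleus p q y x).2.1
    have e3 := (kleinfeld_nucleus p q y x).1
    change asc (v4 p q) x y = 0 at e1
    change asc y (v4 p q) x = 0 at e2
    change asc (v4 p q) y x = 0 at e3
    rw [asc_def, sub_eq_zero] at e1 e2 e3
    refine ⟨?_, ?_⟩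
    · rw [e1]; exact hM.left _ _ h1.1
    · have e4 : y * (v4 p q * x) = v4 p q * (y * x) - com (v4 p q) y * x := by
        rw [← e2, ← e3, com_def, sub_mul]; abel
      rw [e4]
      exact (comNucIdeal A).sub_mem (hM.left _ _ h1.2) (hM.right _ _ (com_v4_mem p q y))

end WW

/-! ### scalars -/

section smul
variable {F A : Type*} [CommSemiring F] [NonUnitalNonAssocRing A] [Module F A]
  [SMulCommClass F A A] [IsScalarTower F A A]

theorem com_smul_left (r : F) (x y : A) : com (r • x) y = r • com x y := by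
  rw [com_def, com_def, smul_mul_assoc, mul_smul_comm, smul_sub]
theorem com_smul_right (r : F) (x y : A) : com x (r • y) = r • com x y := by
  rw [com_def, com_def, smul_mul_assoc, mul_smul_comm, smul_sub]
theorem asc_smul_left (r : F) (x y z : A) : asc (r • x) y z = r • asc x y z := by
  simp only [asc_def, smul_mul_assoc, smul_sub]
theorem asc_smul_mid (r : F) (x y z : A) : asc x (r • y) z = r • asc x y z := by
  simp only [asc_def, smul_mul_assoc, mul_smul_comm, smul_sub]
theorem asc_smul_right (r : F) (x y z : A) : asc x y (r • z) = r • asc x y z := by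
  simp only [asc_def, mul_smul_comm, smul_sub]

theorem smul_mem_assocIdeal (r : F) {x : A} (hx : x ∈ assocIdeal A) : r • x ∈ assocIdeal A := by
  induction hx using AddSubgroup.closure_induction with
  | mem y hy =>
    obtain ⟨a, b, c, rfl | ⟨t, rfl⟩⟩ := hy
    · rw [← asc_smul_left]; exact AddSubgroup.subset_closure ⟨_, _, _, Or.inl rfl⟩
    · rw [← smul_mul_assoc, ← asc_smul_left]
      exact AddSubgroup.subset_closure ⟨_, _, _, Or.inr ⟨_, rfl⟩⟩
  | zero => rw [smul_zero]; exact (assocIdeal A).zero_mem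
  | add x y _ _ hx hy => rw [smul_add]; exact (assocIdeal A).add_mem hx hy
  | neg x _ hx => rw [smul_neg]; exact (assocIdeal A).neg_mem hx

theorem smul_mem_comNucIdeal (r : F) {x : A} (hx : x ∈ comNucIdeal A) :
    r • x ∈ comNucIdeal A := by
  induction hx using AddSubgroup.closure_induction with
  | mem y hy =>
    obtain ⟨m, hm, a, rfl | ⟨t, rfl⟩⟩ := hy
    · rw [← com_smul_right]; exact AddSubgroup.subset_closure ⟨_, hm, _, Or.inl rfl⟩
    · rw [← smul_mul_assoc]
      exact AddSubgroup.subset_closure ⟨_, hm, _, Or.inr ⟨_, rfl⟩⟩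
  | zero => rw [smul_zero]; exact (comNucIdeal A).zero_mem
  | add x y _ _ hx hy => rw [smul_add]; exact (comNucIdeal A).add_mem hx hy
  | neg x _ hx => rw [smul_neg]; exact (comNucIdeal A).neg_mem hx

omit [IsScalarTower F A A] in
theorem cp_smul (c : A) (r : F) (k : ℕ) (x : A) : cp c k (r • x) = r • cp c k x := by
  induction k with
  | zero => rfl
  | succ n ih => rw [cp_succ, cp_succ, ih, mul_smul_comm]

theorem smul_mem_WW (r : F) {k : ℕ} {x : A} (hx : x ∈ WW A k) : r • x ∈ WW A k := by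
  intro p q y hy
  rw [cp_smul, smul_mul_assoc, mul_smul_comm]
  exact ⟨smul_mem_comNucIdeal r (hx p q y hy).1, smul_mem_comNucIdeal r (hx p q y hy).2⟩

end smul

/-- **Step 5, final form**: some `WW A k` contains all the values of the nine identities. -/
theorem exists_qval_mem_WW (A : Type u) [NonUnitalNonAssocRing A] [IsAlt A] :
    ∃ k : ℕ, ∀ (i : Fin 9) (w : Fin 8 → A), qval i w ∈ WW A k := by
  have h : ∀ i : Fin 9, ∃ k : ℕ, ∀ w : Fin 8 → A, qval i w ∈ WW A k := by
    intro i
    obtain ⟨k, hk⟩ := transfer (isQQIdentity_qpol.{u} i) A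
    refine ⟨k, fun w p q y hy => ?_⟩
    have := hk p q w y hy
    rwa [ev_qpol] at this
  choose k hk using h
  refine ⟨Finset.univ.sup k, fun i w => ?_⟩
  exact WW_mono (Finset.le_sup (Finset.mem_univ i)) (hk i w)

/-! ### rings satisfying the identities -/

/-- all nine identities hold -/
def QI (A : Type*) [NonUnitalNonAssocRing A] : Prop := ∀ (i : Fin 9) (w : Fin 8 → A), qval i w = 0

section QI
variable {A : Type*} [NonUnitalNonAssocRing A]

theorem QI_quot {I : AddSubgroup A} (hI : IsIdeal I)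
    (h : ∀ (i : Fin 9) (w : Fin 8 → A), qval i w ∈ I) : QI hI.Quot := by
  intro i w
  choose f hf using fun j => hI.toQ_surj (w j)
  have e : w = fun j => hI.hom (f j) := by funext j; exact (hf j).symm
  rw [e, ← hom_qval]
  exact hI.toQ_eq_zero.mpr (h i f)

theorem QI.of_surj {B : Type*} [NonUnitalNonAssocRing B] (h : QI A) (φ : A →ₙ+* B)
    (hφ : Function.Surjective φ) : QI B := by
  intro i w
  choose f hf using fun j => hφ (w j)
  have e : w = fun j => φ (f j) := by funext j; exact (hf j).symm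
  rw [e, ← hom_qval, h i f, map_zero]

namespace QI
variable (h : QI A)
include h

theorem cen_kap (p q a : A) : Cen (kap p q a) :=
  ⟨fun x => by
    have := h 0 ![p, q, a, p, q, a, x, x]
    simpa [qval, com_def, sub_eq_zero] using this,
  fun x y => by
    have := h 1 ![p, q, a, p, q, a, x, y]
    simpa [qval] using this⟩

theorem cen_zet (p q a w : A) : Cen (zet p q a w) :=
  ⟨fun x => by
    have := h 2 ![p, q, a, w, q, a, x, x]
    simpa [qval, com_def, sub_eq_zero] using this,
  fun x y => by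
    have := h 3 ![p, q, a, w, q, a, x, y]
    simpa [qval] using this⟩

theorem cen_nuu (p q a b : A) : Cen (nuu p q a b) :=
  ⟨fun x => by
    have := h 4 ![p, q, a, b, q, a, x, x]
    simpa [qval, com_def, sub_eq_zero] using this,
  fun x y => by
    have := h 5 ![p, q, a, b, q, a, x, y]
    simpa [qval] using this⟩

theorem exch (p q a p' q' a' b : A) :
    zet p q a b * kap p' q' a' = kap p q a * zet p' q' a' b := by
  have := h 6 ![p, q, a, p', q', a', b, b]
  simpa [qval, sub_eq_zero] using this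

theorem mul (p q a p' q' a' b w : A) :
    (zet p q a (b * w) + b * zet p q a w + w * zet p q a b - jo b w * kap p q a)
      * kap p' q' a' = zet p q a w * zet p' q' a' b := by
  have := h 7 ![p, q, a, p', q', a', b, w]
  simpa [qval, sub_eq_zero] using this

theorem v4_eq (x y : A) : v4 x y = kap x (x * y) y - nuu x y y x := by
  have := h 8 ![x, y, x, x, x, x, x, x]
  rw [← sub_eq_zero]
  simpa [qval] using this

end QI
end QI

end ALT
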