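import Pool.Agent.ALT.QuotF

/-!
# Project ALT (MP_643ad6_al), Step 6a: the function space machine (helper6)

`Mach F B S`: central elements `k s`, `z s b` with the exchange identities.  On the space of
functions `S × Option B → B` the operators `Lop b` (left multiplication) and `Top b` (trace of `b`)
act; on the subspace `M` spanned by the functions `fe e`, `e = zz δ (k s (k s' c))`, they satisfy
the Clifford relations.
-/

set_option autoImplicit false
set_option linter.unusedSectionVars false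

namespace ALT

structure Mach (F B S : Type*) [Field F] [NonUnitalNonAssocRing B] [Module F B] where
  k : S → B
  z : S → B →ₗ[F] B
  cen_k : ∀ s, Cen (k s)
  cen_z : ∀ s b, Cen (z s b)
  cen_n : ∀ s b, Cen (b * z s b - (b * b) * k s)
  exch : ∀ s s' b, z s b * k s' = k s * z s' b
  exch2 : ∀ s s' b w,
    (z s (b * w) + b * z s w + w * z s b - (b * w + w * b) * k s) * k s' = z s w * z s' b

namespace Mach

variable {F B S : Type*} [Field F] [NonUnitalNonAssocRing B] [Module F B]
  [IsScalarTower F B B] [SMulCommClass F B B] [IsAlt B] (m : Mach F B S)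

/-- all the central elements of the machine -/
def zz : S × Option B → B
  | (s, none) => m.k s
  | (s, some w) => m.z s w

theorem cen_zz (d : S × Option B) : Cen (m.zz d) := by
  rcases d with ⟨s, _ | w⟩
  · exact m.cen_k s
  · exact m.cen_z s w

/-- `fe e δ = zz δ * e` -/
def fe : B →ₗ[F] (S × Option B → B) where
  toFun e d := m.zz d * e
  map_add' x y := by ext d; exact mul_add _ _ _
  map_smul' r x := by ext d; exact mul_smul_comm _ _ _

theorem fe_apply (e : B) (d : S × Option B) : m.fe e d = m.zz d * e := rfl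

/-- pointwise left multiplication -/
def Lop (S : Type*) (b : B) : (S × Option B → B) →ₗ[F] (S × Option B → B) where
  toFun f d := b * f d
  map_add' x y := by ext d; exact mul_add _ _ _
  map_smul' r x := by ext d; exact mul_smul_comm _ _ _

theorem Lop_apply (b : B) (f : S × Option B → B) (d : S × Option B) :
    Lop (F := F) S b f d = b * f d := rfl

/-- the trace operator, as a function -/
def Tfun (b : B) (f : S × Option B → B) : S × Option B → B
  | (s, none) => f (s, some b)
  | (s, some w) => f (s, some (b * w)) + b * f (s, some w) + w * f (s, some b)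
      - (b * w + w * b) * f (s, none)

/-- the trace operator -/
def Top (S : Type*) (b : B) : (S × Option B → B) →ₗ[F] (S × Option B → B) where
  toFun f := Tfun b f
  map_add' x y := by
    ext ⟨s, _ | w⟩
    · rfl
    · simp only [Tfun, Pi.add_apply, mul_add]; abel
  map_smul' r x := by
    ext ⟨s, _ | w⟩
    · rfl
    · simp only [Tfun, Pi.smul_apply, RingHom.id_apply, mul_smul_comm, smul_add, smul_sub]

theorem Top_none (b : B) (f : S × Option B → B) (s : S) :
    Top (F := F) S b f (s, none) = f (s, some b) := rfl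
theorem Top_some (b w : B) (f : S × Option B → B) (s : S) :
    Top (F := F) S b f (s, some w) = f (s, some (b * w)) + b * f (s, some w)
      + w * f (s, some b) - (b * w + w * b) * f (s, none) := rfl

theorem Lop_fe (b e : B) : Lop (F := F) S b (m.fe e) = m.fe (b * e) := by
  ext d
  rw [Lop_apply, fe_apply, fe_apply, (m.cen_zz d).pull]

theorem Top_fe (b : B) (s : S) (e : B) :
    Top (F := F) S b (m.fe (m.k s * e)) = m.fe (m.z s b * e) := by
  ext ⟨p, _ | w⟩
  · rw [Top_none, fe_apply, fe_apply]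
    show m.z p b * (m.k s * e) = m.k p * (m.z s b * e)
    rw [← (m.cen_z p b).m1, m.exch, (m.cen_k p).m1]
  · rw [Top_some, fe_apply, fe_apply, fe_apply, fe_apply, fe_apply]
    show m.z p (b * w) * (m.k s * e) + b * (m.z p w * (m.k s * e)) + w * (m.z p b * (m.k s * e))
      - (b * w + w * b) * (m.k p * (m.k s * e)) = m.z p w * (m.z s b * e)
    have h := congrArg (· * e) (m.exch2 p s b w)
    rw [(m.cen_z p w).m1, (m.cen_k s).m2] at h
    rw [← h, sub_mul, add_mul (m.z p (b * w) + b * m.z p w), add_mul (m.z p (b * w)),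
      (m.cen_z p w).m2, (m.cen_z p b).m2, (m.cen_k p).m2]

/-- generators of the subspace -/
def P : Set B := {e | ∃ (d : S × Option B) (s s' : S) (c : B), e = m.zz d * (m.k s * (m.k s' * c))}

/-- the subspace of `B` spanned by the `zz δ (k s (k s' c))` -/
def Vpp : Submodule F B := Submodule.span F m.P

/-- the subspace of functions -/
def M : Submodule F (S × Option B → B) := m.Vpp.map m.fe

theorem P_form {e : B} (he : e ∈ m.P) : ∃ s s' g, e = m.k s * (m.k s' * g) := by
  obtain ⟨d, s, s', c, rfl⟩ := he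
  refine ⟨s, s', m.zz d * c, ?_⟩
  rw [(m.cen_k s).pull, (m.cen_k s').pull]

theorem mul_mem_P (b : B) {e : B} (he : e ∈ m.P) : b * e ∈ m.P := by
  obtain ⟨d, s, s', c, rfl⟩ := he
  refine ⟨d, s, s', b * c, ?_⟩
  rw [(m.cen_zz d).pull, (m.cen_k s).pull, (m.cen_k s').pull]

theorem mul_mem_Vpp (b : B) {e : B} (he : e ∈ m.Vpp) : b * e ∈ m.Vpp := by
  induction he using Submodule.span_induction with
  | mem x hx => exact Submodule.subset_span (m.mul_mem_P b hx)
  | zero => rw [mul_zero]; exact m.Vpp.zero_mem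
  | add x y _ _ hx hy => rw [mul_add]; exact m.Vpp.add_mem hx hy
  | smul r x _ hx => rw [mul_smul_comm]; exact m.Vpp.smul_mem r hx

theorem zz_mem (d : S × Option B) (s s' : S) (c : B) :
    m.zz d * (m.k s * (m.k s' * c)) ∈ m.Vpp := Submodule.subset_span ⟨d, s, s', c, rfl⟩

/-- the exchange in the form `ζ_s(b) zz δ (k s' c) ∈ Vpp` -/
theorem z_zz_mem (s : S) (b : B) (d : S × Option B) (s' : S) (c : B) :
    m.z s b * (m.zz d * (m.k s' * c)) ∈ m.Vpp := by
  rcases d with ⟨p, _ | w⟩
  · show m.z s b * (m.k p * (m.k s' * c)) ∈ m.Vpp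
    rw [← (m.cen_z s b).m1, m.exch, (m.cen_k s).m1, ← (m.cen_k s).pull]
    exact m.zz_mem (p, some b) s s' c
  · show m.z s b * (m.z p w * (m.k s' * c)) ∈ m.Vpp
    rw [(m.cen_z p w).pull, ← (m.cen_z p w).m1, ← m.exch2 p s b w, (m.cen_k s).m2, sub_mul,
      add_mul, add_mul, (m.cen_z p w).m2, (m.cen_z p b).m2, (m.cen_k p).m2]
    refine m.Vpp.sub_mem (m.Vpp.add_mem (m.Vpp.add_mem ?_ ?_) ?_) ?_
    · exact m.zz_mem (p, some (b * w)) s s' c
    · exact m.mul_mem_Vpp b (m.zz_mem (p, some w) s s' c)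
    · exact m.mul_mem_Vpp w (m.zz_mem (p, some b) s s' c)
    · exact m.mul_mem_Vpp _ (m.zz_mem (p, none) s s' c)

theorem Lop_mem (b : B) : ∀ x ∈ m.M, Lop (F := F) S b x ∈ m.M := by
  rintro _ ⟨e, he, rfl⟩
  rw [Lop_fe]
  exact ⟨_, m.mul_mem_Vpp b he, rfl⟩

theorem Top_mem (b : B) : ∀ x ∈ m.M, Top (F := F) S b x ∈ m.M := by
  rintro _ ⟨e, he, rfl⟩
  have he' : e ∈ m.Vpp := he
  induction he' using Submodule.span_induction with
  | mem x hx =>
    obtain ⟨d, s, s', c, rfl⟩ := hx
    rw [(m.cen_k s).pull, Top_fe]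
    exact ⟨_, m.z_zz_mem s b d s' c, rfl⟩
  | zero => rw [map_zero, map_zero]; exact m.M.zero_mem
  | add x y hx' hy' hx hy =>
    rw [map_add, map_add]; exact m.M.add_mem (hx hx') (hy hy')
  | smul r x hx' hx => rw [map_smul, map_smul]; exact m.M.smul_mem r (hx hx')

/-- two operators agree on `M` if they agree on the functions `fe (k s (k s' g))` -/
theorem eq_on (A A' : (S × Option B → B) →ₗ[F] (S × Option B → B))
    (h : ∀ s s' g, A (m.fe (m.k s * (m.k s' * g))) = A' (m.fe (m.k s * (m.k s' * g)))) :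
    ∀ x ∈ m.M, A x = A' x := by
  rintro _ ⟨e, he, rfl⟩
  have he' : e ∈ m.Vpp := he
  induction he' using Submodule.span_induction with
  | mem x hx =>
    obtain ⟨s, s', g, rfl⟩ := m.P_form hx
    exact h s s' g
  | zero => rw [map_zero, map_zero, map_zero]
  | add x y hx' hy' hx hy => rw [map_add, map_add, map_add, hx hx', hy hy']
  | smul r x hx' hx => rw [map_smul, map_smul, map_smul, hx hx']

theorem Top_Top (b b' : B) : ∀ x ∈ m.M, Top (F := F) S b (Top (F := F) S b' x)
    = Top (F := F) S b' (Top (F := F) S b x) := by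
  refine m.eq_on (Top S b ∘ₗ Top S b') (Top S b' ∘ₗ Top S b) ?_
  intro s s' g
  rw [LinearMap.comp_apply, LinearMap.comp_apply, Top_fe, Top_fe]
  have e1 : m.z s b' * (m.k s' * g) = m.k s' * (m.z s b' * g) := (m.cen_k s').pull _ _
  have e2 : m.z s b * (m.k s' * g) = m.k s * (m.z s' b * g) := by
    rw [← (m.cen_z s b).m1, m.exch, (m.cen_k s).m1]
  rw [e1, e2, Top_fe, Top_fe, (m.cen_z s b').pull]

theorem Top_Lop (b c : B) : ∀ x ∈ m.M, Top (F := F) S b (Lop (F := F) S c x)
    = Lop (F := F) S c (Top (F := F) S b x) := by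
  refine m.eq_on (Top S b ∘ₗ Lop S c) (Lop S c ∘ₗ Top S b) ?_
  intro s s' g
  rw [LinearMap.comp_apply, LinearMap.comp_apply, Lop_fe, (m.cen_k s).pull, Top_fe, Top_fe,
    Lop_fe, (m.cen_z s b).pull]

/-- `n(b) = t(b) l(b) - l(b)²` -/
def Nop (b : B) : (S × Option B → B) →ₗ[F] (S × Option B → B) :=
  Top S b ∘ₗ Lop S b - Lop S b ∘ₗ Lop S b

theorem Nop_fe (b : B) (s : S) (x : B) :
    Nop (F := F) (S := S) b (m.fe (m.k s * x)) = m.fe ((b * m.z s b - (b * b) * m.k s) * x) := by
  rw [Nop, LinearMap.sub_apply, LinearMap.comp_apply, LinearMap.comp_apply, Lop_fe, Lop_fe,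
    (m.cen_k s).pull, Top_fe, (m.cen_k s).pull, ← map_sub, sub_mul, (m.cen_z s b).m2,
    (m.cen_k s).m2, (m.cen_z s b).pull, (m.cen_k s).pull, IsAlt.left]

theorem Nop_Lop (b c : B) : ∀ x ∈ m.M, Nop (F := F) (S := S) b (Lop (F := F) S c x)
    = Lop (F := F) S c (Nop (F := F) (S := S) b x) := by
  refine m.eq_on (Nop b ∘ₗ Lop S c) (Lop S c ∘ₗ Nop b) ?_
  intro s s' g
  rw [LinearMap.comp_apply, LinearMap.comp_apply, Lop_fe, (m.cen_k s).pull, Nop_fe, Nop_fe,
    Lop_fe, (m.cen_n s b).pull]

end Mach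

end ALT
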