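import Mathlib

/-!
A Nullstellensatz argument: an element `a` of an algebra `E` over a finitely generated commutative
algebra `P` over a field `F` such that every `1 - q(a)`, `q ∈ x F[x]`, has a left inverse integral
over `P`, is nilpotent.  (helper26, project ALT, MP_643ad6_al)
-/

set_option linter.unusedSectionVars false
set_option linter.style.haveILetI false

namespace ALT

open Polynomial

section null

variable {F : Type*} [Field F]

/-- In a finite field extension a nonzero element `x` satisfies `q(x) = 1`, `q(0) = 0`. -/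
theorem exists_poly_one {K : Type*} [Field K] [Algebra F K] {x : K} (hx : x ≠ 0)
    (hi : IsIntegral F x) : ∃ q : F[X], q.coeff 0 = 0 ∧ aeval x q = 1 := by
  have hc : (minpoly F x).coeff 0 ≠ 0 := minpoly.coeff_zero_ne_zero hi hx
  refine ⟨C 1 - C ((minpoly F x).coeff 0)⁻¹ * minpoly F x, ?_, ?_⟩
  · rw [coeff_sub, coeff_C_zero, coeff_C_mul, inv_mul_cancel₀ hc, sub_self]
  · rw [map_sub, map_mul, minpoly.aeval, mul_zero, sub_zero, map_one, map_one]

/-- If `v u = 1` then `v^i u^d = u^(d-i)` for `i ≤ d`. -/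
theorem pow_mul_pow_of_mul_eq_one {E : Type*} [Ring E] {u v : E} (h : v * u = 1) (i k : ℕ) :
    v ^ i * u ^ (i + k) = u ^ k := by
  induction i with
  | zero => simp
  | succ i ih =>
    rw [pow_succ, mul_assoc, show i + 1 + k = (i + k) + 1 by ring, pow_succ' u (i + k),
      ← mul_assoc v, h, one_mul, ih]

variable {P : Type*} [CommRing P] [Algebra F P] [Algebra.FiniteType F P]
  {E : Type*} [Ring E] [Algebra F E] [Algebra P E] [IsScalarTower F P E]

theorem isNilpotent_of_quasi (a : E)
    (h : ∀ q : F[X], q.coeff 0 = 0 →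
      ∃ v : E, IsIntegral P v ∧ v * (1 - aeval a q) = 1) : IsNilpotent a := by
  classical
  haveI hP : IsJacobsonRing P := isJacobsonRing_of_finiteType (A := F)
  by_contra hnil
  set φ : P[X] →ₐ[P] E := aeval a with hφ
  set I : Ideal P[X] := RingHom.ker φ.toRingHom with hI
  have hX : (X : P[X]) ∉ I.radical := by
    intro hX
    obtain ⟨k, hk⟩ := hX
    apply hnil
    refine ⟨k, ?_⟩
    have : φ (X ^ k) = 0 := hk
    rwa [map_pow, hφ, aeval_X] at this
  rw [Ideal.radical_eq_jacobson, Ideal.jacobson, Submodule.mem_sInf] at hX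
  push Not at hX
  obtain ⟨m, ⟨hIm, hm⟩, hXm⟩ := hX
  haveI := hm
  letI : Field (P[X] ⧸ m) := Ideal.Quotient.field m
  haveI hft : Algebra.FiniteType F (P[X] ⧸ m) := by
    haveI h1 : Algebra.FiniteType F P[X] :=
      Algebra.FiniteType.trans (S := P) inferInstance inferInstance
    exact Algebra.FiniteType.of_surjective (Ideal.Quotient.mkₐ F m)
      (Ideal.Quotient.mkₐ_surjective F m)
  haveI hfin : Module.Finite F (P[X] ⧸ m) := finite_of_finite_type_of_isJacobsonRing F _
  have hx : (Ideal.Quotient.mk m X) ≠ 0 := by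
    rwa [Ne, Ideal.Quotient.eq_zero_iff_mem]
  obtain ⟨q, hq0, hq1⟩ := exists_poly_one (F := F) hx (Algebra.IsIntegral.isIntegral _)
  -- the polynomial `1 - q(X)` over `P`
  set Q : P[X] := 1 - aeval (X : P[X]) q with hQ
  have hQm : Q ∈ m := by
    rw [← Ideal.Quotient.eq_zero_iff_mem, hQ, map_sub, map_one]
    have : (Ideal.Quotient.mk m) (aeval (X : P[X]) q) = aeval (Ideal.Quotient.mk m X) q := by
      have := (aeval_algHom_apply (Ideal.Quotient.mkₐ F m) (X : P[X]) q)
      rw [Ideal.Quotient.mkₐ_eq_mk] at this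
      exact this.symm
    rw [this, hq1, sub_self]
  have hφQ : φ Q = 1 - aeval a q := by
    rw [hQ, map_sub, map_one]
    congr 1
    have := aeval_algHom_apply (φ.restrictScalars F) (X : P[X]) q
    rw [AlgHom.restrictScalars_apply, AlgHom.restrictScalars_apply] at this
    rw [← this, hφ, aeval_X]
  obtain ⟨v, ⟨p, hp, hpv⟩, hv⟩ := h q hq0
  rw [← hφQ] at hv
  -- `w = ∑ p_i Q^(d-i)`
  set w : P[X] := ∑ i ∈ Finset.range (p.natDegree + 1), C (p.coeff i) * Q ^ (p.natDegree - i)
    with hw
  have hwI : w ∈ I := by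
    change φ w = 0
    rw [hw, map_sum]
    have h1 : ∀ i ∈ Finset.range (p.natDegree + 1), φ (C (p.coeff i) * Q ^ (p.natDegree - i)) =
        (algebraMap P E (p.coeff i) * v ^ i) * (φ Q) ^ p.natDegree := by
      intro i hi
      rw [Finset.mem_range] at hi
      rw [map_mul, map_pow, hφ, aeval_C, ← hφ, mul_assoc]
      congr 1
      have := pow_mul_pow_of_mul_eq_one hv i (p.natDegree - i)
      rw [show i + (p.natDegree - i) = p.natDegree by omega] at this
      exact this.symm
    rw [Finset.sum_congr rfl h1, ← Finset.sum_mul]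
    have h2 : ∑ i ∈ Finset.range (p.natDegree + 1), algebraMap P E (p.coeff i) * v ^ i = 0 := by
      rw [← hpv, eval₂_eq_sum_range]
    rw [h2, zero_mul]
  have hwm : w ∈ m := hIm hwI
  rw [hw, Finset.sum_range_succ, hp.coeff_natDegree, Nat.sub_self, pow_zero, mul_one, map_one] at hwm
  have h3 : ∑ i ∈ Finset.range p.natDegree, C (p.coeff i) * Q ^ (p.natDegree - i) ∈ m := by
    apply Ideal.sum_mem
    intro i hi
    rw [Finset.mem_range] at hi
    apply Ideal.mul_mem_left
    exact Ideal.pow_mem_of_mem m hQm _ (by omega)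
  have h4 : (1 : P[X]) ∈ m := by
    have := sub_mem hwm h3
    rwa [add_sub_cancel_left] at this
  exact hm.ne_top ((Ideal.eq_top_iff_one _).mpr h4)

end null

end ALT
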