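import Pool.Agent.ALT.S6nA

/-!
Clifford-like letters which are nilpotent generate a nilpotent algebra.
(helper26, project ALT, MP_643ad6_al)
-/

set_option linter.unusedSectionVars false

namespace ALT

section cl

variable {Z E : Type*} [CommRing Z] [Ring E] [Algebra Z E]

/-- the two-sided ideal of `E` generated by an ideal of the central ring `Z` -/
def idE (E : Type*) [Ring E] [Algebra Z E] (I : Ideal Z) : Submodule Z E :=
  I • (⊤ : Submodule Z E)

theorem smul_mem_idE {I : Ideal Z} {z : Z} (hz : z ∈ I) (e : E) : z • e ∈ idE E I :=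
  Submodule.smul_mem_smul hz trivial

theorem algebraMap_mem_idE {I : Ideal Z} {z : Z} (hz : z ∈ I) : algebraMap Z E z ∈ idE E I := by
  rw [Algebra.algebraMap_eq_smul_one]
  exact smul_mem_idE hz 1

theorem mul_mem_idE {I K : Ideal Z} {x y : E} (hx : x ∈ idE E I) (hy : y ∈ idE E K) :
    x * y ∈ idE E (I * K) := by
  unfold idE at *
  refine Submodule.smul_induction_on hx ?_ ?_
  · intro r hr e _
    refine Submodule.smul_induction_on hy ?_ ?_
    · intro r' hr' e' _
      rw [smul_mul_smul_comm]
      exact Submodule.smul_mem_smul (Ideal.mul_mem_mul hr hr') trivial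
    · intro x y hx hy
      rw [mul_add]
      exact add_mem hx hy
  · intro x' y' hx hy
    rw [add_mul]
    exact add_mem hx hy

theorem idE_left {I : Ideal Z} {x : E} (hx : x ∈ idE E I) (e : E) : e * x ∈ idE E I := by
  have : e ∈ idE E (⊤ : Ideal Z) := by
    rw [idE, Submodule.top_smul]; trivial
  have h := mul_mem_idE this hx
  rwa [Ideal.top_mul] at h

theorem idE_right {I : Ideal Z} {x : E} (hx : x ∈ idE E I) (e : E) : x * e ∈ idE E I := by
  have : e ∈ idE E (⊤ : Ideal Z) := by
    rw [idE, Submodule.top_smul]; trivial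
  have h := mul_mem_idE hx this
  rwa [Ideal.mul_top] at h

theorem idE_mono {I K : Ideal Z} (h : I ≤ K) : idE E I ≤ idE E K :=
  Submodule.smul_mono_left h

/-- If `b² ≡ σ b` and `b^s = 0` then `σ^s b ≡ 0`. -/
theorem sigma_pow {I : Ideal Z} {b : E} {σ : Z} (h : b * b - σ • b ∈ idE E I) {s : ℕ}
    (hs : b ^ s = 0) : σ ^ s • b ∈ idE E I := by
  have key : ∀ m : ℕ, b ^ (m + 1) - σ ^ m • b ∈ idE E I := by
    intro m
    induction m with
    | zero => simp
    | succ m ih =>
      have e : b ^ (m + 1 + 1) - σ ^ (m + 1) • b =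
          (b ^ (m + 1) - σ ^ m • b) * b + σ ^ m • (b * b - σ • b) := by
        rw [sub_mul, smul_mul_assoc, smul_sub, smul_smul, ← pow_succ, ← pow_succ]
        abel
      rw [e]
      exact add_mem (idE_right ih b) (Submodule.smul_mem _ _ h)
  have := key s
  rw [pow_succ, hs, zero_mul, zero_sub, neg_mem_iff] at this
  exact this

variable {ι : Type*} (a : ι → E)

variable (Z) in
/-- span of the words of length exactly `k` -/
def spY (k : ℕ) : Submodule Z E :=
  Submodule.span Z {x | ∃ w : List ι, w.length = k ∧ x = wv a w}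

theorem wv_mem_spY {w : List ι} {k : ℕ} (h : w.length = k) : wv a w ∈ spY Z a k :=
  Submodule.subset_span ⟨w, h, rfl⟩

variable [Fintype ι] (τ ν : ι → Z) (ν' : ι → ι → Z)

/-- **Clifford-like nilpotency.** -/
theorem clifford_nil (hinj : Function.Injective (algebraMap Z E))
    (hsq : ∀ i, a i * a i = τ i • a i - algebraMap Z E (ν i))
    (hac : ∀ i j, a i * a j + a j * a i = τ i • a j + τ j • a i - algebraMap Z E (ν' i j))
    (hn : ∀ i, IsNilpotent (a i)) (hn' : ∀ i j, IsNilpotent (a i + a j)) :
    ∃ N : ℕ, ∀ w : List ι, w.length = N → wv a w = 0 := by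
  classical
  -- the squares
  have hsq2 : ∀ i j, (a i + a j) * (a i + a j) = (τ i + τ j) • (a i + a j) -
      algebraMap Z E (ν i + ν j + ν' i j) := by
    intro i j
    have h1 := hsq i
    have h2 := hsq j
    have h3 := hac i j
    rw [map_add, map_add]
    simp only [add_mul, mul_add, add_smul, smul_add]
    linear_combination (norm := abel) h1 + h2 + h3
  -- nilpotency of the norms
  have hnil : ∀ (b : E) (σ ρ : Z), b * b = σ • b - algebraMap Z E ρ → IsNilpotent b →
      IsNilpotent ρ := by
    intro b σ ρ h hb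
    have e : algebraMap Z E ρ = (algebraMap Z E σ - b) * b := by
      rw [sub_mul, h, Algebra.smul_def]; abel
    have hc : Commute (algebraMap Z E σ - b) b :=
      Commute.sub_left (Algebra.commutes σ b) (Commute.refl b)
    have h2 : IsNilpotent (algebraMap Z E ρ) := by
      rw [e]; exact hc.isNilpotent_mul_left hb
    obtain ⟨k, hk⟩ := h2
    refine ⟨k, hinj ?_⟩
    rw [map_pow, hk, map_zero]
  have hν : ∀ i, IsNilpotent (ν i) := fun i => hnil _ _ _ (hsq i) (hn i)
  have hν' : ∀ i j, IsNilpotent (ν' i j) := by
    intro i j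
    have h1 := hnil _ _ _ (hsq2 i j) (hn' i j)
    have e : ν' i j = (ν i + ν j + ν' i j) - (ν i + ν j) := by ring
    rw [e]
    have h2 : IsNilpotent (ν i + ν j) := (Commute.all _ _).isNilpotent_add (hν i) (hν j)
    exact (Commute.all _ _).isNilpotent_sub h1 h2
  set I0 : Ideal Z := Ideal.span (Set.range ν ∪ Set.range (Function.uncurry ν')) with hI0
  have hνI : ∀ i, ν i ∈ I0 := fun i => Ideal.subset_span (Or.inl ⟨i, rfl⟩)
  have hν'I : ∀ i j, ν' i j ∈ I0 := fun i j => Ideal.subset_span (Or.inr ⟨(i, j), rfl⟩)
  have hI0fg : I0.FG := Submodule.fg_span ((Set.finite_range _).union (Set.finite_range _))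
  obtain ⟨s, hs⟩ : IsNilpotent I0 := by
    rw [hI0fg.isNilpotent_iff_le_nilradical, hI0, Ideal.span_le]
    rintro x (⟨i, rfl⟩ | ⟨⟨i, j⟩, rfl⟩)
    · exact hν i
    · exact hν' i j
  -- the annihilators
  set Jk : ι → Ideal Z := fun k =>
    Submodule.comap (LinearMap.toSpanSingleton Z E (a k)) (idE E I0) with hJk
  have mem_Jk : ∀ k z, z ∈ Jk k ↔ z • a k ∈ idE E I0 := fun k z => Iff.rfl
  have hτ1 : ∀ i, τ i ∈ (Jk i).radical := by
    intro i
    obtain ⟨m, hm⟩ := hn i
    refine ⟨m, ?_⟩
    rw [mem_Jk]
    refine sigma_pow ?_ hm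
    rw [hsq i, sub_sub_cancel_left, neg_mem_iff]
    exact algebraMap_mem_idE (hνI i)
  have hτ2 : ∀ i k, τ i ∈ (Jk k).radical := by
    intro i k
    obtain ⟨m, hm⟩ := hn i
    obtain ⟨m', hm'⟩ := hn' i k
    have h1 : τ i ^ m • a i ∈ idE E I0 := by
      refine sigma_pow ?_ hm
      rw [hsq i, sub_sub_cancel_left, neg_mem_iff]
      exact algebraMap_mem_idE (hνI i)
    have h2 : (τ i + τ k) ^ m' • (a i + a k) ∈ idE E I0 := by
      refine sigma_pow ?_ hm'
      rw [hsq2 i k, sub_sub_cancel_left, neg_mem_iff]
      exact algebraMap_mem_idE (add_mem (add_mem (hνI i) (hνI k)) (hν'I i k))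
    have h3 : τ i * (τ i + τ k) ∈ (Jk k).radical := by
      refine ⟨m + m', ?_⟩
      rw [mem_Jk]
      have e : (τ i * (τ i + τ k)) ^ (m + m') • a k =
          (τ i ^ m' * (τ i + τ k) ^ m) • (τ i ^ m • ((τ i + τ k) ^ m' • (a i + a k)) -
            (τ i + τ k) ^ m' • (τ i ^ m • a i)) := by
        rw [smul_add, smul_add, smul_comm ((τ i + τ k) ^ m') (τ i ^ m) (a i), add_sub_cancel_left,
          smul_smul, smul_smul]
        congr 1
        rw [mul_pow, pow_add, pow_add]
        ring
      rw [e]
      exact Submodule.smul_mem _ _ (sub_mem (Submodule.smul_mem _ _ h2)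
        (Submodule.smul_mem _ _ h1))
    have h4 : τ i * τ i ∈ (Jk k).radical := by
      have e : τ i * τ i = τ i * (τ i + τ k) - τ i * τ k := by ring
      rw [e]
      exact sub_mem h3 (Ideal.mul_mem_left _ _ (hτ1 k))
    obtain ⟨r, hr⟩ := h4
    refine ⟨2 * r, ?_⟩
    rwa [pow_mul, pow_two]
  set T : Ideal Z := Ideal.span (Set.range τ) with hT
  have hτT : ∀ i, τ i ∈ T := fun i => Ideal.subset_span ⟨i, rfl⟩
  have hTfg : T.FG := Submodule.fg_span (Set.finite_range _)
  have hTk : ∀ k, ∃ n : ℕ, T ^ n ≤ Jk k := by
    intro k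
    apply Ideal.exists_pow_le_of_le_radical_of_fg _ hTfg
    rw [hT, Ideal.span_le]
    rintro x ⟨i, rfl⟩
    exact hτ2 i k
  choose nk hnk using hTk
  set n : ℕ := ∑ k, nk k with hn_def
  have hn1 : ∀ k, T ^ n ≤ Jk k := by
    intro k
    refine le_trans (Ideal.pow_le_pow_right ?_) (hnk k)
    exact Finset.single_le_sum (f := nk) (fun _ _ => Nat.zero_le _) (Finset.mem_univ k)
  -- straightening
  set r := Fintype.card ι with hr
  have hA : ∀ m, r ≤ m → spY Z a (m + 1) ≤ idE E I0 ⊔ T • spY Z a m := by
    intro m hm
    rw [spY, Submodule.span_le]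
    rintro x ⟨w, hw, rfl⟩
    have hc := clifford_word a (fun k => (idE E I0 ⊔ T • spY Z a (k - 1)).toAddSubgroup)
      (fun u z i => by
        change _ ∈ (idE E I0 ⊔ T • spY Z a (u.length + z.length + 2 - 1) : Submodule Z E)
        have e : wv a u * (a i * a i) * wv a z =
            - (ν i • (wv a u * wv a z)) + τ i • wv a (u ++ i :: z) := by
          rw [hsq i, wv_append, wv_cons, mul_sub, sub_mul, mul_smul_comm, smul_mul_assoc,
            Algebra.algebraMap_eq_smul_one, mul_smul_comm, smul_mul_assoc, mul_one,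
            mul_assoc (wv a u)]
          abel
        rw [e]
        refine Submodule.add_mem_sup (neg_mem (smul_mem_idE (hνI i) _)) ?_
        exact Submodule.smul_mem_smul (hτT i) (wv_mem_spY a (by simp; omega)))
      (fun u z i j => by
        change _ ∈ (idE E I0 ⊔ T • spY Z a (u.length + z.length + 2 - 1) : Submodule Z E)
        have e : wv a u * (a i * a j + a j * a i) * wv a z =
            - (ν' i j • (wv a u * wv a z)) + (τ i • wv a (u ++ j :: z) +
              τ j • wv a (u ++ i :: z)) := by
          rw [hac i j, wv_append, wv_append, wv_cons, wv_cons, mul_sub, sub_mul, mul_add, add_mul,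
            mul_smul_comm, smul_mul_assoc, mul_smul_comm, smul_mul_assoc,
            Algebra.algebraMap_eq_smul_one, mul_smul_comm, smul_mul_assoc, mul_one,
            mul_assoc (wv a u), mul_assoc (wv a u)]
          abel
        rw [e]
        refine Submodule.add_mem_sup (neg_mem (smul_mem_idE (hν'I i j) _)) (add_mem ?_ ?_)
        · exact Submodule.smul_mem_smul (hτT i) (wv_mem_spY a (by simp; omega))
        · exact Submodule.smul_mem_smul (hτT j) (wv_mem_spY a (by simp; omega)))
      w (by omega)
    rw [hw] at hc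
    exact hc
  have hB : ∀ q, spY Z a (r + q) ≤ idE E I0 ⊔ T ^ q • spY Z a r := by
    intro q
    induction q with
    | zero => rw [pow_zero, Ideal.one_eq_top, Submodule.top_smul]; exact le_sup_right
    | succ q ih =>
      refine (hA (r + q) (by omega)).trans ?_
      refine sup_le le_sup_left ?_
      refine (Submodule.smul_mono (le_refl T) ih).trans ?_
      rw [Submodule.smul_sup]
      refine sup_le ?_ ?_
      · refine le_trans ?_ le_sup_left
        exact Submodule.smul_le_right
      · refine le_trans ?_ le_sup_right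
        rw [← Submodule.mul_smul, pow_succ']
  have hC : spY Z a (r + n + 1) ≤ idE E I0 := by
    have h1 : spY Z a (r + n + 1) ≤ idE E I0 ⊔ T ^ n • spY Z a (r + 1) := by
      -- words of length r + n + 1 = a letter times a word of length r + n
      rw [spY, Submodule.span_le]
      rintro x ⟨w, hw, rfl⟩
      rcases w with _ | ⟨k, w⟩
      · simp at hw
      · rw [wv_cons]
        have h2 : wv a w ∈ idE E I0 ⊔ T ^ n • spY Z a r :=
          hB n (wv_mem_spY a (by simpa using hw))
        obtain ⟨y, hy, z, hz, e⟩ := Submodule.mem_sup.mp h2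
        rw [← e, mul_add]
        refine Submodule.add_mem_sup (idE_left hy _) ?_
        refine Submodule.smul_induction_on hz ?_ ?_
        · intro c hc e' he'
          rw [mul_smul_comm]
          refine Submodule.smul_mem_smul hc ?_
          unfold spY at he'
          induction he' using Submodule.span_induction with
          | mem x hx =>
            obtain ⟨w', hw', rfl⟩ := hx
            rw [← wv_cons]
            exact wv_mem_spY a (by simpa using hw')
          | zero => rw [mul_zero]; exact zero_mem _
          | add x y _ _ hx hy => rw [mul_add]; exact add_mem hx hy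
          | smul c x _ hx => rw [mul_smul_comm]; exact Submodule.smul_mem _ _ hx
        · intro x y hx hy
          rw [mul_add]
          exact add_mem hx hy
    refine h1.trans (sup_le le_rfl ?_)
    rw [Submodule.smul_le]
    intro c hc e he
    unfold spY at he
    induction he using Submodule.span_induction with
    | mem x hx =>
      obtain ⟨w', hw', rfl⟩ := hx
      rcases w' with _ | ⟨k, w'⟩
      · simp at hw'
      · rw [wv_cons, ← smul_mul_assoc]
        exact idE_right ((mem_Jk k c).mp (hn1 k hc)) _
    | zero => rw [smul_zero]; exact zero_mem _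
    | add x y _ _ hx hy => rw [smul_add]; exact add_mem hx hy
    | smul c' x _ hx => rw [smul_comm]; exact Submodule.smul_mem _ _ hx
  -- powers
  have hD : ∀ q, ∀ w : List ι, w.length = (r + n + 1) * q → wv a w ∈ idE E (I0 ^ q) := by
    intro q
    induction q with
    | zero =>
      intro w _
      rw [pow_zero, Ideal.one_eq_top, idE, Submodule.top_smul]; trivial
    | succ q ih =>
      intro w hw
      have e := List.take_append_drop (r + n + 1) w
      rw [← e, wv_append, pow_succ']
      refine mul_mem_idE (hC (wv_mem_spY a ?_)) (ih _ ?_)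
      · rw [List.length_take, hw]
        refine min_eq_left ?_
        rw [Nat.mul_succ]; omega
      · rw [List.length_drop, hw, Nat.mul_succ]; omega
  refine ⟨(r + n + 1) * s, fun w hw => ?_⟩
  have := hD s w hw
  rw [hs] at this
  unfold idE at this
  rw [Submodule.zero_eq_bot, Submodule.bot_smul, Submodule.mem_bot] at this
  exact this

end cl

end ALT
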