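import Pool.Agent.ALT.ZRad
import Pool.Agent.ALT.S6nB
import Pool.Agent.ALT.S6nC

/-!
Quadratic representations: `ClRep F B E` (operators `l b` with trace `t b` and norm `n b`
commuting with everything) and the theorem `ClRep.nil`: an ideal of quasi-regular elements acts
nilpotently as soon as the algebra generated by all `l b` is generated by finitely many of them.
(helper26, project ALT, MP_643ad6_al)
-/

set_option linter.unusedSectionVars false
set_option linter.style.haveILetI false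

namespace ALT

open Polynomial

/-- Quadratic representation of a nonassociative algebra. -/
structure ClRep (F : Type*) [Field F] (B : Type*) [NonUnitalNonAssocRing B] [Module F B]
    (E : Type*) [Ring E] [Algebra F E] where
  l : B →ₗ[F] E
  t : B →ₗ[F] E
  n : B → E
  l_sq : ∀ b, l (b * b) = l b * l b
  l_U : ∀ b c, l (b * c * b) = l b * l c * l b
  quad : ∀ b, l b * l b = t b * l b - n b
  t_l : ∀ b c, Commute (t b) (l c)
  t_t : ∀ b c, Commute (t b) (t c)
  n_l : ∀ b c, Commute (n b) (l c)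

namespace ClRep

variable {F : Type*} [Field F] {B : Type*} [NonUnitalNonAssocRing B] [Module F B]
  {E : Type*} [Ring E] [Algebra F E] (ρ : ClRep F B E)

theorem n_eq (b : B) : ρ.n b = ρ.t b * ρ.l b - ρ.l b * ρ.l b := by
  rw [ρ.quad b]; abel

theorem n_t (b c : B) : Commute (ρ.n b) (ρ.t c) := by
  rw [n_eq]
  exact (((ρ.t_t c b).mul_right (ρ.t_l c b)).sub_right ((ρ.t_l c b).mul_right (ρ.t_l c b))).symm

theorem n_n (b c : B) : Commute (ρ.n b) (ρ.n c) := by
  rw [n_eq ρ c]
  exact ((ρ.n_t b c).mul_right (ρ.n_l b c)).sub_right ((ρ.n_l b c).mul_right (ρ.n_l b c))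

theorem l_add_mul (x y : B) : ρ.l (x * y + y * x) = ρ.l x * ρ.l y + ρ.l y * ρ.l x := by
  have h := ρ.l_sq (x + y)
  have h1 := ρ.l_sq x
  have h2 := ρ.l_sq y
  simp only [mul_add, add_mul, map_add] at h ⊢
  linear_combination (norm := abel) h - h1 - h2

/-- polarised quadratic relation -/
theorem polar (x y : B) : ρ.l x * ρ.l y + ρ.l y * ρ.l x =
    ρ.t x * ρ.l y + ρ.t y * ρ.l x - (ρ.n (x + y) - ρ.n x - ρ.n y) := by
  have h := ρ.quad (x + y)
  have h1 := ρ.quad x
  have h2 := ρ.quad y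
  simp only [map_add, mul_add, add_mul] at h
  linear_combination (norm := abel) h - h1 - h2

section alt
variable [IsAlt B]

/-- quasi-inverse elements give inverse operators -/
theorem inv_of_qr {f g : B} (h1 : f + g = f * g) (h2 : f + g = g * f) :
    (1 - ρ.l g) * (1 - ρ.l f) = 1 := by
  have e1 : ρ.l f * ρ.l g * ρ.l f = ρ.l f * ρ.l f + ρ.l f + ρ.l g := by
    rw [← ρ.l_U, ← h1, add_mul, ← h2, map_add, map_add, ρ.l_sq, add_assoc]
  have e2 : ρ.l f * ρ.l g + ρ.l g * ρ.l f = ρ.l f + ρ.l g + (ρ.l f + ρ.l g) := by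
    rw [← ρ.l_add_mul, ← h1, ← h2, map_add, map_add]
  have g1 : f * (g * g) = f + g + g * g := by
    rw [← IsAlt.right, ← h1, add_mul, ← h1]
  have g2 : (g * g) * f = f + g + g * g := by
    rw [IsAlt.left, ← h2, mul_add, ← h2]
  have e3 : ρ.l f * ρ.l (g * g) + ρ.l (g * g) * ρ.l f =
      ρ.l f + ρ.l g + ρ.l (g * g) + (ρ.l f + ρ.l g + ρ.l (g * g)) := by
    rw [← ρ.l_add_mul, g1, g2, map_add, map_add, map_add]
  have e4 : ρ.l f * ρ.l (g * g) * ρ.l f = ρ.l f * ρ.l f + (ρ.l f + ρ.l g) +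
      (ρ.l f + ρ.l g + ρ.l (g * g)) := by
    rw [← ρ.l_U, g1, add_mul, add_mul, g2, ← h2]
    simp only [map_add, ρ.l_sq]
  rw [ρ.l_sq g] at e3 e4
  -- `u v u = u`
  have k1 : (1 - ρ.l f) * (1 - ρ.l g) * (1 - ρ.l f) = 1 - ρ.l f := by
    linear_combination (norm := noncomm_ring) e2 - e1
  have k2 : ((1 - ρ.l f) * ((1 - ρ.l g) * (1 - ρ.l g))) * (1 - ρ.l f) = 1 := by
    linear_combination (norm := noncomm_ring) (2 : ℤ) • e2 - (2 : ℤ) • e1 - e3 + e4
  have k3 : (1 - ρ.l f) * ((1 - ρ.l g) * (1 - ρ.l g)) *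
      ((1 - ρ.l f) * ((1 - ρ.l g) * (1 - ρ.l f))) = 1 := by
    rw [← mul_assoc (1 - ρ.l f) (1 - ρ.l g) (1 - ρ.l f), k1, k2]
  rw [← mul_assoc, k2, one_mul] at k3
  exact k3

/-- powers of `l j` are values of `l` on the ideal -/
theorem pow_mem {J : Submodule F B} (hJ : IsTwoSided J) {j : B} (hj : j ∈ J) (k : ℕ) :
    ∃ f ∈ J, ρ.l f = ρ.l j ^ (k + 1) := by
  induction k using Nat.strong_induction_on with
  | _ k ih =>
    rcases k with _ | _ | k
    · exact ⟨j, hj, by simp⟩
    · exact ⟨j * j, (hJ j j hj).1, by rw [ρ.l_sq]; simp [pow_two]⟩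
    · obtain ⟨f, hf, e⟩ := ih k (by omega)
      refine ⟨j * f * j, (hJ j _ (hJ j f hf).1).2, ?_⟩
      rw [ρ.l_U, e, ← pow_succ', ← pow_succ]

theorem aeval_mem {J : Submodule F B} (hJ : IsTwoSided J) {j : B} (hj : j ∈ J) (q : F[X])
    (hq : q.coeff 0 = 0) : ∃ f ∈ J, ρ.l f = aeval (ρ.l j) q := by
  have h : aeval (ρ.l j) q ∈ J.map ρ.l := by
    rw [aeval_eq_sum_range]
    refine Submodule.sum_mem _ ?_
    intro i _
    rcases i with _ | i
    · rw [hq, zero_smul]; exact zero_mem _
    · refine Submodule.smul_mem _ _ ?_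
      obtain ⟨f, hf, e⟩ := ρ.pow_mem hJ hj i
      exact ⟨f, hf, e⟩
  exact h

end alt

end ClRep

section span

variable {P E : Type*} [CommRing P] [Ring E] [Algebra P E]

/-- A product of elements of the span of the letters is in the span of the words. -/
theorem letter_mul_mem_spY {ι : Type*} (a : ι → E) {x y : E} {n : ℕ}
    (hx : x ∈ Submodule.span P (Set.range a)) (hy : y ∈ spY P a n) : x * y ∈ spY P a (n + 1) := by
  induction hx using Submodule.span_induction with
  | mem x hx =>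
    obtain ⟨i, rfl⟩ := hx
    unfold spY at hy
    induction hy using Submodule.span_induction with
    | mem y hy =>
      obtain ⟨w, hw, rfl⟩ := hy
      rw [← wv_cons]
      exact wv_mem_spY a (by simpa using hw)
    | zero => rw [mul_zero]; exact zero_mem _
    | add x y _ _ hx hy => rw [mul_add]; exact add_mem hx hy
    | smul c y _ hy => rw [mul_smul_comm]; exact Submodule.smul_mem _ _ hy
  | zero => rw [zero_mul]; exact zero_mem _
  | add x y _ _ hx hy => rw [add_mul]; exact add_mem hx hy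
  | smul c x _ hx => rw [smul_mul_assoc]; exact Submodule.smul_mem _ _ hx

theorem prod_mem_spY {ι : Type*} (a : ι → E) (xs : List E)
    (h : ∀ x ∈ xs, x ∈ Submodule.span P (Set.range a)) : xs.prod ∈ spY P a xs.length := by
  induction xs with
  | nil => exact wv_mem_spY a (w := []) rfl
  | cons x xs ih =>
    rw [List.prod_cons, List.length_cons]
    exact letter_mul_mem_spY a (h x List.mem_cons_self)
      (ih (fun y hy => h y (List.mem_cons_of_mem _ hy)))

end span

namespace ClRep

section central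

variable {F : Type*} [Field F] {B : Type*} [NonUnitalNonAssocRing B] [Module F B]
  [IsAlt B] {E : Type*} [Ring E] [Algebra F E] (ρ : ClRep F B E)

/-- The main theorem when traces and norms are central in `E`, and the finitely many ones needed
come from a finitely generated algebra `P`. -/
theorem nil_central_aux (ht : ∀ b e, Commute (ρ.t b) e) (hn : ∀ b e, Commute (ρ.n b) e)
    (U : Finset B) (hU : ∀ b, ρ.l b ∈ Algebra.adjoin F (ρ.l '' (U : Set B)))
    (J : Submodule F B) (hJ : IsTwoSided J) (hq : ∀ f ∈ J, IsQR f)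
    (P : Type*) [CommRing P] [Algebra F P] [Algebra.FiniteType F P] [Algebra P E]
    [IsScalarTower F P E] (tP nP : U → P) (mP : U → U → P)
    (htP : ∀ u : U, algebraMap P E (tP u) = ρ.t u)
    (hnP : ∀ u : U, algebraMap P E (nP u) = ρ.n u)
    (hmP : ∀ u v : U, algebraMap P E (mP u v) = ρ.n ((u : B) + v) - ρ.n u - ρ.n v) :
    ∃ N : ℕ, ∀ js : List B, (∀ j ∈ js, j ∈ J) → js.length = N → (js.map ρ.l).prod = 0 := by
  classical
  haveI : IsNoetherianRing P := Algebra.FiniteType.isNoetherianRing F P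
  -- letters
  set a : U → E := fun u => ρ.l u with ha
  have h1 : ∀ i : U, a i * a i ∈ spW P a 1 := by
    intro i
    have e : a i * a i = tP i • a i - nP i • 1 := by
      rw [Algebra.smul_def, Algebra.smul_def, htP, hnP, mul_one]
      exact ρ.quad i
    rw [e]
    refine sub_mem (Submodule.smul_mem _ _ ?_) (Submodule.smul_mem _ _ ?_)
    · have := wv_mem_spW (P := P) a (w := [i]) (k := 1) (by simp)
      simpa using this
    · exact wv_mem_spW (P := P) a (w := []) (k := 1) (by simp)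
  have h2 : ∀ i j : U, a i * a j + a j * a i ∈ spW P a 1 := by
    intro i j
    have e : a i * a j + a j * a i = tP i • a j + tP j • a i - mP i j • 1 := by
      rw [Algebra.smul_def, Algebra.smul_def, Algebra.smul_def, htP, htP, hmP, mul_one]
      exact ρ.polar i j
    rw [e]
    refine sub_mem (add_mem (Submodule.smul_mem _ _ ?_) (Submodule.smul_mem _ _ ?_))
      (Submodule.smul_mem _ _ ?_)
    · have := wv_mem_spW (P := P) a (w := [j]) (k := 1) (by simp)
      simpa using this
    · have := wv_mem_spW (P := P) a (w := [i]) (k := 1) (by simp)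
      simpa using this
    · exact wv_mem_spW (P := P) a (w := []) (k := 1) (by simp)
  set R0 := Algebra.adjoin P (Set.range a) with hR0
  have hR0le := adjoin_le_spW a h1 h2
  haveI hnoe : IsNoetherian P (spW P a (Fintype.card U)) :=
    isNoetherian_of_fg_of_noetherian _ (spW_fg a _)
  have hfgle : ∀ M : Submodule P E, M ≤ spW P a (Fintype.card U) → M.FG :=
    isNoetherian_submodule.mp hnoe
  haveI hR0fin : Module.Finite P R0 := by
    have : (Subalgebra.toSubmodule R0).FG := hfgle _ hR0le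
    exact Module.Finite.iff_fg.mpr this
  have hint : ∀ v ∈ R0, IsIntegral P v := by
    intro v hv
    have h := IsIntegral.of_finite P (⟨v, hv⟩ : R0)
    exact h.map (R0.val)
  have hlR0 : ∀ b, ρ.l b ∈ R0 := by
    intro b
    have h := hU b
    have hle : Algebra.adjoin F (ρ.l '' (U : Set B)) ≤ R0.restrictScalars F := by
      rw [Algebra.adjoin_le_iff]
      rintro x ⟨u, hu, rfl⟩
      change ρ.l u ∈ R0
      exact Algebra.subset_adjoin (Set.mem_range.mpr ⟨⟨u, hu⟩, rfl⟩)
    exact hle h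
  -- nilpotency of `l j`
  have hnil : ∀ j ∈ J, IsNilpotent (ρ.l j) := by
    intro j hj
    refine isNilpotent_of_quasi (F := F) (P := P) (ρ.l j) ?_
    intro q hq0
    obtain ⟨f, hf, e⟩ := ρ.aeval_mem hJ hj q hq0
    obtain ⟨g, hg1, hg2⟩ := hq f hf
    refine ⟨1 - ρ.l g, hint _ (sub_mem (one_mem _) (hlR0 g)), ?_⟩
    rw [← e]
    exact ρ.inv_of_qr hg1 hg2
  -- finitely many elements of `J`
  have hLfg : (Submodule.span P (ρ.l '' (J : Set B))).FG := by
    refine hfgle _ ?_
    rw [Submodule.span_le]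
    rintro x ⟨j, _, rfl⟩
    exact hR0le (hlR0 j)
  rw [Submodule.fg_span_iff_fg_span_finset_subset] at hLfg
  obtain ⟨s, hs, hspan⟩ := hLfg
  have hch : ∀ e : s, ∃ j ∈ J, ρ.l j = e := fun e => hs e.2
  choose jj hjJ hje using hch
  set a' : s → E := fun e => ρ.l (jj e) with ha'def
  have ha' : ∀ e : s, a' e = e := hje
  have memc' : ∀ x : E, (∀ e, Commute x e) → x ∈ Subring.center E := by
    intro x hx
    rw [Subring.mem_center_iff]
    intro b
    exact (hx b).eq.symm
  obtain ⟨N, hN⟩ := clifford_nil (Z := Subring.center E) a'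
    (fun e => ⟨ρ.t (jj e), memc' _ (ht _)⟩)
    (fun e => ⟨ρ.n (jj e), memc' _ (hn _)⟩)
    (fun e e' => ⟨ρ.n (jj e + jj e'), memc' _ (hn _)⟩ - ⟨ρ.n (jj e), memc' _ (hn _)⟩ -
      ⟨ρ.n (jj e'), memc' _ (hn _)⟩)
    (Subtype.val_injective)
    (fun i => by
      rw [Algebra.smul_def]
      exact ρ.quad (jj i))
    (fun i j => by
      rw [Algebra.smul_def, Algebra.smul_def]
      exact ρ.polar (jj i) (jj j))
    (fun i => hnil _ (hjJ i))
    (fun i j => by
      have := hnil _ (add_mem (hjJ i) (hjJ j))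
      rwa [map_add] at this)
  refine ⟨N, fun js hjs hlen => ?_⟩
  have hrange : Set.range a' = (s : Set E) := by
    ext x
    constructor
    · rintro ⟨e, rfl⟩; rw [ha']; exact e.2
    · intro hx; exact ⟨⟨x, hx⟩, ha' ⟨x, hx⟩⟩
  have hmem := prod_mem_spY (P := P) a' (js.map ρ.l) (by
    intro x hx
    obtain ⟨j, hj, rfl⟩ := List.mem_map.mp hx
    rw [hrange, ← hspan]
    exact Submodule.subset_span ⟨j, hjs j hj, rfl⟩)
  rw [List.length_map, hlen] at hmem
  have hbot : spY P a' N = ⊥ := by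
    rw [spY, Submodule.span_eq_bot]
    rintro x ⟨w, hw, rfl⟩
    exact hN w hw
  rw [hbot, Submodule.mem_bot] at hmem
  exact hmem

/-- The main theorem when traces and norms are central in `E`. -/
theorem nil_central (ht : ∀ b e, Commute (ρ.t b) e) (hn : ∀ b e, Commute (ρ.n b) e)
    (U : Finset B) (hU : ∀ b, ρ.l b ∈ Algebra.adjoin F (ρ.l '' (U : Set B)))
    (J : Submodule F B) (hJ : IsTwoSided J) (hq : ∀ f ∈ J, IsQR f) :
    ∃ N : ℕ, ∀ js : List B, (∀ j ∈ js, j ∈ J) → js.length = N → (js.map ρ.l).prod = 0 := by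
  have memc : ∀ x : E, (∀ e, Commute x e) → x ∈ Subalgebra.center F E := by
    intro x hx
    rw [Subalgebra.mem_center_iff]
    intro b
    exact (hx b).eq.symm
  -- the finitely generated commutative algebra
  set gen : U ⊕ (U ⊕ (U × U)) → Subalgebra.center F E :=
    Sum.elim (fun u => ⟨ρ.t u, memc _ (ht _)⟩) (Sum.elim (fun u => ⟨ρ.n u, memc _ (hn _)⟩)
      (fun p => ⟨ρ.n ((p.1 : B) + p.2), memc _ (hn _)⟩ - ⟨ρ.n p.1, memc _ (hn _)⟩ -
        ⟨ρ.n p.2, memc _ (hn _)⟩)) with hgen_def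
  let ψ : MvPolynomial (U ⊕ (U ⊕ (U × U))) F →ₐ[F] E :=
    (Subalgebra.center F E).val.comp (MvPolynomial.aeval gen)
  have hψ : ∀ c x, ψ c * x = x * ψ c := by
    intro c x
    exact ((Subalgebra.mem_center_iff.mp ((MvPolynomial.aeval gen) c).2) x).symm
  have hgen : ∀ k, ψ (MvPolynomial.X k) = (gen k : E) := by
    intro k
    change ((MvPolynomial.aeval gen (MvPolynomial.X k) : Subalgebra.center F E) : E) = _
    rw [MvPolynomial.aeval_X]
  letI algP : Algebra (MvPolynomial (U ⊕ (U ⊕ (U × U))) F) E :=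
    RingHom.toAlgebra' ψ.toRingHom hψ
  haveI : IsScalarTower F (MvPolynomial (U ⊕ (U ⊕ (U × U))) F) E := by
    apply IsScalarTower.of_algebraMap_eq
    intro x
    change _ = ψ (algebraMap F _ x)
    rw [AlgHom.commutes]
  exact ρ.nil_central_aux ht hn U hU J hJ hq (MvPolynomial (U ⊕ (U ⊕ (U × U))) F)
    (fun u => MvPolynomial.X (Sum.inl u)) (fun u => MvPolynomial.X (Sum.inr (Sum.inl u)))
    (fun u v => MvPolynomial.X (Sum.inr (Sum.inr (u, v))))
    (fun u => hgen _) (fun u => hgen _) (fun u v => hgen _)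

end central

section general

variable {F : Type*} [Field F] {B : Type*} [NonUnitalNonAssocRing B] [Module F B]
  [IsAlt B] {E : Type*} [Ring E] [Algebra F E] (ρ : ClRep F B E)

/-- **Main theorem of this file.** -/
theorem nil (U : Finset B) (hU : ∀ b, ρ.l b ∈ Algebra.adjoin F (ρ.l '' (U : Set B)))
    (J : Submodule F B) (hJ : IsTwoSided J) (hq : ∀ f ∈ J, IsQR f) :
    ∃ N : ℕ, ∀ js : List B, (∀ j ∈ js, j ∈ J) → js.length = N → (js.map ρ.l).prod = 0 := by
  set C : Set E := Set.range ρ.t ∪ Set.range ρ.n with hC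
  set E' : Subalgebra F E := Subalgebra.centralizer F C with hE'
  have memE : ∀ x : E, (∀ b, Commute (ρ.t b) x) → (∀ b, Commute (ρ.n b) x) → x ∈ E' := by
    intro x h1 h2
    rw [hE', Subalgebra.mem_centralizer_iff]
    rintro g (⟨b, rfl⟩ | ⟨b, rfl⟩)
    · exact (h1 b).eq
    · exact (h2 b).eq
  have hl : ∀ b, ρ.l b ∈ E' := fun b => memE _ (fun c => ρ.t_l c b) (fun c => ρ.n_l c b)
  have ht : ∀ b, ρ.t b ∈ E' := fun b => memE _ (fun c => ρ.t_t c b) (fun c => ρ.n_t c b)
  have hn : ∀ b, ρ.n b ∈ E' := fun b => memE _ (fun c => (ρ.n_t b c).symm) (fun c => ρ.n_n c b)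
  have hcomm : ∀ x ∈ C, ∀ e ∈ E', x * e = e * x := by
    intro x hx e he
    rw [hE', Subalgebra.mem_centralizer_iff] at he
    exact he x hx
  let ρ' : ClRep F B E' :=
    { l := ρ.l.codRestrict (Subalgebra.toSubmodule E') hl
      t := ρ.t.codRestrict (Subalgebra.toSubmodule E') ht
      n := fun b => ⟨ρ.n b, hn b⟩
      l_sq := fun b => Subtype.ext (ρ.l_sq b)
      l_U := fun b c => Subtype.ext (ρ.l_U b c)
      quad := fun b => Subtype.ext (ρ.quad b)
      t_l := fun b c => Subtype.ext (ρ.t_l b c)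
      t_t := fun b c => Subtype.ext (ρ.t_t b c)
      n_l := fun b c => Subtype.ext (ρ.n_l b c) }
  have hl' : ∀ b, ((ρ'.l b : E') : E) = ρ.l b := fun b => rfl
  obtain ⟨N, hN⟩ := ρ'.nil_central
    (fun b e => Subtype.ext (hcomm _ (Or.inl ⟨b, rfl⟩) e e.2))
    (fun b e => Subtype.ext (hcomm _ (Or.inr ⟨b, rfl⟩) e e.2))
    U (by
      intro b
      have h := hU b
      -- transport along the inclusion
      have himg : E'.val '' (ρ'.l '' (U : Set B)) = ρ.l '' (U : Set B) := by
        rw [Set.image_image]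
        rfl
      rw [← himg, ← AlgHom.map_adjoin] at h
      obtain ⟨x, hx, e⟩ := h
      have : x = ρ'.l b := Subtype.ext e
      rwa [this] at hx)
    J hJ hq
  refine ⟨N, fun js hjs hlen => ?_⟩
  have h := hN js hjs hlen
  have h2 := congrArg (E'.val) h
  rw [map_list_prod, List.map_map, map_zero] at h2
  exact h2

end general

end ClRep

end ALT
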