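import Pool.Agent.ALT.S6a
import Pool.Agent.ALT.S6nD
import Pool.Agent.ALT.S5b
import Pool.Agent.ALT.L1c0

/-!
# Project ALT (MP_643ad6_al), Step 6b: the machine gives a quadratic representation (helper6)
-/

set_option autoImplicit false
set_option linter.unusedSectionVars false

namespace ALT

namespace Mach

variable {F B S : Type*} [Field F] [NonUnitalNonAssocRing B] [Module F B]
  [IsScalarTower F B B] [SMulCommClass F B B] [IsAlt B] (m : Mach F B S)

theorem Lop_add (b c : B) : Lop (F := F) S (b + c) = Lop S b + Lop S c := by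
  ext f d; simp only [Lop_apply, LinearMap.add_apply, Pi.add_apply, add_mul]
theorem Lop_smul (r : F) (b : B) : Lop (F := F) S (r • b) = r • Lop S b := by
  ext f d; simp only [Lop_apply, LinearMap.smul_apply, Pi.smul_apply, smul_mul_assoc]

/-- the left multiplications restricted to `M` -/
def lR : B →ₗ[F] Module.End F m.M where
  toFun b := (Lop S b).restrict (m.Lop_mem b)
  map_add' b c := by
    ext x : 2
    show Lop (F := F) S (b + c) x = _
    rw [Lop_add]; rfl
  map_smul' r b := by
    ext x : 2
    show Lop (F := F) S (r • b) x = _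
    rw [Lop_smul]; rfl

theorem lR_coe (b : B) (x : m.M) : ((m.lR b x : m.M) : S × Option B → B) = Lop (F := F) S b x := rfl

theorem zz_add (p : S) (b c : B) : m.zz (p, some (b + c)) = m.zz (p, some b) + m.zz (p, some c) :=
  map_add _ _ _
theorem zz_smul (p : S) (r : F) (b : B) : m.zz (p, some (r • b)) = r • m.zz (p, some b) :=
  map_smul _ _ _

/-- `Top` is additive in `b` on `M` -/
theorem Top_add (b c : B) : ∀ x ∈ m.M, Top (F := F) S (b + c) x =
    Top (F := F) S b x + Top (F := F) S c x := by
  rintro _ ⟨e, he, rfl⟩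
  ext ⟨p, _ | w⟩
  · simp only [Top_none, fe_apply, Pi.add_apply, zz_add, add_mul]
  · simp only [Top_some, fe_apply, Pi.add_apply, zz_add, add_mul, mul_add]; abel

theorem Top_smul (r : F) (b : B) : ∀ x ∈ m.M, Top (F := F) S (r • b) x =
    r • Top (F := F) S b x := by
  rintro _ ⟨e, he, rfl⟩
  ext ⟨p, _ | w⟩
  · simp only [Top_none, fe_apply, Pi.smul_apply, zz_smul, smul_mul_assoc]
  · simp only [Top_some, fe_apply, Pi.smul_apply, zz_smul, smul_mul_assoc, mul_smul_comm,
      ← smul_add, ← smul_sub]

/-- the traces restricted to `M` -/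
def tR : B →ₗ[F] Module.End F m.M where
  toFun b := (Top S b).restrict (m.Top_mem b)
  map_add' b c := by
    ext x : 2
    show Top (F := F) S (b + c) x = _
    rw [m.Top_add b c x x.2]; rfl
  map_smul' r b := by
    ext x : 2
    show Top (F := F) S (r • b) x = _
    rw [m.Top_smul r b x x.2]; rfl

theorem tR_coe (b : B) (x : m.M) : ((m.tR b x : m.M) : S × Option B → B) = Top (F := F) S b x := rfl

/-- the quadratic representation of the machine -/
def rep : ClRep F B (Module.End F m.M) where
  l := m.lR
  t := m.tR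
  n b := m.tR b * m.lR b - m.lR b * m.lR b
  l_sq b := by
    ext x : 2
    rw [Module.End.mul_apply, lR_coe, lR_coe, lR_coe]
    ext d
    rw [Lop_apply, Lop_apply, Lop_apply, IsAlt.left]
  l_U b c := by
    ext x : 2
    rw [Module.End.mul_apply, Module.End.mul_apply, lR_coe, lR_coe, lR_coe, lR_coe]
    ext d
    rw [Lop_apply, Lop_apply, Lop_apply, Lop_apply, moufang_left]
  quad b := by abel
  t_l b c := by
    apply LinearMap.ext
    intro x
    apply Subtype.ext
    exact m.Top_Lop b c x x.2
  t_t b c := by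
    apply LinearMap.ext
    intro x
    apply Subtype.ext
    exact m.Top_Top b c x x.2
  n_l b c := by
    apply LinearMap.ext
    intro x
    apply Subtype.ext
    exact m.Nop_Lop b c x x.2

theorem prod_lR (js : List B) (e : B) (he : m.fe e ∈ m.M) :
    (((js.map m.lR).prod ⟨m.fe e, he⟩ : m.M) : S × Option B → B) = m.fe (ALT.ln js e) := by
  induction js with
  | nil => rfl
  | cons j js ih =>
    rw [List.map_cons, List.prod_cons, Module.End.mul_apply, lR_coe, ih, Lop_fe, ln_cons]

/-- **Step 6**: an ideal of quasi-regular elements acts nilpotently on the products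
`z z k k' c`. -/
theorem step6 (U : Finset B) (hU : ∀ b, m.lR b ∈ Algebra.adjoin F (m.lR '' (U : Set B)))
    (J : Submodule F B) (hJ : IsTwoSided J) (hq : ∀ f ∈ J, IsQR f) :
    ∃ N : ℕ, ∀ js : List B, (∀ j ∈ js, j ∈ J) → js.length = N →
      ∀ (d d' : S × Option B) (s s' : S) (c : B),
        m.zz d' * (m.zz d * (m.k s * (m.k s' * ALT.ln js c))) = 0 := by
  obtain ⟨N, hN⟩ := m.rep.nil U hU J hJ hq
  refine ⟨N, fun js hjs hlen d d' s s' c => ?_⟩
  have h1 := hN js hjs hlen
  have he : m.fe (m.zz d * (m.k s * (m.k s' * c))) ∈ m.M := ⟨_, m.zz_mem d s s' c, rfl⟩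
  have h2 := m.prod_lR js _ he
  have h3 : (js.map m.lR).prod = 0 := h1
  rw [h3] at h2
  have h4 := congrFun h2 d'
  rw [fe_apply, (m.cen_zz d).ln, (m.cen_k s).ln, (m.cen_k s').ln] at h4
  exact h4.symm

end Mach

/-- the machine of an algebra with the identities `QI` -/
def machOf (F : Type*) {B : Type*} [Field F] [NonUnitalNonAssocRing B] [Module F B]
    [IsScalarTower F B B] [SMulCommClass F B B] [IsAlt B] (hQ : QI B) :
    Mach F B (B × B × B) where
  k s := kap s.1 s.2.1 s.2.2
  z s :=
    { toFun := fun w => zet s.1 s.2.1 s.2.2 w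
      map_add' := fun x y => by
        simp only [zet, jo_def, mul_add, add_mul, com_add_left]; abel
      map_smul' := fun r x => by
        simp only [zet, jo_def, mul_smul_comm, smul_mul_assoc, ← smul_add, com_smul_left,
          RingHom.id_apply] }
  cen_k s := hQ.cen_kap _ _ _
  cen_z s b := hQ.cen_zet _ _ _ _
  cen_n s b := hQ.cen_nuu _ _ _ _
  exch s s' b := hQ.exch _ _ _ _ _ _ _
  exch2 s s' b w := by
    have h := hQ.mul s.1 s.2.1 s.2.2 s'.1 s'.2.1 s'.2.2 b w
    exact h

end ALT
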