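import Mathlib

/-!
Clifford straightening: words in finitely many letters with `a_i² ≡ 0`, `a_i a_j + a_j a_i ≡ 0`
modulo shorter words; finiteness of the generated algebra.
(helper26, project ALT, MP_643ad6_al)
-/

set_option linter.unusedSectionVars false

namespace ALT

section word

variable {E : Type*} [Ring E] {ι : Type*} (a : ι → E)

/-- the value of a word -/
def wv (w : List ι) : E := (w.map a).prod

@[simp] theorem wv_nil : wv a [] = 1 := rfl
@[simp] theorem wv_cons (i : ι) (w : List ι) : wv a (i :: w) = a i * wv a w := by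
  simp [wv]
@[simp] theorem wv_append (u w : List ι) : wv a (u ++ w) = wv a u * wv a w := by
  simp [wv]

/-- A word with a repeated letter is in `X`. -/
theorem clifford_rep (X : ℕ → AddSubgroup E)
    (h1 : ∀ (u z : List ι) (i : ι), wv a u * (a i * a i) * wv a z ∈ X (u.length + z.length + 2))
    (h2 : ∀ (u z : List ι) (i j : ι), wv a u * (a i * a j + a j * a i) * wv a z ∈
      X (u.length + z.length + 2))
    (i : ι) (v : List ι) : ∀ (u z : List ι),
      wv a (u ++ i :: (v ++ i :: z)) ∈ X (u ++ i :: (v ++ i :: z)).length := by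
  induction v with
  | nil =>
    intro u z
    have := h1 u z i
    have e : (u ++ i :: ([] ++ i :: z)).length = u.length + z.length + 2 := by
      simp; omega
    rw [e]
    have e2 : wv a (u ++ i :: ([] ++ i :: z)) = wv a u * (a i * a i) * wv a z := by
      simp [mul_assoc]
    rw [e2]
    exact this
  | cons b v ih =>
    intro u z
    have k1 := h2 u (v ++ i :: z) i b
    have k2 := ih (u ++ [b]) z
    have e : (u ++ i :: (b :: v ++ i :: z)).length = u.length + (v ++ i :: z).length + 2 := by
      simp; omega
    have e' : (u ++ [b] ++ i :: (v ++ i :: z)).length = u.length + (v ++ i :: z).length + 2 := by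
      simp; omega
    rw [e]
    rw [e'] at k2
    have e2 : wv a (u ++ i :: (b :: v ++ i :: z)) =
        wv a u * (a i * a b + a b * a i) * wv a (v ++ i :: z) -
          wv a (u ++ [b] ++ i :: (v ++ i :: z)) := by
      simp only [wv_append, wv_cons, wv_nil, List.cons_append, mul_one]
      noncomm_ring
    rw [e2]
    exact sub_mem k1 k2

theorem exists_rep [Fintype ι] (w : List ι) (hw : Fintype.card ι < w.length) :
    ∃ (i : ι) (u v z : List ι), w = u ++ i :: (v ++ i :: z) := by
  have h : ¬ w.Nodup := fun h => absurd (h.length_le_card) (by omega)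
  rw [List.nodup_iff_sublist] at h
  push Not at h
  obtain ⟨i, hi⟩ := h
  -- `[i, i] <+ w`
  obtain ⟨u, w', rfl, hw1⟩ : ∃ u w', w = u ++ i :: w' ∧ List.Sublist [i] w' := by
    rw [List.cons_sublist_iff] at hi
    obtain ⟨r1, r2, rfl, h1, h2⟩ := hi
    obtain ⟨s, t, rfl⟩ := List.append_of_mem h1
    refine ⟨s, t ++ r2, by simp, ?_⟩
    exact h2.trans (List.sublist_append_right _ _)
  rw [List.singleton_sublist] at hw1
  obtain ⟨v, z, rfl⟩ := List.append_of_mem hw1
  exact ⟨i, u, v, z, rfl⟩

/-- A word longer than the number of letters is in `X`. -/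
theorem clifford_word [Fintype ι] (X : ℕ → AddSubgroup E)
    (h1 : ∀ (u z : List ι) (i : ι), wv a u * (a i * a i) * wv a z ∈ X (u.length + z.length + 2))
    (h2 : ∀ (u z : List ι) (i j : ι), wv a u * (a i * a j + a j * a i) * wv a z ∈
      X (u.length + z.length + 2))
    (w : List ι) (hw : Fintype.card ι < w.length) : wv a w ∈ X w.length := by
  obtain ⟨i, u, v, z, rfl⟩ := exists_rep w hw
  exact clifford_rep a X h1 h2 i v u z

end word

section fin

variable {P E : Type*} [CommRing P] [Ring E] [Algebra P E] {ι : Type*} (a : ι → E)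

variable (P) in
/-- span of the words of length at most `k` -/
def spW (k : ℕ) : Submodule P E :=
  Submodule.span P {x | ∃ w : List ι, w.length ≤ k ∧ x = wv a w}

theorem wv_mem_spW {w : List ι} {k : ℕ} (h : w.length ≤ k) : wv a w ∈ spW P a k :=
  Submodule.subset_span ⟨w, h, rfl⟩

theorem spW_mono {k m : ℕ} (h : k ≤ m) : spW P a k ≤ spW P a m :=
  Submodule.span_mono fun _ ⟨w, hw, e⟩ => ⟨w, hw.trans h, e⟩

theorem spW_mul {k m : ℕ} {x y : E} (hx : x ∈ spW P a k) (hy : y ∈ spW P a m) :
    x * y ∈ spW P a (k + m) := by
  unfold spW at hx hy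
  induction hx using Submodule.span_induction with
  | mem x hx =>
    obtain ⟨u, hu, rfl⟩ := hx
    induction hy using Submodule.span_induction with
    | mem y hy =>
      obtain ⟨w, hw, rfl⟩ := hy
      rw [← wv_append]
      exact wv_mem_spW a (by rw [List.length_append]; omega)
    | zero => rw [mul_zero]; exact zero_mem _
    | add y z _ _ hy hz => rw [mul_add]; exact add_mem hy hz
    | smul c y _ hy => rw [mul_smul_comm]; exact Submodule.smul_mem _ _ hy
  | zero => rw [zero_mul]; exact zero_mem _
  | add y z _ _ hy hz => rw [add_mul]; exact add_mem hy hz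
  | smul c y _ hy => rw [smul_mul_assoc]; exact Submodule.smul_mem _ _ hy

theorem spW_fg [Finite ι] (k : ℕ) : (spW P a k).FG := by
  refine Submodule.fg_span ?_
  have : {x : E | ∃ w : List ι, w.length ≤ k ∧ x = wv a w} =
      (wv a) '' {w : List ι | w.length ≤ k} := by
    ext x
    constructor
    · rintro ⟨w, hw, rfl⟩; exact ⟨w, hw, rfl⟩
    · rintro ⟨w, hw, rfl⟩; exact ⟨w, hw, rfl⟩
  rw [this]
  exact (List.finite_length_le ι k).image _

variable [Fintype ι] (h1 : ∀ i, a i * a i ∈ spW P a 1)
  (h2 : ∀ i j, a i * a j + a j * a i ∈ spW P a 1)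

include h1 h2 in
theorem wv_mem_spW_card (w : List ι) : wv a w ∈ spW P a (Fintype.card ι) := by
  -- strong induction on the length
  have key : ∀ n : ℕ, ∀ w : List ι, w.length = n → wv a w ∈ spW P a (Fintype.card ι) := by
    intro n
    induction n using Nat.strong_induction_on with
    | _ n ih =>
      intro w hw
      rcases le_or_gt w.length (Fintype.card ι) with hle | hlt
      · exact wv_mem_spW a hle
      · have hX : ∀ m : ℕ, m < n → spW P a m ≤ spW P a (Fintype.card ι) := by
          intro m hm
          unfold spW
          rw [Submodule.span_le]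
          rintro x ⟨w', hw', rfl⟩
          exact ih w'.length (by omega) w' rfl
        have hc := clifford_word a (fun m => (spW P a (m - 1)).toAddSubgroup)
          (fun u z i => by
            have e1 := spW_mul a (spW_mul a (wv_mem_spW (P := P) a le_rfl : wv a u ∈ _) (h1 i))
              (wv_mem_spW (P := P) a le_rfl : wv a z ∈ _)
            have e2 : u.length + 1 + z.length ≤ u.length + z.length + 2 - 1 := by omega
            exact spW_mono a e2 e1)
          (fun u z i j => by
            have e1 := spW_mul a (spW_mul a (wv_mem_spW (P := P) a le_rfl : wv a u ∈ _) (h2 i j))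
              (wv_mem_spW (P := P) a le_rfl : wv a z ∈ _)
            have e2 : u.length + 1 + z.length ≤ u.length + z.length + 2 - 1 := by omega
            exact spW_mono a e2 e1) w hlt
        exact hX (w.length - 1) (by omega) hc
  exact key _ w rfl

include h1 h2 in
/-- The algebra generated by Clifford-like letters is a finite module. -/
theorem adjoin_le_spW : Subalgebra.toSubmodule (Algebra.adjoin P (Set.range a)) ≤
    spW P a (Fintype.card ι) := by
  have hall : ∀ k, spW P a k ≤ spW P a (Fintype.card ι) := by
    intro k
    unfold spW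
    rw [Submodule.span_le]
    rintro x ⟨w', hw', rfl⟩
    exact wv_mem_spW_card a h1 h2 w'
  intro x hx
  rw [Subalgebra.mem_toSubmodule] at hx
  induction hx using Algebra.adjoin_induction with
  | mem x hx =>
    obtain ⟨i, rfl⟩ := hx
    have : a i = wv a [i] := by simp
    rw [this]
    exact wv_mem_spW_card a h1 h2 [i]
  | algebraMap r =>
    rw [Algebra.algebraMap_eq_smul_one]
    exact Submodule.smul_mem _ _ (wv_mem_spW_card a h1 h2 [])
  | add x y _ _ hx hy => exact add_mem hx hy
  | mul x y _ _ hx hy => exact hall _ (spW_mul a hx hy)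

end fin

end ALT
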